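import Pool.Agent.Helper8.Model

/-!
The components of the structure `AbVar`.
-/

open scoped ComplexConjugate

namespace Pool.Agent.GPC

lemma fderiv_eq_sum_pd {g : ℕ} (f : (Fin g → ℂ) → ℂ) (z v : Fin g → ℂ) :
    fderiv ℂ f z v = ∑ a, v a * pd a f z := by
  have h : v = ∑ a, v a • (Pi.single a (1 : ℂ) : Fin g → ℂ) := by
    funext j
    simp [Finset.sum_apply, Pi.single_apply]
  conv_lhs => rw [h]
  rw [map_sum]
  refine Finset.sum_congr rfl fun a _ => ?_
  rw [map_smul, smul_eq_mul]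
  rfl

namespace AbVar

variable (A : AbVar)

theorem discrete : DiscreteTopology A.Λ := A.lattice.discrete

theorem spans : Submodule.span ℝ (A.Λ : Set (Fin A.g → ℂ)) = ⊤ := A.lattice.spans

theorem H_herm : A.H.IsHermitian := A.appellHumbert.herm

theorem H_pos : ∀ z, z ≠ 0 → 0 < (hermForm A.H z z).re := A.appellHumbert.pos

theorem integral : ∀ l ∈ A.Λ, ∀ m ∈ A.Λ, ∃ n : ℤ, (hermForm A.H l m).im = n :=
  A.appellHumbert.integral

theorem χ_norm : ∀ l ∈ A.Λ, ‖A.χ l‖ = 1 := A.appellHumbert.norm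

theorem χ_add : ∀ l ∈ A.Λ, ∀ m ∈ A.Λ,
    A.χ (l + m) = A.χ l * A.χ m * Complex.exp (Real.pi * Complex.I * (hermForm A.H l m).im) :=
  A.appellHumbert.add

theorem entire : ∀ i, AnalyticOnNhd ℂ (A.θ i) Set.univ := fun i => (A.theta i).entire

theorem quasi : ∀ i, ∀ l ∈ A.Λ, ∀ z, A.θ i (z + l) = A.χ l *
    Complex.exp (Real.pi * hermForm A.H z l + Real.pi / 2 * hermForm A.H l l
      + bilForm A.q z l + 1 / 2 * bilForm A.q l l) * A.θ i z := fun i => (A.theta i).quasi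

theorem base_free : ∀ z, ∃ i, A.θ i z ≠ 0 := A.embedding.base_free

theorem separates : ∀ z w, (∀ i j, A.θ i z * A.θ j w = A.θ j z * A.θ i w) → z - w ∈ A.Λ :=
  A.embedding.separates

theorem immersive : ∀ z v, (∀ i j, A.θ i z * fderiv ℂ (A.θ j) z v =
    A.θ j z * fderiv ℂ (A.θ i) z v) → v = 0 := by
  intro z v h
  refine A.embedding.immersive z v fun i j => ?_
  rw [← fderiv_eq_sum_pd, ← fderiv_eq_sum_pd]
  exact h i j

theorem wronskian : ∀ a i j, ∃ Q : MvPolynomial (Fin (A.N + 1)) ℂ, IsAlgQuadratic Q ∧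
    ∀ z, A.θ i z * pd a (A.θ j) z - A.θ j z * pd a (A.θ i) z =
      MvPolynomial.eval (fun k => A.θ k z) Q := A.algebraic.wronskian

theorem second : ∀ a b i, ∃ Q : MvPolynomial (Fin (A.N + 1)) ℂ, IsAlgQuadratic Q ∧
    ∀ z, A.θ i z * pd a (pd b (A.θ i)) z - pd a (A.θ i) z * pd b (A.θ i) z =
      MvPolynomial.eval (fun k => A.θ k z) Q := A.algebraic.second

theorem origin : ∀ i j, A.θ i 0 ≠ 0 → IsAlgebraic ℚ (A.θ j 0 / A.θ i 0) := A.algebraic.origin

end AbVar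

end Pool.Agent.GPC
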