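import Mathlib

/-!
Density dichotomy for complex subspaces modulo a lattice.
-/

open Filter Topology

namespace Pool.Agent.GPC

lemma density_dichotomy {E : Type*} [NormedAddCommGroup E] [NormedSpace ℂ E] [NormedSpace ℝ E]
    [IsScalarTower ℝ ℂ E] [FiniteDimensional ℂ E] [FiniteDimensional ℝ E] (L : AddSubgroup E)
    {R : ℝ} (hR : ∀ z : E, ∃ l ∈ L, ‖z - l‖ ≤ R) (P : Submodule ℂ E) :
    (∀ v ∈ P, v ∈ Submodule.span ℝ {l : E | l ∈ L ∧ l ∈ P}) ∨
    ∃ w, w ∉ P ∧ ∀ v ∈ P, ∀ t : ℝ,
      v + (t : ℂ) • w ∈ closure {z | ∃ v' ∈ P, ∃ l ∈ L, z = v' + l} := by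
  have hpc : ProperSpace E := FiniteDimensional.proper ℂ E
  obtain ⟨Q, hQ⟩ := Submodule.exists_isCompl P
  set q0 : E →ₗ[ℂ] E := Q.subtype.comp (Submodule.linearProjOfIsCompl Q P hQ.symm) with hq0
  set q : E →L[ℂ] E := LinearMap.toContinuousLinearMap q0 with hq
  have hqP : ∀ v, q v = 0 ↔ v ∈ P := by
    intro v
    have h1 : q v = Q.subtype (Submodule.linearProjOfIsCompl Q P hQ.symm v) := rfl
    rw [h1]
    rw [Submodule.subtype_apply, ZeroMemClass.coe_eq_zero]
    exact Submodule.linearProjOfIsCompl_apply_eq_zero_iff hQ.symm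
  have hqq : ∀ v, q (q v) = q v := by
    intro v
    have h1 : q v = ((Submodule.linearProjOfIsCompl Q P hQ.symm v : Q) : E) := rfl
    have h2 : q (q v) = ((Submodule.linearProjOfIsCompl Q P hQ.symm
      ((Submodule.linearProjOfIsCompl Q P hQ.symm v : Q) : E) : Q) : E) := rfl
    have h3 := Submodule.linearProjOfIsCompl_apply_left hQ.symm
      (Submodule.linearProjOfIsCompl Q P hQ.symm v)
    rw [h2, h1]
    exact congrArg Subtype.val h3
  have hsubP : ∀ v, v - q v ∈ P := by
    intro v
    rw [← hqP, map_sub, hqq, sub_self]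
  by_cases hcase : ∀ ε > 0, ∃ m ∈ L, q m ≠ 0 ∧ ‖q m‖ < ε
  · right
    have hseq : ∀ k : ℕ, ∃ m ∈ L, q m ≠ 0 ∧ ‖q m‖ < 1 / ((k : ℝ) + 1) := fun k =>
      hcase _ (by positivity)
    choose m hmL hm0 hmlt using hseq
    set d : ℕ → ℝ := fun k => ‖q (m k)‖ with hd
    have hdpos : ∀ k, 0 < d k := fun k => norm_pos_iff.mpr (hm0 k)
    set e : ℕ → E := fun k => ((d k : ℂ)⁻¹) • q (m k) with he
    have hes : ∀ k, e k ∈ Metric.sphere (0 : E) 1 := by
      intro k
      rw [mem_sphere_zero_iff_norm, he]
      simp only [norm_smul, norm_inv, Complex.norm_real]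
      rw [Real.norm_of_nonneg (hdpos k).le]
      exact inv_mul_cancel₀ (hdpos k).ne'
    obtain ⟨w, hw, f, hf, hfw⟩ := (isCompact_sphere (0 : E) 1).tendsto_subseq hes
    have hqw : q w = w := by
      have h1 : Tendsto (fun k => q ((e ∘ f) k)) atTop (𝓝 (q w)) :=
        (q.continuous.tendsto w).comp hfw
      have h2 : (fun k => q ((e ∘ f) k)) = e ∘ f := by
        funext k
        simp only [he, Function.comp_apply, map_smul, hqq]
      rw [h2] at h1
      exact tendsto_nhds_unique h1 hfw
    refine ⟨w, ?_, ?_⟩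
    · intro hwP
      have h1 := (hqP w).mpr hwP
      rw [hqw] at h1
      rw [mem_sphere_zero_iff_norm, h1, norm_zero] at hw
      exact zero_ne_one hw
    · intro v hv t
      have hd0 : Tendsto (fun k => d (f k)) atTop (𝓝 0) := by
        have h1 : Tendsto (fun k : ℕ => 1 / ((k : ℝ) + 1)) atTop (𝓝 0) :=
          tendsto_one_div_add_atTop_nhds_zero_nat
        have h2 := h1.comp hf.tendsto_atTop
        exact squeeze_zero (fun k => (hdpos _).le) (fun k => (hmlt (f k)).le) h2
      set n : ℕ → ℤ := fun k => round (t / d (f k)) with hn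
      have hnt : Tendsto (fun k => (n k : ℝ) * d (f k)) atTop (𝓝 t) := by
        have h1 : ∀ k, |(n k : ℝ) * d (f k) - t| ≤ d (f k) := by
          intro k
          have h2 := abs_sub_round (t / d (f k))
          have h3 : (n k : ℝ) * d (f k) - t = -((t / d (f k)) - n k) * d (f k) := by
            have := (hdpos (f k)).ne'
            field_simp
            ring
          rw [h3, abs_mul, abs_neg, abs_of_pos (hdpos (f k))]
          have h4 := hdpos (f k)
          nlinarith
        rw [tendsto_iff_dist_tendsto_zero]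
        exact squeeze_zero (fun _ => dist_nonneg) h1 hd0
      have hlim : Tendsto (fun k => v + ((n k : ℂ)) • q (m (f k))) atTop
          (𝓝 (v + (t : ℂ) • w)) := by
        have h1 : ∀ k, ((n k : ℂ)) • q (m (f k)) =
            (((n k : ℝ) * d (f k) : ℝ) : ℂ) • e (f k) := by
          intro k
          have h2 : ((d (f k) : ℝ) : ℂ) ≠ 0 := by exact_mod_cast (hdpos (f k)).ne'
          simp only [he, smul_smul]
          congr 1
          push_cast
          field_simp
        have h3 : Tendsto (fun k => (((n k : ℝ) * d (f k) : ℝ) : ℂ)) atTop (𝓝 (t : ℂ)) :=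
          (Complex.continuous_ofReal.tendsto t).comp hnt
        have h4 := h3.smul hfw
        have h5 := h4.const_add v
        refine h5.congr fun k => ?_
        rw [h1 k]; rfl
      refine mem_closure_of_tendsto hlim (Eventually.of_forall fun k => ?_)
      refine ⟨v - (n k : ℂ) • (m (f k) - q (m (f k))),
        P.sub_mem hv (P.smul_mem _ (hsubP _)), n k • m (f k), L.zsmul_mem (hmL _) _, ?_⟩
      have : (n k : ℂ) • m (f k) = n k • m (f k) := by
        rw [Int.cast_smul_eq_zsmul]
      rw [smul_sub, this]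
      abel
  · left
    push Not at hcase
    obtain ⟨ε, hε, hεm⟩ := hcase
    intro v hv
    set C : ℝ := ‖q‖ + 1 with hC
    have hCpos : 0 < C := by positivity
    have hqC : ∀ z, ‖q z‖ ≤ C * ‖z‖ := by
      intro z
      have h1 := q.le_opNorm z
      have h2 : ‖q‖ * ‖z‖ ≤ C * ‖z‖ := by
        gcongr; linarith
      exact h1.trans h2
    choose l hlL hlR using hR
    set y : ℕ → E := fun n => (n : ℂ) • v - l ((n : ℂ) • v) with hy
    have hyc : ∀ n, y n ∈ Metric.closedBall (0 : E) R := fun n => by
      simpa using hlR ((n : ℂ) • v)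
    obtain ⟨y0, _, f, hf, hfy⟩ := (isCompact_closedBall (0 : E) R).tendsto_subseq hyc
    obtain ⟨N, hN⟩ := Metric.cauchySeq_iff.mp hfy.cauchySeq (ε / C) (by positivity)
    set Y := Submodule.span ℝ {l : E | l ∈ L ∧ l ∈ P} with hY
    set m : ℕ → E := fun k => l ((f (N + k + 1) : ℂ) • v) - l ((f N : ℂ) • v) with hm
    have hmeq : ∀ k, m k = ((f (N + k + 1) : ℂ) - f N) • v - (y (f (N + k + 1)) - y (f N)) := by
      intro k
      simp only [hm, hy, sub_smul]
      abel
    have hmP : ∀ k, m k ∈ P := by
      intro k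
      by_contra hne
      have h1 : q (m k) ≠ 0 := fun h => hne ((hqP _).mp h)
      have h2 := hεm (m k) (L.sub_mem (hlL _) (hlL _)) h1
      have h3 : q (m k) = - q (y (f (N + k + 1)) - y (f N)) := by
        rw [hmeq, map_sub, map_smul, (hqP v).mpr hv, smul_zero, zero_sub]
      have h4 := hN (N + k + 1) (by omega) N le_rfl
      rw [dist_eq_norm] at h4
      simp only [Function.comp_apply] at h4
      rw [h3, norm_neg] at h2
      have h5 := hqC (y (f (N + k + 1)) - y (f N))
      have h6 : C * ‖y (f (N + k + 1)) - y (f N)‖ < C * (ε / C) := by gcongr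
      have h7 : C * (ε / C) = ε := by field_simp
      linarith
    have hmY : ∀ k, m k ∈ Y := fun k =>
      Submodule.subset_span ⟨L.sub_mem (hlL _) (hlL _), hmP k⟩
    set s : ℕ → ℝ := fun k => (f (N + k + 1) : ℝ) - f N with hs
    have hspos : ∀ k, 0 < s k := by
      intro k
      have h1 : f N < f (N + k + 1) := hf (by omega)
      have h2 : (f N : ℝ) < f (N + k + 1) := by exact_mod_cast h1
      simp only [hs]; linarith
    have hslim : Tendsto s atTop atTop := by
      have h1 : Tendsto (fun k => (f (N + k + 1) : ℝ)) atTop atTop := by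
        have h2 : Tendsto (fun k => N + k + 1) atTop atTop :=
          tendsto_atTop_mono (fun k => by change k ≤ N + k + 1; omega) tendsto_id
        exact tendsto_natCast_atTop_atTop.comp (hf.tendsto_atTop.comp h2)
      exact tendsto_atTop_add_const_right _ _ h1
    have hclosed : IsClosed (Y : Set E) := Submodule.closed_of_finiteDimensional Y
    have hlim : Tendsto (fun k => (s k)⁻¹ • m k) atTop (𝓝 v) := by
      have h1 : ∀ k, (s k)⁻¹ • m k = v - (s k)⁻¹ • (y (f (N + k + 1)) - y (f N)) := by
        intro k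
        rw [hmeq, smul_sub]
        congr 1
        have h2 : ((f (N + k + 1) : ℂ) - f N) • v = s k • v := by
          have h3 : ((f (N + k + 1) : ℂ) - f N) = ((s k : ℝ) : ℂ) := by
            simp only [hs]; push_cast; ring
          rw [h3]
          exact (RCLike.real_smul_eq_coe_smul (K := ℂ) (s k) v).symm
        rw [h2, smul_smul, inv_mul_cancel₀ (hspos k).ne', one_smul]
      have h2 : Tendsto (fun k => (s k)⁻¹ • (y (f (N + k + 1)) - y (f N))) atTop (𝓝 0) := by
        apply squeeze_zero_norm (a := fun k => (s k)⁻¹ * (2 * R))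
        · intro k
          rw [norm_smul, Real.norm_of_nonneg (inv_nonneg.mpr (hspos k).le)]
          apply mul_le_mul_of_nonneg_left _ (inv_nonneg.mpr (hspos k).le)
          have h3 := hyc (f (N + k + 1))
          have h4 := hyc (f N)
          rw [mem_closedBall_zero_iff] at h3 h4
          calc ‖y (f (N + k + 1)) - y (f N)‖ ≤ ‖y (f (N + k + 1))‖ + ‖y (f N)‖ := norm_sub_le _ _
            _ ≤ 2 * R := by linarith
        · have h5 := (tendsto_inv_atTop_zero.comp hslim).mul_const (2 * R)
          simpa using h5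
      have h3 := (tendsto_const_nhds (x := v)).sub h2
      rw [sub_zero] at h3
      exact h3.congr fun k => (h1 k).symm
    exact hclosed.mem_of_tendsto hlim (Eventually.of_forall fun k => Y.smul_mem _ (hmY k))

end Pool.Agent.GPC
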