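import Mathlib

/-!
Linear algebra and polynomial lemmas for the subspace theorem.
-/

open Filter Topology MvPolynomial Module

namespace Pool.Agent.GPC

/-- choosing coordinates from a separating family of linear functionals -/
lemma exists_coords {V : Type*} [AddCommGroup V] [Module ℂ V] [FiniteDimensional ℂ V]
    {κ : Type*} (φ : κ → (V →ₗ[ℂ] ℂ)) (hsep : ∀ v, (∀ k, φ k v = 0) → v = 0) :
    ∃ y : Fin (finrank ℂ V) → κ, Function.Bijective (LinearMap.pi fun i => φ (y i)) := by
  classical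
  obtain ⟨κ', a, _, hsp, hli⟩ := exists_linearIndependent' ℂ (fun k => (φ k : Dual ℂ V))
  have hfin : Finite κ' := hli.finite
  have := Fintype.ofFinite κ'
  have htop : Submodule.span ℂ (Set.range fun k => (φ k : Dual ℂ V)) = ⊤ := by
    apply Submodule.eq_top_of_finrank_eq
    have h1 := Subspace.finrank_add_finrank_dualCoannihilator_eq
      (Submodule.span ℂ (Set.range fun k => (φ k : Dual ℂ V)))
    have h2 : (Submodule.span ℂ (Set.range fun k => (φ k : Dual ℂ V))).dualCoannihilator = ⊥ := by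
      rw [eq_bot_iff]
      intro v hv
      rw [Submodule.mem_bot]
      apply hsep
      intro k
      rw [Submodule.mem_dualCoannihilator] at hv
      exact hv (φ k) (Submodule.subset_span ⟨k, rfl⟩)
    rw [h2, finrank_bot, add_zero] at h1
    rw [h1, Subspace.dual_finrank_eq]
  rw [htop] at hsp
  have hcard : Fintype.card κ' = finrank ℂ V := by
    have h1 := finrank_span_eq_card hli
    rw [hsp, finrank_top, Subspace.dual_finrank_eq] at h1
    exact h1.symm
  let e : Fin (finrank ℂ V) ≃ κ' := (Fintype.equivFinOfCardEq hcard).symm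
  refine ⟨fun i => a (e i), ?_⟩
  have hinj : Function.Injective (LinearMap.pi fun i => φ (a (e i))) := by
    rw [← LinearMap.ker_eq_bot, eq_bot_iff]
    intro v hv
    rw [Submodule.mem_bot]
    apply hsep
    intro k
    have h1 : (φ k : Dual ℂ V) ∈ Submodule.span ℂ (Set.range ((fun k => (φ k : Dual ℂ V)) ∘ a)) := by
      rw [hsp]; trivial
    have h2 : ∀ f ∈ Submodule.span ℂ (Set.range ((fun k => (φ k : Dual ℂ V)) ∘ a)), f v = 0 := by
      intro f hf
      induction hf using Submodule.span_induction with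
      | mem f hf =>
        obtain ⟨k', rfl⟩ := hf
        have h3 := congrFun (LinearMap.mem_ker.mp hv) (e.symm k')
        simpa using h3
      | zero => rfl
      | add f g _ _ hf hg => rw [LinearMap.add_apply, hf, hg, add_zero]
      | smul c f _ hf => rw [LinearMap.smul_apply, hf, smul_zero]
    exact h2 _ h1
  refine ⟨hinj, ?_⟩
  exact (LinearMap.injective_iff_surjective_of_finrank_eq_finrank (by simp)).mp hinj

/-- a polynomial vanishing near a point vanishes -/
lemma mvPoly_eq_zero_of_eventually {ι : Type*} [Fintype ι] (S : MvPolynomial ι ℂ) (y0 : ι → ℂ)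
    (h : ∀ᶠ y in 𝓝 y0, eval y S = 0) : S = 0 := by
  obtain ⟨ε, hε, hball⟩ := Metric.eventually_nhds_iff_ball.mp h
  have h1 : S = 0 ↔ ∀ x ∈ Set.pi Set.univ (fun i => Metric.ball (y0 i) ε),
      eval x S = eval x 0 := by
    apply funext_set_iff
    intro i
    exact infinite_of_mem_nhds (y0 i) (Metric.ball_mem_nhds _ hε)
  rw [h1]
  intro x hx
  rw [map_zero]
  apply hball
  rw [Metric.mem_ball, dist_pi_lt_iff hε]
  intro i
  exact hx i (Set.mem_univ i)

/-- local inversion -/
lemma mvPoly_eq_zero_of_local {ι : Type*} [Fintype ι] {V : Type*} [NormedAddCommGroup V]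
    [NormedSpace ℂ V] [CompleteSpace V] (S : MvPolynomial ι ℂ) (x : ι → V → ℂ)
    (x' : ι → (V →L[ℂ] ℂ)) (hx : ∀ i, HasStrictFDerivAt (x i) (x' i) 0)
    (hsurj : Function.Surjective (ContinuousLinearMap.pi x'))
    (h : ∀ᶠ z in 𝓝 (0 : V), eval (fun i => x i z) S = 0) : S = 0 := by
  have h1 : HasStrictFDerivAt (fun z i => x i z) (ContinuousLinearMap.pi x') 0 :=
    hasStrictFDerivAt_pi'.mpr hx
  have h2 := h1.map_nhds_eq_of_surj (LinearMap.range_eq_top.mpr hsurj)
  apply mvPoly_eq_zero_of_eventually S (fun i => x i 0)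
  rw [← h2, Filter.eventually_map]
  exact h

/-- a polynomial vanishing on an arithmetic progression vanishes on the line -/
lemma eval_line_eq_zero {ι : Type*} (S : MvPolynomial ι ℂ) (t δ : ι → ℂ)
    (h : ∀ n : ℕ, eval (fun i => t i + n * δ i) S = 0) (s : ℂ) :
    eval (fun i => t i + s * δ i) S = 0 := by
  set q : Polynomial ℂ := aeval (fun i => Polynomial.C (t i) + Polynomial.X * Polynomial.C (δ i)) S
    with hq
  have h1 : ∀ s : ℂ, q.eval s = eval (fun i => t i + s * δ i) S := by
    intro s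
    have : ((Polynomial.evalRingHom s).comp
        ((aeval (fun i => Polynomial.C (t i) + Polynomial.X * Polynomial.C (δ i)) :
          MvPolynomial ι ℂ →ₐ[ℂ] Polynomial ℂ) : MvPolynomial ι ℂ →+* Polynomial ℂ)) =
        (eval (fun i => t i + s * δ i) : MvPolynomial ι ℂ →+* ℂ) := by
      apply MvPolynomial.ringHom_ext
      · intro c; simp
      · intro i; simp; ring
    exact congrArg (fun f : MvPolynomial ι ℂ →+* ℂ => f S) this
  have h2 : q = 0 := by
    apply Polynomial.eq_zero_of_infinite_isRoot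
    refine (Set.infinite_range_of_injective (Nat.cast_injective (R := ℂ))).mono ?_
    rintro _ ⟨n, rfl⟩
    change q.eval (n : ℂ) = 0
    rw [h1]; exact h n
  rw [← h1, h2, Polynomial.eval_zero]

/-- substituting numbers for half of the variables -/
noncomputable def substRight {ι₁ ι₂ : Type*} (R : MvPolynomial (ι₁ ⊕ ι₂) ℂ) (t : ι₂ → ℂ) :
    MvPolynomial ι₁ ℂ := aeval (Sum.elim X (fun i => C (t i))) R

lemma eval_substRight {ι₁ ι₂ : Type*} (R : MvPolynomial (ι₁ ⊕ ι₂) ℂ) (t : ι₂ → ℂ) (s : ι₁ → ℂ) :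
    eval s (substRight R t) = eval (Sum.elim s t) R := by
  have h1 : (eval s).comp ((aeval (Sum.elim X (fun i => C (t i))) :
      MvPolynomial (ι₁ ⊕ ι₂) ℂ →ₐ[ℂ] MvPolynomial ι₁ ℂ) :
      MvPolynomial (ι₁ ⊕ ι₂) ℂ →+* MvPolynomial ι₁ ℂ) = eval (Sum.elim s t) := by
    apply MvPolynomial.ringHom_ext
    · intro c; simp
    · rintro (i | i) <;> simp
  exact congrArg (fun f : MvPolynomial (ι₁ ⊕ ι₂) ℂ →+* ℂ => f R) h1

lemma eq_zero_of_substRight {ι₁ ι₂ : Type*} (R : MvPolynomial (ι₁ ⊕ ι₂) ℂ)
    (h : ∀ t, substRight R t = 0) : R = 0 := by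
  apply MvPolynomial.funext
  intro x
  have h1 : x = Sum.elim (x ∘ Sum.inl) (x ∘ Sum.inr) := by
    funext i; rcases i with i | i <;> rfl
  rw [h1, ← eval_substRight, h]
  simp

/-- the homogenisation of a polynomial relation between quotients `u_i / h` -/
noncomputable def homog {ι E : Type*} [Fintype ι] (S : MvPolynomial ι ℂ) (h : E → ℂ)
    (u : ι → E → ℂ) (z : E) : ℂ :=
  ∑ m ∈ S.support, S.coeff m * ((∏ i, u i z ^ m i) * h z ^ (S.totalDegree + 1 - m.degree))

lemma homog_eq {ι E : Type*} [Fintype ι] (S : MvPolynomial ι ℂ) (h : E → ℂ)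
    (u : ι → E → ℂ) {z : E} (hz : h z ≠ 0) :
    homog S h u z = h z ^ (S.totalDegree + 1) * eval (fun i => u i z / h z) S := by
  unfold homog
  rw [eval_eq', Finset.mul_sum]
  apply Finset.sum_congr rfl
  intro m hm
  have h1 : m.degree ≤ S.totalDegree := le_totalDegree hm
  have h2 : h z ^ (S.totalDegree + 1) =
      h z ^ (S.totalDegree + 1 - m.degree) * ∏ i, h z ^ m i := by
    rw [Finset.prod_pow_eq_pow_sum, ← Finsupp.degree_eq_sum, ← pow_add]
    congr 1; omega
  rw [h2]
  simp only [div_pow]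
  rw [Finset.prod_div_distrib]
  have h4 : (∏ i, h z ^ m i) ≠ 0 := Finset.prod_ne_zero_iff.mpr fun i _ => pow_ne_zero _ hz
  field_simp

lemma homog_eq_zero {ι E : Type*} [Fintype ι] (S : MvPolynomial ι ℂ) (h : E → ℂ)
    (u : ι → E → ℂ) {z : E} (hz : h z = 0) : homog S h u z = 0 := by
  unfold homog
  apply Finset.sum_eq_zero
  intro m hm
  have h1 : m.degree ≤ S.totalDegree := le_totalDegree hm
  rw [hz, zero_pow (by omega), mul_zero, mul_zero]

lemma homog_mul {ι E : Type*} [Fintype ι] (S : MvPolynomial ι ℂ) (h : E → ℂ)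
    (u : ι → E → ℂ) {z z' : E} (e : ℂ) (hh : h z' = e * h z) (hu : ∀ i, u i z' = e * u i z) :
    homog S h u z' = e ^ (S.totalDegree + 1) * homog S h u z := by
  unfold homog
  rw [Finset.mul_sum]
  apply Finset.sum_congr rfl
  intro m hm
  have h1 : m.degree ≤ S.totalDegree := le_totalDegree hm
  have h2 : e ^ (S.totalDegree + 1) =
      e ^ (S.totalDegree + 1 - m.degree) * ∏ i, e ^ m i := by
    rw [Finset.prod_pow_eq_pow_sum, ← Finsupp.degree_eq_sum, ← pow_add]
    congr 1; omega
  rw [h2, hh]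
  simp only [hu, mul_pow, Finset.prod_mul_distrib]
  ring

lemma analyticAt_homog {ι E : Type*} [Fintype ι] [NormedAddCommGroup E] [NormedSpace ℂ E]
    (S : MvPolynomial ι ℂ) (h : E → ℂ) (u : ι → E → ℂ) {z : E} (hh : AnalyticAt ℂ h z)
    (hu : ∀ i, AnalyticAt ℂ (u i) z) : AnalyticAt ℂ (homog S h u) z := by
  unfold homog
  apply Finset.analyticAt_fun_sum
  intro m _
  refine analyticAt_const.mul (AnalyticAt.mul ?_ (hh.pow _))
  exact Finset.analyticAt_fun_prod _ fun i _ => (hu i).pow _

end Pool.Agent.GPC
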