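import Mathlib

/-!
Analytic part of the periodic Schneider-Lang argument: a Schwarz type estimate for entire functions
with many zeros on the progression `0, w, 2w, ...`.
-/

open Complex Filter Topology
open scoped Nat

namespace Pool.Agent.Helper8

/-- dividing an entire function by `(z-a)^n`. -/
lemma factor_one {f : ℂ → ℂ} (hf : Differentiable ℂ f) (a : ℂ) (n : ℕ)
    (h : (n : ℕ∞) ≤ analyticOrderAt f a) :
    ∃ g : ℂ → ℂ, Differentiable ℂ g ∧ ∀ z, f z = (z - a) ^ n * g z := by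
  classical
  obtain ⟨g0, hg0, hfg⟩ := (natCast_le_analyticOrderAt (hf.analyticAt a)).mp h
  refine ⟨fun z => if z = a then g0 a else f z / (z - a) ^ n, ?_, ?_⟩
  · intro z
    by_cases hz : z = a
    · subst hz
      have : (fun w => if w = z then g0 z else f w / (w - z) ^ n) =ᶠ[𝓝 z] g0 := by
        filter_upwards [hfg] with w hw
        by_cases hwz : w = z
        · simp [hwz]
        · have : (w - z) ^ n ≠ 0 := pow_ne_zero _ (sub_ne_zero.mpr hwz)
          simp [hwz, hw, this]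
      exact (this.differentiableAt_iff).mpr hg0.differentiableAt
    · have : (fun w => if w = a then g0 a else f w / (w - a) ^ n) =ᶠ[𝓝 z]
          fun w => f w / (w - a) ^ n := by
        filter_upwards [isOpen_ne.mem_nhds hz] with w hw
        have : w ≠ a := hw
        simp [this]
      refine (this.differentiableAt_iff).mpr ?_
      exact (hf z).div (by fun_prop) (pow_ne_zero _ (sub_ne_zero.mpr hz))
  · intro z
    by_cases hz : z = a
    · subst hz
      have := hfg.self_of_nhds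
      simpa using this
    · have : (z - a) ^ n ≠ 0 := pow_ne_zero _ (sub_ne_zero.mpr hz)
      simp [hz]
      field_simp

/-- dividing an entire function by `∏ (z-a)^n`. -/
lemma factor_many {f : ℂ → ℂ} (hf : Differentiable ℂ f) (s : Finset ℂ) (n : ℕ)
    (h : ∀ a ∈ s, (n : ℕ∞) ≤ analyticOrderAt f a) :
    ∃ g : ℂ → ℂ, Differentiable ℂ g ∧ ∀ z, f z = (∏ a ∈ s, (z - a) ^ n) * g z := by
  classical
  induction s using Finset.induction_on with
  | empty => exact ⟨f, hf, by simp⟩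
  | insert a s ha ih =>
    obtain ⟨g, hg, hfg⟩ := ih (fun b hb => h b (Finset.mem_insert_of_mem hb))
    have hord : (n : ℕ∞) ≤ analyticOrderAt g a := by
      have h1 : f = (fun z => ∏ b ∈ s, (z - b) ^ n) * g := by
        ext z; simp [hfg z]
      have hP : AnalyticAt ℂ (fun z => ∏ b ∈ s, (z - b) ^ n) a := by
        have : Differentiable ℂ (fun z : ℂ => ∏ b ∈ s, (z - b) ^ n) := by fun_prop
        exact this.analyticAt a
      have h2 := analyticOrderAt_mul hP (hg.analyticAt a)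
      have h3 : analyticOrderAt (fun z => ∏ b ∈ s, (z - b) ^ n) a = 0 := by
        rw [hP.analyticOrderAt_eq_zero]
        rw [Finset.prod_ne_zero_iff]
        intro b hb
        exact pow_ne_zero _ (sub_ne_zero.mpr (fun hab => ha (hab ▸ hb)))
      have h4 := h a (Finset.mem_insert_self a s)
      rw [h1, h2, h3, zero_add] at h4
      exact h4
    obtain ⟨g', hg', hgg'⟩ := factor_one hg a n hord
    refine ⟨g', hg', fun z => ?_⟩
    rw [Finset.prod_insert ha, hfg z, hgg' z]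
    ring

/-- Schwarz type lemma on a progression. -/
theorem schwarz_progression {Φ : ℂ → ℂ} (hΦ : Differentiable ℂ Φ) {w : ℂ} (hw : w ≠ 0)
    {M T : ℕ} (hM : 0 < M)
    (hord : ∀ k < M, (T : ℕ∞) ≤ analyticOrderAt Φ (k * w)) {B : ℝ}
    (hB : ∀ z, ‖z‖ = 3 * M * ‖w‖ → ‖Φ z‖ ≤ B) :
    ‖iteratedDeriv T Φ 0‖ ≤ T ! * (B / (3 * M * ‖w‖) ^ T) * (1 / 2) ^ ((M - 1) * T) := by
  classical
  obtain ⟨N, rfl⟩ : ∃ N, M = N + 1 := ⟨M - 1, by omega⟩
  set s : Finset ℂ := (Finset.range (N + 1)).image (fun k : ℕ => (k : ℂ) * w) with hs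
  have hinj : Set.InjOn (fun k : ℕ => (k : ℂ) * w) (Finset.range (N + 1)) := by
    intro a _ b _ hab
    have := mul_right_cancel₀ hw hab
    exact_mod_cast this
  obtain ⟨Ψ, hΨ, hfac⟩ := factor_many hΦ s T (by
    intro a ha
    obtain ⟨k, hk, rfl⟩ := Finset.mem_image.mp ha
    exact hord k (Finset.mem_range.mp hk))
  have hprod : ∀ z, (∏ a ∈ s, (z - a) ^ T) = ∏ k ∈ Finset.range (N + 1), (z - k * w) ^ T := by
    intro z
    rw [hs, Finset.prod_image hinj]
  have hfac' : ∀ z, Φ z = (z - 0) ^ (T + 0) *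
      ((∏ k ∈ Finset.range N, (z - (k + 1 : ℕ) * w) ^ T) * Ψ z) := by
    intro z
    rw [hfac z, hprod z, Finset.prod_range_succ']
    simp
    ring
  obtain ⟨R₂, -, hR₂⟩ := iteratedDeriv_mul_pow_sub_of_analytic (k := T) (t := 0) (z₀ := 0)
    (R₁ := fun z => (∏ k ∈ Finset.range N, (z - (k + 1 : ℕ) * w) ^ T) * Ψ z)
    (fun z => Differentiable.analyticAt (by fun_prop) z) hfac'
  have h0 : iteratedDeriv T Φ 0 =
      T ! * ((∏ k ∈ Finset.range N, (-((k + 1 : ℕ) * w)) ^ T) * Ψ 0) := by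
    rw [hR₂ 0]
    simp
  set R : ℝ := 3 * (N + 1 : ℕ) * ‖w‖ with hR
  have hwpos : 0 < ‖w‖ := norm_pos_iff.mpr hw
  have hRpos : 0 < R := by positivity
  have hB0 : 0 ≤ B := (norm_nonneg _).trans (hB (R : ℂ) (by
    rw [Complex.norm_real, Real.norm_of_nonneg hRpos.le]))
  -- bound of Ψ on the circle
  have hden : ∀ z : ℂ, ‖z‖ = R →
      R ^ T * ∏ k ∈ Finset.range N, (R - (k + 1 : ℕ) * ‖w‖) ^ T ≤ ‖∏ a ∈ s, (z - a) ^ T‖ := by
    intro z hz
    rw [hprod z, Finset.prod_range_succ', norm_mul, norm_prod, mul_comm]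
    have e1 : ‖(z - ((0 : ℕ) : ℂ) * w) ^ T‖ = R ^ T := by simp [hz]
    rw [e1]
    apply mul_le_mul_of_nonneg_right _ (by positivity)
    apply Finset.prod_le_prod
    · intro k hk
      have : ((k + 1 : ℕ) : ℝ) ≤ N := by
        have := Finset.mem_range.mp hk
        exact_mod_cast this
      have : ((k + 1 : ℕ) : ℝ) * ‖w‖ ≤ R := by
        rw [hR]; push_cast at *; nlinarith
      have : 0 ≤ R - ((k + 1 : ℕ) : ℝ) * ‖w‖ := by linarith
      positivity
    · intro k hk
      rw [norm_pow]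
      have : ((k + 1 : ℕ) : ℝ) ≤ N := by
        have := Finset.mem_range.mp hk
        exact_mod_cast this
      have h2 : ((k + 1 : ℕ) : ℝ) * ‖w‖ ≤ R := by
        rw [hR]; push_cast at *; nlinarith
      have h1 : R - (k + 1 : ℕ) * ‖w‖ ≤ ‖z - (k + 1 : ℕ) * w‖ := by
        have := norm_sub_norm_le z ((k + 1 : ℕ) * w)
        rw [hz, norm_mul, Complex.norm_natCast] at this
        exact this
      exact pow_le_pow_left₀ (by linarith) h1 T
  have hΨb : ∀ z : ℂ, ‖z‖ = R →
      ‖Ψ z‖ ≤ B / (R ^ T * ∏ k ∈ Finset.range N, (R - (k + 1 : ℕ) * ‖w‖) ^ T) := by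
    intro z hz
    have hpos : 0 < R ^ T * ∏ k ∈ Finset.range N, (R - (k + 1 : ℕ) * ‖w‖) ^ T := by
      apply mul_pos (by positivity)
      apply Finset.prod_pos
      intro k hk
      have : ((k + 1 : ℕ) : ℝ) ≤ N := by
        have := Finset.mem_range.mp hk
        exact_mod_cast this
      apply pow_pos
      rw [hR]; push_cast at *; nlinarith
    rw [le_div_iff₀ hpos]
    calc ‖Ψ z‖ * (R ^ T * ∏ k ∈ Finset.range N, (R - (k + 1 : ℕ) * ‖w‖) ^ T)
        ≤ ‖Ψ z‖ * ‖∏ a ∈ s, (z - a) ^ T‖ := by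
          gcongr; exact hden z hz
      _ = ‖Φ z‖ := by rw [hfac z, norm_mul, mul_comm]
      _ ≤ B := hB z hz
  have hΨ0 : ‖Ψ 0‖ ≤ B / (R ^ T * ∏ k ∈ Finset.range N, (R - (k + 1 : ℕ) * ‖w‖) ^ T) := by
    refine Complex.norm_le_of_forall_mem_frontier_norm_le (U := Metric.ball 0 R)
      Metric.isBounded_ball hΨ.diffContOnCl ?_ (subset_closure (Metric.mem_ball_self hRpos))
    intro z hz
    rw [frontier_ball (0 : ℂ) hRpos.ne', mem_sphere_zero_iff_norm] at hz
    exact hΨb z hz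
  have hprodle : (∏ k ∈ Finset.range N, (((k + 1 : ℕ) : ℝ) * ‖w‖) ^ T) ≤
      (1 / 2) ^ (N * T) * ∏ k ∈ Finset.range N, (R - (k + 1 : ℕ) * ‖w‖) ^ T := by
    have : ((1 : ℝ) / 2) ^ (N * T) = ∏ k ∈ Finset.range N, ((1 : ℝ) / 2) ^ T := by
      rw [Finset.prod_const, Finset.card_range, ← pow_mul, mul_comm]
    rw [this, ← Finset.prod_mul_distrib]
    apply Finset.prod_le_prod
    · intro k _; positivity
    · intro k hk
      rw [← mul_pow]
      apply pow_le_pow_left₀ (by positivity)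
      have : ((k + 1 : ℕ) : ℝ) ≤ N := by
        have := Finset.mem_range.mp hk
        exact_mod_cast this
      rw [hR]; push_cast at *; nlinarith
  have hposD : 0 < ∏ k ∈ Finset.range N, (R - (k + 1 : ℕ) * ‖w‖) ^ T := by
    apply Finset.prod_pos
    intro k hk
    have : ((k + 1 : ℕ) : ℝ) ≤ N := by
      have := Finset.mem_range.mp hk
      exact_mod_cast this
    apply pow_pos
    rw [hR]; push_cast at *; nlinarith
  rw [h0, norm_mul, norm_mul, norm_prod, Complex.norm_natCast]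
  have hnn : ∀ k ∈ Finset.range N, ‖(-(((k + 1 : ℕ) : ℂ) * w)) ^ T‖ =
      (((k + 1 : ℕ) : ℝ) * ‖w‖) ^ T := by
    intro k _
    rw [norm_pow, norm_neg, norm_mul, Complex.norm_natCast]
  rw [Finset.prod_congr rfl hnn]
  have hNT : N + 1 - 1 = N := by omega
  rw [hNT, mul_assoc]
  apply mul_le_mul_of_nonneg_left _ (by positivity)
  calc (∏ k ∈ Finset.range N, (((k + 1 : ℕ) : ℝ) * ‖w‖) ^ T) * ‖Ψ 0‖
      ≤ ((1 / 2) ^ (N * T) * ∏ k ∈ Finset.range N, (R - (k + 1 : ℕ) * ‖w‖) ^ T) *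
        (B / (R ^ T * ∏ k ∈ Finset.range N, (R - (k + 1 : ℕ) * ‖w‖) ^ T)) := by
        gcongr
    _ = B / R ^ T * (1 / 2) ^ (N * T) := by
        generalize (∏ k ∈ Finset.range N, (R - (k + 1 : ℕ) * ‖w‖) ^ T) = D at hposD ⊢
        have hD : D ≠ 0 := hposD.ne'
        have hRT : R ^ T ≠ 0 := (pow_pos hRpos T).ne'
        field_simp

end Pool.Agent.Helper8
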