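import Mathlib

/-!
Iterated directional derivatives of analytic functions of several variables.
-/

open Filter Topology

namespace Pool.Agent.Helper8

variable {E : Type*} [NormedAddCommGroup E] [NormedSpace ℂ E]

/-- directional derivative -/
noncomputable def dd (v : E) (f : E → ℂ) : E → ℂ := fun z => fderiv ℂ f z v

/-- iterated directional derivative -/
noncomputable def dds (l : List E) (f : E → ℂ) : E → ℂ := l.foldr dd f

@[simp] lemma dds_nil (f : E → ℂ) : dds [] f = f := rfl

@[simp] lemma dds_cons (v : E) (l : List E) (f : E → ℂ) : dds (v :: l) f = dd v (dds l f) := rfl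

lemma dds_append (l₁ l₂ : List E) (f : E → ℂ) : dds (l₁ ++ l₂) f = dds l₁ (dds l₂ f) := by
  simp [dds, List.foldr_append]

lemma analyticAt_dd {f : E → ℂ} {z : E} (hf : AnalyticAt ℂ f z) (v : E) :
    AnalyticAt ℂ (dd v f) z := by
  have h1 := hf.fderiv
  exact ((ContinuousLinearMap.apply ℂ ℂ v).analyticAt _).comp h1

lemma analyticAt_dds {f : E → ℂ} {z : E} (hf : AnalyticAt ℂ f z) (l : List E) :
    AnalyticAt ℂ (dds l f) z := by
  induction l with
  | nil => exact hf
  | cons v l ih => exact analyticAt_dd ih v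

lemma dd_congr {f g : E → ℂ} {z : E} (h : f =ᶠ[𝓝 z] g) (v : E) : dd v f =ᶠ[𝓝 z] dd v g := by
  filter_upwards [h.eventually_nhds] with y hy
  unfold dd
  rw [Filter.EventuallyEq.fderiv_eq hy]

lemma dds_congr {f g : E → ℂ} {z : E} (h : f =ᶠ[𝓝 z] g) (l : List E) :
    dds l f =ᶠ[𝓝 z] dds l g := by
  induction l with
  | nil => exact h
  | cons v l ih => exact dd_congr ih v

lemma dd_add {f g : E → ℂ} {z : E} (hf : AnalyticAt ℂ f z) (hg : AnalyticAt ℂ g z) (v : E) :
    dd v (f + g) z = dd v f z + dd v g z := by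
  unfold dd
  rw [fderiv_add hf.differentiableAt hg.differentiableAt]
  rfl

lemma dds_add {f g : E → ℂ} (l : List E) : ∀ {z : E}, AnalyticAt ℂ f z → AnalyticAt ℂ g z →
    dds l (f + g) z = dds l f z + dds l g z := by
  induction l with
  | nil => intro z _ _; rfl
  | cons v l ih =>
    intro z hf hg
    have h1 : dds l (f + g) =ᶠ[𝓝 z] dds l f + dds l g := by
      filter_upwards [hf.eventually_analyticAt, hg.eventually_analyticAt] with y hy1 hy2
      exact ih hy1 hy2
    rw [dds_cons, (dd_congr h1 v).self_of_nhds]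
    exact dd_add (analyticAt_dds hf l) (analyticAt_dds hg l) v

lemma dd_const_mul {f : E → ℂ} {z : E} (hf : AnalyticAt ℂ f z) (c : ℂ) (v : E) :
    dd v (fun y => c * f y) z = c * dd v f z := by
  unfold dd
  rw [fderiv_const_mul hf.differentiableAt]
  rfl

lemma dds_const_mul {f : E → ℂ} (c : ℂ) (l : List E) : ∀ {z : E}, AnalyticAt ℂ f z →
    dds l (fun y => c * f y) z = c * dds l f z := by
  induction l with
  | nil => intro z _; rfl
  | cons v l ih =>
    intro z hf
    have h1 : dds l (fun y => c * f y) =ᶠ[𝓝 z] fun y => c * dds l f y := by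
      filter_upwards [hf.eventually_analyticAt] with y hy
      exact ih hy
    rw [dds_cons, (dd_congr h1 v).self_of_nhds]
    exact dd_const_mul (analyticAt_dds hf l) c v

lemma dds_zero (l : List E) : dds l (0 : E → ℂ) = 0 := by
  induction l with
  | nil => rfl
  | cons v l ih =>
    rw [dds_cons, ih]
    funext z
    unfold dd
    simp

lemma dds_sum {α : Type*} (s : Finset α) (f : α → E → ℂ) (l : List E) {z : E}
    (hf : ∀ a ∈ s, AnalyticAt ℂ (f a) z) :
    dds l (∑ a ∈ s, f a) z = ∑ a ∈ s, dds l (f a) z := by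
  classical
  induction s using Finset.induction_on with
  | empty => simp [dds_zero]
  | insert a s ha ih =>
    rw [Finset.sum_insert ha, Finset.sum_insert ha, dds_add l (hf a (Finset.mem_insert_self a s)),
      ih (fun b hb => hf b (Finset.mem_insert_of_mem hb))]
    exact Finset.analyticAt_sum _ (fun b hb => hf b (Finset.mem_insert_of_mem hb))

lemma dd_dd_eq {f : E → ℂ} {z : E} (hf : AnalyticAt ℂ f z) (v w : E) :
    dd v (dd w f) z = fderiv ℂ (fderiv ℂ f) z v w := by
  have h1 : HasFDerivAt (fun y => fderiv ℂ f y w)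
      ((fderiv ℂ (fderiv ℂ f) z).flip w) z := by
    have h2 := (hf.fderiv.differentiableAt).hasFDerivAt
    have h3 := h2.clm_apply (hasFDerivAt_const w z)
    simpa using h3
  unfold dd
  rw [h1.fderiv]
  rfl

lemma dd_comm {f : E → ℂ} {z : E} (hf : AnalyticAt ℂ f z) (v w : E) :
    dd v (dd w f) z = dd w (dd v f) z := by
  rw [dd_dd_eq hf, dd_dd_eq hf]
  have h : IsSymmSndFDerivAt ℂ f z := by
    apply ContDiffAt.isSymmSndFDerivAt (n := 2) (hf.contDiffAt)
    simp
  exact h v w

lemma dds_perm {f : E → ℂ} {l₁ l₂ : List E} (h : l₁.Perm l₂) : ∀ {z : E}, AnalyticAt ℂ f z →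
    dds l₁ f z = dds l₂ f z := by
  induction h with
  | nil => intro z _; rfl
  | cons v h ih =>
    intro z hf
    rename_i l₁ l₂
    have h1 : dds l₁ f =ᶠ[𝓝 z] dds l₂ f := by
      filter_upwards [hf.eventually_analyticAt] with y hy
      exact ih hy
    rw [dds_cons, dds_cons, (dd_congr h1 v).self_of_nhds]
  | swap v w l =>
    intro z hf
    exact dd_comm (analyticAt_dds hf l) w v
  | trans _ _ ih1 ih2 => intro z hf; rw [ih1 hf, ih2 hf]

lemma dd_mul {f g : E → ℂ} {z : E} (hf : AnalyticAt ℂ f z) (hg : AnalyticAt ℂ g z) (v : E) :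
    dd v (f * g) z = dd v f z * g z + f z * dd v g z := by
  unfold dd
  rw [fderiv_mul hf.differentiableAt hg.differentiableAt]
  simp only [ContinuousLinearMap.add_apply, ContinuousLinearMap.smul_apply, smul_eq_mul]
  ring

/-- vanishing to order at least `t` -/
def Van (t : ℕ) (f : E → ℂ) (p : E) : Prop := ∀ l : List E, l.length < t → dds l f p = 0

lemma Van.mono {t s : ℕ} (h : s ≤ t) {f : E → ℂ} {p : E} (hf : Van t f p) : Van s f p :=
  fun l hl => hf l (lt_of_lt_of_le hl h)

lemma Van.dd {t : ℕ} {f : E → ℂ} {p : E} (hf : Van (t + 1) f p) (v : E) :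
    Van t (dd v f) p := by
  intro l hl
  have := hf (l ++ [v]) (by simp; omega)
  rw [dds_append] at this
  exact this

lemma Van.mul {t : ℕ} : ∀ {e f : E → ℂ} {p : E}, AnalyticAt ℂ e p → AnalyticAt ℂ f p →
    Van t f p → Van t (e * f) p := by
  induction t with
  | zero => intro e f p _ _ _ l hl; omega
  | succ t ih =>
    intro e f p he hf hv l hl
    rcases List.eq_nil_or_concat l with rfl | ⟨l', v, rfl⟩
    · have : f p = 0 := hv [] (by simp)
      simp [this]
    · rw [List.concat_eq_append, dds_append]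
      have hl' : l'.length < t := by simp at hl; omega
      have h1 : dds [v] (e * f) =ᶠ[𝓝 p] Helper8.dd v e * f + e * Helper8.dd v f := by
        filter_upwards [he.eventually_analyticAt, hf.eventually_analyticAt] with y hy1 hy2
        exact dd_mul hy1 hy2 v
      rw [(dds_congr h1 l').self_of_nhds, dds_add l' ((analyticAt_dd he v).mul hf)
        (he.mul (analyticAt_dd hf v))]
      rw [ih (analyticAt_dd he v) hf (hv.mono (by omega)) l' hl',
        ih he (analyticAt_dd hf v) (hv.dd v) l' hl', add_zero]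

lemma dds_mul_of_van (l : List E) :
    ∀ {e f : E → ℂ} {p : E}, AnalyticAt ℂ e p → AnalyticAt ℂ f p → Van l.length f p →
      dds l (e * f) p = e p * dds l f p := by
  induction l using List.reverseRecOn with
  | nil => intro e f p _ _ _; rfl
  | append_singleton l' v ih =>
    intro e f p he hf hv
    have hlen : (l' ++ [v]).length = l'.length + 1 := by simp
    rw [hlen] at hv
    rw [dds_append, dds_append]
    have h1 : dds [v] (e * f) =ᶠ[𝓝 p] dd v e * f + e * dd v f := by
      filter_upwards [he.eventually_analyticAt, hf.eventually_analyticAt] with y hy1 hy2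
      exact dd_mul hy1 hy2 v
    rw [(dds_congr h1 l').self_of_nhds, dds_add l' ((analyticAt_dd he v).mul hf)
        (he.mul (analyticAt_dd hf v))]
    rw [Van.mul (analyticAt_dd he v) hf hv l' (by omega), zero_add,
      ih he (analyticAt_dd hf v) (hv.dd v)]
    rfl

lemma dds_comp_add (f : E → ℂ) (a : E) (l : List E) :
    dds l (fun z => f (z + a)) = fun z => dds l f (z + a) := by
  induction l with
  | nil => rfl
  | cons v l ih =>
    rw [dds_cons, ih]
    funext z
    unfold dd
    rw [fderiv_comp_add_right]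
    rfl

lemma Van.translate {t : ℕ} {f e : E → ℂ} {a p : E} (he : AnalyticAt ℂ e p)
    (hf : AnalyticAt ℂ f p) (hper : ∀ z, f (z + a) = e z * f z) (hv : Van t f p) :
    Van t f (p + a) := by
  intro l hl
  have h1 := congrFun (dds_comp_add f a l) p
  have h2 : (fun z => f (z + a)) = e * f := funext hper
  rw [h2, Van.mul he hf hv l hl] at h1
  exact h1.symm

/-- restriction to a line -/
lemma hasDerivAt_line' {f : E → ℂ} {p v : E} {s : ℂ} (hf : AnalyticAt ℂ f (p + s • v)) :
    HasDerivAt (fun s : ℂ => f (p + s • v)) (dd v f (p + s • v)) s := by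
  have h2 : HasDerivAt (fun s : ℂ => p + s • v) v s := by
    simpa using ((hasDerivAt_id s).smul_const v).const_add p
  exact hf.differentiableAt.hasFDerivAt.comp_hasDerivAt s h2

lemma iteratedDeriv_line {f : E → ℂ} (hf : ∀ z, AnalyticAt ℂ f z) (p v : E) (k : ℕ) :
    iteratedDeriv k (fun s : ℂ => f (p + s • v)) =
      fun s => dds (List.replicate k v) f (p + s • v) := by
  induction k with
  | zero => simp
  | succ k ih =>
    rw [iteratedDeriv_succ, ih]
    funext s
    rw [List.replicate_succ, dds_cons]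
    exact (hasDerivAt_line' (analyticAt_dds (hf _) _)).deriv

lemma differentiable_line {f : E → ℂ} (hf : ∀ z, AnalyticAt ℂ f z) (p v : E) :
    Differentiable ℂ (fun s : ℂ => f (p + s • v)) :=
  fun _ => (hasDerivAt_line' (hf _)).differentiableAt

/-- an entire function vanishing to infinite order vanishes -/
lemma eq_zero_of_van {f : E → ℂ} (hf : ∀ z, AnalyticAt ℂ f z) (h : ∀ t, Van t f 0) (z : E) :
    f z = 0 := by
  have h1 := differentiable_line hf 0 z
  have h2 : ∀ s, AnalyticAt ℂ (fun s : ℂ => f (0 + s • z)) s := fun s => h1.analyticAt s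
  have h3 : (fun s : ℂ => f (0 + s • z)) = 0 := by
    rw [← AnalyticOnNhd.analyticOrderAt_eq_top_iff_eq_zero 0 h2]
    rw [ENat.eq_top_iff_forall_ge]
    intro n
    rw [natCast_le_analyticOrderAt_iff_iteratedDeriv_eq_zero (h2 0)]
    intro i hi
    rw [iteratedDeriv_line hf]
    simp only [zero_smul, add_zero]
    exact h (i + 1) _ (by simp)
  have h4 := congrFun h3 1
  simpa using h4

lemma dd_sum_smul {ι : Type*} (s : Finset ι) (c : ι → ℂ) (v : ι → E) (f : E → ℂ) :
    dd (∑ i ∈ s, c i • v i) f = ∑ i ∈ s, (fun z => c i * dd (v i) f z) := by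
  funext z
  unfold dd
  rw [map_sum, Finset.sum_apply]
  simp only [map_smul, smul_eq_mul]

/-- multilinear expansion: bounds on words in a basis give bounds on all words. -/
lemma norm_dds_le {ι : Type*} [Fintype ι] {f : E → ℂ} {z : E} (hf : AnalyticAt ℂ f z)
    (b : ι → E) {X μ : ℝ} {t : ℕ} (hX0 : 0 ≤ X)
    (hX : ∀ w : List ι, w.length = t → ‖dds (w.map b) f z‖ ≤ X) (hμ : 0 ≤ μ) (l : List E) :
    ∀ w : List ι, w.length + l.length = t →
      (∀ v ∈ l, ∃ c : ι → ℂ, v = ∑ i, c i • b i ∧ ∑ i, ‖c i‖ ≤ μ) →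
      ‖dds (w.map b ++ l) f z‖ ≤ μ ^ l.length * X := by
  induction l with
  | nil =>
    intro w hw _
    simpa using hX w (by simpa using hw)
  | cons v l ih =>
    intro w hw hl
    obtain ⟨c, hc, hcμ⟩ := hl v (List.mem_cons_self)
    have h1 : dds (w.map b ++ v :: l) f z = ∑ i, c i * dds ((w ++ [i]).map b ++ l) f z := by
      rw [dds_append, dds_cons, hc, dd_sum_smul, dds_sum]
      · apply Finset.sum_congr rfl
        intro i _
        rw [dds_const_mul _ _ (analyticAt_dd (analyticAt_dds hf l) _)]
        rw [List.map_append, List.append_assoc, dds_append]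
        rfl
      · intro i _
        exact analyticAt_const.mul (analyticAt_dd (analyticAt_dds hf l) _)
    rw [h1]
    refine (norm_sum_le _ _).trans ?_
    calc ∑ i, ‖c i * dds ((w ++ [i]).map b ++ l) f z‖ ≤ ∑ i, ‖c i‖ * (μ ^ l.length * X) := by
          apply Finset.sum_le_sum
          intro i _
          rw [norm_mul]
          gcongr
          apply ih (w ++ [i])
          · simp at hw ⊢; omega
          · exact fun u hu => hl u (List.mem_cons_of_mem _ hu)
      _ = (∑ i, ‖c i‖) * (μ ^ l.length * X) := by rw [Finset.sum_mul]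
      _ ≤ μ * (μ ^ l.length * X) := by
          exact mul_le_mul_of_nonneg_right hcμ (by positivity)
      _ = μ ^ (v :: l).length * X := by rw [List.length_cons, pow_succ]; ring

end Pool.Agent.Helper8
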