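import Mathlib
import Pool.Agent.Helper8.SLAnalytic
import Pool.Agent.Helper8.SVDir

/-!
Schwarz type estimate in several variables, on a Cartesian lattice.
-/

open Filter Topology
open scoped Nat

namespace Pool.Agent.Helper8

variable {E : Type*} [NormedAddCommGroup E] [NormedSpace ℂ E]

/-- Cauchy estimate for a directional derivative -/
lemma norm_dd_le {f : E → ℂ} (hf : ∀ z, AnalyticAt ℂ f z) {z v : E} {r B ν : ℝ} (hr : 0 < r)
    (hν : 0 < ν) (hv : ‖v‖ ≤ ν) (hB : ∀ y, ‖y - z‖ ≤ r → ‖f y‖ ≤ B) :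
    ‖dd v f z‖ ≤ ν * (B / r) := by
  have h1 : HasDerivAt (fun s : ℂ => f (z + s • v)) (dd v f (z + (0 : ℂ) • v)) 0 :=
    hasDerivAt_line' (hf _)
  have h2 := Complex.norm_deriv_le_of_forall_mem_sphere_norm_le (c := (0 : ℂ)) (R := r / ν)
    (C := B) (f := fun s : ℂ => f (z + s • v)) (by positivity)
    (differentiable_line hf z v).diffContOnCl (by
      intro s hs
      apply hB
      have : ‖s‖ = r / ν := by simpa using hs
      rw [add_sub_cancel_left, norm_smul, this]
      calc r / ν * ‖v‖ ≤ r / ν * ν := by gcongr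
        _ = r := by field_simp)
  rw [h1.deriv] at h2
  rw [zero_smul, add_zero] at h2
  refine h2.trans (le_of_eq ?_)
  field_simp

/-- iterated Cauchy estimate -/
lemma norm_dds_le_cauchy {f : E → ℂ} (hf : ∀ z, AnalyticAt ℂ f z) {R B ν : ℝ} (hν : 0 < ν)
    {t : ℕ} (ht : 0 < t) (hB : ∀ y, ‖y‖ ≤ R + 1 → ‖f y‖ ≤ B) (l : List E)
    (hl : ∀ v ∈ l, ‖v‖ ≤ ν) :
    ∀ z, ‖z‖ ≤ R + 1 - l.length / t → ‖dds l f z‖ ≤ (ν * t) ^ l.length * B := by
  have htR : (0 : ℝ) < t := by exact_mod_cast ht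
  induction l with
  | nil => intro z hz; simpa using hB z (by simpa using hz)
  | cons v l ih =>
    intro z hz
    have h1 := norm_dd_le (fun z => analyticAt_dds (hf z) l)
      (z := z) (v := v) (r := 1 / t) (B := (ν * t) ^ l.length * B) (ν := ν) (by positivity) hν
      (hl v (List.mem_cons_self)) (by
        intro y hy
        apply ih (fun u hu => hl u (List.mem_cons_of_mem _ hu))
        have h2 : ‖y‖ ≤ ‖y - z‖ + ‖z‖ := by
          calc ‖y‖ = ‖(y - z) + z‖ := by rw [sub_add_cancel]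
            _ ≤ _ := norm_add_le _ _
        rw [List.length_cons] at hz
        push_cast at hz
        have h3 : ((l.length : ℝ) + 1) / t = l.length / t + 1 / t := by ring
        rw [h3] at hz
        linarith)
    rw [dds_cons]
    refine h1.trans (le_of_eq ?_)
    rw [List.length_cons, pow_succ]
    field_simp

/-- a word has a letter which occurs often -/
lemma exists_frequent {d : ℕ} (hd : 0 < d) (w : List (Fin d)) :
    ∃ i, w.length ≤ d * w.count i := by
  classical
  by_contra h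
  push Not at h
  have h1 : ∑ i : Fin d, w.count i = w.length := by
    have := Multiset.sum_count_eq_card (s := Finset.univ) (m := (w : Multiset (Fin d)))
      (fun a _ => Finset.mem_univ a)
    simpa using this
  have : Nonempty (Fin d) := ⟨⟨0, hd⟩⟩
  have h2 : ∑ i : Fin d, d * w.count i < ∑ _i : Fin d, w.length :=
    Finset.sum_lt_sum_of_nonempty Finset.univ_nonempty fun i _ => h i
  rw [← Finset.mul_sum, h1, Finset.sum_const, Finset.card_univ, Fintype.card_fin, smul_eq_mul] at h2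
  exact lt_irrefl _ h2

lemma Van.add_nat {t : ℕ} {f e : E → ℂ} {a : E} (he : ∀ z, AnalyticAt ℂ e z)
    (hf : ∀ z, AnalyticAt ℂ f z) (hper : ∀ z, f (z + a) = e z * f z) (hv : Van t f 0) (n : ℕ) :
    Van t f ((n : ℂ) • a) := by
  induction n with
  | zero => simpa using hv
  | succ n ih =>
    have := Van.translate (he _) (hf _) hper ih
    have h2 : ((n + 1 : ℕ) : ℂ) • a = (n : ℂ) • a + a := by
      push_cast; rw [add_smul, one_smul]
    rw [h2]; exact this

/-- Schwarz lemma on a Cartesian lattice. -/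
theorem sv_schwarz {d : ℕ} (hd : 0 < d) {Φ : E → ℂ} (hΦ : ∀ z, AnalyticAt ℂ Φ z)
    (b : Fin d → E) (e : Fin d → E → ℂ) (he : ∀ i z, AnalyticAt ℂ (e i) z)
    (hper : ∀ i z, Φ (z + b i) = e i z * Φ z) {t : ℕ} (hv : Van t Φ 0) {ν B : ℝ} (hν : 1 ≤ ν)
    (hb : ∀ i, ‖b i‖ ≤ ν) (k : ℕ)
    (hB : ∀ z, ‖z‖ ≤ 3 * (d * k + 1 : ℕ) * ν + 1 → ‖Φ z‖ ≤ B)
    (w : List (Fin d)) (hw : w.length = t) :
    ‖dds (w.map b) Φ 0‖ ≤ (t : ℝ) ^ t * (ν * t) ^ t * B * (1 / 2) ^ (k * t) := by
  classical
  have hB0 : 0 ≤ B := (norm_nonneg _).trans (hB 0 (by rw [norm_zero]; positivity))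
  rcases Nat.eq_zero_or_pos t with rfl | htpos
  · have : w = [] := List.eq_nil_of_length_eq_zero hw
    subst this
    simpa using hB 0 (by rw [norm_zero]; positivity)
  have ht1 : (1 : ℝ) ≤ t := by exact_mod_cast htpos
  obtain ⟨i, hi⟩ := exists_frequent hd w
  set m := w.count i with hm
  set w'' := w.filter (fun x => ¬ x = i) with hw''
  have hperm : w.Perm (List.replicate m i ++ w'') := by
    have h1 := List.filter_append_perm (fun x => decide (x = i)) w
    rw [List.filter_eq] at h1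
    have h2 : w'' = List.filter (fun x => !decide (x = i)) w := by
      rw [hw'']; congr 1; funext x; simp
    rw [h2]
    exact h1.symm
  have hlen : m + w''.length = t := by
    rw [← hw, hperm.length_eq]; simp
  have hmt : m ≤ t := by omega
  have hmpos : 0 < m := by
    by_contra h
    have : m = 0 := by omega
    rw [this] at hi
    omega
  set l'' := w''.map b with hl''
  have hl''len : l''.length = w''.length := by rw [hl'', List.length_map]
  set g : ℂ → ℂ := fun s => dds l'' Φ (0 + s • b i) with hg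
  have hΦ'' : ∀ z, AnalyticAt ℂ (dds l'' Φ) z := fun z => analyticAt_dds (hΦ z) l''
  have hgd : Differentiable ℂ g := differentiable_line hΦ'' 0 (b i)
  have hgi : ∀ j s, iteratedDeriv j g s = dds (List.replicate j (b i) ++ l'') Φ (0 + s • b i) := by
    intro j s
    rw [hg, iteratedDeriv_line hΦ'', dds_append]
  have hord : ∀ n < d * k + 1, (m : ℕ∞) ≤ analyticOrderAt g (n * 1) := by
    intro n _
    rw [mul_one, natCast_le_analyticOrderAt_iff_iteratedDeriv_eq_zero (hgd.analyticAt _)]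
    intro j hj
    rw [hgi, zero_add]
    exact Van.add_nat (he i) hΦ (hper i) hv n _ (by simp [hl''len]; omega)
  have hgB : ∀ s : ℂ, ‖s‖ = 3 * (d * k + 1 : ℕ) * ‖(1 : ℂ)‖ →
      ‖g s‖ ≤ (ν * t) ^ w''.length * B := by
    intro s hs
    rw [norm_one, mul_one] at hs
    have h1 := norm_dds_le_cauchy hΦ (R := 3 * (d * k + 1 : ℕ) * ν) (B := B) (ν := ν)
      (by linarith) htpos hB l'' (by
        intro v hv
        obtain ⟨j, _, rfl⟩ := List.mem_map.mp (hl'' ▸ hv)
        exact hb j) (0 + s • b i) (by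
        rw [zero_add, norm_smul, hs, hl''len]
        have h2 : (w''.length : ℝ) / t ≤ 1 := by
          rw [div_le_one (by linarith)]
          exact_mod_cast (by omega : w''.length ≤ t)
        have h3 : 3 * ((d * k + 1 : ℕ) : ℝ) * ‖b i‖ ≤ 3 * ((d * k + 1 : ℕ) : ℝ) * ν := by
          gcongr; exact hb i
        linarith)
    rw [hl''len] at h1
    exact h1
  have hsch := schwarz_progression hgd (w := 1) one_ne_zero (M := d * k + 1) (T := m)
    (by omega) hord hgB
  have heq : dds (w.map b) Φ 0 = iteratedDeriv m g 0 := by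
    rw [hgi, zero_smul, add_zero, dds_perm (hperm.map b) (hΦ 0), List.map_append,
      List.map_replicate]
  rw [heq]
  refine hsch.trans ?_
  rw [Nat.add_sub_cancel, norm_one, mul_one]
  have hνt : 1 ≤ ν * t := one_le_mul_of_one_le_of_one_le hν ht1
  have h1 : ((m ! : ℕ) : ℝ) ≤ (t : ℝ) ^ t := by
    calc ((m ! : ℕ) : ℝ) ≤ ((t ! : ℕ) : ℝ) := by exact_mod_cast Nat.factorial_le hmt
      _ ≤ ((t ^ t : ℕ) : ℝ) := by exact_mod_cast Nat.factorial_le_pow t
      _ = (t : ℝ) ^ t := by push_cast; ring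
  have h2 : (ν * t) ^ w''.length * B / (3 * ((d * k + 1 : ℕ) : ℝ)) ^ m ≤ (ν * t) ^ t * B := by
    have h3 : (1 : ℝ) ≤ (3 * ((d * k + 1 : ℕ) : ℝ)) ^ m := by
      apply one_le_pow₀
      have : (1 : ℝ) ≤ ((d * k + 1 : ℕ) : ℝ) := by
        exact_mod_cast (by omega : 1 ≤ d * k + 1)
      linarith
    calc (ν * t) ^ w''.length * B / (3 * ((d * k + 1 : ℕ) : ℝ)) ^ m ≤ (ν * t) ^ w''.length * B :=
          div_le_self (by positivity) h3
      _ ≤ (ν * t) ^ t * B := by
          gcongr
          omega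
  have h4 : ((1 : ℝ) / 2) ^ (d * k * m) ≤ (1 / 2) ^ (k * t) := by
    apply pow_le_pow_of_le_one (by norm_num) (by norm_num)
    calc k * t ≤ k * (d * m) := by gcongr; omega
      _ = d * k * m := by ring
  calc ((m ! : ℕ) : ℝ) * ((ν * t) ^ w''.length * B / (3 * ((d * k + 1 : ℕ) : ℝ)) ^ m) *
        (1 / 2) ^ (d * k * m)
      ≤ (t : ℝ) ^ t * ((ν * t) ^ t * B) * (1 / 2) ^ (k * t) := by gcongr
    _ = _ := by ring

end Pool.Agent.Helper8
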