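import Mathlib
import Pool.Agent.Helper8.ModelLemmas

open scoped ComplexConjugate
open Filter Topology

namespace Pool.Agent.GPC

section Forms

variable {g : ℕ}

lemma hermForm_smul_left (H : Matrix (Fin g) (Fin g) ℂ) (c : ℂ) (z w : Fin g → ℂ) :
    hermForm H (c • z) w = c * hermForm H z w := by
  simp only [hermForm, Finset.mul_sum, Pi.smul_apply, smul_eq_mul]
  exact Finset.sum_congr rfl fun _ _ => Finset.sum_congr rfl fun _ _ => by ring

lemma hermForm_smul_right (H : Matrix (Fin g) (Fin g) ℂ) (c : ℂ) (z w : Fin g → ℂ) :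
    hermForm H z (c • w) = conj c * hermForm H z w := by
  simp only [hermForm, Finset.mul_sum, Pi.smul_apply, smul_eq_mul, map_mul]
  exact Finset.sum_congr rfl fun _ _ => Finset.sum_congr rfl fun _ _ => by ring

lemma hermForm_add_left (H : Matrix (Fin g) (Fin g) ℂ) (z z' w : Fin g → ℂ) :
    hermForm H (z + z') w = hermForm H z w + hermForm H z' w := by
  simp only [hermForm, ← Finset.sum_add_distrib, Pi.add_apply]
  exact Finset.sum_congr rfl fun _ _ => Finset.sum_congr rfl fun _ _ => by ring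

lemma bilForm_smul_left (q : Matrix (Fin g) (Fin g) ℂ) (c : ℂ) (z w : Fin g → ℂ) :
    bilForm q (c • z) w = c * bilForm q z w := by
  simp only [bilForm, Finset.mul_sum, Pi.smul_apply, smul_eq_mul]
  exact Finset.sum_congr rfl fun _ _ => Finset.sum_congr rfl fun _ _ => by ring

lemma bilForm_smul_right (q : Matrix (Fin g) (Fin g) ℂ) (c : ℂ) (z w : Fin g → ℂ) :
    bilForm q z (c • w) = c * bilForm q z w := by
  simp only [bilForm, Finset.mul_sum, Pi.smul_apply, smul_eq_mul]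
  exact Finset.sum_congr rfl fun _ _ => Finset.sum_congr rfl fun _ _ => by ring

lemma hermForm_single (H : Matrix (Fin g) (Fin g) ℂ) (a : Fin g) (w : Fin g → ℂ) :
    hermForm H (Pi.single a 1) w = ∑ b, H a b * conj (w b) := by
  classical
  unfold hermForm
  rw [Finset.sum_eq_single a]
  · simp
  · intro b _ hb
    simp [hb]
  · simp

lemma bilForm_single (q : Matrix (Fin g) (Fin g) ℂ) (a : Fin g) (w : Fin g → ℂ) :
    bilForm q (Pi.single a 1) w = ∑ b, q a b * w b := by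
  classical
  unfold bilForm
  rw [Finset.sum_eq_single a]
  · simp
  · intro b _ hb
    simp [hb]
  · simp

lemma hermForm_eq_sum (H : Matrix (Fin g) (Fin g) ℂ) (z w : Fin g → ℂ) :
    hermForm H z w = ∑ a, z a * hermForm H (Pi.single a 1) w := by
  simp_rw [hermForm_single]
  simp only [Finset.mul_sum, hermForm, mul_assoc]

lemma bilForm_eq_sum (q : Matrix (Fin g) (Fin g) ℂ) (z w : Fin g → ℂ) :
    bilForm q z w = ∑ a, z a * bilForm q (Pi.single a 1) w := by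
  simp_rw [bilForm_single]
  simp only [Finset.mul_sum, bilForm, mul_assoc]

lemma exists_norm_hermForm_le (H : Matrix (Fin g) (Fin g) ℂ) :
    ∃ C : ℝ, 0 ≤ C ∧ ∀ z w, ‖hermForm H z w‖ ≤ C * ‖z‖ * ‖w‖ := by
  refine ⟨∑ a, ∑ b, ‖H a b‖, Finset.sum_nonneg fun _ _ => Finset.sum_nonneg fun _ _ =>
    norm_nonneg _, fun z w => ?_⟩
  unfold hermForm
  refine (norm_sum_le _ _).trans ?_
  rw [Finset.sum_mul, Finset.sum_mul]
  apply Finset.sum_le_sum
  intro a _
  refine (norm_sum_le _ _).trans ?_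
  rw [Finset.sum_mul, Finset.sum_mul]
  apply Finset.sum_le_sum
  intro b _
  rw [norm_mul, norm_mul, RCLike.norm_conj]
  calc ‖z a‖ * ‖H a b‖ * ‖w b‖ ≤ ‖z‖ * ‖H a b‖ * ‖w‖ := by
        gcongr
        · exact norm_le_pi_norm z a
        · exact norm_le_pi_norm w b
    _ = ‖H a b‖ * ‖z‖ * ‖w‖ := by ring

lemma exists_norm_bilForm_le (q : Matrix (Fin g) (Fin g) ℂ) :
    ∃ C : ℝ, 0 ≤ C ∧ ∀ z w, ‖bilForm q z w‖ ≤ C * ‖z‖ * ‖w‖ := by
  refine ⟨∑ a, ∑ b, ‖q a b‖, Finset.sum_nonneg fun _ _ => Finset.sum_nonneg fun _ _ =>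
    norm_nonneg _, fun z w => ?_⟩
  unfold bilForm
  refine (norm_sum_le _ _).trans ?_
  rw [Finset.sum_mul, Finset.sum_mul]
  apply Finset.sum_le_sum
  intro a _
  refine (norm_sum_le _ _).trans ?_
  rw [Finset.sum_mul, Finset.sum_mul]
  apply Finset.sum_le_sum
  intro b _
  rw [norm_mul, norm_mul]
  calc ‖z a‖ * ‖q a b‖ * ‖w b‖ ≤ ‖z‖ * ‖q a b‖ * ‖w‖ := by
        gcongr
        · exact norm_le_pi_norm z a
        · exact norm_le_pi_norm w b
    _ = ‖q a b‖ * ‖z‖ * ‖w‖ := by ring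

end Forms

namespace AbVar

variable (A : AbVar)

lemma exists_lattice_near : ∃ R : ℝ, 0 ≤ R ∧ ∀ z : Fin A.g → ℂ, ∃ l ∈ A.Λ, ‖z - l‖ ≤ R := by
  have := A.discrete
  have : IsZLattice ℝ A.Λ := ⟨A.spans⟩
  set b := (Module.Free.chooseBasis ℤ A.Λ).ofZLatticeBasis ℝ A.Λ with hb
  refine ⟨∑ i, ‖b i‖, Finset.sum_nonneg fun _ _ => norm_nonneg _, fun z => ?_⟩
  refine ⟨ZSpan.floor b z, ?_, ?_⟩
  · have h1 : (ZSpan.floor b z : Fin A.g → ℂ) ∈ Submodule.span ℤ (Set.range b) :=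
      (ZSpan.floor b z).2
    have h2 : Submodule.span ℤ (Set.range b) = A.Λ := Module.Basis.ofZLatticeBasis_span ..
    exact h2.le h1
  · exact ZSpan.norm_fract_le b z

/-- theta functions have order at most two. -/
lemma exists_growth : ∃ C : ℝ, 0 ≤ C ∧ ∀ i z, ‖A.θ i z‖ ≤ Real.exp (C * (1 + ‖z‖ ^ 2)) := by
  obtain ⟨R, hR0, hR⟩ := A.exists_lattice_near
  obtain ⟨CH, hCH0, hCH⟩ := exists_norm_hermForm_le A.H
  obtain ⟨Cq, hCq0, hCq⟩ := exists_norm_bilForm_le A.q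
  -- bound on the ball
  have hM : ∃ M : ℝ, 1 ≤ M ∧ ∀ i, ∀ y ∈ Metric.closedBall (0 : Fin A.g → ℂ) R, ‖A.θ i y‖ ≤ M := by
    have h1 : ∀ i, ∃ M : ℝ, ∀ y ∈ Metric.closedBall (0 : Fin A.g → ℂ) R, ‖A.θ i y‖ ≤ M := by
      intro i
      have hc : ContinuousOn (A.θ i) (Metric.closedBall (0 : Fin A.g → ℂ) R) :=
        ((A.entire i).continuousOn).mono (Set.subset_univ _)
      exact (isCompact_closedBall (0 : Fin A.g → ℂ) R).exists_bound_of_continuousOn hc
    choose M hM using h1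
    refine ⟨1 + ∑ i, |M i|, ?_, ?_⟩
    · have : 0 ≤ ∑ i, |M i| := Finset.sum_nonneg fun _ _ => abs_nonneg _
      linarith
    · intro i y hy
      have h2 : |M i| ≤ ∑ i, |M i| :=
        Finset.single_le_sum (f := fun i => |M i|) (fun _ _ => abs_nonneg _) (Finset.mem_univ i)
      have h3 := hM i y hy
      have h4 := le_abs_self (M i)
      linarith
  obtain ⟨M, hM1, hM⟩ := hM
  set K : ℝ := Real.pi * CH + Real.pi / 2 * CH + Cq + Cq with hK
  have hK0 : 0 ≤ K := by positivity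
  refine ⟨Real.log M + K * (2 * R ^ 2 + R + 3), ?_, ?_⟩
  · have := Real.log_nonneg hM1
    positivity
  intro i z
  obtain ⟨l, hl, hzl⟩ := hR z
  set y := z - l with hy
  have hz : z = y + l := by rw [hy]; simp
  have hln : ‖l‖ ≤ ‖z‖ + R := by
    have h1 : l = z - y := by rw [hy]; simp
    calc ‖l‖ = ‖z - y‖ := by rw [← h1]
      _ ≤ ‖z‖ + ‖y‖ := norm_sub_le _ _
      _ ≤ ‖z‖ + R := by linarith
  have hyball : y ∈ Metric.closedBall (0 : Fin A.g → ℂ) R := by simpa using hzl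
  conv_lhs => rw [hz]
  rw [A.quasi i l hl y, norm_mul, norm_mul, A.χ_norm l hl, one_mul, Complex.norm_exp]
  have hexp : (Real.pi * hermForm A.H y l + Real.pi / 2 * hermForm A.H l l + bilForm A.q y l +
      1 / 2 * bilForm A.q l l).re ≤ K * ((R + (‖z‖ + R)) * (‖z‖ + R)) := by
    refine (Complex.re_le_norm _).trans ?_
    refine (norm_add_le _ _).trans ?_
    have h1 : ‖(Real.pi : ℂ) * hermForm A.H y l‖ ≤ Real.pi * CH * (R * (‖z‖ + R)) := by
      rw [norm_mul, Complex.norm_real, Real.norm_of_nonneg Real.pi_pos.le]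
      calc Real.pi * ‖hermForm A.H y l‖ ≤ Real.pi * (CH * ‖y‖ * ‖l‖) := by gcongr; exact hCH _ _
        _ ≤ Real.pi * (CH * R * (‖z‖ + R)) := by gcongr
        _ = _ := by ring
    have h2 : ‖(Real.pi : ℂ) / 2 * hermForm A.H l l‖ ≤
        Real.pi / 2 * CH * ((‖z‖ + R) * (‖z‖ + R)) := by
      rw [norm_mul, norm_div, Complex.norm_real, Real.norm_of_nonneg Real.pi_pos.le]
      simp only [Complex.norm_ofNat]
      calc Real.pi / 2 * ‖hermForm A.H l l‖ ≤ Real.pi / 2 * (CH * ‖l‖ * ‖l‖) := by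
            gcongr; exact hCH _ _
        _ ≤ Real.pi / 2 * (CH * (‖z‖ + R) * (‖z‖ + R)) := by gcongr
        _ = _ := by ring
    have h3 : ‖bilForm A.q y l‖ ≤ Cq * (R * (‖z‖ + R)) := by
      calc ‖bilForm A.q y l‖ ≤ Cq * ‖y‖ * ‖l‖ := hCq _ _
        _ ≤ Cq * R * (‖z‖ + R) := by gcongr
        _ = _ := by ring
    have h4 : ‖(1 : ℂ) / 2 * bilForm A.q l l‖ ≤ Cq * ((‖z‖ + R) * (‖z‖ + R)) := by
      rw [norm_mul, norm_div, norm_one, Complex.norm_ofNat]
      calc (1 : ℝ) / 2 * ‖bilForm A.q l l‖ ≤ 1 * (Cq * ‖l‖ * ‖l‖) := by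
            gcongr
            · norm_num
            · exact hCq _ _
        _ ≤ 1 * (Cq * (‖z‖ + R) * (‖z‖ + R)) := by gcongr
        _ = _ := by ring
    have h5 : ‖(Real.pi : ℂ) * hermForm A.H y l + Real.pi / 2 * hermForm A.H l l +
        bilForm A.q y l‖ ≤ ‖(Real.pi : ℂ) * hermForm A.H y l‖ +
        ‖(Real.pi : ℂ) / 2 * hermForm A.H l l‖ + ‖bilForm A.q y l‖ :=
      (norm_add_le _ _).trans (by gcongr; exact norm_add_le _ _)
    have hz0 : 0 ≤ ‖z‖ + R := by positivity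
    have h6 : R * (‖z‖ + R) ≤ (R + (‖z‖ + R)) * (‖z‖ + R) := by nlinarith
    have h7 : (‖z‖ + R) * (‖z‖ + R) ≤ (R + (‖z‖ + R)) * (‖z‖ + R) := by nlinarith
    have h8 : Real.pi * CH * (R * (‖z‖ + R)) ≤ Real.pi * CH * ((R + (‖z‖ + R)) * (‖z‖ + R)) := by
      gcongr
    have h9 : Real.pi / 2 * CH * ((‖z‖ + R) * (‖z‖ + R)) ≤
        Real.pi / 2 * CH * ((R + (‖z‖ + R)) * (‖z‖ + R)) := by
      gcongr
    have h10 : Cq * (R * (‖z‖ + R)) ≤ Cq * ((R + (‖z‖ + R)) * (‖z‖ + R)) := by gcongr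
    have h11 : Cq * ((‖z‖ + R) * (‖z‖ + R)) ≤ Cq * ((R + (‖z‖ + R)) * (‖z‖ + R)) := by gcongr
    rw [hK]
    linarith
  have hθ : ‖A.θ i y‖ ≤ Real.exp (Real.log M) := by
    rw [Real.exp_log (by linarith)]
    exact hM i y hyball
  calc Real.exp (_ : ℂ).re * ‖A.θ i y‖ ≤ Real.exp (K * ((R + (‖z‖ + R)) * (‖z‖ + R))) *
      Real.exp (Real.log M) := by
        gcongr
    _ = Real.exp (K * ((R + (‖z‖ + R)) * (‖z‖ + R)) + Real.log M) := by rw [Real.exp_add]
    _ ≤ Real.exp ((Real.log M + K * (2 * R ^ 2 + R + 3)) * (1 + ‖z‖ ^ 2)) := by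
        apply Real.exp_le_exp.mpr
        have h1 : Real.log M ≤ Real.log M * (1 + ‖z‖ ^ 2) := by
          have := Real.log_nonneg hM1
          nlinarith [sq_nonneg ‖z‖]
        have h2 : (R + (‖z‖ + R)) * (‖z‖ + R) ≤ (2 * R ^ 2 + R + 3) * (1 + ‖z‖ ^ 2) := by
          nlinarith [sq_nonneg (‖z‖ - 1), sq_nonneg ‖z‖, norm_nonneg z, mul_nonneg hR0 (norm_nonneg z),
            sq_nonneg (R - ‖z‖), sq_nonneg (R * ‖z‖), mul_nonneg hR0 (sq_nonneg ‖z‖),
            mul_nonneg hR0 (sq_nonneg (‖z‖ - 1)), sq_nonneg (R-1), sq_nonneg (R * ‖z‖ - R),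
            sq_nonneg (R * ‖z‖ - ‖z‖)]
        have h3 : K * ((R + (‖z‖ + R)) * (‖z‖ + R)) ≤ K * ((2 * R ^ 2 + R + 3) * (1 + ‖z‖ ^ 2)) := by
          gcongr
        nlinarith

end AbVar

end Pool.Agent.GPC
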