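import Mathlib

open MvPolynomial

namespace Pool.Agent.GPC

/-- All coefficients are algebraic numbers. -/
def AlgPoly {ι : Type*} (P : MvPolynomial ι ℂ) : Prop := ∀ m, IsAlgebraic ℚ (P.coeff m)

namespace AlgPoly

variable {ι κ : Type*}

lemma iff_range (P : MvPolynomial ι ℂ) :
    AlgPoly P ↔ P ∈ (MvPolynomial.map (σ := ι) (algebraMap (algebraicClosure ℚ ℂ) ℂ)).range := by
  rw [← SetLike.mem_coe, RingHom.coe_range, mem_range_map_iff_coeffs_subset]
  constructor
  · intro h c hc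
    obtain ⟨m, _, rfl⟩ := mem_coeffs_iff.mp hc
    exact ⟨⟨P.coeff m, mem_algebraicClosure_iff.mpr (h m)⟩, rfl⟩
  · intro h m
    by_cases hm : P.coeff m = 0
    · rw [hm]; exact isAlgebraic_zero
    · obtain ⟨y, hy⟩ := h (coeff_mem_coeffs m hm)
      rw [← hy]
      exact mem_algebraicClosure_iff.mp y.2

lemma add {P Q : MvPolynomial ι ℂ} (hP : AlgPoly P) (hQ : AlgPoly Q) : AlgPoly (P + Q) := by
  rw [iff_range] at *; exact add_mem hP hQ

lemma sub {P Q : MvPolynomial ι ℂ} (hP : AlgPoly P) (hQ : AlgPoly Q) : AlgPoly (P - Q) := by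
  rw [iff_range] at *; exact sub_mem hP hQ

lemma mul {P Q : MvPolynomial ι ℂ} (hP : AlgPoly P) (hQ : AlgPoly Q) : AlgPoly (P * Q) := by
  rw [iff_range] at *; exact mul_mem hP hQ

lemma sum {α : Type*} (s : Finset α) (f : α → MvPolynomial ι ℂ) (h : ∀ a ∈ s, AlgPoly (f a)) :
    AlgPoly (∑ a ∈ s, f a) := by
  rw [iff_range]; exact sum_mem fun a ha => (iff_range _).mp (h a ha)

lemma C {c : ℂ} (hc : IsAlgebraic ℚ c) : AlgPoly (MvPolynomial.C c : MvPolynomial ι ℂ) := by
  rw [iff_range]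
  exact ⟨MvPolynomial.C ⟨c, mem_algebraicClosure_iff.mpr hc⟩, by simp⟩

lemma rename (f : ι → κ) {P : MvPolynomial ι ℂ} (hP : AlgPoly P) :
    AlgPoly (MvPolynomial.rename f P) := by
  rw [iff_range] at *
  obtain ⟨Q, rfl⟩ := hP
  exact ⟨MvPolynomial.rename f Q, by simp [map_rename]⟩

end AlgPoly

/-- homogeneity of evaluation. -/
lemma eval_smul_of_isHomogeneous {ι : Type*} {P : MvPolynomial ι ℂ} {n : ℕ}
    (hP : P.IsHomogeneous n) (c : ℂ) (x : ι → ℂ) :
    eval (fun i => c * x i) P = c ^ n * eval x P := by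
  rw [eval_eq, eval_eq, Finset.mul_sum]
  apply Finset.sum_congr rfl
  intro m hm
  have h1 : m.degree = n := by
    have := hP (mem_support_iff.mp hm)
    rw [Finsupp.degree_eq_weight_one (R := ℕ)]
    exact this
  simp only [mul_pow, Finset.prod_mul_distrib]
  rw [Finset.prod_pow_eq_pow_sum]
  have h2 : ∑ i ∈ m.support, m i = n := by rw [← h1]; rfl
  rw [h2]
  ring

end Pool.Agent.GPC
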