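import Mathlib

/-!
Arithmetic part of the Schneider-Lang argument: growth of iterated derivations on polynomial rings.
-/

open MvPolynomial

namespace Pool.Agent.Helper8

section L1

variable {R : Type*} [CommRing R] {ι : Type*}

/-- the `ℓ¹`-norm of a polynomial with respect to a complex embedding of the coefficients. -/
noncomputable def l1 (σ : R →+* ℂ) (Q : MvPolynomial ι R) : ℝ :=
  ∑ m ∈ Q.support, ‖σ (Q.coeff m)‖

variable (σ : R →+* ℂ)

lemma l1_nonneg (Q : MvPolynomial ι R) : 0 ≤ l1 σ Q := Finset.sum_nonneg fun _ _ => norm_nonneg _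

lemma l1_eq_sum_of_subset (Q : MvPolynomial ι R) {s : Finset (ι →₀ ℕ)} (hs : Q.support ⊆ s) :
    l1 σ Q = ∑ m ∈ s, ‖σ (Q.coeff m)‖ := by
  unfold l1
  apply Finset.sum_subset hs
  intro m _ hm
  rw [notMem_support_iff.mp hm]
  simp

@[simp] lemma l1_zero : l1 σ (0 : MvPolynomial ι R) = 0 := by simp [l1]

lemma l1_add_le (P Q : MvPolynomial ι R) : l1 σ (P + Q) ≤ l1 σ P + l1 σ Q := by
  classical
  rw [l1_eq_sum_of_subset σ (P + Q) (support_add),
    l1_eq_sum_of_subset σ P (Finset.subset_union_left (s₂ := Q.support)),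
    l1_eq_sum_of_subset σ Q (Finset.subset_union_right (s₁ := P.support)),
    ← Finset.sum_add_distrib]
  apply Finset.sum_le_sum
  intro m _
  rw [coeff_add, map_add]
  exact norm_add_le _ _

lemma l1_sum_le {α : Type*} (s : Finset α) (f : α → MvPolynomial ι R) :
    l1 σ (∑ a ∈ s, f a) ≤ ∑ a ∈ s, l1 σ (f a) := by
  classical
  induction s using Finset.induction_on with
  | empty => simp
  | insert a s ha ih =>
    rw [Finset.sum_insert ha, Finset.sum_insert ha]
    exact (l1_add_le σ _ _).trans (by gcongr)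

lemma l1_monomial (m : ι →₀ ℕ) (c : R) : l1 σ (monomial m c) = ‖σ c‖ := by
  classical
  rw [l1_eq_sum_of_subset σ (monomial m c) (support_monomial_subset)]
  simp

lemma l1_monomial_mul_le (m : ι →₀ ℕ) (c : R) (Q : MvPolynomial ι R) :
    l1 σ (monomial m c * Q) ≤ ‖σ c‖ * l1 σ Q := by
  classical
  have h : monomial m c * Q = ∑ k ∈ Q.support, monomial (m + k) (c * Q.coeff k) := by
    conv_lhs => rw [Q.as_sum]
    rw [Finset.mul_sum]
    simp [monomial_mul]
  rw [h]
  refine (l1_sum_le σ _ _).trans ?_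
  simp only [l1_monomial, map_mul, norm_mul]
  rw [← Finset.mul_sum]
  rfl

lemma l1_mul_le (P Q : MvPolynomial ι R) : l1 σ (P * Q) ≤ l1 σ P * l1 σ Q := by
  classical
  conv_lhs => rw [P.as_sum, Finset.sum_mul]
  refine (l1_sum_le σ _ _).trans ?_
  rw [l1, Finset.sum_mul]
  exact Finset.sum_le_sum fun m _ => l1_monomial_mul_le σ _ _ _

/-- evaluation bound -/
lemma norm_eval_le (Q : MvPolynomial ι R) {x : ι → R} {X : ℝ} (hX : 1 ≤ X)
    (hx : ∀ i, ‖σ (x i)‖ ≤ X) {D : ℕ} (hD : Q.totalDegree ≤ D) :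
    ‖σ (eval x Q)‖ ≤ l1 σ Q * X ^ D := by
  classical
  rw [eval_eq, map_sum]
  refine (norm_sum_le _ _).trans ?_
  rw [l1, Finset.sum_mul]
  apply Finset.sum_le_sum
  intro m hm
  rw [map_mul, norm_mul, map_prod, norm_prod]
  gcongr
  calc ∏ i ∈ m.support, ‖σ (x i ^ m i)‖ ≤ ∏ i ∈ m.support, X ^ m i := by
        apply Finset.prod_le_prod
        · intro i _; exact norm_nonneg _
        · intro i _
          rw [map_pow, norm_pow]
          exact pow_le_pow_left₀ (norm_nonneg _) (hx i) _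
    _ = X ^ (m.sum fun _ e => e) := by
        rw [Finset.prod_pow_eq_pow_sum]; rfl
    _ ≤ X ^ D := by
        apply pow_le_pow_right₀ hX
        exact (le_totalDegree hm).trans hD

end L1

section Deriv

variable {R : Type*} [CommRing R] {ι : Type*}

/-- the derivation `X_i ↦ P_i`. -/
noncomputable abbrev der (P : ι → MvPolynomial ι R) :
    Derivation R (MvPolynomial ι R) (MvPolynomial ι R) := mkDerivation R P

lemma der_eq_sum (P : ι → MvPolynomial ι R) (Q : MvPolynomial ι R) :
    der P Q = ∑ m ∈ Q.support, ∑ i ∈ m.support,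
      monomial (m - Finsupp.single i 1) (Q.coeff m * (m i : R)) * P i := by
  classical
  conv_lhs => rw [Q.as_sum]
  rw [map_sum]
  apply Finset.sum_congr rfl
  intro m _
  rw [mkDerivation_monomial, Finsupp.sum, Finset.smul_sum]
  apply Finset.sum_congr rfl
  intro i _
  rw [smul_eq_mul, ← smul_mul_assoc, smul_monomial, smul_eq_mul]

lemma l1_der_le (σ : R →+* ℂ) (P : ι → MvPolynomial ι R) {B : ℝ} (hB : ∀ i, l1 σ (P i) ≤ B)
    (Q : MvPolynomial ι R) {D : ℕ} (hD : Q.totalDegree ≤ D) (hB0 : 0 ≤ B) :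
    l1 σ (der P Q) ≤ D * B * l1 σ Q := by
  classical
  rw [der_eq_sum]
  refine (l1_sum_le σ _ _).trans ?_
  rw [l1, Finset.mul_sum]
  apply Finset.sum_le_sum
  intro m hm
  refine (l1_sum_le σ _ _).trans ?_
  calc ∑ i ∈ m.support, l1 σ (monomial (m - Finsupp.single i 1) (Q.coeff m * (m i : R)) * P i)
      ≤ ∑ i ∈ m.support, (‖σ (Q.coeff m)‖ * m i) * B := by
        apply Finset.sum_le_sum
        intro i _
        refine (l1_monomial_mul_le σ _ _ _).trans ?_
        rw [map_mul, norm_mul, map_natCast, Complex.norm_natCast]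
        gcongr
        exact hB i
    _ = (∑ i ∈ m.support, (m i : ℝ)) * B * ‖σ (Q.coeff m)‖ := by
        rw [Finset.sum_mul, Finset.sum_mul]
        apply Finset.sum_congr rfl
        intro i _; ring
    _ ≤ D * B * ‖σ (Q.coeff m)‖ := by
        gcongr
        have : (m.sum fun _ e => e) ≤ D := (le_totalDegree hm).trans hD
        rw [Finsupp.sum] at this
        exact_mod_cast this

lemma totalDegree_der_le (P : ι → MvPolynomial ι R) {r : ℕ} (hr : ∀ i, (P i).totalDegree ≤ r)
    (Q : MvPolynomial ι R) : (der P Q).totalDegree ≤ Q.totalDegree + r := by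
  classical
  rw [der_eq_sum]
  apply totalDegree_finsetSum_le
  intro m hm
  apply totalDegree_finsetSum_le
  intro i _
  refine (totalDegree_mul _ _).trans ?_
  gcongr
  · refine (totalDegree_monomial_le _ _).trans ?_
    refine le_trans ?_ (le_totalDegree hm)
    have : (m - Finsupp.single i 1).sum (fun _ e => e) ≤ m.sum fun _ e => e := by
      have h1 : m - Finsupp.single i 1 ≤ m := tsub_le_self
      exact Finsupp.degree_mono h1
    exact this
  · exact hr i

lemma iter_der_bounds (σ : R →+* ℂ) (P : ι → MvPolynomial ι R) {B : ℝ}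
    (hB : ∀ i, l1 σ (P i) ≤ B) (hB0 : 0 ≤ B) {r : ℕ} (hr : ∀ i, (P i).totalDegree ≤ r)
    (Q : MvPolynomial ι R) {D : ℕ} (hD : Q.totalDegree ≤ D) (t : ℕ) :
    ((der P)^[t] Q).totalDegree ≤ D + r * t ∧
      l1 σ ((der P)^[t] Q) ≤ (B * (D + r * t : ℕ)) ^ t * l1 σ Q := by
  induction t with
  | zero => simpa using hD
  | succ t ih =>
    rw [Function.iterate_succ_apply']
    refine ⟨?_, ?_⟩
    · refine (totalDegree_der_le P hr _).trans ?_
      have := ih.1
      rw [Nat.mul_succ]; omega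
    · refine (l1_der_le σ P hB _ ih.1 hB0).trans ?_
      have h1 := ih.2
      have h2 : ((D + r * t : ℕ) : ℝ) ≤ (D + r * (t + 1) : ℕ) := by
        exact_mod_cast (by rw [Nat.mul_succ]; omega)
      calc ((D + r * t : ℕ) : ℝ) * B * l1 σ ((der P)^[t] Q)
          ≤ ((D + r * t : ℕ) : ℝ) * B * ((B * (D + r * t : ℕ)) ^ t * l1 σ Q) := by gcongr
        _ ≤ ((D + r * (t + 1) : ℕ) : ℝ) * B * ((B * (D + r * (t + 1) : ℕ)) ^ t * l1 σ Q) := by
            have := l1_nonneg σ Q
            gcongr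
        _ = (B * (D + r * (t + 1) : ℕ)) ^ (t + 1) * l1 σ Q := by ring

end Deriv

end Pool.Agent.Helper8
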