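import Mathlib
import Pool.Agent.Helper8.SLArith

/-!
The periodic Schneider-Lang theorem, integral form.
-/

open MvPolynomial NumberField Filter Topology
open scoped Nat

namespace Pool.Agent.Helper8

section Ev

variable {R : Type*} [CommRing R] (ψ : R →+* ℂ) {ι : Type*}

lemma hasDerivAt_eval₂ (P : ι → MvPolynomial ι R) (F : ι → ℂ → ℂ) (z : ℂ)
    (hder : ∀ i, HasDerivAt (F i) (eval₂ ψ (fun j => F j z) (P i)) z) (Q : MvPolynomial ι R) :
    HasDerivAt (fun z => eval₂ ψ (fun j => F j z) Q) (eval₂ ψ (fun j => F j z) (der P Q)) z := by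
  induction Q using MvPolynomial.induction_on with
  | C a => simpa using hasDerivAt_const z (ψ a)
  | add p q hp hq =>
    simp only [eval₂_add, map_add]
    exact hp.add hq
  | mul_X p n hp =>
    have h1 := hp.mul (hder n)
    have h2 : eval₂ ψ (fun j => F j z) (der P (p * X n)) =
        eval₂ ψ (fun j => F j z) ((der P) p) * F n z +
          eval₂ ψ (fun j => F j z) p * eval₂ ψ (fun j => F j z) (P n) := by
      rw [Derivation.leibniz, mkDerivation_X, smul_eq_mul, smul_eq_mul, eval₂_add, eval₂_mul,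
        eval₂_mul, eval₂_X]
      ring
    have h3 : (fun z => eval₂ ψ (fun j => F j z) (p * X n)) =
        (fun z => eval₂ ψ (fun j => F j z) p) * F n := by
      ext z; simp [eval₂_mul, eval₂_X]
    rw [h2, h3]
    exact h1

lemma iteratedDeriv_eval₂ (P : ι → MvPolynomial ι R) (F : ι → ℂ → ℂ) {U : Set ℂ} (hU : IsOpen U)
    (hder : ∀ z ∈ U, ∀ i, HasDerivAt (F i) (eval₂ ψ (fun j => F j z) (P i)) z)
    (Q : MvPolynomial ι R) (t : ℕ) :
    ∀ z ∈ U, iteratedDeriv t (fun z => eval₂ ψ (fun j => F j z) Q) z =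
      eval₂ ψ (fun j => F j z) ((der P)^[t] Q) := by
  induction t with
  | zero => intro z _; simp
  | succ t ih =>
    intro z hz
    rw [iteratedDeriv_succ, Function.iterate_succ_apply']
    have h1 : iteratedDeriv t (fun z => eval₂ ψ (fun j => F j z) Q) =ᶠ[𝓝 z]
        fun z => eval₂ ψ (fun j => F j z) ((der P)^[t] Q) := by
      filter_upwards [hU.mem_nhds hz] with y hy
      exact ih y hy
    rw [h1.deriv_eq]
    exact (hasDerivAt_eval₂ ψ P F z (hder z hz) _).deriv

end Ev

/-- elementary growth statement. -/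
lemma exists_nat_large (a b : ℝ) : ∃ k₀ : ℕ, ∀ k : ℕ, k₀ ≤ k →
    a + b * Real.log (k + 1) < k * Real.log 2 := by
  have h1 : Tendsto (fun x : ℝ => (a + b * Real.log x) / x) atTop (𝓝 0) := by
    have h2 : Tendsto (fun x : ℝ => Real.log x / x) atTop (𝓝 0) :=
      Real.isLittleO_log_id_atTop.tendsto_div_nhds_zero
    have h3 : Tendsto (fun x : ℝ => a / x) atTop (𝓝 0) := tendsto_const_nhds.div_atTop tendsto_id
    have h4 := h3.add (h2.const_mul b)
    simp only [mul_zero, add_zero] at h4
    refine h4.congr fun x => ?_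
    ring
  have h5 : ∀ᶠ x : ℝ in atTop, (a + b * Real.log x) / x < Real.log 2 / 2 :=
    h1.eventually_lt_const (by positivity)
  have h6 : Tendsto (fun k : ℕ => (k : ℝ) + 1) atTop atTop :=
    tendsto_atTop_add_const_right _ _ tendsto_natCast_atTop_atTop
  obtain ⟨k₀, hk₀⟩ := (eventually_atTop.mp (h6.eventually h5))
  refine ⟨max k₀ 1, fun k hk => ?_⟩
  have h7 := hk₀ k (le_trans (le_max_left _ _) hk)
  have hk1 : (1 : ℝ) ≤ k := by exact_mod_cast le_trans (le_max_right _ _) hk
  rw [div_lt_iff₀ (by positivity)] at h7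
  have hl : 0 < Real.log 2 := Real.log_pos (by norm_num)
  nlinarith

end Pool.Agent.Helper8
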