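import Mathlib
import Pool.Agent.Helper8.SLArith

/-!
House estimates, Liouville inequality, Siegel lemma.
-/

open MvPolynomial NumberField

namespace Pool.Agent.Helper8

variable {K : Type*} [Field K] [NumberField K]

lemma house_le_of_forall {a : K} {A : ℝ} (h : ∀ σ : K →+* ℂ, ‖σ a‖ ≤ A) :
    house a ≤ A := by
  have hA : 0 ≤ A := (norm_nonneg _).trans (h (Classical.arbitrary _))
  lift A to NNReal using hA
  rw [house_eq_sup']
  norm_cast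
  rw [Finset.sup'_le_iff]
  intro σ _
  exact_mod_cast h σ

/-- Bound for the iterated derivatives. -/
lemma exists_house_bound {ι : Type*} [Finite ι] (P : ι → MvPolynomial ι (𝓞 K)) (x : ι → 𝓞 K) :
    ∃ C : ℝ, 1 ≤ C ∧ ∀ (Q : MvPolynomial ι (𝓞 K)) (D t : ℕ) (H : ℝ), Q.totalDegree ≤ D →
      (∀ σ : K →+* ℂ, l1 (σ.comp (algebraMap (𝓞 K) K)) Q ≤ H) →
      house (algebraMap (𝓞 K) K (eval x ((der P)^[t] Q))) ≤ C ^ (t + D) * ((D + t : ℕ) : ℝ) ^ t * H := by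
  classical
  have := Fintype.ofFinite ι
  -- constants
  obtain ⟨B, hB1, hB⟩ : ∃ B : ℝ, 1 ≤ B ∧ ∀ (σ : K →+* ℂ) i,
      l1 (σ.comp (algebraMap (𝓞 K) K)) (P i) ≤ B := by
    refine ⟨1 + ∑ σ : K →+* ℂ, ∑ i, l1 (σ.comp (algebraMap (𝓞 K) K)) (P i), ?_, ?_⟩
    · have : 0 ≤ ∑ σ : K →+* ℂ, ∑ i, l1 (σ.comp (algebraMap (𝓞 K) K)) (P i) :=
        Finset.sum_nonneg fun _ _ => Finset.sum_nonneg fun _ _ => l1_nonneg _ _
      linarith
    · intro σ i
      have h1 : l1 (σ.comp (algebraMap (𝓞 K) K)) (P i) ≤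
          ∑ i, l1 (σ.comp (algebraMap (𝓞 K) K)) (P i) :=
        Finset.single_le_sum (f := fun i => l1 (σ.comp (algebraMap (𝓞 K) K)) (P i))
          (fun i _ => l1_nonneg _ _) (Finset.mem_univ i)
      have h2 : ∑ i, l1 (σ.comp (algebraMap (𝓞 K) K)) (P i) ≤
          ∑ σ : K →+* ℂ, ∑ i, l1 (σ.comp (algebraMap (𝓞 K) K)) (P i) :=
        Finset.single_le_sum (f := fun σ : K →+* ℂ => ∑ i, l1 (σ.comp (algebraMap (𝓞 K) K)) (P i))
          (fun _ _ => Finset.sum_nonneg fun _ _ => l1_nonneg _ _) (Finset.mem_univ σ)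
      linarith
  obtain ⟨X, hX1, hX⟩ : ∃ X : ℝ, 1 ≤ X ∧ ∀ (σ : K →+* ℂ) i,
      ‖(σ.comp (algebraMap (𝓞 K) K)) (x i)‖ ≤ X := by
    refine ⟨1 + ∑ σ : K →+* ℂ, ∑ i, ‖(σ.comp (algebraMap (𝓞 K) K)) (x i)‖, ?_, ?_⟩
    · have : 0 ≤ ∑ σ : K →+* ℂ, ∑ i, ‖(σ.comp (algebraMap (𝓞 K) K)) (x i)‖ :=
        Finset.sum_nonneg fun _ _ => Finset.sum_nonneg fun _ _ => norm_nonneg _
      linarith
    · intro σ i
      have h1 : ‖(σ.comp (algebraMap (𝓞 K) K)) (x i)‖ ≤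
          ∑ i, ‖(σ.comp (algebraMap (𝓞 K) K)) (x i)‖ :=
        Finset.single_le_sum (f := fun i => ‖(σ.comp (algebraMap (𝓞 K) K)) (x i)‖)
          (fun i _ => norm_nonneg _) (Finset.mem_univ i)
      have h2 : ∑ i, ‖(σ.comp (algebraMap (𝓞 K) K)) (x i)‖ ≤
          ∑ σ : K →+* ℂ, ∑ i, ‖(σ.comp (algebraMap (𝓞 K) K)) (x i)‖ :=
        Finset.single_le_sum (f := fun σ : K →+* ℂ => ∑ i, ‖(σ.comp (algebraMap (𝓞 K) K)) (x i)‖)
          (fun _ _ => Finset.sum_nonneg fun _ _ => norm_nonneg _) (Finset.mem_univ σ)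
      linarith
  obtain ⟨r, hr⟩ : ∃ r : ℕ, ∀ i, (P i).totalDegree ≤ r :=
    ⟨∑ i, (P i).totalDegree, fun i =>
      Finset.single_le_sum (f := fun i => (P i).totalDegree) (fun _ _ => Nat.zero_le _)
        (Finset.mem_univ i)⟩
  have hBr : 1 ≤ B * (r + 1) := by
    have : (0 : ℝ) ≤ r := Nat.cast_nonneg r
    nlinarith
  refine ⟨B * (r + 1) * X ^ (r + 1), one_le_mul_of_one_le_of_one_le hBr (one_le_pow₀ hX1), ?_⟩
  intro Q D t H hD hH
  apply house_le_of_forall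
  intro σ
  have hH0 : 0 ≤ H := (l1_nonneg _ _).trans (hH σ)
  obtain ⟨hdeg, hl1⟩ := iter_der_bounds (σ.comp (algebraMap (𝓞 K) K)) P (hB σ) (by linarith)
    hr Q hD t
  have h1 := norm_eval_le (σ.comp (algebraMap (𝓞 K) K)) ((der P)^[t] Q) hX1 (hX σ) hdeg
  have h2 : ((D + r * t : ℕ) : ℝ) ≤ (r + 1) * ((D + t : ℕ) : ℝ) := by
    have : D + r * t ≤ (r + 1) * (D + t) := by nlinarith [Nat.zero_le (r * D)]
    exact_mod_cast this
  have h3 : D + r * t ≤ (r + 1) * (t + D) := by nlinarith [Nat.zero_le (r * D)]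
  calc ‖σ (algebraMap (𝓞 K) K (eval x ((der P)^[t] Q)))‖
      ≤ l1 (σ.comp (algebraMap (𝓞 K) K)) ((der P)^[t] Q) * X ^ (D + r * t) := h1
    _ ≤ (B * (D + r * t : ℕ)) ^ t * H * X ^ (D + r * t) := by
        gcongr
        exact hl1.trans (by gcongr; exact hH σ)
    _ ≤ (B * ((r + 1) * ((D + t : ℕ) : ℝ))) ^ t * H * X ^ ((r + 1) * (t + D)) := by
        gcongr
    _ = (B * (r + 1)) ^ t * (X ^ (r + 1)) ^ (t + D) * ((D + t : ℕ) : ℝ) ^ t * H := by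
        rw [← mul_assoc, mul_pow (B * (r + 1)), pow_mul]; ring
    _ ≤ (B * (r + 1)) ^ (t + D) * (X ^ (r + 1)) ^ (t + D) * ((D + t : ℕ) : ℝ) ^ t * H := by
        gcongr
        · omega
    _ = (B * (r + 1) * X ^ (r + 1)) ^ (t + D) * ((D + t : ℕ) : ℝ) ^ t * H := by
        rw [mul_pow (B * (r + 1))]

/-- Liouville inequality for algebraic integers. -/
lemma one_le_norm_mul_house_pow {γ : 𝓞 K} (hγ : γ ≠ 0) (φ : K →+* ℂ) :
    1 ≤ ‖φ (algebraMap (𝓞 K) K γ)‖ *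
      house (algebraMap (𝓞 K) K γ) ^ (Module.finrank ℚ K - 1) := by
  refine le_trans ?_ (norm_norm_le_norm_mul_house_pow (algebraMap (𝓞 K) K γ) φ)
  have hint : IsIntegral ℤ (Algebra.norm ℚ (algebraMap (𝓞 K) K γ)) :=
    Algebra.isIntegral_norm ℚ (RingOfIntegers.isIntegral_coe γ)
  obtain ⟨n, hn⟩ := IsIntegrallyClosed.isIntegral_iff.mp hint
  have hne : Algebra.norm ℚ (algebraMap (𝓞 K) K γ) ≠ 0 := by
    rw [Algebra.norm_ne_zero_iff]
    simpa using hγ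
  rw [← hn] at hne ⊢
  have hn0 : n ≠ 0 := by
    rintro rfl; simp at hne
  simp only [algebraMap_int_eq, eq_intCast]
  have : (1 : ℝ) ≤ |(n : ℝ)| := by exact_mod_cast Int.one_le_abs hn0
  simpa [Int.norm_eq_abs] using this

/-- Siegel lemma with twice as many unknowns as equations. -/
lemma siegel (K : Type*) [Field K] [NumberField K] : ∃ c : ℝ, 1 ≤ c ∧
    ∀ (α β : Type) [Fintype α] [Fintype β] [Nonempty α] (a : Matrix α β (𝓞 K)), a ≠ 0 →
      Fintype.card β = 2 * Fintype.card α →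
      ∀ A : ℝ, (∀ k l, house (algebraMap (𝓞 K) K (a k l)) ≤ A) →
      ∃ ξ : β → 𝓞 K, ξ ≠ 0 ∧ a.mulVec ξ = 0 ∧
        ∀ l, house (algebraMap (𝓞 K) K (ξ l)) ≤ c * (Fintype.card β : ℝ) * A := by
  classical
  have key : ∃ c1 : ℝ, ∀ (α β : Type) [Fintype α] [Fintype β] [Nonempty α]
      (a : Matrix α β (𝓞 K)), a ≠ 0 →
      Fintype.card β = 2 * Fintype.card α →
      ∀ A : ℝ, (∀ k l, house (algebraMap (𝓞 K) K (a k l)) ≤ A) →
      ∃ ξ : β → 𝓞 K, ξ ≠ 0 ∧ a.mulVec ξ = 0 ∧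
        ∀ l, house (algebraMap (𝓞 K) K (ξ l)) ≤
          c1 * (c1 * (Fintype.card β : ℝ) * A) ^ (1 : ℝ) := by
    apply Exists.intro
    intro α β _ _ _ a ha hcard A hA
    have hp : 0 < Fintype.card α := Fintype.card_pos
    obtain ⟨ξ, h1, h2, h3⟩ := house.exists_ne_zero_int_vec_house_le K a ha hp
      (q := Fintype.card β) (by omega) rfl hA rfl
    have : ((Fintype.card α : ℝ) / (Fintype.card β - Fintype.card α)) = 1 := by
      rw [hcard]; push_cast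
      have : (Fintype.card α : ℝ) ≠ 0 := by exact_mod_cast hp.ne'
      field_simp
      ring
    rw [this] at h3
    have h4 : ∀ l, house (algebraMap (𝓞 K) K (ξ l)) ≤ _ := h3
    exact ⟨ξ, h1, h2, h4⟩
  obtain ⟨c1, hc1⟩ := key
  refine ⟨max 1 (c1 ^ 2), le_max_left _ _, fun α β _ _ _ a ha hcard A hA => ?_⟩
  obtain ⟨ξ, h1, h2, h3⟩ := hc1 α β a ha hcard A hA
  refine ⟨ξ, h1, h2, fun l => (h3 l).trans ?_⟩
  have hA0 : 0 ≤ A := by
    have hβ : 0 < Fintype.card β := by rw [hcard]; have := Fintype.card_pos (α := α); omega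
    obtain ⟨b⟩ := Fintype.card_pos_iff.mp hβ
    exact (house_nonneg _).trans (hA (Classical.arbitrary α) b)
  rw [Real.rpow_one]
  calc c1 * (c1 * (Fintype.card β : ℝ) * A) = c1 ^ 2 * (Fintype.card β : ℝ) * A := by ring
    _ ≤ max 1 (c1 ^ 2) * (Fintype.card β : ℝ) * A := by
        gcongr; exact le_max_right _ _

end Pool.Agent.Helper8
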