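import Mathlib
import Pool.Agent.Helper8.SLCore
import Pool.Agent.Helper8.SLHouse

open MvPolynomial NumberField Filter Topology
open scoped Nat

namespace Pool.Agent.Helper8

section Aux

variable {R : Type*} [CommRing R] {ι : Type*}

/-- the auxiliary polynomial `∑ ξ_pq X_i^p X_j^q`. -/
noncomputable def auxPoly (i j : ι) {L : ℕ} (ξ : Fin L × Fin L → R) : MvPolynomial ι R :=
  ∑ pq, C (ξ pq) * (X i ^ (pq.1 : ℕ) * X j ^ (pq.2 : ℕ))

lemma totalDegree_mon_le [Nontrivial R] (i j : ι) (p q : ℕ) :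
    (X i ^ p * X j ^ q : MvPolynomial ι R).totalDegree ≤ p + q := by
  refine (totalDegree_mul _ _).trans ?_
  gcongr <;> exact (totalDegree_X_pow _ _).le

lemma l1_mon_le (σ : R →+* ℂ) (i j : ι) (p q : ℕ) :
    l1 σ (X i ^ p * X j ^ q : MvPolynomial ι R) ≤ 1 := by
  rw [X_pow_eq_monomial, X_pow_eq_monomial, monomial_mul, l1_monomial]
  simp

lemma totalDegree_auxPoly_le [Nontrivial R] (i j : ι) {L : ℕ} (ξ : Fin L × Fin L → R) :
    (auxPoly i j ξ).totalDegree ≤ 2 * L := by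
  unfold auxPoly
  apply totalDegree_finsetSum_le
  intro pq _
  refine (totalDegree_mul _ _).trans ?_
  rw [totalDegree_C, zero_add]
  refine (totalDegree_mon_le i j _ _).trans ?_
  have := pq.1.2; have := pq.2.2; omega

lemma l1_auxPoly_le (σ : R →+* ℂ) (i j : ι) {L : ℕ} (ξ : Fin L × Fin L → R) {H : ℝ}
    (hH : ∀ pq, ‖σ (ξ pq)‖ ≤ H) : l1 σ (auxPoly i j ξ) ≤ (L : ℝ) ^ 2 * H := by
  unfold auxPoly
  refine (l1_sum_le σ _ _).trans ?_
  calc ∑ pq : Fin L × Fin L, l1 σ (C (ξ pq) * (X i ^ (pq.1 : ℕ) * X j ^ (pq.2 : ℕ)))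
      ≤ ∑ pq : Fin L × Fin L, H := by
        apply Finset.sum_le_sum
        intro pq _
        refine (l1_mul_le σ _ _).trans ?_
        have h1 : l1 σ (C (ξ pq) : MvPolynomial ι R) = ‖σ (ξ pq)‖ := l1_monomial σ 0 _
        have h0 : 0 ≤ H := (norm_nonneg _).trans (hH pq)
        rw [h1]
        calc _ ≤ H * 1 := mul_le_mul (hH pq) (l1_mon_le σ i j _ _) (l1_nonneg _ _) h0
          _ = H := mul_one H
    _ = (L : ℝ) ^ 2 * H := by
        rw [Finset.sum_const, Finset.card_univ, Fintype.card_prod, Fintype.card_fin, nsmul_eq_mul]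
        push_cast; ring

lemma iter_der_auxPoly (P : ι → MvPolynomial ι R) (i j : ι) {L : ℕ} (ξ : Fin L × Fin L → R)
    (t : ℕ) : (der P)^[t] (auxPoly i j ξ) =
      ∑ pq, C (ξ pq) * (der P)^[t] (X i ^ (pq.1 : ℕ) * X j ^ (pq.2 : ℕ)) := by
  have key : ∀ Q : MvPolynomial ι R, (der P)^[t] Q = ((der P : MvPolynomial ι R →ₗ[R] MvPolynomial ι R) ^ t) Q := by
    intro Q
    rw [Module.End.pow_apply]
    rfl
  simp only [key, auxPoly, map_sum]
  apply Finset.sum_congr rfl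
  intro pq _
  rw [← smul_eq_C_mul, map_smul, smul_eq_C_mul]

end Aux

/-- The Siegel step: a nonzero auxiliary polynomial whose first derivatives vanish. -/
lemma exists_aux {K : Type*} [Field K] [NumberField K] {ι : Type*} [Finite ι]
    (P : ι → MvPolynomial ι (𝓞 K)) (x : ι → 𝓞 K) (i j : ι) :
    ∃ C : ℝ, 1 ≤ C ∧ ∃ c : ℝ, 1 ≤ c ∧
      (∀ (Q : MvPolynomial ι (𝓞 K)) (D t : ℕ) (H : ℝ), Q.totalDegree ≤ D →
        (∀ σ : K →+* ℂ, l1 (σ.comp (algebraMap (𝓞 K) K)) Q ≤ H) →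
        house (algebraMap (𝓞 K) K (eval x ((der P)^[t] Q))) ≤
          C ^ (t + D) * ((D + t : ℕ) : ℝ) ^ t * H) ∧
      ∀ m : ℕ, 2 ≤ m → ∃ ξ : Fin (2 * m) × Fin (2 * m) → 𝓞 K, ξ ≠ 0 ∧
        (∀ t < 2 * m ^ 2, eval x ((der P)^[t] (auxPoly i j ξ)) = 0) ∧
        ∀ pq, house (algebraMap (𝓞 K) K (ξ pq)) ≤
          c * (2 * (2 * m ^ 2 : ℕ)) * (C ^ (2 * (2 * m ^ 2)) *
            ((2 * (2 * m ^ 2) : ℕ) : ℝ) ^ (2 * m ^ 2)) := by
  classical
  obtain ⟨C, hC1, hC⟩ := exists_house_bound P x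
  obtain ⟨c, hc1, hc⟩ := siegel K
  refine ⟨C, hC1, c, hc1, hC, fun m hm => ?_⟩
  set T := 2 * m ^ 2 with hT
  have hTpos : 0 < T := by positivity
  have : Nonempty (Fin T) := ⟨⟨0, hTpos⟩⟩
  have hLT : 2 * (2 * m) ≤ T := by rw [hT]; nlinarith
  let a : Matrix (Fin T) (Fin (2 * m) × Fin (2 * m)) (𝓞 K) := fun t pq =>
    eval x ((der P)^[(t : ℕ)] (X i ^ (pq.1 : ℕ) * X j ^ (pq.2 : ℕ)))
  have ha : a ≠ 0 := by
    intro h
    have := congrFun (congrFun h ⟨0, hTpos⟩) (⟨0, by omega⟩, ⟨0, by omega⟩)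
    simp [a] at this
  have hcard : Fintype.card (Fin (2 * m) × Fin (2 * m)) = 2 * Fintype.card (Fin T) := by
    simp [hT]; ring
  have hA : ∀ k l, house (algebraMap (𝓞 K) K (a k l)) ≤ C ^ (2 * T) * ((2 * T : ℕ) : ℝ) ^ T := by
    intro k l
    have hl1 := l.1.2
    have hl2 := l.2.2
    have hk := k.2
    have h1 := hC (X i ^ (l.1 : ℕ) * X j ^ (l.2 : ℕ)) (2 * (2 * m)) k 1
      ((totalDegree_mon_le i j _ _).trans (by omega)) (fun σ => l1_mon_le _ i j _ _)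
    refine h1.trans ?_
    rw [mul_one]
    have h2 : (1 : ℝ) ≤ ((2 * T : ℕ) : ℝ) := by exact_mod_cast (by omega : 1 ≤ 2 * T)
    calc C ^ ((k : ℕ) + 2 * (2 * m)) * ((2 * (2 * m) + k : ℕ) : ℝ) ^ (k : ℕ)
        ≤ C ^ (2 * T) * ((2 * T : ℕ) : ℝ) ^ (k : ℕ) := by
          gcongr
          · omega
          · omega
      _ ≤ C ^ (2 * T) * ((2 * T : ℕ) : ℝ) ^ T := by
          gcongr
  obtain ⟨ξ, h1, h2, h3⟩ := hc (Fin T) (Fin (2 * m) × Fin (2 * m)) a ha hcard _ hA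
  refine ⟨ξ, h1, fun t ht => ?_, fun pq => ?_⟩
  · have h4 := congrFun h2 ⟨t, ht⟩
    simp only [Matrix.mulVec, dotProduct, Pi.zero_apply] at h4
    rw [iter_der_auxPoly, map_sum]
    rw [← h4]
    apply Finset.sum_congr rfl
    intro pq _
    simp [a, mul_comm]
  · refine (h3 pq).trans (le_of_eq ?_)
    rw [hcard, Fintype.card_fin]
    push_cast
    ring

end Pool.Agent.Helper8
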