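import Mathlib
import Pool.Agent.Helper8.SLCore

open MvPolynomial NumberField Filter Topology
open scoped Nat

namespace Pool.Agent.Helper8

/-- Final numerical contradiction. -/
lemma numeric_contradiction {n : ℕ} {C₂ C₀ wn : ℝ} (hC₂ : 1 ≤ C₂) (hC₀ : 0 ≤ C₀) :
    ∃ t₀ : ℕ, ∀ t m : ℕ, t₀ ≤ t → 2 * m ^ 2 ≤ t → ∃ k : ℕ,
      (C₂ * t) ^ ((6 + 4 * n) * t) *
        Real.exp (C₀ * (1 + (3 * (k + 1 : ℕ) * wn) ^ 2)) ^ (2 * (2 * m)) * (1 / 2) ^ (k * t) < 1 := by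
  obtain ⟨k₀, hk₀⟩ := exists_nat_large ((6 + 4 * n) * Real.log C₂ + 48 * C₀ * (1 + 9 * wn ^ 2))
    ((6 + 4 * n) * 4)
  refine ⟨k₀ ^ 4 + 1, fun t m ht hm => ?_⟩
  set k := Nat.sqrt (Nat.sqrt t) with hk
  have hk4 : k ^ 4 ≤ t := by
    have h1 : k * k ≤ Nat.sqrt t := Nat.sqrt_le _
    have h2 : Nat.sqrt t * Nat.sqrt t ≤ t := Nat.sqrt_le _
    calc k ^ 4 = (k * k) * (k * k) := by ring
      _ ≤ Nat.sqrt t * Nat.sqrt t := Nat.mul_le_mul h1 h1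
      _ ≤ t := h2
  have hk4' : t < (k + 1) ^ 4 := by
    have h1 : Nat.sqrt t < (k + 1) * (k + 1) := Nat.lt_succ_sqrt _
    have h2 : t < (Nat.sqrt t + 1) * (Nat.sqrt t + 1) := Nat.lt_succ_sqrt _
    have h3 : Nat.sqrt t + 1 ≤ (k + 1) * (k + 1) := h1
    calc t < (Nat.sqrt t + 1) * (Nat.sqrt t + 1) := h2
      _ ≤ ((k + 1) * (k + 1)) * ((k + 1) * (k + 1)) := Nat.mul_le_mul h3 h3
      _ = (k + 1) ^ 4 := by ring
  have hkk₀ : k₀ ≤ k := by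
    by_contra hlt
    push Not at hlt
    have : (k + 1) ^ 4 ≤ k₀ ^ 4 := Nat.pow_le_pow_left hlt 4
    omega
  have hk1 : 1 ≤ k := by
    by_contra hlt
    have : k = 0 := by omega
    rw [this] at hk4'
    simp at hk4'
    omega
  refine ⟨k, ?_⟩
  have hlog := hk₀ k hkk₀
  have htpos : (0 : ℝ) < t := by
    have : 0 < t := by omega
    exact_mod_cast this
  have ht1 : (1 : ℝ) ≤ t := by
    have : 1 ≤ t := by omega
    exact_mod_cast this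
  have hW : 0 < C₂ * t := by positivity
  rw [← Real.log_neg_iff (by positivity)]
  rw [Real.log_mul (by positivity) (by positivity), Real.log_mul (by positivity) (by positivity),
    Real.log_pow, Real.log_pow, Real.log_pow, Real.log_exp, one_div, Real.log_inv,
    Real.log_mul (by positivity) (by positivity)]
  have hlt : Real.log t ≤ 4 * Real.log (k + 1) := by
    have : (t : ℝ) ≤ ((k : ℝ) + 1) ^ 4 := by exact_mod_cast hk4'.le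
    calc Real.log t ≤ Real.log (((k : ℝ) + 1) ^ 4) := Real.log_le_log htpos this
      _ = 4 * Real.log (k + 1) := by rw [Real.log_pow]; norm_num
  -- bound of the exponential term
  have hkR : (1 : ℝ) ≤ k := by exact_mod_cast hk1
  have hk4R : (k : ℝ) ^ 4 ≤ t := by exact_mod_cast hk4
  have hm4 : (4 * (m : ℝ)) ≤ 3 * ((k : ℝ) + 1) ^ 2 := by
    have h1 : (4 * (m : ℝ)) ^ 2 ≤ (3 * ((k : ℝ) + 1) ^ 2) ^ 2 := by
      have h2 : 2 * (m : ℝ) ^ 2 ≤ t := by exact_mod_cast hm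
      have h3 : (t : ℝ) ≤ ((k : ℝ) + 1) ^ 4 := by exact_mod_cast hk4'.le
      have h4 : (0 : ℝ) ≤ ((k : ℝ) + 1) ^ 4 := by positivity
      nlinarith
    exact le_of_sq_le_sq h1 (by positivity)
  have hexp : ((2 * (2 * m) : ℕ) : ℝ) * (C₀ * (1 + (3 * ((k + 1 : ℕ) : ℝ) * wn) ^ 2)) ≤
      48 * C₀ * (1 + 9 * wn ^ 2) * t := by
    push_cast
    have h1 : 1 + (3 * ((k : ℝ) + 1) * wn) ^ 2 ≤ (1 + 9 * wn ^ 2) * ((k : ℝ) + 1) ^ 2 := by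
      nlinarith [sq_nonneg wn]
    have h2 : ((k : ℝ) + 1) ^ 4 ≤ 16 * (t : ℝ) := by
      have : ((k : ℝ) + 1) ≤ 2 * k := by linarith
      calc ((k : ℝ) + 1) ^ 4 ≤ (2 * (k : ℝ)) ^ 4 := by gcongr
        _ = 16 * (k : ℝ) ^ 4 := by ring
        _ ≤ 16 * (t : ℝ) := by linarith
    calc (2 * (2 * (m : ℝ))) * (C₀ * (1 + (3 * ((k : ℝ) + 1) * wn) ^ 2))
        = (4 * (m : ℝ)) * (C₀ * (1 + (3 * ((k : ℝ) + 1) * wn) ^ 2)) := by ring
      _ ≤ (3 * ((k : ℝ) + 1) ^ 2) * (C₀ * ((1 + 9 * wn ^ 2) * ((k : ℝ) + 1) ^ 2)) := by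
          gcongr
      _ = 3 * C₀ * (1 + 9 * wn ^ 2) * ((k : ℝ) + 1) ^ 4 := by ring
      _ ≤ 3 * C₀ * (1 + 9 * wn ^ 2) * (16 * t) := by gcongr
      _ = 48 * C₀ * (1 + 9 * wn ^ 2) * t := by ring
  have h5 : ((((6 + 4 * n) * t : ℕ) : ℝ)) * (Real.log C₂ + Real.log t) ≤
      ((6 + 4 * (n : ℝ)) * t) * (Real.log C₂ + 4 * Real.log (k + 1)) := by
    push_cast
    gcongr
  have h6 : (((k * t : ℕ) : ℝ)) * -Real.log 2 = - (k * Real.log 2 * t) := by push_cast; ring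
  rw [h6]
  have h7 := mul_lt_mul_of_pos_right hlog htpos
  push_cast at h5 hexp ⊢
  nlinarith

/-- Vanishing orders propagate along a multiplicative period. -/
lemma order_progression {Φ E : ℂ → ℂ} (hΦ : Differentiable ℂ Φ) (hE : Differentiable ℂ E) {w : ℂ}
    (hper : ∀ z, Φ (z + w) = E z * Φ z) {t : ℕ∞} (ht : t ≤ analyticOrderAt Φ 0) (k : ℕ) :
    t ≤ analyticOrderAt Φ (k * w) := by
  induction k with
  | zero => simpa using ht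
  | succ k ih =>
    have h1 : analyticOrderAt (Φ ∘ (fun z => z + w)) (k * w) =
        analyticOrderAt Φ ((fun z => z + w) (k * w)) := by
      apply analyticOrderAt_comp_of_deriv_ne_zero (by fun_prop)
      rw [deriv_add_const]; simp
    have h2 : Φ ∘ (fun z => z + w) = E * Φ := by
      ext z; simp [hper z]
    have h3 : ((k + 1 : ℕ) : ℂ) * w = (fun z => z + w) (k * w) := by
      push_cast; ring
    rw [h3, ← h1, h2, analyticOrderAt_mul (hE.analyticAt _) (hΦ.analyticAt _)]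
    exact ih.trans le_add_self

/-- The derivative of order `t` of `E * G` when the lower derivatives of `G` vanish. -/
lemma iteratedDeriv_mul_of_vanish {E G : ℂ → ℂ} {z : ℂ} (hE : AnalyticAt ℂ E z)
    (hG : AnalyticAt ℂ G z) {t : ℕ} (h : ∀ s < t, iteratedDeriv s G z = 0) :
    iteratedDeriv t (E * G) z = E z * iteratedDeriv t G z := by
  rw [iteratedDeriv_mul hE.contDiffAt hG.contDiffAt, Finset.sum_range_succ']
  rw [Finset.sum_eq_zero]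
  · simp
  · intro i hi
    rw [h (t - (i + 1)) (by have := Finset.mem_range.mp hi; omega)]
    simp

/-- The numerical bounds for the auxiliary polynomial. -/
lemma sl_num {C C₂ c : ℝ} {T t m : ℕ} (hC1 : 1 ≤ C) (hc1 : 1 ≤ c) (hC₂1 : 1 ≤ C₂)
    (hC₂a : 2 * c ≤ C₂) (hC₂b : 2 * C ^ 2 ≤ C₂) (hT : T = 2 * m ^ 2) (hTpos : 1 ≤ T)
    (hTt : T ≤ t) (hmT : 2 * (2 * m) ≤ T) :
    ((2 * m : ℕ) : ℝ) ^ 2 * (c * (2 * (T : ℕ)) * (C ^ (2 * T) * ((2 * T : ℕ) : ℝ) ^ T)) ≤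
      (C₂ * t) ^ (3 * t) ∧
    C ^ (t + 2 * (2 * m)) * ((2 * (2 * m) + t : ℕ) : ℝ) ^ t *
      (((2 * m : ℕ) : ℝ) ^ 2 * (c * (2 * (T : ℕ)) * (C ^ (2 * T) * ((2 * T : ℕ) : ℝ) ^ T))) ≤
      (C₂ * t) ^ (4 * t) := by
  have ht1 : (1 : ℝ) ≤ t := by exact_mod_cast hTpos.trans hTt
  have hTtR : (T : ℝ) ≤ t := by exact_mod_cast hTt
  obtain ⟨W, hW⟩ : ∃ W : ℝ, W = C₂ * t := ⟨_, rfl⟩
  rw [← hW]
  have hW1 : 1 ≤ W := by rw [hW]; exact one_le_mul_of_one_le_of_one_le hC₂1 ht1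
  have hWt : W ≤ W ^ t := le_self_pow₀ hW1 (by omega)
  have h2tW : 2 * (t : ℝ) ≤ W := by
    rw [hW]; gcongr; linarith
  have hc2tW : c * (2 * (t : ℝ)) ≤ W := by
    rw [hW]; nlinarith
  have hCtW : C ^ 2 * (2 * (t : ℝ)) ≤ W := by
    rw [hW]; nlinarith
  obtain ⟨Hξ, hHξ⟩ : ∃ Hξ : ℝ,
    Hξ = c * (2 * (T : ℕ)) * (C ^ (2 * T) * ((2 * T : ℕ) : ℝ) ^ T) := ⟨_, rfl⟩
  rw [← hHξ]
  have hHξ0 : 0 ≤ Hξ := by rw [hHξ]; positivity
  have hpow2t : C ^ (2 * T) * ((2 * T : ℕ) : ℝ) ^ T ≤ W ^ t := by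
    calc C ^ (2 * T) * ((2 * T : ℕ) : ℝ) ^ T ≤ C ^ (2 * t) * (2 * (t : ℝ)) ^ t := by
          push_cast
          have h1 : C ^ (2 * T) ≤ C ^ (2 * t) := pow_le_pow_right₀ hC1 (by omega)
          have h2 : (2 * (T : ℝ)) ^ T ≤ (2 * (t : ℝ)) ^ t := by
            calc (2 * (T : ℝ)) ^ T ≤ (2 * (t : ℝ)) ^ T := by gcongr
              _ ≤ (2 * (t : ℝ)) ^ t := pow_le_pow_right₀ (by linarith) hTt
          gcongr
      _ = (C ^ 2 * (2 * (t : ℝ))) ^ t := by rw [pow_mul, ← mul_pow]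
      _ ≤ W ^ t := by gcongr
  have hHξW : Hξ ≤ W ^ (2 * t) := by
    calc Hξ ≤ W * W ^ t := by
          rw [hHξ]
          have h1 : c * (2 * ((T : ℕ) : ℝ)) ≤ W := by
            calc c * (2 * ((T : ℕ) : ℝ)) ≤ c * (2 * (t : ℝ)) := by gcongr
              _ ≤ W := hc2tW
          gcongr
      _ ≤ W ^ t * W ^ t := by gcongr
      _ = W ^ (2 * t) := by rw [← pow_add]; congr 1; omega
  have h4m : ((2 * m : ℕ) : ℝ) ^ 2 ≤ W ^ t := by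
    have h1 : (((2 * m : ℕ) : ℝ)) ^ 2 = 2 * (T : ℝ) := by rw [hT]; push_cast; ring
    rw [h1]
    calc 2 * (T : ℝ) ≤ 2 * (t : ℝ) := by gcongr
      _ ≤ W := h2tW
      _ ≤ W ^ t := hWt
  have hLH : ((2 * m : ℕ) : ℝ) ^ 2 * Hξ ≤ W ^ (3 * t) := by
    calc ((2 * m : ℕ) : ℝ) ^ 2 * Hξ ≤ W ^ t * W ^ (2 * t) := by gcongr
      _ = W ^ (3 * t) := by rw [← pow_add]; congr 1; omega
  refine ⟨hLH, ?_⟩
  calc C ^ (t + 2 * (2 * m)) * ((2 * (2 * m) + t : ℕ) : ℝ) ^ t * (((2 * m : ℕ) : ℝ) ^ 2 * Hξ)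
      ≤ C ^ (2 * t) * (2 * (t : ℝ)) ^ t * W ^ (3 * t) := by
        have h2 : C ^ (t + 2 * (2 * m)) ≤ C ^ (2 * t) := pow_le_pow_right₀ hC1 (by omega)
        have h3 : ((2 * (2 * m) + t : ℕ) : ℝ) ≤ 2 * (t : ℝ) := by
          have : 2 * (2 * m) + t ≤ 2 * t := by omega
          exact_mod_cast this
        gcongr
    _ = (C ^ 2 * (2 * (t : ℝ))) ^ t * W ^ (3 * t) := by rw [pow_mul, ← mul_pow]
    _ ≤ W ^ t * W ^ (3 * t) := by gcongr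
    _ = W ^ (4 * t) := by rw [← pow_add]; congr 1; omega

/-- The bound for the derivative. -/
lemma sl_num2 {W H Hξ E R h0 : ℝ} {t k m : ℕ} (hW1 : 1 ≤ W) (htW : (t : ℝ) ≤ W)
    (h0W : 1 / h0 ≤ W) (hh0 : 0 < h0) (hR : 0 < R) (hRW : 1 / R ≤ W) (hmt : 2 * (2 * m) ≤ t)
    (hH0 : 0 ≤ H) (hHξ0 : 0 ≤ Hξ) (hE0 : 0 ≤ E) (hH : H * Hξ ≤ W ^ (3 * t)) {D : ℝ} (hD : D ≤
      (t ! : ℕ) * ((H * Hξ * E ^ (2 * (2 * m))) / R ^ t) * (1 / 2) ^ ((k + 1 - 1) * t)) :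
    (1 / h0) ^ (2 * (2 * m)) * D ≤ W ^ (6 * t) * E ^ (2 * (2 * m)) * (1 / 2) ^ (k * t) := by
  have e2 : (1 / h0) ^ (2 * (2 * m)) ≤ W ^ t := by
    calc (1 / h0) ^ (2 * (2 * m)) ≤ W ^ (2 * (2 * m)) := by gcongr
      _ ≤ W ^ t := pow_le_pow_right₀ hW1 (by omega)
  have e3 : ((t ! : ℕ) : ℝ) ≤ W ^ t := by
    calc ((t ! : ℕ) : ℝ) ≤ ((t ^ t : ℕ) : ℝ) := by exact_mod_cast Nat.factorial_le_pow t
      _ = (t : ℝ) ^ t := by push_cast; ring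
      _ ≤ W ^ t := by gcongr
  have e4 : 1 / R ^ t ≤ W ^ t := by
    rw [← one_div_pow]
    gcongr
  calc (1 / h0) ^ (2 * (2 * m)) * D
      ≤ (1 / h0) ^ (2 * (2 * m)) * ((t ! : ℕ) * ((H * Hξ * E ^ (2 * (2 * m))) / R ^ t) *
        (1 / 2) ^ ((k + 1 - 1) * t)) := by gcongr
    _ ≤ W ^ t * ((t ! : ℕ) * ((H * Hξ * E ^ (2 * (2 * m))) / R ^ t) *
          (1 / 2) ^ ((k + 1 - 1) * t)) := by gcongr
    _ = W ^ t * ((t ! : ℕ) * ((H * Hξ) * E ^ (2 * (2 * m)) * (1 / R ^ t)) *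
          (1 / 2) ^ (k * t)) := by
        rw [Nat.add_sub_cancel]; ring
    _ ≤ W ^ t * (W ^ t * (W ^ (3 * t) * E ^ (2 * (2 * m)) * W ^ t) * (1 / 2) ^ (k * t)) := by
        gcongr
    _ = W ^ (6 * t) * E ^ (2 * (2 * m)) * (1 / 2) ^ (k * t) := by
        have : W ^ (6 * t) = W ^ t * W ^ t * W ^ (3 * t) * W ^ t := by
          rw [← pow_add, ← pow_add, ← pow_add]; congr 1; omega
        rw [this]; ring

end Pool.Agent.Helper8
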