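import Mathlib
import Pool.Agent.Helper8.SLAnalytic
import Pool.Agent.Helper8.SLCore2
import Pool.Agent.Helper8.SLNum

open MvPolynomial NumberField Filter Topology
open scoped Nat

namespace Pool.Agent.Helper8

/-- Periodic Schneider-Lang theorem, integral form. -/
theorem core {K : Type*} [Field K] [NumberField K] (em : K →+* ℂ) {ι : Type*} [Finite ι]
    (P : ι → MvPolynomial ι (𝓞 K)) (x : ι → 𝓞 K)
    (h : ℂ → ℂ) (u : ι → ℂ → ℂ) (hh : Differentiable ℂ h) (hu : ∀ i, Differentiable ℂ (u i))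
    (h0 : h 0 ≠ 0)
    (hval : ∀ i, u i 0 / h 0 = em (algebraMap (𝓞 K) K (x i)))
    (hder : ∀ z, h z ≠ 0 → ∀ i, HasDerivAt (fun z => u i z / h z)
      (eval₂ (em.comp (algebraMap (𝓞 K) K)) (fun j => u j z / h z) (P i)) z)
    {C₀ : ℝ} (hC₀ : 0 ≤ C₀) (hgh : ∀ z, ‖h z‖ ≤ Real.exp (C₀ * (1 + ‖z‖ ^ 2)))
    (hgu : ∀ i z, ‖u i z‖ ≤ Real.exp (C₀ * (1 + ‖z‖ ^ 2)))
    {w : ℂ} (hw : w ≠ 0) (e : ℂ → ℂ) (he : Differentiable ℂ e) (hph : ∀ z, h (z + w) = e z * h z)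
    (hpu : ∀ i z, u i (z + w) = e z * u i z) (i j : ι)
    (hind : ∀ (N : ℕ) (c : Fin N × Fin N → ℂ), c ≠ 0 → ∃ z, h z ≠ 0 ∧
      ∑ pq, c pq * ((u i z / h z) ^ (pq.1 : ℕ) * (u j z / h z) ^ (pq.2 : ℕ)) ≠ 0) : False := by
  classical
  obtain ⟨C, hC1, c, hc1, hC, haux⟩ := exists_aux P x i j
  set ψ : 𝓞 K →+* ℂ := em.comp (algebraMap (𝓞 K) K) with hψ
  have hψinj : Function.Injective ψ := by
    rw [hψ]
    exact em.injective.comp (FaithfulSMul.algebraMap_injective (𝓞 K) K)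
  set n := Module.finrank ℚ K with hn
  have hwpos : 0 < ‖w‖ := norm_pos_iff.mpr hw
  have hh0pos : 0 < ‖h 0‖ := norm_pos_iff.mpr h0
  -- the big constant
  obtain ⟨C₂, hC₂1, hC₂a, hC₂b, hC₂c, hC₂d⟩ : ∃ C₂ : ℝ, 1 ≤ C₂ ∧ 2 * c ≤ C₂ ∧ 2 * C ^ 2 ≤ C₂ ∧
      1 / (3 * ‖w‖) ≤ C₂ ∧ 1 / ‖h 0‖ ≤ C₂ := by
    refine ⟨1 + 2 * c + 2 * C ^ 2 + 1 / (3 * ‖w‖) + 1 / ‖h 0‖, ?_, ?_, ?_, ?_, ?_⟩
    all_goals
      have h1 : 0 < 1 / (3 * ‖w‖) := by positivity
      have h2 : 0 < 1 / ‖h 0‖ := by positivity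
      have h3 : 0 < C ^ 2 := by positivity
      linarith
  obtain ⟨t₀, ht₀⟩ := numeric_contradiction (n := n) (wn := ‖w‖) hC₂1 hC₀
  -- choose m
  set m := t₀ + 2 with hm
  obtain ⟨ξ, hξ0, hξv, hξb⟩ := haux m (by omega)
  set T := 2 * m ^ 2 with hT
  set Q := auxPoly i j ξ with hQ
  have hmT : 2 * (2 * m) ≤ T := by rw [hT]; nlinarith
  -- functions
  set F : ι → ℂ → ℂ := fun i z => u i z / h z with hF
  set G : ℂ → ℂ := fun z => eval₂ ψ (fun j => F j z) Q with hG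
  set Φ : ℂ → ℂ := fun z => ∑ pq : Fin (2 * m) × Fin (2 * m), ψ (ξ pq) *
    (u i z ^ (pq.1 : ℕ) * u j z ^ (pq.2 : ℕ) * h z ^ (2 * (2 * m) - pq.1 - pq.2)) with hΦ
  have hui := hu i
  have huj := hu j
  have hΦd : Differentiable ℂ Φ := by
    rw [hΦ]; fun_prop
  have hUopen : IsOpen {z | h z ≠ 0} := isOpen_ne_fun hh.continuous continuous_const
  have hGsum : ∀ z, G z = ∑ pq : Fin (2 * m) × Fin (2 * m), ψ (ξ pq) *
      (F i z ^ (pq.1 : ℕ) * F j z ^ (pq.2 : ℕ)) := by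
    intro z
    simp only [hG, hQ, auxPoly, eval₂_sum, eval₂_mul, eval₂_C, eval₂_pow, eval₂_X]
  have hΦG : ∀ z, h z ≠ 0 → Φ z = h z ^ (2 * (2 * m)) * G z := by
    intro z hz
    rw [hGsum z, Finset.mul_sum]
    simp only [hΦ]
    apply Finset.sum_congr rfl
    intro pq _
    have h1 := pq.1.2
    have h2 := pq.2.2
    have h3 : h z ^ (2 * (2 * m)) = h z ^ (2 * (2 * m) - pq.1 - pq.2) * h z ^ (pq.1 : ℕ) *
        h z ^ (pq.2 : ℕ) := by
      rw [← pow_add, ← pow_add]; congr 1; omega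
    rw [h3]
    simp only [hF, div_pow]
    field_simp
  have hΦne : Φ ≠ 0 := by
    intro hzero
    obtain ⟨z, hz, hzne⟩ := hind (2 * m) (fun pq => ψ (ξ pq)) (by
      intro h1
      apply hξ0
      funext pq
      have := congrFun h1 pq
      simpa using (map_eq_zero_iff ψ hψinj).mp this)
    apply hzne
    have h1 := hΦG z hz
    rw [hzero, hGsum z] at h1
    simp only [Pi.zero_apply, zero_eq_mul] at h1
    rcases h1 with h1 | h1
    · exact absurd h1 (pow_ne_zero _ hz)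
    · exact h1
  have hΦan : ∀ z, AnalyticAt ℂ Φ z := fun z => hΦd.analyticAt z
  have hordne : analyticOrderAt Φ 0 ≠ ⊤ := by
    rw [Ne, AnalyticOnNhd.analyticOrderAt_eq_top_iff_eq_zero 0 hΦan]
    exact hΦne
  obtain ⟨t, ht⟩ := ENat.ne_top_iff_exists.mp hordne
  -- G at 0
  have hhan : AnalyticAt ℂ h 0 := hh.analyticAt 0
  have hFan : ∀ i, AnalyticAt ℂ (F i) 0 := fun i => ((hu i).analyticAt 0).div hhan h0
  have hGan : AnalyticAt ℂ G 0 := by
    have : G = fun z => ∑ pq : Fin (2 * m) × Fin (2 * m), ψ (ξ pq) *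
      (F i z ^ (pq.1 : ℕ) * F j z ^ (pq.2 : ℕ)) := funext hGsum
    rw [this]
    have h1 := hFan i
    have h2 := hFan j
    fun_prop
  have hhp : AnalyticAt ℂ (h ^ (2 * (2 * m))) 0 := hhan.pow _
  have hΦGev : Φ =ᶠ[𝓝 0] (h ^ (2 * (2 * m))) * G := by
    filter_upwards [hUopen.mem_nhds h0] with z hz
    exact hΦG z hz
  have hordG : analyticOrderAt G 0 = t := by
    have h1 := analyticOrderAt_congr hΦGev
    rw [analyticOrderAt_mul hhp hGan] at h1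
    have h2 : analyticOrderAt (h ^ (2 * (2 * m))) 0 = 0 := by
      rw [hhp.analyticOrderAt_eq_zero]
      exact pow_ne_zero _ h0
    rw [h2, zero_add] at h1
    rw [← h1, ht]
  have hGder : ∀ s, iteratedDeriv s G 0 = ψ (eval x ((der P)^[s] Q)) := by
    intro s
    have h1 := iteratedDeriv_eval₂ ψ P F hUopen hder Q s 0 h0
    rw [hG, h1, eval₂_comp]
    congr 1
    funext j
    exact hval j
  have hlow : ∀ s < t, iteratedDeriv s G 0 = 0 :=
    ((natCast_le_analyticOrderAt_iff_iteratedDeriv_eq_zero hGan).mp hordG.ge)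
  have hTt : T ≤ t := by
    have h1 : ((T : ℕ) : ℕ∞) ≤ analyticOrderAt G 0 := by
      rw [natCast_le_analyticOrderAt_iff_iteratedDeriv_eq_zero hGan]
      intro s hs
      rw [hGder s, hξv s hs, map_zero]
    rw [hordG] at h1
    exact_mod_cast h1
  have hTpos : 1 ≤ T := by omega
  have hG00 : G 0 = 0 := by
    have := hlow 0 (by omega)
    simpa using this
  have hγ0 : iteratedDeriv t G 0 ≠ 0 :=
    ((analyticOrderAt_eq_nat_iff_iteratedDeriv_eq_zero hGan).mp hordG).2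
  set γ : 𝓞 K := eval x ((der P)^[t] Q) with hγ
  have hψγ : iteratedDeriv t G 0 = ψ γ := hGder t
  have hγne : γ ≠ 0 := by
    intro h1
    rw [hψγ, h1, map_zero] at hγ0
    exact hγ0 rfl
  -- numerical constants
  have ht1 : (1 : ℝ) ≤ t := by exact_mod_cast hTpos.trans hTt
  have hTtR : (T : ℝ) ≤ t := by exact_mod_cast hTt
  set W : ℝ := C₂ * t with hW
  have hW1 : 1 ≤ W := one_le_mul_of_one_le_of_one_le hC₂1 ht1
  have h2tW : 2 * (t : ℝ) ≤ W := by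
    rw [hW]; gcongr; linarith
  set Hξ : ℝ := c * (2 * (T : ℕ)) * (C ^ (2 * T) * ((2 * T : ℕ) : ℝ) ^ T) with hHξ
  have hHξ0 : 0 ≤ Hξ := by positivity
  obtain ⟨hLH, hLH2⟩ := sl_num hC1 hc1 hC₂1 hC₂a hC₂b hT hTpos hTt hmT
  rw [← hW, ← hHξ] at hLH hLH2
  have hξσ : ∀ (σ : K →+* ℂ) pq, ‖σ (algebraMap (𝓞 K) K (ξ pq))‖ ≤ Hξ := fun σ pq =>
    (norm_embedding_le_house _ σ).trans (hξb pq)
  have hhouse : house (algebraMap (𝓞 K) K γ) ≤ W ^ (4 * t) := by
    have h1 := hC Q (2 * (2 * m)) t (((2 * m : ℕ) : ℝ) ^ 2 * Hξ) (totalDegree_auxPoly_le i j ξ)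
      (fun σ => l1_auxPoly_le _ i j ξ (hξσ σ))
    exact h1.trans hLH2
  obtain ⟨k, hk⟩ := ht₀ t m (by
    have : t₀ ≤ T := by rw [hT, hm]; nlinarith
    omega) hTt
  -- analytic estimate
  set R : ℝ := 3 * ((k + 1 : ℕ) : ℝ) * ‖w‖ with hR
  set E : ℝ := Real.exp (C₀ * (1 + R ^ 2)) with hE
  have hE1 : 1 ≤ E := Real.one_le_exp (by positivity)
  have hΦbd : ∀ z, ‖z‖ = R → ‖Φ z‖ ≤ ((2 * m : ℕ) : ℝ) ^ 2 * Hξ * E ^ (2 * (2 * m)) := by
    intro z hz
    have hhz : ‖h z‖ ≤ E := by simpa [hz] using hgh z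
    have huz : ∀ i, ‖u i z‖ ≤ E := fun i => by simpa [hz] using hgu i z
    calc ‖Φ z‖ ≤ ∑ pq : Fin (2 * m) × Fin (2 * m), ‖ψ (ξ pq) *
        (u i z ^ (pq.1 : ℕ) * u j z ^ (pq.2 : ℕ) * h z ^ (2 * (2 * m) - pq.1 - pq.2))‖ :=
          norm_sum_le _ _
      _ ≤ ∑ pq : Fin (2 * m) × Fin (2 * m), Hξ * E ^ (2 * (2 * m)) := by
          apply Finset.sum_le_sum
          intro pq _
          rw [norm_mul, norm_mul, norm_mul, norm_pow, norm_pow, norm_pow]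
          have h1 := pq.1.2
          have h2 := pq.2.2
          have h3 : E ^ (2 * (2 * m)) = E ^ (pq.1 : ℕ) * E ^ (pq.2 : ℕ) *
              E ^ (2 * (2 * m) - pq.1 - pq.2) := by
            rw [← pow_add, ← pow_add]; congr 1; omega
          rw [h3]
          have h4 := hξσ em pq
          have h5 := huz i
          have h6 := huz j
          have h7 : ‖ψ (ξ pq)‖ ≤ Hξ := h4
          gcongr
      _ = ((2 * m : ℕ) : ℝ) ^ 2 * Hξ * E ^ (2 * (2 * m)) := by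
          rw [Finset.sum_const, Finset.card_univ, Fintype.card_prod, Fintype.card_fin, nsmul_eq_mul]
          push_cast; ring
  have hΦper : ∀ z, Φ (z + w) = e z ^ (2 * (2 * m)) * Φ z := by
    intro z
    simp only [hΦ, Finset.mul_sum]
    apply Finset.sum_congr rfl
    intro pq _
    have h1 := pq.1.2
    have h2 := pq.2.2
    rw [hph, hpu, hpu]
    have h3 : e z ^ (2 * (2 * m)) = e z ^ (pq.1 : ℕ) * e z ^ (pq.2 : ℕ) *
        e z ^ (2 * (2 * m) - pq.1 - pq.2) := by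
      rw [← pow_add, ← pow_add]; congr 1; omega
    rw [h3]
    ring
  have hords : ∀ k' < k + 1, (t : ℕ∞) ≤ analyticOrderAt Φ (k' * w) := fun k' _ =>
    order_progression hΦd (E := fun z => e z ^ (2 * (2 * m))) (by fun_prop) hΦper ht.le k'
  have hsch := schwarz_progression hΦd hw (M := k + 1) (T := t) (by omega) hords
    (B := ((2 * m : ℕ) : ℝ) ^ 2 * Hξ * E ^ (2 * (2 * m))) hΦbd
  have hΦt : iteratedDeriv t Φ 0 = h 0 ^ (2 * (2 * m)) * ψ γ := by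
    rw [hΦGev.iteratedDeriv_eq, iteratedDeriv_mul_of_vanish hhp hGan hlow, hψγ]
    rfl
  have hRpos : 0 < R := by positivity
  have hψγb : ‖ψ γ‖ ≤ W ^ (6 * t) * E ^ (2 * (2 * m)) * (1 / 2) ^ (k * t) := by
    have e1 : ‖ψ γ‖ = (1 / ‖h 0‖) ^ (2 * (2 * m)) * ‖iteratedDeriv t Φ 0‖ := by
      rw [hΦt, norm_mul, norm_pow, one_div, inv_pow]
      field_simp
    have hC₂W : C₂ ≤ W := by
      rw [hW]; exact le_mul_of_one_le_right (by linarith) ht1
    have h1W : 1 / ‖h 0‖ ≤ W := by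
      exact hC₂d.trans hC₂W
    have hRW : 1 / R ≤ W := by
      calc 1 / R ≤ 1 / (3 * ‖w‖) := by
            apply one_div_le_one_div_of_le (by positivity)
            rw [hR]
            have h1 : (1 : ℝ) ≤ ((k + 1 : ℕ) : ℝ) := by
              push_cast; linarith [Nat.cast_nonneg (α := ℝ) k]
            have h2 := mul_le_mul_of_nonneg_right h1 (by positivity : (0 : ℝ) ≤ 3 * ‖w‖)
            calc 3 * ‖w‖ = 1 * (3 * ‖w‖) := (one_mul _).symm
              _ ≤ ((k + 1 : ℕ) : ℝ) * (3 * ‖w‖) := h2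
              _ = 3 * ((k + 1 : ℕ) : ℝ) * ‖w‖ := by ring
        _ ≤ C₂ := hC₂c
        _ ≤ W := hC₂W
    rw [e1]
    exact sl_num2 (t := t) (k := k) (m := m) (H := ((2 * m : ℕ) : ℝ) ^ 2) hW1 (by linarith) h1W
      hh0pos hRpos hRW (by omega) (by positivity) hHξ0 (by positivity) hLH hsch
  have hliou := one_le_norm_mul_house_pow hγne em
  have : ‖ψ γ‖ * house (algebraMap (𝓞 K) K γ) ^ (n - 1) < 1 := by
    calc ‖ψ γ‖ * house (algebraMap (𝓞 K) K γ) ^ (n - 1)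
        ≤ (W ^ (6 * t) * E ^ (2 * (2 * m)) * (1 / 2) ^ (k * t)) * (W ^ (4 * t)) ^ (n - 1) := by
          have := house_nonneg (algebraMap (𝓞 K) K γ)
          gcongr
      _ ≤ (W ^ (6 * t) * E ^ (2 * (2 * m)) * (1 / 2) ^ (k * t)) * (W ^ (4 * t)) ^ n := by
          have h1 : 1 ≤ W ^ (4 * t) := one_le_pow₀ hW1
          gcongr
          omega
      _ = W ^ ((6 + 4 * n) * t) * E ^ (2 * (2 * m)) * (1 / 2) ^ (k * t) := by
          rw [← pow_mul]
          have : W ^ ((6 + 4 * n) * t) = W ^ (6 * t) * W ^ (4 * t * n) := by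
            rw [← pow_add]; congr 1; ring
          rw [this]; ring
      _ < 1 := hk
  exact absurd hliou (not_le.mpr this)

end Pool.Agent.Helper8
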