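import Mathlib
import Pool.Agent.Helper8.SLMain

open MvPolynomial NumberField Filter Topology

namespace Pool.Agent.Helper8

/-- Finitely many algebraic numbers lie in a number field, with a common denominator. -/
lemma exists_numberField (S : Set ℂ) [Finite S] (hS : ∀ c ∈ S, IsAlgebraic ℚ c) :
    ∃ (K : IntermediateField ℚ ℂ) (_ : NumberField K) (d : ℕ), d ≠ 0 ∧
      ∀ c ∈ S, ∃ a : 𝓞 K, ((algebraMap (𝓞 K) K a : K) : ℂ) = d * c := by
  classical
  have hfd : FiniteDimensional ℚ (IntermediateField.adjoin ℚ S) :=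
    IntermediateField.finiteDimensional_adjoin fun x hx => (hS x hx).isIntegral
  have hnf : NumberField (IntermediateField.adjoin ℚ S) := { to_charZero := inferInstance, to_finiteDimensional := hfd }
  have hden : ∀ c : S, ∃ d : ℕ, d ≠ 0 ∧ IsIntegral ℤ ((d : ℂ) * c) := by
    intro c
    have h1 : IsAlgebraic ℤ (c : ℂ) := (IsFractionRing.isAlgebraic_iff ℤ ℚ ℂ).mpr (hS c c.2)
    obtain ⟨y, hy, hyi⟩ := h1.exists_integral_multiple
    refine ⟨y.natAbs, by simpa using hy, ?_⟩
    rcases Int.natAbs_eq y with h | h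
    · have : ((y.natAbs : ℕ) : ℂ) * c = y • (c : ℂ) := by
        rw [zsmul_eq_mul]; conv_rhs => rw [h]
        simp
      rw [this]; exact hyi
    · have : ((y.natAbs : ℕ) : ℂ) * c = -(y • (c : ℂ)) := by
        rw [zsmul_eq_mul]; conv_rhs => rw [h]
        simp
      rw [this]; exact hyi.neg
  choose d hd hdi using hden
  have := Fintype.ofFinite S
  refine ⟨IntermediateField.adjoin ℚ S, hnf, ∏ c, d c, Finset.prod_ne_zero_iff.mpr fun c _ => hd c, ?_⟩
  intro c hc
  have hcK : c ∈ IntermediateField.adjoin ℚ S := IntermediateField.subset_adjoin ℚ S hc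
  have hint : IsIntegral ℤ (((∏ c, d c : ℕ) : ℂ) * c) := by
    have h1 := hdi ⟨c, hc⟩
    have h2 : IsIntegral ℤ (((∏ x ∈ Finset.univ.erase (⟨c, hc⟩ : S), d x : ℕ) : ℂ)) :=
      isIntegral_natCast _
    have h3 := h1.mul h2
    have h4 : (((∏ c, d c : ℕ) : ℂ) * c) = ((d ⟨c, hc⟩ : ℕ) : ℂ) * c *
        ((∏ x ∈ Finset.univ.erase (⟨c, hc⟩ : S), d x : ℕ) : ℂ) := by
      rw [← Finset.mul_prod_erase Finset.univ d (Finset.mem_univ ⟨c, hc⟩), Nat.cast_mul]
      ring
    rw [h4]
    exact h3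
  set cK : IntermediateField.adjoin ℚ S := ⟨c, hcK⟩ with hcKdef
  have hint' : IsIntegral ℤ (((∏ c, d c : ℕ) : IntermediateField.adjoin ℚ S) * cK) := by
    have hinj : Function.Injective (algebraMap (IntermediateField.adjoin ℚ S) ℂ) :=
      (algebraMap (IntermediateField.adjoin ℚ S) ℂ).injective
    rw [← isIntegral_algebraMap_iff (A := IntermediateField.adjoin ℚ S) (B := ℂ) hinj]
    rw [map_mul, map_natCast]
    exact hint
  refine ⟨⟨_, hint'⟩, ?_⟩
  simp [RingOfIntegers.map_mk, hcKdef]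

/-- **Periodic Schneider-Lang theorem.**  Let `f_i = u_i / h` be quotients of entire functions of
order at most two on `ℂ`, with algebraic values at `0`, whose derivatives are polynomials in the
`f_i` with algebraic coefficients.  If `h, u_i` are multiplied by a common factor under a
translation `z ↦ z + w`, `w ≠ 0`, then any two of the `f_i` are algebraically dependent. -/
theorem schneider_lang_periodic {ι : Type*} [Finite ι] (P : ι → MvPolynomial ι ℂ)
    (hP : ∀ i m, IsAlgebraic ℚ ((P i).coeff m))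
    (h : ℂ → ℂ) (u : ι → ℂ → ℂ) (hh : Differentiable ℂ h) (hu : ∀ i, Differentiable ℂ (u i))
    (h0 : h 0 ≠ 0)
    (hval : ∀ i, IsAlgebraic ℚ (u i 0 / h 0))
    (hder : ∀ z, h z ≠ 0 → ∀ i, HasDerivAt (fun z => u i z / h z)
      (eval (fun j => u j z / h z) (P i)) z)
    {C₀ : ℝ} (hgh : ∀ z, ‖h z‖ ≤ Real.exp (C₀ * (1 + ‖z‖ ^ 2)))
    (hgu : ∀ i z, ‖u i z‖ ≤ Real.exp (C₀ * (1 + ‖z‖ ^ 2)))
    {w : ℂ} (hw : w ≠ 0) (e : ℂ → ℂ) (he : Differentiable ℂ e) (hph : ∀ z, h (z + w) = e z * h z)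
    (hpu : ∀ i z, u i (z + w) = e z * u i z) (i j : ι) :
    ∃ (N : ℕ) (c : Fin N × Fin N → ℂ), c ≠ 0 ∧ ∀ z, h z ≠ 0 →
      ∑ pq, c pq * ((u i z / h z) ^ (pq.1 : ℕ) * (u j z / h z) ^ (pq.2 : ℕ)) = 0 := by
  classical
  by_contra hcon
  push Not at hcon
  have := Fintype.ofFinite ι
  -- the finite set of algebraic numbers
  set S : Set ℂ := (⋃ i, (fun m => (P i).coeff m) '' ((P i).support : Set (ι →₀ ℕ))) ∪
    Set.range (fun i => u i 0 / h 0) with hS
  have hSfin : Finite S := by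
    apply Set.Finite.to_subtype
    apply Set.Finite.union
    · exact Set.finite_iUnion fun i => (Finset.finite_toSet _).image _
    · exact Set.finite_range _
  obtain ⟨K, hK, d, hd0, hlift⟩ := exists_numberField S (by
    rintro c (hc | hc)
    · obtain ⟨i, hi⟩ := Set.mem_iUnion.mp hc
      obtain ⟨m, _, rfl⟩ := hi
      exact hP i m
    · obtain ⟨i, rfl⟩ := hc
      exact hval i)
  set em : K →+* ℂ := algebraMap K ℂ with hem
  set ψ : 𝓞 K →+* ℂ := em.comp (algebraMap (𝓞 K) K) with hψ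
  have hcoef : ∀ i m, ∃ a : 𝓞 K, ψ a = d * (P i).coeff m := by
    intro i m
    by_cases hm : m ∈ (P i).support
    · exact hlift _ (Or.inl (Set.mem_iUnion.mpr ⟨i, ⟨m, hm, rfl⟩⟩))
    · exact ⟨0, by rw [notMem_support_iff.mp hm]; simp⟩
  choose a ha using hcoef
  have hx : ∀ i, ∃ x : 𝓞 K, ψ x = d * (u i 0 / h 0) := fun i => hlift _ (Or.inr ⟨i, rfl⟩)
  choose x hx using hx
  obtain ⟨r, hr⟩ : ∃ r : ℕ, ∀ i, (P i).totalDegree ≤ r :=
    ⟨∑ i, (P i).totalDegree, fun i =>
      Finset.single_le_sum (f := fun i => (P i).totalDegree) (fun _ _ => Nat.zero_le _)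
        (Finset.mem_univ i)⟩
  set P' : ι → MvPolynomial ι (𝓞 K) := fun i =>
    ∑ m ∈ (P i).support, monomial m (a i m * (d : 𝓞 K) ^ (r - m.degree)) with hP'
  have hdC : (d : ℂ) ≠ 0 := by exact_mod_cast hd0
  have hdR : (1 : ℝ) ≤ d := by exact_mod_cast Nat.one_le_iff_ne_zero.mpr hd0
  have hPP' : ∀ i (y : ι → ℂ), eval₂ ψ (fun k => d * y k) (P' i) =
      d * (d : ℂ) ^ r * eval y (P i) := by
    intro i y
    rw [hP', eval₂_sum, eval_eq', Finset.mul_sum]
    apply Finset.sum_congr rfl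
    intro m hm
    rw [eval₂_monomial, map_mul, map_pow, map_natCast, ha, Finsupp.prod_fintype _ _ (by simp)]
    have h1 : m.degree ≤ r := (le_totalDegree hm).trans (hr i)
    have h2 : (d : ℂ) ^ r = (d : ℂ) ^ (r - m.degree) * (d : ℂ) ^ m.degree := by
      rw [← pow_add]; congr 1; omega
    have h3 : (d : ℂ) ^ m.degree = ∏ k, (d : ℂ) ^ (m k) := by
      rw [Finset.prod_pow_eq_pow_sum, Finsupp.degree_eq_sum]
    rw [h2, h3]
    simp only [mul_pow, Finset.prod_mul_distrib]
    ring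
  set δ : ℂ := (d : ℂ) ^ r with hδ
  have hδ0 : δ ≠ 0 := pow_ne_zero _ hdC
  have hδn : ‖δ‖ = (d : ℝ) ^ r := by rw [hδ, norm_pow, Complex.norm_natCast]
  refine core em P' x (fun z => h (δ * z)) (fun i z => d * u i (δ * z))
    (by fun_prop) (fun i => by have := hu i; fun_prop) (by simpa using h0) ?_ ?_
    (C₀ := |C₀| * (1 + ‖δ‖ ^ 2) + Real.log d) ?_ ?_ ?_ (w := w / δ) ?_
    (fun z => e (δ * z)) (by fun_prop) ?_ ?_ i j ?_
  · intro i
    have := hx i
    simp only [mul_zero]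
    rw [hψ] at this
    simp only [RingHom.comp_apply] at this
    rw [this]; ring
  · intro z hz i
    have h1 := hder (δ * z) hz i
    have h2 : HasDerivAt (fun z : ℂ => δ * z) δ z := by
      simpa using (hasDerivAt_id z).const_mul δ
    have h3 := (h1.comp z h2).const_mul (d : ℂ)
    have h4 : (fun z => (d : ℂ) * u i (δ * z) / h (δ * z)) =
        fun z => (d : ℂ) * ((fun z => u i z / h z) ∘ fun z => δ * z) z := by
      ext z; simp [mul_div_assoc]
    have h5 : eval₂ (em.comp (algebraMap (𝓞 K) K)) (fun j => (d : ℂ) * u j (δ * z) / h (δ * z))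
        (P' i) = d * (eval (fun j => u j (δ * z) / h (δ * z)) (P i) * δ) := by
      have h6 := hPP' i (fun j => u j (δ * z) / h (δ * z))
      have h7 : (fun j => (d : ℂ) * u j (δ * z) / h (δ * z)) =
          fun k => (d : ℂ) * (u k (δ * z) / h (δ * z)) := by
        ext k; rw [mul_div_assoc]
      rw [h7, ← hψ, h6]; ring
    rw [h4, h5]
    exact h3
  · have := Real.log_nonneg hdR
    positivity
  · intro z
    refine (hgh _).trans ?_
    apply Real.exp_le_exp.mpr
    have h1 : C₀ * (1 + ‖δ * z‖ ^ 2) ≤ |C₀| * (1 + ‖δ * z‖ ^ 2) := by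
      gcongr; exact le_abs_self _
    have h2 : |C₀| * (1 + ‖δ * z‖ ^ 2) ≤ |C₀| * (1 + ‖δ‖ ^ 2) * (1 + ‖z‖ ^ 2) := by
      rw [norm_mul, mul_pow, mul_assoc]
      gcongr
      nlinarith [sq_nonneg ‖δ‖, sq_nonneg ‖z‖]
    have h3 : 0 ≤ Real.log d * (1 + ‖z‖ ^ 2) := by
      have := Real.log_nonneg hdR
      positivity
    nlinarith
  · intro i z
    rw [norm_mul, Complex.norm_natCast]
    have h1 : C₀ * (1 + ‖δ * z‖ ^ 2) ≤ |C₀| * (1 + ‖δ * z‖ ^ 2) := by
      gcongr; exact le_abs_self _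
    have h2 : |C₀| * (1 + ‖δ * z‖ ^ 2) ≤ |C₀| * (1 + ‖δ‖ ^ 2) * (1 + ‖z‖ ^ 2) := by
      rw [norm_mul, mul_pow, mul_assoc]
      gcongr
      nlinarith [sq_nonneg ‖δ‖, sq_nonneg ‖z‖]
    calc (d : ℝ) * ‖u i (δ * z)‖ ≤ Real.exp (Real.log d) * Real.exp (C₀ * (1 + ‖δ * z‖ ^ 2)) := by
          rw [Real.exp_log (by linarith)]
          gcongr
          exact hgu i _
      _ = Real.exp (Real.log d + C₀ * (1 + ‖δ * z‖ ^ 2)) := by rw [Real.exp_add]
      _ ≤ _ := by
          apply Real.exp_le_exp.mpr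
          have h3 : Real.log d ≤ Real.log d * (1 + ‖z‖ ^ 2) := by
            have := Real.log_nonneg hdR
            nlinarith [sq_nonneg ‖z‖]
          nlinarith
  · exact div_ne_zero hw hδ0
  · intro z
    have : δ * (z + w / δ) = δ * z + w := by field_simp
    rw [this, hph]
  · intro i z
    have : δ * (z + w / δ) = δ * z + w := by field_simp
    rw [this, hpu]; ring
  · intro N c hc
    obtain ⟨z, hz, hzne⟩ := hcon N (fun pq => c pq * (d : ℂ) ^ (pq.1 + pq.2 : ℕ)) (by
      intro h1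
      apply hc
      funext pq
      have := congrFun h1 pq
      simpa [hdC] using this)
    refine ⟨z / δ, ?_, ?_⟩
    · have : δ * (z / δ) = z := by field_simp
      rw [this]; exact hz
    · have : δ * (z / δ) = z := by field_simp
      rw [this]
      convert hzne using 1
      apply Finset.sum_congr rfl
      intro pq _
      rw [mul_div_assoc, mul_div_assoc, mul_pow, mul_pow, pow_add]
      ring

end Pool.Agent.Helper8
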