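import Mathlib
import Pool.Agent.Helper8.SLGeneral
import Pool.Agent.Helper8.AVBasic
import Pool.Agent.Helper8.AlgPoly

open scoped ComplexConjugate
open Filter Topology MvPolynomial

namespace Pool.Agent.GPC

namespace AbVar

variable (A : AbVar)

section LineDeriv

/-- derivative along a line -/
lemma hasDerivAt_line {g : ℕ} {f : (Fin g → ℂ) → ℂ} (hf : AnalyticOnNhd ℂ f Set.univ)
    (v : Fin g → ℂ) (s : ℂ) :
    HasDerivAt (fun s : ℂ => f (s • v)) (∑ a, v a * pd a f (s • v)) s := by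
  classical
  have h1 : HasFDerivAt f (fderiv ℂ f (s • v)) (s • v) :=
    ((hf (s • v) (Set.mem_univ _)).differentiableAt).hasFDerivAt
  have h2 : HasDerivAt (fun s : ℂ => s • v) v s := by
    simpa using (hasDerivAt_id s).smul_const v
  have h3 := h1.comp_hasDerivAt s h2
  have h4 : (fderiv ℂ f (s • v)) v = ∑ a, v a * pd a f (s • v) := by
    have h5 : v = ∑ a, v a • (Pi.single a (1 : ℂ) : Fin g → ℂ) := by
      conv_lhs => rw [← Finset.univ_sum_single v]
      apply Finset.sum_congr rfl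
      intro a _
      rw [← Pi.single_smul]; simp
    calc (fderiv ℂ f (s • v)) v
        = (fderiv ℂ f (s • v)) (∑ a, v a • (Pi.single a (1 : ℂ) : Fin g → ℂ)) :=
          congrArg _ h5
      _ = ∑ a, v a * pd a f (s • v) := by
          rw [map_sum]
          apply Finset.sum_congr rfl
          intro a _
          rw [map_smul, smul_eq_mul]
          rfl
  rw [← h4]
  exact h3

lemma analytic_pd {g : ℕ} {f : (Fin g → ℂ) → ℂ} (hf : AnalyticOnNhd ℂ f Set.univ) (a : Fin g) :
    AnalyticOnNhd ℂ (pd a f) Set.univ := by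
  have h1 := hf.fderiv
  intro z hz
  exact ((ContinuousLinearMap.apply ℂ ℂ (Pi.single a (1 : ℂ))).analyticAt _).comp (h1 z hz)

end LineDeriv

/-- theta functions on a line -/
noncomputable def T (v : Fin A.g → ℂ) (j : Fin (A.N + 1)) (s : ℂ) : ℂ := A.θ j (s • v)

lemma T_hasDerivAt (v : Fin A.g → ℂ) (j : Fin (A.N + 1)) (s : ℂ) :
    HasDerivAt (A.T v j) (∑ a, v a * pd a (A.θ j) (s • v)) s :=
  hasDerivAt_line (A.entire j) v s

lemma T_differentiable (v : Fin A.g → ℂ) (j : Fin (A.N + 1)) : Differentiable ℂ (A.T v j) :=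
  fun s => (A.T_hasDerivAt v j s).differentiableAt

lemma T_deriv (v : Fin A.g → ℂ) (j : Fin (A.N + 1)) :
    deriv (A.T v j) = fun s => ∑ a, v a * pd a (A.θ j) (s • v) := by
  funext s
  exact (A.T_hasDerivAt v j s).deriv

lemma T_deriv_hasDerivAt (v : Fin A.g → ℂ) (j : Fin (A.N + 1)) (s : ℂ) :
    HasDerivAt (deriv (A.T v j)) (∑ a, ∑ b, v a * v b * pd b (pd a (A.θ j)) (s • v)) s := by
  rw [A.T_deriv v j]
  have h1 : ∀ a ∈ Finset.univ, HasDerivAt (fun s => v a * pd a (A.θ j) (s • v))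
      (∑ b, v a * v b * pd b (pd a (A.θ j)) (s • v)) s := by
    intro a _
    have h2 := (hasDerivAt_line (analytic_pd (A.entire j) a) v s).const_mul (v a)
    have h3 : (∑ b, v a * v b * pd b (pd a (A.θ j)) (s • v)) =
        v a * ∑ b, v b * pd b (pd a (A.θ j)) (s • v) := by
      rw [Finset.mul_sum]
      exact Finset.sum_congr rfl fun b _ => by ring
    rw [h3]
    exact h2
  exact HasDerivAt.fun_sum h1

/-- The functions on the line to which the Schneider-Lang theorem is applied: the theta functions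
and the numerator of the logarithmic derivative `θ'/θ - κ - c s`. -/
noncomputable def U (v : Fin A.g → ℂ) (i0 : Fin (A.N + 1)) (c : ℂ) :
    Option (Fin (A.N + 1)) → ℂ → ℂ
  | some j => A.T v j
  | none => fun s => deriv (A.T v i0) s -
      (deriv (A.T v i0) 0 / A.T v i0 0 + c * s) * A.T v i0 s

lemma exists_growth_T (v : Fin A.g → ℂ) : ∃ C : ℝ, 0 ≤ C ∧ ∀ j s,
    ‖A.T v j s‖ ≤ Real.exp (C * (1 + ‖s‖ ^ 2)) := by
  obtain ⟨C, hC0, hC⟩ := A.exists_growth
  refine ⟨C * (1 + ‖v‖ ^ 2), by positivity, fun j s => (hC j _).trans ?_⟩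
  apply Real.exp_le_exp.mpr
  rw [norm_smul, mul_assoc]
  gcongr
  nlinarith [sq_nonneg ‖v‖, sq_nonneg ‖s‖]

lemma exists_growth_U (v : Fin A.g → ℂ) (i0 : Fin (A.N + 1)) (c : ℂ) :
    ∃ C : ℝ, 0 ≤ C ∧ (∀ j s, ‖A.T v j s‖ ≤ Real.exp (C * (1 + ‖s‖ ^ 2))) ∧
      ∀ j s, ‖A.U v i0 c j s‖ ≤ Real.exp (C * (1 + ‖s‖ ^ 2)) := by
  obtain ⟨C, hC0, hC⟩ := A.exists_growth_T v
  set κ := deriv (A.T v i0) 0 / A.T v i0 0 with hκ
  refine ⟨3 * C + ‖κ‖ + ‖c‖ + 1, by positivity, ?_, ?_⟩
  · intro j s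
    refine (hC j s).trans (Real.exp_le_exp.mpr ?_)
    gcongr
    have := norm_nonneg κ
    have := norm_nonneg c
    linarith
  · intro j s
    rcases j with _ | j
    · -- the derivative
      have hd : ‖deriv (A.T v i0) s‖ ≤ Real.exp (3 * C * (1 + ‖s‖ ^ 2)) := by
        have h1 := Complex.norm_deriv_le_of_forall_mem_sphere_norm_le (c := s) (R := 1)
          (C := Real.exp (3 * C * (1 + ‖s‖ ^ 2))) (f := A.T v i0) one_pos
          (A.T_differentiable v i0).diffContOnCl (by
            intro z hz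
            refine (hC i0 z).trans (Real.exp_le_exp.mpr ?_)
            have h2 : ‖z‖ ≤ ‖s‖ + 1 := by
              have h3 : ‖z - s‖ = 1 := by simpa using hz
              calc ‖z‖ = ‖(z - s) + s‖ := by rw [sub_add_cancel]
                _ ≤ ‖z - s‖ + ‖s‖ := norm_add_le _ _
                _ = ‖s‖ + 1 := by rw [h3]; ring
            have h4 : 1 + ‖z‖ ^ 2 ≤ 3 * (1 + ‖s‖ ^ 2) := by
              have : ‖z‖ ^ 2 ≤ (‖s‖ + 1) ^ 2 := by gcongr
              nlinarith [sq_nonneg (‖s‖ - 1)]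
            calc C * (1 + ‖z‖ ^ 2) ≤ C * (3 * (1 + ‖s‖ ^ 2)) := by gcongr
              _ = 3 * C * (1 + ‖s‖ ^ 2) := by ring)
        simpa using h1
      have hk : ‖κ + c * s‖ ≤ Real.exp ((‖κ‖ + ‖c‖) * (1 + ‖s‖ ^ 2)) := by
        have h1 : ‖κ + c * s‖ ≤ (‖κ‖ + ‖c‖) * (1 + ‖s‖ ^ 2) := by
          calc ‖κ + c * s‖ ≤ ‖κ‖ + ‖c‖ * ‖s‖ := by
                refine (norm_add_le _ _).trans ?_
                rw [norm_mul]
            _ ≤ _ := by
                have h2 : ‖s‖ ≤ 1 + ‖s‖ ^ 2 := by nlinarith [sq_nonneg (‖s‖ - 1), sq_nonneg ‖s‖]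
                have h3 := mul_le_mul_of_nonneg_left h2 (norm_nonneg c)
                nlinarith [norm_nonneg κ, norm_nonneg c, sq_nonneg ‖s‖,
                  mul_nonneg (norm_nonneg κ) (sq_nonneg ‖s‖)]
        calc ‖κ + c * s‖ ≤ (‖κ‖ + ‖c‖) * (1 + ‖s‖ ^ 2) := h1
          _ ≤ (‖κ‖ + ‖c‖) * (1 + ‖s‖ ^ 2) + 1 := by linarith
          _ ≤ _ := Real.add_one_le_exp _
      have hT := hC i0 s
      have h2 : ‖(κ + c * s) * A.T v i0 s‖ ≤
          Real.exp ((3 * C + ‖κ‖ + ‖c‖) * (1 + ‖s‖ ^ 2)) := by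
        rw [norm_mul]
        calc ‖κ + c * s‖ * ‖A.T v i0 s‖ ≤ Real.exp ((‖κ‖ + ‖c‖) * (1 + ‖s‖ ^ 2)) *
            Real.exp (C * (1 + ‖s‖ ^ 2)) := by gcongr
          _ = Real.exp ((‖κ‖ + ‖c‖) * (1 + ‖s‖ ^ 2) + C * (1 + ‖s‖ ^ 2)) := by
              rw [Real.exp_add]
          _ ≤ _ := by
              apply Real.exp_le_exp.mpr
              have : 0 ≤ C * (1 + ‖s‖ ^ 2) := by positivity
              nlinarith
      have h3 : ‖deriv (A.T v i0) s‖ ≤ Real.exp ((3 * C + ‖κ‖ + ‖c‖) * (1 + ‖s‖ ^ 2)) := by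
        refine hd.trans (Real.exp_le_exp.mpr ?_)
        gcongr
        have := norm_nonneg κ
        have := norm_nonneg c
        linarith
      calc ‖A.U v i0 c none s‖ ≤ ‖deriv (A.T v i0) s‖ + ‖(κ + c * s) * A.T v i0 s‖ :=
            norm_sub_le _ _
        _ ≤ 2 * Real.exp ((3 * C + ‖κ‖ + ‖c‖) * (1 + ‖s‖ ^ 2)) := by linarith
        _ ≤ Real.exp (1 * (1 + ‖s‖ ^ 2)) *
            Real.exp ((3 * C + ‖κ‖ + ‖c‖) * (1 + ‖s‖ ^ 2)) := by
            gcongr
            have := Real.add_one_le_exp (1 * (1 + ‖s‖ ^ 2))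
            nlinarith [sq_nonneg ‖s‖]
        _ = Real.exp ((3 * C + ‖κ‖ + ‖c‖ + 1) * (1 + ‖s‖ ^ 2)) := by
            rw [← Real.exp_add]; congr 1; ring
    · refine (hC j s).trans (Real.exp_le_exp.mpr ?_)
      gcongr
      have := norm_nonneg κ
      have := norm_nonneg c
      linarith

/-- the multiplier along the line. -/
noncomputable def mult (v l : Fin A.g → ℂ) (s : ℂ) : ℂ :=
  A.χ l * Complex.exp ((Real.pi * hermForm A.H v l + bilForm A.q v l) * s +
    (Real.pi / 2 * hermForm A.H l l + 1 / 2 * bilForm A.q l l))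

lemma T_add {v l : Fin A.g → ℂ} (hl : l ∈ A.Λ) {w : ℂ} (hlv : l = w • v) (j : Fin (A.N + 1))
    (s : ℂ) : A.T v j (s + w) = A.mult v l s * A.T v j s := by
  unfold T mult
  rw [add_smul, ← hlv, A.quasi j l hl, hermForm_smul_left, bilForm_smul_left]
  congr 3
  ring

lemma mult_hasDerivAt (v l : Fin A.g → ℂ) (s : ℂ) :
    HasDerivAt (A.mult v l) ((Real.pi * hermForm A.H v l + bilForm A.q v l) * A.mult v l s) s := by
  unfold mult
  have h1 : HasDerivAt (fun s : ℂ => (Real.pi * hermForm A.H v l + bilForm A.q v l) * s +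
    (Real.pi / 2 * hermForm A.H l l + 1 / 2 * bilForm A.q l l))
      (Real.pi * hermForm A.H v l + bilForm A.q v l) s := by
    simpa using ((hasDerivAt_id s).const_mul
      (Real.pi * hermForm A.H v l + bilForm A.q v l : ℂ)).add_const
      (Real.pi / 2 * hermForm A.H l l + 1 / 2 * bilForm A.q l l)
  have h2 := (h1.cexp).const_mul (A.χ l)
  refine h2.congr_deriv ?_
  ring

/-- the sum of the quasi-periods along `v`. -/
lemma eta_sum (v l : Fin A.g → ℂ) :
    (Real.pi * hermForm A.H v l + bilForm A.q v l : ℂ) = ∑ a, v a * A.eta l a := by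
  rw [hermForm_eq_sum A.H v l, bilForm_eq_sum A.q v l, Finset.mul_sum, ← Finset.sum_add_distrib]
  apply Finset.sum_congr rfl
  intro a _
  unfold eta
  ring

lemma T_deriv_add {v l : Fin A.g → ℂ} (hl : l ∈ A.Λ) {w : ℂ} (hlv : l = w • v)
    (j : Fin (A.N + 1)) (s : ℂ) :
    deriv (A.T v j) (s + w) = A.mult v l s *
      (deriv (A.T v j) s + (∑ a, v a * A.eta l a) * A.T v j s) := by
  have h1 : HasDerivAt (fun s => A.T v j (s + w)) (deriv (A.T v j) (s + w)) s := by
    have h2 := ((A.T_differentiable v j) (s + w)).hasDerivAt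
    have h3 : HasDerivAt (fun s : ℂ => s + w) 1 s := by simpa using (hasDerivAt_id s).add_const w
    exact (HasDerivAt.comp s h2 h3).congr_deriv (mul_one _)
  have h4 : (fun s => A.T v j (s + w)) = fun s => A.mult v l s * A.T v j s := by
    funext s; exact A.T_add hl hlv j s
  rw [h4] at h1
  have h5 := (A.mult_hasDerivAt v l s).mul ((A.T_differentiable v j) s).hasDerivAt
  have h6 := h1.unique h5
  rw [h6, ← A.eta_sum]
  ring

/-- Schneider-Lang on the line `ℂ v` through the lattice point `l = w v`. -/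
theorem line_dep {v v' l : Fin A.g → ℂ} (hl : l ∈ A.Λ) {w : ℂ} (hw : w ≠ 0) (hlv : l = w • v)
    (hv : ∀ a, IsAlgebraic ℚ (v a)) (hv' : ∀ a, IsAlgebraic ℚ (v' a))
    (hη : ∀ a, A.eta l a = w * v' a) (i0 : Fin (A.N + 1)) (hi0 : A.θ i0 0 ≠ 0)
    (x y : Option (Fin (A.N + 1))) :
    ∃ (N : ℕ) (c : Fin N × Fin N → ℂ), c ≠ 0 ∧ ∀ z, A.T v i0 z ≠ 0 →
      ∑ pq, c pq * ((A.U v i0 (∑ a, v a * v' a) x z / A.T v i0 z) ^ (pq.1 : ℕ) *
        (A.U v i0 (∑ a, v a * v' a) y z / A.T v i0 z) ^ (pq.2 : ℕ)) = 0 := by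
  classical
  set c : ℂ := ∑ a, v a * v' a with hc
  have hcalg : IsAlgebraic ℚ c := by
    rw [hc]
    have : ∀ a ∈ Finset.univ, v a * v' a ∈ algebraicClosure ℚ ℂ := fun a _ =>
      mem_algebraicClosure_iff.mpr ((hv a).mul (hv' a))
    exact mem_algebraicClosure_iff.mp (sum_mem this)
  have hT0 : A.T v i0 0 ≠ 0 := by
    unfold T; rw [zero_smul]; exact hi0
  choose Qw hQw1 hQw2 using fun a j => A.wronskian a i0 j
  choose Qs hQs1 hQs2 using fun a b => A.second a b i0
  set P : Option (Fin (A.N + 1)) → MvPolynomial (Option (Fin (A.N + 1))) ℂ := fun o =>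
    match o with
    | some j => ∑ a, MvPolynomial.C (v a) * rename some (Qw a j)
    | none => (∑ a, ∑ b, MvPolynomial.C (v a * v b) * rename some (Qs b a)) - MvPolynomial.C c
    with hP
  have hPalg : ∀ o m, IsAlgebraic ℚ ((P o).coeff m) := by
    intro o
    change AlgPoly (P o)
    rcases o with _ | j
    · refine AlgPoly.sub (AlgPoly.sum _ _ fun a _ => AlgPoly.sum _ _ fun b _ => ?_)
        (AlgPoly.C hcalg)
      exact AlgPoly.mul (AlgPoly.C ((hv a).mul (hv b))) (AlgPoly.rename some (hQs1 b a).2)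
    · refine AlgPoly.sum _ _ fun a _ => ?_
      exact AlgPoly.mul (AlgPoly.C (hv a)) (AlgPoly.rename some (hQw1 a j).2)
  obtain ⟨C₀, hC₀, hg1, hg2⟩ := A.exists_growth_U v i0 c
  -- evaluation of the quadratic forms
  have hev : ∀ (Q : MvPolynomial (Fin (A.N + 1)) ℂ), Q.IsHomogeneous 2 → ∀ z, A.T v i0 z ≠ 0 →
      eval (fun o => A.U v i0 c o z / A.T v i0 z) (rename some Q) =
        (eval (fun k => A.θ k (z • v)) Q) / A.T v i0 z ^ 2 := by
    intro Q hQ z hz
    rw [eval_rename]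
    have h1 : ((fun o => A.U v i0 c o z / A.T v i0 z) ∘ some) =
        fun k => (1 / A.T v i0 z) * A.θ k (z • v) := by
      funext k
      simp only [Function.comp_apply, U, T]
      ring
    rw [h1, eval_smul_of_isHomogeneous hQ]
    field_simp
  have hTan : ∀ j, Differentiable ℂ (A.T v j) := A.T_differentiable v
  have hT'd : Differentiable ℂ (deriv (A.T v i0)) := fun s =>
    (A.T_deriv_hasDerivAt v i0 s).differentiableAt
  refine Pool.Agent.Helper8.schneider_lang_periodic P hPalg (A.T v i0) (A.U v i0 c) (hTan i0) ?_ hT0 ?_ ?_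
    (hg1 i0) hg2 hw (A.mult v l) (fun s => (A.mult_hasDerivAt v l s).differentiableAt)
    (A.T_add hl hlv i0) ?_ x y
  · rintro (_ | j)
    · have := hTan i0
      change Differentiable ℂ fun s => deriv (A.T v i0) s -
        (deriv (A.T v i0) 0 / A.T v i0 0 + c * s) * A.T v i0 s
      fun_prop
    · exact hTan j
  · rintro (_ | j)
    · have : A.U v i0 c none 0 = 0 := by
        simp only [U, mul_zero, add_zero]
        field_simp
        simp
      rw [this, zero_div]
      exact isAlgebraic_zero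
    · simp only [U, T, zero_smul]
      exact A.origin i0 j hi0
  · intro z hz
    rintro (_ | j)
    · -- log derivative
      have h1 := A.T_deriv_hasDerivAt v i0 z
      have h2 := (hTan i0 z).hasDerivAt
      have h3 : HasDerivAt (fun s : ℂ => deriv (A.T v i0) 0 / A.T v i0 0 + c * s) c z := by
        simpa using ((hasDerivAt_id z).const_mul c).const_add (deriv (A.T v i0) 0 / A.T v i0 0)
      have h4 := h1.sub (h3.mul h2)
      have h5 := h4.div h2 hz
      refine h5.congr_deriv ?_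
      simp only [hP, map_sub, map_sum, map_mul, eval_C]
      have h6 : ∀ a b, eval (fun o => A.U v i0 c o z / A.T v i0 z) (rename some (Qs b a)) =
          (A.T v i0 z * pd b (pd a (A.θ i0)) (z • v) - pd b (A.θ i0) (z • v) *
            pd a (A.θ i0) (z • v)) / A.T v i0 z ^ 2 := by
        intro a b
        rw [hev _ (hQs1 b a).1 z hz, ← hQs2 b a]
        rfl
      simp only [h6]
      have h7 : deriv (A.T v i0) z = ∑ a, v a * pd a (A.θ i0) (z • v) := by
        rw [A.T_deriv v i0]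
      have h8 : ∑ a, ∑ b, v a * v b * ((A.T v i0 z * pd b (pd a (A.θ i0)) (z • v) -
          pd b (A.θ i0) (z • v) * pd a (A.θ i0) (z • v)) / A.T v i0 z ^ 2) =
          ((∑ a, ∑ b, v a * v b * pd b (pd a (A.θ i0)) (z • v)) * A.T v i0 z -
            deriv (A.T v i0) z * deriv (A.T v i0) z) / A.T v i0 z ^ 2 := by
        rw [h7, Finset.sum_mul_sum, Finset.sum_mul, ← Finset.sum_sub_distrib, Finset.sum_div]
        apply Finset.sum_congr rfl
        intro a _
        rw [Finset.sum_mul, ← Finset.sum_sub_distrib, Finset.sum_div]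
        apply Finset.sum_congr rfl
        intro b _
        ring
      rw [h8]
      simp only [Pi.sub_apply, Pi.mul_apply]
      field_simp
      ring
    · have h1 := (hTan j z).hasDerivAt
      have h2 := (hTan i0 z).hasDerivAt
      have h3 := h1.div h2 hz
      refine h3.congr_deriv ?_
      simp only [hP, map_sum, map_mul, eval_C]
      have h6 : ∀ a, eval (fun o => A.U v i0 c o z / A.T v i0 z) (rename some (Qw a j)) =
          (A.T v i0 z * pd a (A.θ j) (z • v) - A.T v j z * pd a (A.θ i0) (z • v)) /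
            A.T v i0 z ^ 2 := by
        intro a
        rw [hev _ (hQw1 a j).1 z hz, ← hQw2 a j]
        rfl
      simp only [h6]
      rw [(A.T_hasDerivAt v j z).deriv, (A.T_hasDerivAt v i0 z).deriv, Finset.sum_mul,
        Finset.mul_sum, ← Finset.sum_sub_distrib, Finset.sum_div]
      apply Finset.sum_congr rfl
      intro a _
      ring
  · rintro (_ | j) z
    · have h1 := A.T_deriv_add hl hlv i0 z
      have h2 := A.T_add hl hlv i0 z
      have h3 : ∑ a, v a * A.eta l a = c * w := by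
        rw [hc, Finset.sum_mul]
        apply Finset.sum_congr rfl
        intro a _
        rw [hη a]; ring
      simp only [U]
      rw [h1, h2, h3]
      ring
    · exact A.T_add hl hlv j z

end AbVar

end Pool.Agent.GPC
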