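import Mathlib
import Pool.Agent.Helper7.Cohomology
import Pool.Agent.Helper8.Line
import Pool.Agent.Helper8.SVDir

/-!
The system of functions on `H_1(A)` (the Lie algebra of the universal vector extension) to which
the Schneider-Lang theorem is applied.
-/

open scoped ComplexConjugate
open Filter Topology MvPolynomial
open Pool.Agent.Helper8 (dd dds dd_congr)

namespace Pool.Agent.GPC

lemma dd_comp {E F : Type*} [NormedAddCommGroup E] [NormedSpace ℂ E] [NormedAddCommGroup F]
    [NormedSpace ℂ F] (L : E →L[ℂ] F) {f : F → ℂ} {z : E} (hf : DifferentiableAt ℂ f (L z))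
    (v : E) : dd v (fun z => f (L z)) z = dd (L v) f (L z) := by
  unfold dd
  have h1 : HasFDerivAt (fun z => f (L z)) ((fderiv ℂ f (L z)).comp L) z :=
    hf.hasFDerivAt.comp z L.hasFDerivAt
  rw [h1.fderiv]
  rfl

namespace AbVar

variable (A : AbVar)

/-- the index of a theta function not vanishing at the origin -/
noncomputable def i0 : Fin (A.N + 1) := Classical.choose (A.base_free 0)

lemma i0_ne : A.θ A.i0 0 ≠ 0 := Classical.choose_spec (A.base_free 0)

/-- the projection to the Lie algebra -/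
noncomputable def zz : A.H1 →L[ℂ] (Fin A.g → ℂ) :=
  ContinuousLinearMap.pi fun a => ContinuousLinearMap.proj (Sum.inl a)

@[simp] lemma zz_apply (w : A.H1) (a : Fin A.g) : A.zz w a = w (.inl a) := rfl

lemma norm_zz_le (w : A.H1) : ‖A.zz w‖ ≤ ‖w‖ := by
  rw [pi_norm_le_iff_of_nonneg (norm_nonneg _)]
  intro a
  exact norm_le_pi_norm w (.inl a)

/-- indices of the functions -/
abbrev Idx : Type := Fin (A.N + 1) ⊕ Fin A.g

/-- logarithmic derivative at the origin -/
noncomputable def kap (a : Fin A.g) : ℂ := pd a (A.θ A.i0) 0 / A.θ A.i0 0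

/-- the common denominator -/
noncomputable def hh (w : A.H1) : ℂ := A.θ A.i0 (A.zz w)

/-- the numerators -/
noncomputable def uu : A.Idx → A.H1 → ℂ
  | .inl k => fun w => A.θ k (A.zz w)
  | .inr a => fun w => pd a (A.θ A.i0) (A.zz w) - (A.kap a + w (.inr a)) * A.θ A.i0 (A.zz w)

/-- the functions -/
noncomputable def ff (s : A.Idx) (w : A.H1) : ℂ := A.uu s w / A.hh w

lemma analyticAt_theta (k : Fin (A.N + 1)) (z : Fin A.g → ℂ) : AnalyticAt ℂ (A.θ k) z :=
  A.entire k z (Set.mem_univ _)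

lemma analyticAt_pd (k : Fin (A.N + 1)) (a : Fin A.g) (z : Fin A.g → ℂ) :
    AnalyticAt ℂ (pd a (A.θ k)) z := analytic_pd (A.entire k) a z (Set.mem_univ _)

lemma analyticAt_coord (j : Fin A.g ⊕ Fin A.g) (w : A.H1) :
    AnalyticAt ℂ (fun w : A.H1 => w j) w :=
  (ContinuousLinearMap.proj (R := ℂ) (φ := fun _ : Fin A.g ⊕ Fin A.g => ℂ) j).analyticAt w

lemma analyticAt_hh (w : A.H1) : AnalyticAt ℂ A.hh w :=
  (A.analyticAt_theta A.i0 (A.zz w)).comp (A.zz.analyticAt w)

lemma analyticAt_uu (s : A.Idx) (w : A.H1) : AnalyticAt ℂ (A.uu s) w := by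
  rcases s with k | a
  · exact (A.analyticAt_theta k (A.zz w)).comp (A.zz.analyticAt w)
  · have h1 : AnalyticAt ℂ (fun w => pd a (A.θ A.i0) (A.zz w)) w :=
      (A.analyticAt_pd A.i0 a (A.zz w)).comp (A.zz.analyticAt w)
    have h2 : AnalyticAt ℂ (fun w => A.θ A.i0 (A.zz w)) w := A.analyticAt_hh w
    have h3 := A.analyticAt_coord (.inr a) w
    exact h1.sub ((analyticAt_const.add h3).mul h2)

lemma hh_zero : A.hh 0 ≠ 0 := by
  unfold hh; rw [map_zero]; exact A.i0_ne

lemma ff_zero_isAlgebraic (s : A.Idx) : IsAlgebraic ℚ (A.ff s 0) := by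
  rcases s with k | a
  · unfold ff uu hh
    rw [map_zero]
    exact A.origin A.i0 k A.i0_ne
  · have : A.uu (.inr a) 0 = 0 := by
      simp only [uu, map_zero, kap, Pi.zero_apply, add_zero]
      have := A.i0_ne
      field_simp
      simp
    unfold ff
    rw [this, zero_div]
    exact isAlgebraic_zero

/-- chosen quadratic forms -/
noncomputable def Qw (a : Fin A.g) (k : Fin (A.N + 1)) : MvPolynomial (Fin (A.N + 1)) ℂ :=
  Classical.choose (A.wronskian a A.i0 k)

lemma Qw_spec (a : Fin A.g) (k : Fin (A.N + 1)) : IsAlgQuadratic (A.Qw a k) ∧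
    ∀ z, A.θ A.i0 z * pd a (A.θ k) z - A.θ k z * pd a (A.θ A.i0) z =
      MvPolynomial.eval (fun k => A.θ k z) (A.Qw a k) :=
  Classical.choose_spec (A.wronskian a A.i0 k)

/-- chosen quadratic forms -/
noncomputable def Qs (b a : Fin A.g) : MvPolynomial (Fin (A.N + 1)) ℂ :=
  Classical.choose (A.second b a A.i0)

lemma Qs_spec (b a : Fin A.g) : IsAlgQuadratic (A.Qs b a) ∧
    ∀ z, A.θ A.i0 z * pd b (pd a (A.θ A.i0)) z - pd b (A.θ A.i0) z * pd a (A.θ A.i0) z =
      MvPolynomial.eval (fun k => A.θ k z) (A.Qs b a) :=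
  Classical.choose_spec (A.second b a A.i0)

/-- the differential equations -/
noncomputable def PP (v : A.H1) : A.Idx → MvPolynomial A.Idx ℂ
  | .inl k => ∑ a, MvPolynomial.C (v (.inl a)) * rename Sum.inl (A.Qw a k)
  | .inr a => (∑ b, MvPolynomial.C (v (.inl b)) * rename Sum.inl (A.Qs b a)) -
      MvPolynomial.C (v (.inr a))

lemma PP_alg (v : A.H1) (hv : A.IsDeRham v) (s : A.Idx) : AlgPoly (A.PP v s) := by
  rcases s with k | a
  · refine AlgPoly.sum _ _ fun a _ => ?_
    exact AlgPoly.mul (AlgPoly.C (hv _)) (AlgPoly.rename _ (A.Qw_spec a k).1.2)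
  · refine AlgPoly.sub (AlgPoly.sum _ _ fun b _ => ?_) (AlgPoly.C (hv _))
    exact AlgPoly.mul (AlgPoly.C (hv _)) (AlgPoly.rename _ (A.Qs_spec b a).1.2)

lemma eval_quadratic {Q : MvPolynomial (Fin (A.N + 1)) ℂ} (hQ : Q.IsHomogeneous 2) {w : A.H1}
    (hw : A.hh w ≠ 0) :
    eval (fun s => A.ff s w) (rename Sum.inl Q) =
      (eval (fun k => A.θ k (A.zz w)) Q) / A.hh w ^ 2 := by
  rw [eval_rename]
  have h1 : ((fun s => A.ff s w) ∘ Sum.inl) =
      fun k => (1 / A.hh w) * A.θ k (A.zz w) := by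
    funext k
    simp only [Function.comp_apply, ff, uu]
    ring
  rw [h1, eval_smul_of_isHomogeneous hQ]
  field_simp

lemma hasFDerivAt_theta (k : Fin (A.N + 1)) (z : Fin A.g → ℂ) :
    HasFDerivAt (A.θ k) (fderiv ℂ (A.θ k) z) z := (A.analyticAt_theta k z).differentiableAt.hasFDerivAt

lemma dd_ff (v : A.H1) (s : A.Idx) {w : A.H1} (hw : A.hh w ≠ 0) :
    dd v (A.ff s) w = eval (fun s => A.ff s w) (A.PP v s) := by
  have hT := A.hasFDerivAt_theta A.i0 (A.zz w)
  rcases s with k | a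
  · have h1 : A.ff (.inl k) = fun w => (fun z => A.θ k z / A.θ A.i0 z) (A.zz w) := rfl
    have h2 : AnalyticAt ℂ (fun z => A.θ k z / A.θ A.i0 z) (A.zz w) :=
      (A.analyticAt_theta k _).div (A.analyticAt_theta A.i0 _) hw
    rw [h1, dd_comp A.zz h2.differentiableAt]
    have h3 : dd (A.zz v) (fun z => A.θ k z / A.θ A.i0 z) (A.zz w) =
        (A.θ A.i0 (A.zz w) * fderiv ℂ (A.θ k) (A.zz w) (A.zz v) -
          A.θ k (A.zz w) * fderiv ℂ (A.θ A.i0) (A.zz w) (A.zz v)) / A.θ A.i0 (A.zz w) ^ 2 := by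
      have h4 := Helper8.hasDerivAt_line' (f := fun z => A.θ k z / A.θ A.i0 z) (p := A.zz w)
        (v := A.zz v) (s := 0) (by
          rw [zero_smul, add_zero]
          exact (A.analyticAt_theta k _).div (A.analyticAt_theta A.i0 _) hw)
      have h5 := Helper8.hasDerivAt_line' (f := A.θ k) (p := A.zz w) (v := A.zz v) (s := 0)
        (A.analyticAt_theta k _)
      have h6 := Helper8.hasDerivAt_line' (f := A.θ A.i0) (p := A.zz w) (v := A.zz v) (s := 0)
        (A.analyticAt_theta A.i0 _)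
      rw [zero_smul, add_zero] at h4 h5 h6
      have h7 := h5.div h6 (by rw [zero_smul, add_zero]; exact hw)
      rw [zero_smul, add_zero] at h7
      rw [h4.unique h7]
      unfold dd
      ring
    rw [h3]
    simp only [PP, map_sum, map_mul, eval_C]
    have h8 : ∀ a, eval (fun s => A.ff s w) (rename Sum.inl (A.Qw a k)) =
        (A.θ A.i0 (A.zz w) * pd a (A.θ k) (A.zz w) - A.θ k (A.zz w) *
          pd a (A.θ A.i0) (A.zz w)) / A.hh w ^ 2 := by
      intro a
      rw [A.eval_quadratic (A.Qw_spec a k).1.1 hw, ← (A.Qw_spec a k).2]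
    simp only [h8]
    rw [fderiv_eq_sum_pd, fderiv_eq_sum_pd, Finset.mul_sum, Finset.mul_sum,
      ← Finset.sum_sub_distrib, Finset.sum_div]
    apply Finset.sum_congr rfl
    intro a _
    simp only [zz_apply, hh]
    ring
  · have h1 : dd v (A.ff (.inr a)) w =
        dd (A.zz v) (fun z => pd a (A.θ A.i0) z / A.θ A.i0 z) (A.zz w) - v (.inr a) := by
      have hev : A.ff (.inr a) =ᶠ[𝓝 w] fun w =>
          (fun z => pd a (A.θ A.i0) z / A.θ A.i0 z) (A.zz w) + ((-1) * (A.kap a + w (.inr a))) := by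
        have hne : ∀ᶠ y in 𝓝 w, A.hh y ≠ 0 := (A.analyticAt_hh w).continuousAt.eventually_ne hw
        filter_upwards [hne] with y hy
        have hy' : A.θ A.i0 (A.zz y) ≠ 0 := hy
        simp only [ff, uu, hh]
        field_simp
        ring
      rw [(dd_congr hev v).self_of_nhds]
      have h2 : AnalyticAt ℂ (fun z => pd a (A.θ A.i0) z / A.θ A.i0 z) (A.zz w) :=
        (A.analyticAt_pd A.i0 a _).div (A.analyticAt_theta A.i0 _) hw
      have h3 : AnalyticAt ℂ (fun w => (fun z => pd a (A.θ A.i0) z / A.θ A.i0 z) (A.zz w)) w :=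
        h2.comp (A.zz.analyticAt w)
      have h4 : AnalyticAt ℂ (fun w : A.H1 => A.kap a + w (.inr a)) w :=
        analyticAt_const.add (A.analyticAt_coord _ w)
      have h4' : AnalyticAt ℂ (fun w : A.H1 => (-1 : ℂ) * (A.kap a + w (.inr a))) w :=
        analyticAt_const.mul h4
      have h5 := Helper8.dd_add h3 h4' v
      have h6 : dd v (fun w : A.H1 => A.kap a + w (.inr a)) w = v (.inr a) := by
        unfold dd
        rw [fderiv_const_add]
        have h7 : HasFDerivAt (fun w : A.H1 => w (.inr a))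
          (ContinuousLinearMap.proj (R := ℂ) (φ := fun _ : Fin A.g ⊕ Fin A.g => ℂ) (.inr a)) w :=
          (ContinuousLinearMap.proj (R := ℂ) (φ := fun _ : Fin A.g ⊕ Fin A.g => ℂ)
            (.inr a)).hasFDerivAt
        rw [h7.fderiv]
        rfl
      have h8 := Helper8.dd_const_mul h4 (-1) v
      have h9 : dd v (fun w => (fun z => pd a (A.θ A.i0) z / A.θ A.i0 z) (A.zz w)) w =
          dd (A.zz v) (fun z => pd a (A.θ A.i0) z / A.θ A.i0 z) (A.zz w) :=
        dd_comp A.zz h2.differentiableAt v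
      have h10 : (fun w : A.H1 => (fun z => pd a (A.θ A.i0) z / A.θ A.i0 z) (A.zz w) +
          (-1) * (A.kap a + w (.inr a))) =
          (fun w => (fun z => pd a (A.θ A.i0) z / A.θ A.i0 z) (A.zz w)) +
          (fun w : A.H1 => (-1 : ℂ) * (A.kap a + w (.inr a))) := rfl
      rw [h10, h5, h9, h8, h6]
      ring
    rw [h1]
    have h3 : dd (A.zz v) (fun z => pd a (A.θ A.i0) z / A.θ A.i0 z) (A.zz w) =
        (A.θ A.i0 (A.zz w) * fderiv ℂ (pd a (A.θ A.i0)) (A.zz w) (A.zz v) -
          fderiv ℂ (A.θ A.i0) (A.zz w) (A.zz v) * pd a (A.θ A.i0) (A.zz w)) /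
            A.θ A.i0 (A.zz w) ^ 2 := by
      have h4 := Helper8.hasDerivAt_line' (f := fun z => pd a (A.θ A.i0) z / A.θ A.i0 z)
        (p := A.zz w) (v := A.zz v) (s := 0) (by
          rw [zero_smul, add_zero]
          exact (A.analyticAt_pd A.i0 a _).div (A.analyticAt_theta A.i0 _) hw)
      have h5 := Helper8.hasDerivAt_line' (f := pd a (A.θ A.i0)) (p := A.zz w) (v := A.zz v)
        (s := 0) (A.analyticAt_pd A.i0 a _)
      have h6 := Helper8.hasDerivAt_line' (f := A.θ A.i0) (p := A.zz w) (v := A.zz v) (s := 0)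
        (A.analyticAt_theta A.i0 _)
      rw [zero_smul, add_zero] at h4 h5 h6
      have h7 := h5.div h6 (by rw [zero_smul, add_zero]; exact hw)
      rw [zero_smul, add_zero] at h7
      rw [h4.unique h7]
      unfold dd
      ring
    rw [h3]
    simp only [PP, map_sub, map_sum, map_mul, eval_C]
    congr 1
    have h8 : ∀ b, eval (fun s => A.ff s w) (rename Sum.inl (A.Qs b a)) =
        (A.θ A.i0 (A.zz w) * pd b (pd a (A.θ A.i0)) (A.zz w) - pd b (A.θ A.i0) (A.zz w) *
          pd a (A.θ A.i0) (A.zz w)) / A.hh w ^ 2 := by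
      intro b
      rw [A.eval_quadratic (A.Qs_spec b a).1.1 hw, ← (A.Qs_spec b a).2]
    simp only [h8]
    rw [fderiv_eq_sum_pd, fderiv_eq_sum_pd, Finset.mul_sum, Finset.sum_mul,
      ← Finset.sum_sub_distrib, Finset.sum_div]
    apply Finset.sum_congr rfl
    intro b _
    simp only [zz_apply, hh]
    ring

end AbVar

end Pool.Agent.GPC
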