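import Mathlib
import Pool.Agent.Helper8.SVSchwarz
import Pool.Agent.Helper8.Sys

/-!
Growth and quasi-periodicity of the system of functions.
-/

open scoped ComplexConjugate
open Filter Topology MvPolynomial
open Pool.Agent.Helper8 (dd dds dd_congr)

set_option linter.unusedSectionVars false

namespace Pool.Agent.GPC

namespace AbVar

variable (A : AbVar)

/-- the multiplier -/
noncomputable def mulf (l z : Fin A.g → ℂ) : ℂ :=
  A.χ l * Complex.exp ((∑ a, z a * A.eta l a) +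
    (Real.pi / 2 * hermForm A.H l l + 1 / 2 * bilForm A.q l l))

lemma mulf_ne_zero {l : Fin A.g → ℂ} (hl : l ∈ A.Λ) (z : Fin A.g → ℂ) : A.mulf l z ≠ 0 := by
  unfold mulf
  apply mul_ne_zero
  · intro h
    have := A.χ_norm l hl
    rw [h, norm_zero] at this
    exact zero_ne_one this
  · exact Complex.exp_ne_zero _

lemma theta_add {l : Fin A.g → ℂ} (hl : l ∈ A.Λ) (k : Fin (A.N + 1)) (z : Fin A.g → ℂ) :
    A.θ k (z + l) = A.mulf l z * A.θ k z := by
  rw [A.quasi k l hl z, mulf, ← A.eta_sum]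
  congr 3
  ring

lemma hasFDerivAt_mulf (l z v : Fin A.g → ℂ) : DifferentiableAt ℂ (A.mulf l) z ∧
    fderiv ℂ (A.mulf l) z v = (∑ a, v a * A.eta l a) * A.mulf l z := by
  have h1 : HasFDerivAt (fun z : Fin A.g → ℂ => (∑ a, z a * A.eta l a) +
    (Real.pi / 2 * hermForm A.H l l + 1 / 2 * bilForm A.q l l))
      (∑ a, A.eta l a • (ContinuousLinearMap.proj (R := ℂ) (φ := fun _ : Fin A.g => ℂ) a)) z := by
    apply HasFDerivAt.add_const
    apply HasFDerivAt.fun_sum
    intro a _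
    have h2 := (ContinuousLinearMap.proj (R := ℂ) (φ := fun _ : Fin A.g => ℂ) a).hasFDerivAt
      (x := z)
    have h3 := h2.mul_const (A.eta l a)
    exact h3
  have h4 := (h1.cexp).const_mul (A.χ l)
  refine ⟨h4.differentiableAt, ?_⟩
  have h5 : fderiv ℂ (A.mulf l) z = _ := h4.fderiv
  rw [h5]
  simp only [ContinuousLinearMap.smul_apply, ContinuousLinearMap.sum_apply,
    ContinuousLinearMap.proj_apply, smul_eq_mul, mulf]
  rw [Finset.sum_congr rfl (fun a _ => mul_comm (A.eta l a) (v a))]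
  ring

lemma analyticAt_mulf (l z : Fin A.g → ℂ) : AnalyticAt ℂ (A.mulf l) z := by
  unfold mulf
  have h1 : AnalyticAt ℂ (fun z : Fin A.g → ℂ => (∑ a, z a * A.eta l a) +
    (Real.pi / 2 * hermForm A.H l l + 1 / 2 * bilForm A.q l l)) z := by
    refine AnalyticAt.add ?_ analyticAt_const
    apply Finset.analyticAt_fun_sum
    intro a _
    exact ((ContinuousLinearMap.proj (R := ℂ) (φ := fun _ : Fin A.g => ℂ) a).analyticAt z).mul
      analyticAt_const
  exact analyticAt_const.mul h1.cexp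

lemma pd_add {l : Fin A.g → ℂ} (hl : l ∈ A.Λ) (k : Fin (A.N + 1)) (a : Fin A.g)
    (z : Fin A.g → ℂ) :
    pd a (A.θ k) (z + l) = A.mulf l z * (pd a (A.θ k) z + A.eta l a * A.θ k z) := by
  have h1 : (fun z => A.θ k (z + l)) = fun z => A.mulf l z * A.θ k z := by
    funext z; exact A.theta_add hl k z
  have h2 : pd a (A.θ k) (z + l) = fderiv ℂ (fun z => A.θ k (z + l)) z (Pi.single a 1) := by
    rw [fderiv_comp_add_right]; rfl
  rw [h2, h1, fderiv_fun_mul (A.hasFDerivAt_mulf l z 0).1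
    (A.analyticAt_theta k z).differentiableAt]
  simp only [ContinuousLinearMap.add_apply, ContinuousLinearMap.smul_apply, smul_eq_mul]
  rw [(A.hasFDerivAt_mulf l z (Pi.single a 1)).2]
  have h3 : ∑ b, (Pi.single a (1 : ℂ) : Fin A.g → ℂ) b * A.eta l b = A.eta l a := by
    simp [Pi.single_apply]
  rw [h3]
  unfold pd
  ring

/-- `π(l)`, the period vector -/
lemma zz_period (l : Fin A.g → ℂ) : A.zz (A.period l) = l := by
  funext a; rfl

lemma hh_add {l : Fin A.g → ℂ} (hl : l ∈ A.Λ) (w : A.H1) :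
    A.hh (w + A.period l) = A.mulf l (A.zz w) * A.hh w := by
  unfold hh
  rw [map_add, A.zz_period, A.theta_add hl]

lemma uu_add {l : Fin A.g → ℂ} (hl : l ∈ A.Λ) (s : A.Idx) (w : A.H1) :
    A.uu s (w + A.period l) = A.mulf l (A.zz w) * A.uu s w := by
  rcases s with k | a
  · simp only [uu]
    rw [map_add, A.zz_period, A.theta_add hl]
  · simp only [uu]
    rw [map_add, A.zz_period, A.theta_add hl, A.pd_add hl]
    have : (w + A.period l) (Sum.inr a) = w (.inr a) + A.eta l a := rfl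
    rw [this]
    ring

lemma exists_growth_hu : ∃ C : ℝ, 0 ≤ C ∧
    (∀ w, ‖A.hh w‖ ≤ Real.exp (C * (1 + ‖w‖ ^ 2))) ∧
      ∀ s w, ‖A.uu s w‖ ≤ Real.exp (C * (1 + ‖w‖ ^ 2)) := by
  obtain ⟨C, hC0, hC⟩ := A.exists_growth
  set κ : ℝ := ∑ a, ‖A.kap a‖ with hκ
  have hκ0 : 0 ≤ κ := Finset.sum_nonneg fun _ _ => norm_nonneg _
  have hκa : ∀ a, ‖A.kap a‖ ≤ κ := fun a =>
    Finset.single_le_sum (f := fun a => ‖A.kap a‖) (fun _ _ => norm_nonneg _) (Finset.mem_univ a)
  have hT : ∀ k (w : A.H1), ‖A.θ k (A.zz w)‖ ≤ Real.exp (C * (1 + ‖w‖ ^ 2)) := by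
    intro k w
    refine (hC k _).trans (Real.exp_le_exp.mpr ?_)
    have := A.norm_zz_le w
    gcongr
  have hmono : ∀ (w : A.H1) {c c' : ℝ}, c ≤ c' →
      Real.exp (c * (1 + ‖w‖ ^ 2)) ≤ Real.exp (c' * (1 + ‖w‖ ^ 2)) := by
    intro w c c' h
    apply Real.exp_le_exp.mpr
    gcongr
  refine ⟨3 * C + κ + 2, by positivity, ?_, ?_⟩
  · intro w
    exact (hT A.i0 w).trans (hmono w (by linarith))
  · intro s w
    rcases s with k | a
    · exact (hT k w).trans (hmono w (by linarith))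
    · -- the derivative
      have hd : ‖pd a (A.θ A.i0) (A.zz w)‖ ≤ Real.exp (3 * C * (1 + ‖w‖ ^ 2)) := by
        have h1 := Helper8.norm_dd_le (f := A.θ A.i0) (A.analyticAt_theta A.i0) (z := A.zz w)
          (v := Pi.single a 1) (r := 1) (B := Real.exp (3 * C * (1 + ‖w‖ ^ 2))) (ν := 1)
          one_pos one_pos (by
            rw [pi_norm_le_iff_of_nonneg zero_le_one]
            intro b
            by_cases hb : b = a
            · subst hb; simp
            · rw [Pi.single_eq_of_ne hb]; simp) (by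
            intro y hy
            refine (hC A.i0 y).trans (Real.exp_le_exp.mpr ?_)
            have h2 : ‖y‖ ≤ ‖w‖ + 1 := by
              have h3 : ‖y‖ ≤ ‖y - A.zz w‖ + ‖A.zz w‖ := by
                calc ‖y‖ = ‖(y - A.zz w) + A.zz w‖ := by rw [sub_add_cancel]
                  _ ≤ _ := norm_add_le _ _
              have := A.norm_zz_le w
              linarith
            have h4 : 1 + ‖y‖ ^ 2 ≤ 3 * (1 + ‖w‖ ^ 2) := by
              have : ‖y‖ ^ 2 ≤ (‖w‖ + 1) ^ 2 := by gcongr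
              nlinarith [sq_nonneg (‖w‖ - 1)]
            calc C * (1 + ‖y‖ ^ 2) ≤ C * (3 * (1 + ‖w‖ ^ 2)) := by gcongr
              _ = 3 * C * (1 + ‖w‖ ^ 2) := by ring)
        rw [one_mul, div_one] at h1
        exact h1
      have hk : ‖A.kap a + w (.inr a)‖ ≤ Real.exp ((κ + 1) * (1 + ‖w‖ ^ 2)) := by
        have h1 : ‖A.kap a + w (.inr a)‖ ≤ (κ + 1) * (1 + ‖w‖ ^ 2) := by
          calc ‖A.kap a + w (.inr a)‖ ≤ κ + ‖w‖ :=
                (norm_add_le _ _).trans (add_le_add (hκa a) (norm_le_pi_norm w _))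
            _ ≤ _ := by
                have h2 : ‖w‖ ≤ 1 + ‖w‖ ^ 2 := by
                  nlinarith [sq_nonneg (‖w‖ - 1), sq_nonneg ‖w‖]
                nlinarith [mul_nonneg hκ0 (sq_nonneg ‖w‖)]
        calc ‖A.kap a + w (.inr a)‖ ≤ (κ + 1) * (1 + ‖w‖ ^ 2) := h1
          _ ≤ (κ + 1) * (1 + ‖w‖ ^ 2) + 1 := by linarith
          _ ≤ _ := Real.add_one_le_exp _
      have hT0 := hT A.i0 w
      have h2 : ‖(A.kap a + w (.inr a)) * A.θ A.i0 (A.zz w)‖ ≤
          Real.exp ((3 * C + κ + 1) * (1 + ‖w‖ ^ 2)) := by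
        rw [norm_mul]
        calc ‖A.kap a + w (.inr a)‖ * ‖A.θ A.i0 (A.zz w)‖ ≤
            Real.exp ((κ + 1) * (1 + ‖w‖ ^ 2)) * Real.exp (C * (1 + ‖w‖ ^ 2)) := by gcongr
          _ = Real.exp ((κ + 1) * (1 + ‖w‖ ^ 2) + C * (1 + ‖w‖ ^ 2)) := by
              rw [Real.exp_add]
          _ ≤ _ := by
              apply Real.exp_le_exp.mpr
              have : 0 ≤ C * (1 + ‖w‖ ^ 2) := by positivity
              nlinarith
      have h3 : ‖pd a (A.θ A.i0) (A.zz w)‖ ≤ Real.exp ((3 * C + κ + 1) * (1 + ‖w‖ ^ 2)) :=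
        hd.trans (hmono w (by linarith))
      calc ‖A.uu (.inr a) w‖ ≤ ‖pd a (A.θ A.i0) (A.zz w)‖ +
            ‖(A.kap a + w (.inr a)) * A.θ A.i0 (A.zz w)‖ := norm_sub_le _ _
        _ ≤ 2 * Real.exp ((3 * C + κ + 1) * (1 + ‖w‖ ^ 2)) := by linarith
        _ ≤ Real.exp (1 * (1 + ‖w‖ ^ 2)) *
            Real.exp ((3 * C + κ + 1) * (1 + ‖w‖ ^ 2)) := by
            gcongr
            have := Real.add_one_le_exp (1 * (1 + ‖w‖ ^ 2))
            nlinarith [sq_nonneg ‖w‖]
        _ = Real.exp ((3 * C + κ + 2) * (1 + ‖w‖ ^ 2)) := by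
            rw [← Real.exp_add]; congr 1; ring

end AbVar

section product

variable {J : Type} [Fintype J] [DecidableEq J] (B : J → AbVar)

/-- `H_1` of a product -/
abbrev HP : Type := (j : J) → (B j).H1

/-- indices of the functions on the product -/
abbrev IdxP : Type := Σ j, (B j).Idx

/-- denominator -/
noncomputable def hP (w : HP B) : ℂ := ∏ j, (B j).hh (w j)

/-- numerators -/
noncomputable def uP (s : IdxP B) (w : HP B) : ℂ :=
  (B s.1).uu s.2 (w s.1) * ∏ j ∈ Finset.univ.erase s.1, (B j).hh (w j)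

/-- functions -/
noncomputable def fP (s : IdxP B) (w : HP B) : ℂ := (B s.1).ff s.2 (w s.1)

lemma hP_eq (s : J) (w : HP B) :
    hP B w = (B s).hh (w s) * ∏ j ∈ Finset.univ.erase s, (B j).hh (w j) :=
  (Finset.mul_prod_erase Finset.univ (fun j => (B j).hh (w j)) (Finset.mem_univ s)).symm

lemma hh_ne_of_hP_ne {w : HP B} (h : hP B w ≠ 0) (j : J) : (B j).hh (w j) ≠ 0 :=
  Finset.prod_ne_zero_iff.mp h j (Finset.mem_univ j)

lemma uP_div {w : HP B} (h : hP B w ≠ 0) (s : IdxP B) : uP B s w / hP B w = fP B s w := by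
  have h1 : ∏ j ∈ Finset.univ.erase s.1, (B j).hh (w j) ≠ 0 :=
    Finset.prod_ne_zero_iff.mpr fun j _ => hh_ne_of_hP_ne B h j
  have h2 := hh_ne_of_hP_ne B h s.1
  rw [hP_eq B s.1 w]
  unfold uP fP AbVar.ff
  field_simp

lemma hP_zero : hP B 0 ≠ 0 := Finset.prod_ne_zero_iff.mpr fun j _ => (B j).hh_zero

/-- projection to a factor -/
noncomputable def prj (j : J) : HP B →L[ℂ] (B j).H1 :=
  ContinuousLinearMap.proj (R := ℂ) (φ := fun j => (B j).H1) j

@[simp] lemma prj_apply (j : J) (w : HP B) : prj B j w = w j := rfl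

lemma analyticAt_hh_prj (j : J) (w : HP B) : AnalyticAt ℂ (fun w : HP B => (B j).hh (w j)) w :=
  AnalyticAt.comp (g := (B j).hh) (f := prj B j) ((B j).analyticAt_hh _) ((prj B j).analyticAt w)

lemma analyticAt_hP (w : HP B) : AnalyticAt ℂ (hP B) w := by
  unfold hP
  apply Finset.analyticAt_fun_prod
  intro j _
  exact analyticAt_hh_prj B j w

lemma analyticAt_uP (s : IdxP B) (w : HP B) : AnalyticAt ℂ (uP B s) w := by
  unfold uP
  refine AnalyticAt.mul (AnalyticAt.comp (g := (B s.1).uu s.2) (f := prj B s.1)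
    ((B s.1).analyticAt_uu s.2 _) ((prj B s.1).analyticAt w)) ?_
  apply Finset.analyticAt_fun_prod
  intro j _
  exact analyticAt_hh_prj B j w

/-- multiplier -/
noncomputable def eP (l : (j : J) → Fin (B j).g → ℂ) (w : HP B) : ℂ :=
  ∏ j, (B j).mulf (l j) ((B j).zz (w j))

/-- period vectors -/
noncomputable def perP (l : (j : J) → Fin (B j).g → ℂ) : HP B := fun j => (B j).period (l j)

lemma analyticAt_eP (l : (j : J) → Fin (B j).g → ℂ) (w : HP B) : AnalyticAt ℂ (eP B l) w := by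
  unfold eP
  apply Finset.analyticAt_fun_prod
  intro j _
  have h1 : AnalyticAt ℂ (fun w : HP B => (B j).zz (w j)) w :=
    ((B j).zz.analyticAt _).comp ((prj B j).analyticAt w)
  exact ((B j).analyticAt_mulf (l j) _).comp h1

lemma hP_add {l : (j : J) → Fin (B j).g → ℂ} (hl : ∀ j, l j ∈ (B j).Λ) (w : HP B) :
    hP B (w + perP B l) = eP B l w * hP B w := by
  unfold hP eP perP
  rw [← Finset.prod_mul_distrib]
  apply Finset.prod_congr rfl
  intro j _
  rw [Pi.add_apply, (B j).hh_add (hl j)]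

lemma uP_add {l : (j : J) → Fin (B j).g → ℂ} (hl : ∀ j, l j ∈ (B j).Λ) (s : IdxP B) (w : HP B) :
    uP B s (w + perP B l) = eP B l w * uP B s w := by
  unfold uP
  have h1 : eP B l w = (B s.1).mulf (l s.1) ((B s.1).zz (w s.1)) *
      ∏ j ∈ Finset.univ.erase s.1, (B j).mulf (l j) ((B j).zz (w j)) :=
    (Finset.mul_prod_erase Finset.univ (fun j => (B j).mulf (l j) ((B j).zz (w j)))
      (Finset.mem_univ s.1)).symm
  have h2 : ∏ j ∈ Finset.univ.erase s.1, (B j).hh ((w + perP B l) j) =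
      (∏ j ∈ Finset.univ.erase s.1, (B j).mulf (l j) ((B j).zz (w j))) *
      ∏ j ∈ Finset.univ.erase s.1, (B j).hh (w j) := by
    rw [← Finset.prod_mul_distrib]
    apply Finset.prod_congr rfl
    intro j _
    rw [Pi.add_apply]
    exact (B j).hh_add (hl j) (w j)
  have h3 : (B s.1).uu s.2 ((w + perP B l) s.1) =
      (B s.1).mulf (l s.1) ((B s.1).zz (w s.1)) * (B s.1).uu s.2 (w s.1) := by
    rw [Pi.add_apply]
    exact (B s.1).uu_add (hl s.1) s.2 (w s.1)
  rw [h1, h2, h3]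
  ring

lemma exists_growth_P : ∃ C : ℝ, 0 ≤ C ∧
    (∀ w, ‖hP B w‖ ≤ Real.exp (C * (1 + ‖w‖ ^ 2))) ∧
      ∀ s w, ‖uP B s w‖ ≤ Real.exp (C * (1 + ‖w‖ ^ 2)) := by
  choose C hC0 hCh hCu using fun j => (B j).exists_growth_hu
  have hmono : ∀ (j : J) (w : HP B), Real.exp (C j * (1 + ‖w j‖ ^ 2)) ≤
      Real.exp (C j * (1 + ‖w‖ ^ 2)) := by
    intro j w
    apply Real.exp_le_exp.mpr
    have h1 := norm_le_pi_norm w j
    have h2 := hC0 j
    gcongr
  have hprod : ∀ (w : HP B), ∏ j, Real.exp (C j * (1 + ‖w‖ ^ 2)) =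
      Real.exp ((∑ j, C j) * (1 + ‖w‖ ^ 2)) := by
    intro w
    rw [← Real.exp_sum, Finset.sum_mul]
  refine ⟨∑ j, C j, Finset.sum_nonneg fun j _ => hC0 j, ?_, ?_⟩
  · intro w
    rw [← hprod w, hP, norm_prod]
    apply Finset.prod_le_prod
    · intro j _; exact norm_nonneg _
    · intro j _; exact (hCh j (w j)).trans (hmono j w)
  · intro s w
    rw [← hprod w, uP, norm_mul, norm_prod,
      ← Finset.mul_prod_erase Finset.univ (fun j => Real.exp (C j * (1 + ‖w‖ ^ 2)))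
        (Finset.mem_univ s.1)]
    apply mul_le_mul ((hCu s.1 s.2 (w s.1)).trans (hmono s.1 w))
    · apply Finset.prod_le_prod
      · intro j _; exact norm_nonneg _
      · intro j _; exact (hCh j (w j)).trans (hmono j w)
    · exact Finset.prod_nonneg fun _ _ => norm_nonneg _
    · exact (Real.exp_pos _).le

lemma analyticAt_fP {w : HP B} (h : hP B w ≠ 0) (s : IdxP B) : AnalyticAt ℂ (fP B s) w := by
  have h1 : AnalyticAt ℂ ((B s.1).ff s.2) (w s.1) :=
    ((B s.1).analyticAt_uu s.2 _).div ((B s.1).analyticAt_hh _) (hh_ne_of_hP_ne B h s.1)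
  exact h1.comp ((prj B s.1).analyticAt w)

/-- differential equations on the product -/
noncomputable def PPP (v : HP B) (s : IdxP B) : MvPolynomial (IdxP B) ℂ :=
  rename (fun t => (⟨s.1, t⟩ : IdxP B)) ((B s.1).PP (v s.1) s.2)

lemma PPP_alg (v : HP B) (hv : ∀ j, (B j).IsDeRham (v j)) (s : IdxP B) :
    AlgPoly (PPP B v s) := AlgPoly.rename _ ((B s.1).PP_alg _ (hv s.1) s.2)

lemma dd_fP (v : HP B) {w : HP B} (h : hP B w ≠ 0) (s : IdxP B) :
    dd v (fP B s) w = eval (fun t => fP B t w) (PPP B v s) := by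
  have h0 := hh_ne_of_hP_ne B h s.1
  have h1 : AnalyticAt ℂ ((B s.1).ff s.2) (w s.1) :=
    ((B s.1).analyticAt_uu s.2 _).div ((B s.1).analyticAt_hh _) h0
  have h2 : dd v (fP B s) w = dd (v s.1) ((B s.1).ff s.2) (w s.1) :=
    dd_comp (prj B s.1) (f := (B s.1).ff s.2) (z := w) h1.differentiableAt v
  rw [h2, (B s.1).dd_ff (v s.1) s.2 h0, PPP, eval_rename]
  rfl

lemma dd_uP_div (v : HP B) {w : HP B} (h : hP B w ≠ 0) (s : IdxP B) :
    dd v (fun w => uP B s w / hP B w) w =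
      eval (fun t => uP B t w / hP B w) (PPP B v s) := by
  have h1 : (fun w => uP B s w / hP B w) =ᶠ[𝓝 w] fP B s := by
    have hne : ∀ᶠ y in 𝓝 w, hP B y ≠ 0 := (analyticAt_hP B w).continuousAt.eventually_ne h
    filter_upwards [hne] with y hy
    exact uP_div B hy s
  rw [(dd_congr h1 v).self_of_nhds, dd_fP B v h s]
  congr 1
  apply congrArg
  funext t
  exact (uP_div B h t).symm

lemma fP_add {l : (j : J) → Fin (B j).g → ℂ} (hl : ∀ j, l j ∈ (B j).Λ) (s : IdxP B) (w : HP B) :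
    fP B s (w + perP B l) = fP B s w := by
  unfold fP AbVar.ff
  have h1 : (w + perP B l) s.1 = w s.1 + (B s.1).period (l s.1) := rfl
  rw [h1, (B s.1).uu_add (hl s.1), (B s.1).hh_add (hl s.1),
    mul_div_mul_left _ _ ((B s.1).mulf_ne_zero (hl s.1) _)]

end product

end Pool.Agent.GPC
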