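import Mathlib
import Pool.Agent.Helper8.GeomLemmas
import Pool.Agent.Helper8.SysPer

/-!
Geometry of the subspace theorem.
-/

open scoped ComplexConjugate
open Filter Topology MvPolynomial Module
open Pool.Agent.Helper8 (dd dds dd_congr)

set_option linter.unusedSectionVars false

namespace Pool.Agent.GPC

variable {J : Type} [Fintype J] [DecidableEq J] (B : J → AbVar)

/-- Lie algebra of the product -/
abbrev LieP : Type := (j : J) → (Fin (B j).g → ℂ)

/-- projection to the Lie algebra -/
noncomputable def prP : HP B →L[ℂ] LieP B :=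
  ContinuousLinearMap.pi fun j => (B j).zz.comp (prj B j)

@[simp] lemma prP_apply (w : HP B) (j : J) : prP B w j = (B j).zz (w j) := rfl

/-- the obvious section, one factor -/
noncomputable def embA (A : AbVar) : (Fin A.g → ℂ) →L[ℂ] A.H1 :=
  ContinuousLinearMap.pi (Sum.elim (fun a => ContinuousLinearMap.proj a) (fun _ => 0))

/-- the obvious section -/
noncomputable def embP : LieP B →L[ℂ] HP B :=
  ContinuousLinearMap.pi fun j => (embA (B j)).comp (ContinuousLinearMap.proj j)

@[simp] lemma prP_embP (z : LieP B) : prP B (embP B z) = z := by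
  funext j a
  rfl

@[simp] lemma prP_perP (l : LieP B) : prP B (perP B l) = l := by
  funext j a
  rfl

lemma zz_of_prP {w w' : HP B} (h : prP B w = prP B w') (j : J) :
    (B j).zz (w j) = (B j).zz (w' j) := congrFun h j

lemma hP_congr {w w' : HP B} (h : prP B w = prP B w') : hP B w = hP B w' := by
  unfold hP AbVar.hh
  exact Finset.prod_congr rfl fun j _ => by rw [zz_of_prP B h j]

/-- indices of the theta functions -/
abbrev IdxT : Type := Σ j, Fin ((B j).N + 1)

/-- indices of the coordinates of the fibre -/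
abbrev IdxZ : Type := Σ j, Fin (B j).g

/-- inclusion of indices -/
def inlP (s : IdxT B) : IdxP B := ⟨s.1, .inl s.2⟩

/-- inclusion of indices -/
def inrP (s : IdxZ B) : IdxP B := ⟨s.1, .inr s.2⟩

lemma uP_inl_congr {w w' : HP B} (h : prP B w = prP B w') (s : IdxT B) :
    uP B (inlP B s) w = uP B (inlP B s) w' := by
  unfold uP AbVar.uu AbVar.hh inlP
  simp only [zz_of_prP B h]

lemma fP_inl_congr {w w' : HP B} (h : prP B w = prP B w') (s : IdxT B) :
    fP B (inlP B s) w = fP B (inlP B s) w' := by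
  unfold fP AbVar.ff AbVar.uu AbVar.hh inlP
  simp only [zz_of_prP B h]

/-- the linear part of the functions -/
noncomputable def linP (s : IdxP B) (v : HP B) : ℂ :=
  match s with
  | ⟨_, .inl _⟩ => 0
  | ⟨j, .inr a⟩ => v j (.inr a)

@[simp] lemma linP_inl (s : IdxT B) (v : HP B) : linP B (inlP B s) v = 0 := rfl

@[simp] lemma linP_inr (s : IdxZ B) (v : HP B) : linP B (inrP B s) v = v s.1 (.inr s.2) := rfl

lemma linP_smul (s : IdxP B) (c : ℂ) (v : HP B) : linP B s (c • v) = c * linP B s v := by
  rcases s with ⟨j, k | a⟩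
  · simp [linP]
  · rfl

lemma fP_add_ker (s : IdxP B) {w v : HP B} (hv : prP B v = 0) (hw : hP B w ≠ 0) :
    fP B s (w + v) = fP B s w - linP B s v := by
  have h1 : ∀ j, (B j).zz ((w + v) j) = (B j).zz (w j) := by
    intro j
    have h2 : prP B (w + v) = prP B w := by rw [map_add, hv, add_zero]
    exact congrFun h2 j
  rcases s with ⟨j, k | a⟩
  · unfold fP AbVar.ff AbVar.uu AbVar.hh linP
    simp only [h1, sub_zero]
  · have h3 := hh_ne_of_hP_ne B hw j
    have h3' : (B j).θ (B j).i0 ((B j).zz (w j)) ≠ 0 := h3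
    have h4 : (w + v) j (.inr a) = w j (.inr a) + v j (.inr a) := rfl
    unfold fP AbVar.ff AbVar.uu AbVar.hh linP
    simp only [h1, h4]
    field_simp
    ring

/-- the period lattice of the product -/
def LatP : AddSubgroup (LieP B) := AddSubgroup.pi Set.univ fun j => (B j).Λ.toAddSubgroup

lemma mem_LatP {l : LieP B} : l ∈ LatP B ↔ ∀ j, l j ∈ (B j).Λ := by
  unfold LatP
  rw [AddSubgroup.mem_pi]
  exact ⟨fun h j => h j (Set.mem_univ j), fun h j _ => h j⟩

lemma exists_LatP_near : ∃ R : ℝ, ∀ z : LieP B, ∃ l ∈ LatP B, ‖z - l‖ ≤ R := by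
  choose R hR0 hR using fun j => (B j).exists_lattice_near
  refine ⟨∑ j, R j, fun z => ?_⟩
  choose l hl hln using fun j => hR j (z j)
  refine ⟨l, (mem_LatP B).mpr hl, ?_⟩
  rw [pi_norm_le_iff_of_nonneg (Finset.sum_nonneg fun j _ => hR0 j)]
  intro j
  exact (hln j).trans (Finset.single_le_sum (fun j _ => hR0 j) (Finset.mem_univ j))

lemma hP_lat {l : LieP B} (hl : l ∈ LatP B) (w v : HP B) (hv : prP B v = l) :
    hP B (w + v) = eP B l w * hP B w := by
  rw [← hP_add B ((mem_LatP B).mp hl)]
  apply hP_congr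
  rw [map_add, map_add, hv, prP_perP]

lemma eP_ne_zero {l : LieP B} (hl : l ∈ LatP B) (w : HP B) : eP B l w ≠ 0 :=
  Finset.prod_ne_zero_iff.mpr fun j _ => (B j).mulf_ne_zero ((mem_LatP B).mp hl j) _

lemma perP_nsmul (n : ℕ) (l : LieP B) : perP B (n • l) = (n : ℂ) • perP B l := by
  funext j s
  rcases s with a | a
  · change (n • l) j a = (n : ℂ) * l j a
    simp
  · change (B j).eta ((n • l) j) a = (n : ℂ) * (B j).eta (l j) a
    have h1 : (n • l) j = (n : ℂ) • l j := by
      rw [Pi.smul_apply, Nat.cast_smul_eq_nsmul]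
    rw [h1]
    unfold AbVar.eta
    rw [hermForm_smul_right, bilForm_smul_right]
    simp only [map_natCast]
    ring

/-- zero propagation along the fibres, using a lattice vector -/
lemma propagate_fibre (P : Submodule ℂ (HP B)) {l : LieP B} (hl : l ∈ LatP B) {p' : HP B}
    (hp' : p' ∈ P) (hpl : prP B p' = l) {ι : Type} [Fintype ι] (y : ι → IdxP B)
    (R : MvPolynomial ι ℂ)
    (hR : ∀ p ∈ P, hP B p ≠ 0 → eval (fun i => fP B (y i) p) R = 0) {p : HP B} (hp : p ∈ P)
    (hh : hP B p ≠ 0) (s : ℂ) :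
    eval (fun i => fP B (y i) (p + s • (perP B l - p'))) R = 0 := by
  have hδ : prP B (perP B l - p') = 0 := by rw [map_sub, hpl, prP_perP, sub_self]
  have hδs : ∀ s : ℂ, prP B (s • (perP B l - p')) = 0 := by
    intro s; rw [map_smul, hδ, smul_zero]
  have h1 : ∀ s : ℂ, ∀ i, fP B (y i) (p + s • (perP B l - p')) =
      fP B (y i) p + s * (- linP B (y i) (perP B l - p')) := by
    intro s i
    rw [fP_add_ker B (y i) (hδs s) hh, linP_smul]
    ring
  simp only [h1]
  apply eval_line_eq_zero
  intro n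
  simp only [← h1]
  have hnl : n • l ∈ LatP B := (LatP B).nsmul_mem hl n
  have h2 : p + (n : ℂ) • (perP B l - p') = (p - (n : ℂ) • p') + perP B (n • l) := by
    rw [perP_nsmul, smul_sub]
    abel
  have h3 : p - (n : ℂ) • p' ∈ P := P.sub_mem hp (P.smul_mem _ hp')
  rw [h2]
  simp only [fP_add B ((mem_LatP B).mp hnl)]
  apply hR _ h3
  intro h0
  have h4 : hP B ((p - (n : ℂ) • p') + perP B (n • l)) = 0 := by
    rw [hP_add B ((mem_LatP B).mp hnl), h0, mul_zero]
  apply hh
  rw [← h4]
  apply hP_congr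
  rw [← h2, map_add, hδs, add_zero]

/-- zero propagation in the Lie algebra, using density -/
lemma propagate_lie {P₁ : Submodule ℂ (LieP B)} {w : LieP B}
    (hw : ∀ v ∈ P₁, ∀ t : ℝ, v + (t : ℂ) • w ∈ closure {z | ∃ v' ∈ P₁, ∃ l ∈ LatP B, z = v' + l})
    {ι : Type} [Fintype ι] (y : ι → IdxT B) (S : MvPolynomial ι ℂ)
    (hS : ∀ z ∈ P₁, hP B (embP B z) ≠ 0 →
      eval (fun i => fP B (inlP B (y i)) (embP B z)) S = 0) {v : LieP B} (hv : v ∈ P₁) (τ : ℂ)
    (hh : hP B (embP B (v + τ • w)) ≠ 0) :
    eval (fun i => fP B (inlP B (y i)) (embP B (v + τ • w))) S = 0 := by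
  set H : LieP B → ℂ := homog S (fun z => hP B (embP B z))
    (fun i z => uP B (inlP B (y i)) (embP B z)) with hH
  have hHan : ∀ z, AnalyticAt ℂ H z := by
    intro z
    apply analyticAt_homog
    · exact AnalyticAt.comp (g := hP B) (f := embP B) (analyticAt_hP B _) ((embP B).analyticAt z)
    · intro i
      exact AnalyticAt.comp (g := uP B (inlP B (y i))) (f := embP B) (analyticAt_uP B _ _)
        ((embP B).analyticAt z)
  have hHeq : ∀ z, hP B (embP B z) ≠ 0 → H z = hP B (embP B z) ^ (S.totalDegree + 1) *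
      eval (fun i => fP B (inlP B (y i)) (embP B z)) S := by
    intro z hz
    have h1 := homog_eq S (fun z => hP B (embP B z))
      (fun i z => uP B (inlP B (y i)) (embP B z)) (z := z) hz
    rw [hH, h1]
    congr 1
    have h2 : (fun i => uP B (inlP B (y i)) (embP B z) / hP B (embP B z)) =
        fun i => fP B (inlP B (y i)) (embP B z) := funext fun i => uP_div B hz (inlP B (y i))
    rw [← h2]
  have hH0 : ∀ z ∈ P₁, H z = 0 := by
    intro z hz
    by_cases h0 : hP B (embP B z) = 0
    · exact homog_eq_zero S _ _ h0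
    · rw [hHeq z h0, hS z hz h0, mul_zero]
  have hHl : ∀ z ∈ P₁, ∀ l ∈ LatP B, H (z + l) = 0 := by
    intro z hz l hl
    have h1 : H (z + l) = eP B l (embP B z) ^ (S.totalDegree + 1) * H z := by
      apply homog_mul
      · rw [map_add]
        exact hP_lat B hl _ _ (prP_embP B l)
      · intro i
        have h2 : prP B (embP B (z + l)) = prP B (embP B z + perP B l) := by
          rw [map_add, map_add, map_add, prP_perP, prP_embP, prP_embP]
        rw [uP_inl_congr B h2, uP_add B ((mem_LatP B).mp hl)]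
    rw [h1, hH0 z hz, mul_zero]
  have hHcont : Continuous H := continuous_iff_continuousAt.mpr fun z => (hHan z).continuousAt
  have hHcl : ∀ z ∈ closure {z | ∃ v' ∈ P₁, ∃ l ∈ LatP B, z = v' + l}, H z = 0 := by
    intro z hz
    have hcl : IsClosed {z | H z = 0} := isClosed_eq hHcont continuous_const
    have hsub : {z | ∃ v' ∈ P₁, ∃ l ∈ LatP B, z = v' + l} ⊆ {z | H z = 0} := by
      rintro _ ⟨v', hv', l, hl, rfl⟩
      exact hHl v' hv' l hl
    exact (closure_minimal hsub hcl) hz
  -- identity theorem along the line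
  set G : ℂ → ℂ := fun s => H (v + s • w) with hG
  have hGan : AnalyticOnNhd ℂ G Set.univ := by
    intro s _
    have h1 : AnalyticAt ℂ (fun s : ℂ => v + s • w) s :=
      analyticAt_const.add (analyticAt_id.smul analyticAt_const)
    exact (hHan _).comp h1
  have hG0 : ∀ t : ℝ, G (t : ℂ) = 0 := fun t => hHcl _ (hw v hv t)
  have hGz : G = 0 := by
    apply AnalyticOnNhd.eq_of_frequently_eq (z₀ := 0) hGan
      (analyticOnNhd_const (v := (0 : ℂ)) (s := Set.univ))
    have h1 : Tendsto (fun n : ℕ => (((1 / ((n : ℝ) + 1) : ℝ)) : ℂ)) atTop (𝓝[≠] 0) := by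
      rw [tendsto_nhdsWithin_iff]
      constructor
      · have h2 := tendsto_one_div_add_atTop_nhds_zero_nat (𝕜 := ℝ)
        have h3 := (Complex.continuous_ofReal.tendsto 0).comp h2
        rw [Complex.ofReal_zero] at h3
        exact h3
      · filter_upwards with n
        have : (1 / ((n : ℝ) + 1) : ℝ) ≠ 0 := by positivity
        exact Complex.ofReal_ne_zero.mpr this
    apply h1.frequently
    apply Frequently.of_forall
    intro n
    exact hG0 _
  have h5 : H (v + τ • w) = 0 := congrFun hGz τ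
  rw [hHeq _ hh] at h5
  exact (mul_eq_zero.mp h5).resolve_left (pow_ne_zero _ hh)

end Pool.Agent.GPC
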