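import Mathlib
import Pool.Agent.Helper8.SLHouse
import Pool.Agent.Helper8.SVDir

/-!
Arithmetic part in several variables.
-/

open MvPolynomial NumberField Filter Topology

namespace Pool.Agent.Helper8

section Words

variable {R : Type*} [CommRing R] {ι δ : Type*}

/-- iterated derivations along a word -/
noncomputable def derw (P : δ → ι → MvPolynomial ι R) (w : List δ) (Q : MvPolynomial ι R) :
    MvPolynomial ι R := w.foldr (fun i q => der (P i) q) Q

@[simp] lemma derw_nil (P : δ → ι → MvPolynomial ι R) (Q : MvPolynomial ι R) :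
    derw P [] Q = Q := rfl

@[simp] lemma derw_cons (P : δ → ι → MvPolynomial ι R) (i : δ) (w : List δ)
    (Q : MvPolynomial ι R) : derw P (i :: w) Q = der (P i) (derw P w Q) := rfl

lemma derw_sum {α : Type*} (P : δ → ι → MvPolynomial ι R) (w : List δ) (s : Finset α)
    (c : α → R) (Q : α → MvPolynomial ι R) :
    derw P w (∑ a ∈ s, C (c a) * Q a) = ∑ a ∈ s, C (c a) * derw P w (Q a) := by
  induction w with
  | nil => rfl
  | cons i w ih =>
    rw [derw_cons, ih, map_sum]
    apply Finset.sum_congr rfl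
    intro a _
    rw [derw_cons, ← smul_eq_C_mul, Derivation.map_smul, smul_eq_C_mul]

lemma derw_bounds (σ : R →+* ℂ) (P : δ → ι → MvPolynomial ι R) {B : ℝ}
    (hB : ∀ a i, l1 σ (P a i) ≤ B) (hB0 : 0 ≤ B) {r : ℕ} (hr : ∀ a i, (P a i).totalDegree ≤ r)
    (Q : MvPolynomial ι R) {D : ℕ} (hD : Q.totalDegree ≤ D) (w : List δ) :
    (derw P w Q).totalDegree ≤ D + r * w.length ∧
      l1 σ (derw P w Q) ≤ (B * (D + r * w.length : ℕ)) ^ w.length * l1 σ Q := by
  induction w with
  | nil => simpa using hD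
  | cons a w ih =>
    rw [derw_cons, List.length_cons]
    refine ⟨?_, ?_⟩
    · refine (totalDegree_der_le (P a) (hr a) _).trans ?_
      have := ih.1
      rw [Nat.mul_succ]; omega
    · refine (l1_der_le σ (P a) (hB a) _ ih.1 hB0).trans ?_
      have h1 := ih.2
      have h2 : ((D + r * w.length : ℕ) : ℝ) ≤ (D + r * (w.length + 1) : ℕ) := by
        exact_mod_cast (by rw [Nat.mul_succ]; omega)
      calc ((D + r * w.length : ℕ) : ℝ) * B * l1 σ (derw P w Q)
          ≤ ((D + r * w.length : ℕ) : ℝ) * B *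
            ((B * (D + r * w.length : ℕ)) ^ w.length * l1 σ Q) := by gcongr
        _ ≤ ((D + r * (w.length + 1) : ℕ) : ℝ) * B *
            ((B * (D + r * (w.length + 1) : ℕ)) ^ w.length * l1 σ Q) := by
            have := l1_nonneg σ Q
            gcongr
        _ = (B * (D + r * (w.length + 1) : ℕ)) ^ (w.length + 1) * l1 σ Q := by ring

end Words

section House

variable {K : Type*} [Field K] [NumberField K]

/-- Bound for the iterated derivatives. -/
lemma exists_house_bound_words {ι δ : Type*} [Finite ι] [Finite δ]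
    (P : δ → ι → MvPolynomial ι (𝓞 K)) (x : ι → 𝓞 K) :
    ∃ C : ℝ, 1 ≤ C ∧ ∀ (Q : MvPolynomial ι (𝓞 K)) (D : ℕ) (w : List δ) (H : ℝ),
      Q.totalDegree ≤ D →
      (∀ σ : K →+* ℂ, l1 (σ.comp (algebraMap (𝓞 K) K)) Q ≤ H) →
      house (algebraMap (𝓞 K) K (eval x (derw P w Q))) ≤
        C ^ (w.length + D) * ((D + w.length : ℕ) : ℝ) ^ w.length * H := by
  classical
  have := Fintype.ofFinite ι
  have := Fintype.ofFinite δ
  -- constants
  obtain ⟨B, hB1, hB⟩ : ∃ B : ℝ, 1 ≤ B ∧ ∀ (σ : K →+* ℂ) a i,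
      l1 (σ.comp (algebraMap (𝓞 K) K)) (P a i) ≤ B := by
    set f : (K →+* ℂ) × δ × ι → ℝ := fun s => l1 (s.1.comp (algebraMap (𝓞 K) K)) (P s.2.1 s.2.2)
    refine ⟨1 + ∑ s, f s, ?_, ?_⟩
    · have : 0 ≤ ∑ s, f s := Finset.sum_nonneg fun _ _ => l1_nonneg _ _
      linarith
    · intro σ a i
      have h1 : f (σ, a, i) ≤ ∑ s, f s :=
        Finset.single_le_sum (f := f) (fun i _ => l1_nonneg _ _) (Finset.mem_univ (σ, a, i))
      have h2 : f (σ, a, i) = l1 (σ.comp (algebraMap (𝓞 K) K)) (P a i) := rfl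
      linarith
  obtain ⟨X, hX1, hX⟩ : ∃ X : ℝ, 1 ≤ X ∧ ∀ (σ : K →+* ℂ) i,
      ‖(σ.comp (algebraMap (𝓞 K) K)) (x i)‖ ≤ X := by
    set f : (K →+* ℂ) × ι → ℝ := fun s => ‖(s.1.comp (algebraMap (𝓞 K) K)) (x s.2)‖
    refine ⟨1 + ∑ s, f s, ?_, ?_⟩
    · have : 0 ≤ ∑ s, f s := Finset.sum_nonneg fun _ _ => norm_nonneg _
      linarith
    · intro σ i
      have h1 : f (σ, i) ≤ ∑ s, f s :=
        Finset.single_le_sum (f := f) (fun i _ => norm_nonneg _) (Finset.mem_univ (σ, i))
      have h2 : f (σ, i) = ‖(σ.comp (algebraMap (𝓞 K) K)) (x i)‖ := rfl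
      linarith
  obtain ⟨r, hr⟩ : ∃ r : ℕ, ∀ a i, (P a i).totalDegree ≤ r := by
    refine ⟨∑ s : δ × ι, (P s.1 s.2).totalDegree, fun a i => ?_⟩
    exact Finset.single_le_sum (f := fun s : δ × ι => (P s.1 s.2).totalDegree)
      (fun _ _ => Nat.zero_le _) (Finset.mem_univ (a, i))
  have hBr : 1 ≤ B * (r + 1) := by
    have : (0 : ℝ) ≤ r := Nat.cast_nonneg r
    nlinarith
  refine ⟨B * (r + 1) * X ^ (r + 1), one_le_mul_of_one_le_of_one_le hBr (one_le_pow₀ hX1), ?_⟩
  intro Q D w H hD hH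
  set t := w.length with ht
  apply house_le_of_forall
  intro σ
  have hH0 : 0 ≤ H := (l1_nonneg _ _).trans (hH σ)
  obtain ⟨hdeg, hl1⟩ := derw_bounds (σ.comp (algebraMap (𝓞 K) K)) P (hB σ) (by linarith)
    hr Q hD w
  rw [← ht] at hdeg hl1
  have h1 := norm_eval_le (σ.comp (algebraMap (𝓞 K) K)) (derw P w Q) hX1 (hX σ) hdeg
  have h2 : ((D + r * t : ℕ) : ℝ) ≤ (r + 1) * ((D + t : ℕ) : ℝ) := by
    have : D + r * t ≤ (r + 1) * (D + t) := by nlinarith [Nat.zero_le (r * D)]
    exact_mod_cast this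
  have h3 : D + r * t ≤ (r + 1) * (t + D) := by nlinarith [Nat.zero_le (r * D)]
  calc ‖σ (algebraMap (𝓞 K) K (eval x (derw P w Q)))‖
      ≤ l1 (σ.comp (algebraMap (𝓞 K) K)) (derw P w Q) * X ^ (D + r * t) := h1
    _ ≤ (B * (D + r * t : ℕ)) ^ t * H * X ^ (D + r * t) := by
        gcongr
        exact hl1.trans (by gcongr; exact hH σ)
    _ ≤ (B * ((r + 1) * ((D + t : ℕ) : ℝ))) ^ t * H * X ^ ((r + 1) * (t + D)) := by
        gcongr
    _ = (B * (r + 1)) ^ t * (X ^ (r + 1)) ^ (t + D) * ((D + t : ℕ) : ℝ) ^ t * H := by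
        rw [← mul_assoc, mul_pow (B * (r + 1)), pow_mul]; ring
    _ ≤ (B * (r + 1)) ^ (t + D) * (X ^ (r + 1)) ^ (t + D) * ((D + t : ℕ) : ℝ) ^ t * H := by
        gcongr
        · omega
    _ = (B * (r + 1) * X ^ (r + 1)) ^ (t + D) * ((D + t : ℕ) : ℝ) ^ t * H := by
        rw [mul_pow (B * (r + 1))]

end House

section Ev

variable {R : Type*} [CommRing R] (ψ : R →+* ℂ) {ι δ : Type*}
  {E : Type*} [NormedAddCommGroup E] [NormedSpace ℂ E]

lemma analyticAt_eval₂ [Finite ι] (F : ι → E → ℂ) {z : E} (hF : ∀ i, AnalyticAt ℂ (F i) z)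
    (Q : MvPolynomial ι R) : AnalyticAt ℂ (fun z => eval₂ ψ (fun j => F j z) Q) z := by
  induction Q using MvPolynomial.induction_on with
  | C a => simpa using (analyticAt_const : AnalyticAt ℂ (fun _ => ψ a) z)
  | add p q hp hq =>
    simp only [eval₂_add]
    exact hp.add hq
  | mul_X p n hp =>
    simp only [eval₂_mul, eval₂_X]
    exact hp.mul (hF n)

lemma dd_eval₂ (P : ι → MvPolynomial ι R) (F : ι → E → ℂ) (z v : E)
    (hF : ∀ i, AnalyticAt ℂ (F i) z)
    (hder : ∀ i, dd v (F i) z = eval₂ ψ (fun j => F j z) (P i)) (Q : MvPolynomial ι R) :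
    DifferentiableAt ℂ (fun z => eval₂ ψ (fun j => F j z) Q) z ∧
    dd v (fun z => eval₂ ψ (fun j => F j z) Q) z = eval₂ ψ (fun j => F j z) (der P Q) := by
  induction Q using MvPolynomial.induction_on with
  | C a =>
    constructor
    · simp
    · unfold dd; simp
  | add p q hp hq =>
    simp only [eval₂_add, map_add]
    refine ⟨hp.1.add hq.1, ?_⟩
    rw [← hp.2, ← hq.2]
    unfold dd
    rw [fderiv_fun_add hp.1 hq.1]
    rfl
  | mul_X p n hp =>
    have h2 : eval₂ ψ (fun j => F j z) (der P (p * X n)) =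
        eval₂ ψ (fun j => F j z) ((der P) p) * F n z +
          eval₂ ψ (fun j => F j z) p * eval₂ ψ (fun j => F j z) (P n) := by
      rw [Derivation.leibniz, mkDerivation_X, smul_eq_mul, smul_eq_mul, eval₂_add, eval₂_mul,
        eval₂_mul, eval₂_X]
      ring
    have h3 : (fun z => eval₂ ψ (fun j => F j z) (p * X n)) =
        fun z => eval₂ ψ (fun j => F j z) p * F n z := by
      ext z; simp [eval₂_mul, eval₂_X]
    rw [h2, h3, ← hp.2, ← hder n]
    refine ⟨hp.1.mul (hF n).differentiableAt, ?_⟩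
    unfold dd
    rw [fderiv_fun_mul hp.1 (hF n).differentiableAt]
    simp only [ContinuousLinearMap.add_apply, ContinuousLinearMap.smul_apply, smul_eq_mul]
    ring

lemma dds_eval₂ (P : δ → ι → MvPolynomial ι R) (F : ι → E → ℂ) (b : δ → E) {U : Set E}
    (hU : IsOpen U) (hF : ∀ z ∈ U, ∀ i, AnalyticAt ℂ (F i) z)
    (hder : ∀ z ∈ U, ∀ a i, dd (b a) (F i) z = eval₂ ψ (fun j => F j z) (P a i))
    (Q : MvPolynomial ι R) (w : List δ) :
    ∀ z ∈ U, dds (w.map b) (fun z => eval₂ ψ (fun j => F j z) Q) z =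
      eval₂ ψ (fun j => F j z) (derw P w Q) := by
  induction w with
  | nil => intro z _; rfl
  | cons a w ih =>
    intro z hz
    rw [List.map_cons, dds_cons, derw_cons]
    have h1 : dds (w.map b) (fun z => eval₂ ψ (fun j => F j z) Q) =ᶠ[𝓝 z]
        fun z => eval₂ ψ (fun j => F j z) (derw P w Q) := by
      filter_upwards [hU.mem_nhds hz] with y hy
      exact ih y hy
    rw [(dd_congr h1 (b a)).self_of_nhds]
    exact (dd_eval₂ ψ (P a) F z (b a) (hF z hz) (hder z hz a) _).2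

end Ev

section Aux

variable {R : Type*} [CommRing R] {ι κ : Type*} [Fintype ι] [DecidableEq ι]

/-- the auxiliary polynomial `∑ ξ_p ∏ X_{y i}^{p i}`. -/
noncomputable def auxPolyS (y : ι → κ) {L : ℕ} (ξ : (ι → Fin L) → R) : MvPolynomial κ R :=
  ∑ p, C (ξ p) * ∏ i, X (y i) ^ (p i : ℕ)

lemma totalDegree_monS_le [Nontrivial R] (y : ι → κ) {L : ℕ} (p : ι → Fin L) :
    (∏ i, X (y i) ^ (p i : ℕ) : MvPolynomial κ R).totalDegree ≤ Fintype.card ι * L := by
  refine (totalDegree_finsetProd _ _).trans ?_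
  calc ∑ i, (X (y i) ^ (p i : ℕ) : MvPolynomial κ R).totalDegree ≤ ∑ _i : ι, L := by
        apply Finset.sum_le_sum
        intro i _
        rw [totalDegree_X_pow]
        exact (p i).2.le
    _ = Fintype.card ι * L := by simp

lemma l1_monS_le (σ : R →+* ℂ) (y : ι → κ) {L : ℕ} (p : ι → Fin L) :
    l1 σ (∏ i, X (y i) ^ (p i : ℕ) : MvPolynomial κ R) ≤ 1 := by
  classical
  have key : ∀ s : Finset ι, l1 σ (∏ i ∈ s, X (y i) ^ (p i : ℕ) : MvPolynomial κ R) ≤ 1 := by
    intro s
    induction s using Finset.induction_on with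
    | empty =>
      rw [Finset.prod_empty]
      have : (1 : MvPolynomial κ R) = monomial 0 1 := rfl
      rw [this, l1_monomial]; simp
    | insert a s ha ih =>
      rw [Finset.prod_insert ha, X_pow_eq_monomial]
      refine (l1_monomial_mul_le σ _ _ _).trans ?_
      simpa using ih
  exact key _

lemma totalDegree_auxPolyS_le [Nontrivial R] (y : ι → κ) {L : ℕ} (ξ : (ι → Fin L) → R) :
    (auxPolyS y ξ).totalDegree ≤ Fintype.card ι * L := by
  unfold auxPolyS
  apply totalDegree_finsetSum_le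
  intro p _
  refine (totalDegree_mul _ _).trans ?_
  rw [totalDegree_C, zero_add]
  exact totalDegree_monS_le y p

lemma l1_auxPolyS_le (σ : R →+* ℂ) (y : ι → κ) {L : ℕ} (ξ : (ι → Fin L) → R)
    {H : ℝ} (hH : ∀ p, ‖σ (ξ p)‖ ≤ H) :
    l1 σ (auxPolyS y ξ) ≤ (L : ℝ) ^ Fintype.card ι * H := by
  unfold auxPolyS
  refine (l1_sum_le σ _ _).trans ?_
  calc ∑ p : ι → Fin L, l1 σ (C (ξ p) * ∏ i, X (y i) ^ (p i : ℕ))
      ≤ ∑ _p : ι → Fin L, H := by
        apply Finset.sum_le_sum
        intro p _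
        refine (l1_mul_le σ _ _).trans ?_
        have h1 : l1 σ (C (ξ p) : MvPolynomial κ R) = ‖σ (ξ p)‖ := l1_monomial σ 0 _
        have h0 : 0 ≤ H := (norm_nonneg _).trans (hH p)
        rw [h1]
        calc _ ≤ H * 1 := mul_le_mul (hH p) (l1_monS_le σ y p) (l1_nonneg _ _) h0
          _ = H := mul_one H
    _ = (L : ℝ) ^ Fintype.card ι * H := by
        rw [Finset.sum_const, Finset.card_univ, Fintype.card_fun, Fintype.card_fin, nsmul_eq_mul]
        push_cast; ring

end Aux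

/-- the sorted word attached to a multi-index -/
def wordOf {d : ℕ} (m : Fin d → ℕ) : List (Fin d) :=
  (List.finRange d).flatMap fun i => List.replicate (m i) i

lemma perm_wordOf {d : ℕ} (w : List (Fin d)) : w.Perm (wordOf fun i => w.count i) := by
  rw [List.perm_iff_count]
  intro a
  unfold wordOf
  rw [List.count_flatMap]
  have h1 : (List.map (List.count a ∘ fun i => List.replicate (List.count i w) i)
      (List.finRange d)) = (List.finRange d).map (fun i => if i = a then List.count a w else 0) := by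
    apply List.map_congr_left
    intro i _
    simp only [Function.comp_apply, List.count_replicate]
    by_cases h : i = a
    · subst h; simp
    · simp [h]
  rw [h1]
  rw [← List.ofFn_eq_map, List.sum_ofFn]
  simp

lemma length_wordOf_le {d : ℕ} (m : Fin d → ℕ) {T : ℕ} (h : ∀ i, m i ≤ T) :
    (wordOf m).length ≤ d * T := by
  unfold wordOf
  rw [List.length_flatMap, ← List.ofFn_eq_map, List.sum_ofFn]
  simp only [List.length_replicate]
  calc ∑ i, m i ≤ ∑ _i : Fin d, T := Finset.sum_le_sum fun i _ => h i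
    _ = d * T := by simp

end Pool.Agent.Helper8
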