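import Mathlib
import Pool.Agent.Helper8.SLCore

/-!
Numerical contradiction in several variables.
-/

open Filter Topology

namespace Pool.Agent.Helper8

/-- integral roots -/
lemma exists_root (e : ℕ) (he : 0 < e) (t : ℕ) : ∃ k : ℕ, k ^ e ≤ t ∧ t < (k + 1) ^ e := by
  have h1 : ∃ k : ℕ, t < (k + 1) ^ e := by
    refine ⟨t, ?_⟩
    calc t < t + 1 := Nat.lt_succ_self t
      _ ≤ (t + 1) ^ e := Nat.le_self_pow he.ne' _
  classical
  set k := Nat.find h1 with hk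
  refine ⟨k, ?_, Nat.find_spec h1⟩
  by_contra hlt
  push Not at hlt
  rcases Nat.eq_zero_or_pos k with h0 | h0
  · rw [h0, zero_pow he.ne'] at hlt
    omega
  · have := Nat.find_min h1 (m := k - 1) (by omega)
    apply this
    have h2 : k - 1 + 1 = k := by omega
    rw [h2]; exact hlt

/-- Final numerical contradiction. -/
lemma numeric_contradiction_sv {a d : ℕ} {C₂ C₀ ν : ℝ} (hC₂ : 1 ≤ C₂) (hC₀ : 0 ≤ C₀)
    (hν : 1 ≤ ν) :
    ∃ t₀ : ℕ, ∀ t m : ℕ, t₀ ≤ t → 2 * m ^ (d + 1) ≤ t → ∃ k : ℕ,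
      (C₂ * t) ^ (a * t) *
        Real.exp (C₀ * (1 + (3 * (d * k + 1 : ℕ) * ν + 1) ^ 2)) ^ ((d + 1) * (2 * m ^ d)) *
          (1 / 2) ^ (k * t) < 1 := by
  set e := 2 * (d + 1) with he
  have he0 : 0 < e := by omega
  set A : ℝ := 1 + (3 * (d + 1) * ν + 1) ^ 2 with hA
  obtain ⟨k₀, hk₀⟩ := exists_nat_large
    (a * Real.log C₂ + 2 * (d + 1) * C₀ * A * 4 ^ (d + 1)) (a * e)
  refine ⟨k₀ ^ e + 1, fun t m ht hm => ?_⟩
  obtain ⟨k, hke, hke'⟩ := exists_root e he0 t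
  have hkk₀ : k₀ ≤ k := by
    by_contra hlt
    push Not at hlt
    have : (k + 1) ^ e ≤ k₀ ^ e := Nat.pow_le_pow_left hlt e
    omega
  have hk1 : 1 ≤ k := by
    by_contra hlt
    have : k = 0 := by omega
    rw [this] at hke'
    simp at hke'
    omega
  refine ⟨k, ?_⟩
  have hlog := hk₀ k hkk₀
  have htpos : (0 : ℝ) < t := by
    have : 0 < t := by omega
    exact_mod_cast this
  rw [← Real.log_neg_iff (by positivity)]
  rw [Real.log_mul (by positivity) (by positivity), Real.log_mul (by positivity) (by positivity),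
    Real.log_pow, Real.log_pow, Real.log_pow, Real.log_exp, one_div, Real.log_inv,
    Real.log_mul (by positivity) (by positivity)]
  have hlt : Real.log t ≤ e * Real.log (k + 1) := by
    have : (t : ℝ) ≤ ((k : ℝ) + 1) ^ e := by exact_mod_cast hke'.le
    calc Real.log t ≤ Real.log (((k : ℝ) + 1) ^ e) := Real.log_le_log htpos this
      _ = e * Real.log (k + 1) := by rw [Real.log_pow]
  -- bound of the exponential term
  have hkR : (1 : ℝ) ≤ k := by exact_mod_cast hk1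
  have hkeR : (k : ℝ) ^ e ≤ t := by exact_mod_cast hke
  have hm2 : m ≤ (k + 1) ^ 2 := by
    by_contra hlt
    push Not at hlt
    have h1 : ((k + 1) ^ 2) ^ (d + 1) < m ^ (d + 1) :=
      Nat.pow_lt_pow_left hlt (by omega)
    rw [← pow_mul, ← he] at h1
    omega
  have hmd : (m : ℝ) ^ d ≤ ((k : ℝ) + 1) ^ (2 * d) := by
    have h1 : m ^ d ≤ ((k + 1) ^ 2) ^ d := Nat.pow_le_pow_left hm2 d
    rw [← pow_mul] at h1
    exact_mod_cast h1
  have hA0 : 0 ≤ A := by positivity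
  have hexp : (((d + 1) * (2 * m ^ d) : ℕ) : ℝ) *
      (C₀ * (1 + (3 * ((d * k + 1 : ℕ) : ℝ) * ν + 1) ^ 2)) ≤
      2 * (d + 1) * C₀ * A * 4 ^ (d + 1) * t := by
    have h1 : 1 + (3 * ((d * k + 1 : ℕ) : ℝ) * ν + 1) ^ 2 ≤ A * ((k : ℝ) + 1) ^ 2 := by
      have h2 : 3 * ((d * k + 1 : ℕ) : ℝ) * ν + 1 ≤ (3 * (d + 1) * ν + 1) * ((k : ℝ) + 1) := by
        push_cast
        have hd0 : (0 : ℝ) ≤ d := Nat.cast_nonneg d
        have : ((d : ℝ) * k + 1) ≤ (d + 1) * (k + 1) := by nlinarith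
        have h3 := mul_le_mul_of_nonneg_left this (by linarith : 0 ≤ 3 * ν)
        nlinarith
      have h3 : (3 * ((d * k + 1 : ℕ) : ℝ) * ν + 1) ^ 2 ≤
          ((3 * (d + 1) * ν + 1) * ((k : ℝ) + 1)) ^ 2 := by
        gcongr
      rw [mul_pow] at h3
      rw [hA, add_mul, one_mul]
      have h4 : (1 : ℝ) ≤ ((k : ℝ) + 1) ^ 2 := by nlinarith
      linarith
    have h2 : ((k : ℝ) + 1) ^ e ≤ 4 ^ (d + 1) * (t : ℝ) := by
      have : ((k : ℝ) + 1) ≤ 2 * k := by linarith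
      calc ((k : ℝ) + 1) ^ e ≤ (2 * (k : ℝ)) ^ e := by gcongr
        _ = 4 ^ (d + 1) * (k : ℝ) ^ e := by
            rw [mul_pow, he, pow_mul]; norm_num
        _ ≤ 4 ^ (d + 1) * (t : ℝ) := by gcongr
    push_cast
    calc (((d : ℝ) + 1) * (2 * (m : ℝ) ^ d)) *
          (C₀ * (1 + (3 * ((d : ℝ) * k + 1) * ν + 1) ^ 2))
        ≤ (((d : ℝ) + 1) * (2 * ((k : ℝ) + 1) ^ (2 * d))) * (C₀ * (A * ((k : ℝ) + 1) ^ 2)) := by
          push_cast at h1
          gcongr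
      _ = 2 * (d + 1) * C₀ * A * ((k : ℝ) + 1) ^ e := by rw [he]; ring
      _ ≤ 2 * (d + 1) * C₀ * A * (4 ^ (d + 1) * t) := by gcongr
      _ = _ := by ring
  have h5 : ((a * t : ℕ) : ℝ) * (Real.log C₂ + Real.log t) ≤
      (a * t) * (Real.log C₂ + e * Real.log (k + 1)) := by
    push_cast
    gcongr
  have h6 : (((k * t : ℕ) : ℝ)) * -Real.log 2 = - (k * Real.log 2 * t) := by push_cast; ring
  rw [h6]
  have h7 := mul_lt_mul_of_pos_right hlog htpos
  nlinarith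

end Pool.Agent.Helper8
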