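import Mathlib
import Pool.Agent.Helper8.SVArith
import Pool.Agent.Helper8.SVNumeric
import Pool.Agent.Helper8.SVSchwarz

/-!
Periodic Schneider-Lang theorem in several variables, integral form.
-/

open MvPolynomial NumberField Filter Topology
open scoped Nat

namespace Pool.Agent.Helper8

/-- The Siegel step: a nonzero auxiliary polynomial whose first derivatives vanish. -/
lemma exists_auxS {K : Type*} [Field K] [NumberField K] {κ : Type*} [Finite κ] {d : ℕ}
    (P : Fin d → κ → MvPolynomial κ (𝓞 K)) (x : κ → 𝓞 K) {ι : Type} [Fintype ι] [DecidableEq ι]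
    (hι : Fintype.card ι = d + 1) (y : ι → κ) :
    ∃ C : ℝ, 1 ≤ C ∧ ∃ c : ℝ, 1 ≤ c ∧
      (∀ (Q : MvPolynomial κ (𝓞 K)) (D : ℕ) (w : List (Fin d)) (H : ℝ), Q.totalDegree ≤ D →
        (∀ σ : K →+* ℂ, l1 (σ.comp (algebraMap (𝓞 K) K)) Q ≤ H) →
        house (algebraMap (𝓞 K) K (eval x (derw P w Q))) ≤
          C ^ (w.length + D) * ((D + w.length : ℕ) : ℝ) ^ w.length * H) ∧
      ∀ m : ℕ, d + 1 ≤ m → ∃ ξ : (ι → Fin (2 * m ^ d)) → 𝓞 K, ξ ≠ 0 ∧
        (∀ μ : Fin d → ℕ, (∀ i, μ i < 2 * m ^ (d + 1)) →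
          eval x (derw P (wordOf μ) (auxPolyS y ξ)) = 0) ∧
        ∀ p, house (algebraMap (𝓞 K) K (ξ p)) ≤
          c * (2 * (2 * m ^ (d + 1) : ℕ) ^ d) * (C ^ ((d + 1) * (2 * m ^ (d + 1))) *
            (((d + 1) * (2 * m ^ (d + 1)) : ℕ) : ℝ) ^ (d * (2 * m ^ (d + 1)))) := by
  classical
  obtain ⟨C, hC1, hC⟩ := exists_house_bound_words P x
  obtain ⟨c, hc1, hc⟩ := siegel K
  refine ⟨C, hC1, c, hc1, hC, fun m hm => ?_⟩
  set T := 2 * m ^ (d + 1) with hT
  set L := 2 * m ^ d with hL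
  have hmpos : 0 < m := by omega
  have hTpos : 0 < T := by positivity
  have hLpos : 0 < L := by positivity
  have : Nonempty (Fin T) := ⟨⟨0, hTpos⟩⟩
  have hLT : (d + 1) * L ≤ T := by
    rw [hT, hL]
    calc (d + 1) * (2 * m ^ d) ≤ m * (2 * m ^ d) := by gcongr
      _ = 2 * m ^ (d + 1) := by ring
  let a : Matrix (Fin d → Fin T) (ι → Fin L) (𝓞 K) := fun μ p =>
    eval x (derw P (wordOf fun i => (μ i : ℕ)) (∏ i, X (y i) ^ (p i : ℕ)))
  have ha : a ≠ 0 := by
    intro h
    have := congrFun (congrFun h (fun _ => ⟨0, hTpos⟩)) (fun _ => ⟨0, hLpos⟩)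
    have hw : wordOf (fun _ : Fin d => 0) = [] := by
      simp [wordOf]
    simp [a, hw] at this
  have hcard : Fintype.card (ι → Fin L) = 2 * Fintype.card (Fin d → Fin T) := by
    rw [Fintype.card_fun, Fintype.card_fun, Fintype.card_fin, Fintype.card_fin, Fintype.card_fin,
      hι, hT, hL, mul_pow, mul_pow, ← pow_mul, ← pow_mul]
    rw [pow_succ 2 d]
    ring
  have hA : ∀ k l, house (algebraMap (𝓞 K) K (a k l)) ≤
      C ^ ((d + 1) * T) * (((d + 1) * T : ℕ) : ℝ) ^ (d * T) := by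
    intro k l
    set w := wordOf fun i => (k i : ℕ) with hw
    have hwlen : w.length ≤ d * T := length_wordOf_le _ fun i => (k i).2.le
    have h1 := hC (∏ i, X (y i) ^ (l i : ℕ)) ((d + 1) * L) w 1
      (by rw [← hι]; exact totalDegree_monS_le y l) (fun σ => l1_monS_le _ y l)
    refine h1.trans ?_
    rw [mul_one]
    have h3 : w.length + (d + 1) * L ≤ (d + 1) * T := by
      calc w.length + (d + 1) * L ≤ d * T + T := by omega
        _ = (d + 1) * T := by ring
    have h2 : (1 : ℝ) ≤ (((d + 1) * T : ℕ) : ℝ) := by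
      have : 1 ≤ (d + 1) * T := Nat.mul_pos (by omega) hTpos
      exact_mod_cast this
    calc C ^ (w.length + (d + 1) * L) * (((d + 1) * L + w.length : ℕ) : ℝ) ^ w.length
        ≤ C ^ ((d + 1) * T) * (((d + 1) * T : ℕ) : ℝ) ^ w.length := by
          gcongr
          omega
      _ ≤ C ^ ((d + 1) * T) * (((d + 1) * T : ℕ) : ℝ) ^ (d * T) := by
          gcongr
  obtain ⟨ξ, h1, h2, h3⟩ := hc (Fin d → Fin T) (ι → Fin L) a ha hcard _ hA
  refine ⟨ξ, h1, fun μ hμ => ?_, fun p => ?_⟩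
  · have h4 := congrFun h2 (fun i => ⟨μ i, hμ i⟩)
    simp only [Matrix.mulVec, dotProduct, Pi.zero_apply] at h4
    rw [auxPolyS, derw_sum, map_sum]
    rw [← h4]
    apply Finset.sum_congr rfl
    intro p _
    simp [a, mul_comm]
  · refine (h3 p).trans (le_of_eq ?_)
    rw [hcard, Fintype.card_fun, Fintype.card_fin, Fintype.card_fin]
    push_cast
    ring

/-- data of the minimal order of vanishing -/
lemma exists_min_word {E : Type*} [NormedAddCommGroup E] [NormedSpace ℂ E] {d : ℕ}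
    (b : Fin d → E) {Φ : E → ℂ} (hΦ : ∀ z, AnalyticAt ℂ Φ z) (hne : ∃ z, Φ z ≠ 0)
    (hspan : ∀ v : E, ∃ c : Fin d → ℂ, v = ∑ i, c i • b i) :
    ∃ t : ℕ, Van t Φ 0 ∧ ∃ w : List (Fin d), w.length = t ∧ dds (w.map b) Φ 0 ≠ 0 := by
  classical
  have hred : ∀ t, (∀ w : List (Fin d), w.length = t → dds (w.map b) Φ 0 = 0) →
      ∀ l : List E, l.length = t → dds l Φ 0 = 0 := by
    intro t h l hl
    choose c hc using hspan
    have h1 := norm_dds_le (hΦ 0) b (X := 0) (μ := (l.map fun v => ∑ i, ‖c v i‖).sum) (t := t)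
      le_rfl (fun w hw => by rw [h w hw, norm_zero])
      (List.sum_nonneg (by
        intro x hx
        obtain ⟨v, _, rfl⟩ := List.mem_map.mp hx
        exact Finset.sum_nonneg fun _ _ => norm_nonneg _)) l [] (by simpa using hl) (by
        intro v hv
        refine ⟨c v, hc v, ?_⟩
        apply List.single_le_sum _ _ (List.mem_map_of_mem hv)
        intro x hx
        obtain ⟨u, _, rfl⟩ := List.mem_map.mp hx
        exact Finset.sum_nonneg fun _ _ => norm_nonneg _)
    simpa using h1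
  have hex : ∃ t : ℕ, ∃ w : List (Fin d), w.length = t ∧ dds (w.map b) Φ 0 ≠ 0 := by
    by_contra hcon
    push Not at hcon
    obtain ⟨z, hz⟩ := hne
    apply hz
    apply eq_zero_of_van hΦ
    intro t l _
    exact hred l.length (fun w hw => hcon _ w hw) l rfl
  refine ⟨Nat.find hex, ?_, Nat.find_spec hex⟩
  intro l hl
  apply hred l.length _ l rfl
  intro w hw
  by_contra hne
  exact Nat.find_min hex hl ⟨w, hw, hne⟩

end Pool.Agent.Helper8
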