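import Mathlib
import Pool.Agent.Helper8.SVMain

open MvPolynomial NumberField Filter Topology
open scoped Nat

namespace Pool.Agent.Helper8

lemma Van.congr {E : Type*} [NormedAddCommGroup E] [NormedSpace ℂ E] {t : ℕ} {f g : E → ℂ}
    {p : E} (h : f =ᶠ[𝓝 p] g) (hf : Van t f p) : Van t g p := by
  intro l hl
  rw [← (dds_congr h l).self_of_nhds]
  exact hf l hl

set_option maxHeartbeats 1000000 in
/-- Periodic Schneider-Lang theorem in several variables, integral form. -/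
theorem coreS {K : Type*} [Field K] [NumberField K] (em : K →+* ℂ) {κ : Type*} [Finite κ]
    {E : Type*} [NormedAddCommGroup E] [NormedSpace ℂ E] {d : ℕ} (hd : 0 < d)
    (P : Fin d → κ → MvPolynomial κ (𝓞 K)) (x : κ → 𝓞 K) (a : Fin d → E)
    (h : E → ℂ) (u : κ → E → ℂ) (hh : ∀ z, AnalyticAt ℂ h z) (hu : ∀ i z, AnalyticAt ℂ (u i) z)
    (h0 : h 0 ≠ 0)
    (hval : ∀ i, u i 0 / h 0 = em (algebraMap (𝓞 K) K (x i)))
    (hder : ∀ z, h z ≠ 0 → ∀ b i, dd (a b) (fun z => u i z / h z) z =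
      eval₂ (em.comp (algebraMap (𝓞 K) K)) (fun j => u j z / h z) (P b i))
    {C₀ : ℝ} (hC₀ : 0 ≤ C₀) (hgh : ∀ z, ‖h z‖ ≤ Real.exp (C₀ * (1 + ‖z‖ ^ 2)))
    (hgu : ∀ i z, ‖u i z‖ ≤ Real.exp (C₀ * (1 + ‖z‖ ^ 2)))
    (lam : Fin d → E) (e : Fin d → E → ℂ) (he : ∀ b z, AnalyticAt ℂ (e b) z)
    (hph : ∀ b z, h (z + lam b) = e b z * h z)
    (hpu : ∀ i b z, u i (z + lam b) = e b z * u i z)
    (hspan_a : ∀ v : E, ∃ c : Fin d → ℂ, v = ∑ i, c i • a i)
    (hspan_l : ∀ v : E, ∃ c : Fin d → ℂ, v = ∑ i, c i • lam i)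
    {ι : Type} [Fintype ι] [DecidableEq ι] (hι : Fintype.card ι = d + 1) (y : ι → κ)
    (hind : ∀ (N : ℕ) (c : (ι → Fin N) → ℂ), c ≠ 0 → ∃ z, h z ≠ 0 ∧
      ∑ p, c p * ∏ i, (u (y i) z / h z) ^ (p i : ℕ) ≠ 0) : False := by
  classical
  obtain ⟨C, hC1, c, hc1, hC, haux⟩ := exists_auxS P x hι y
  set ψ : 𝓞 K →+* ℂ := em.comp (algebraMap (𝓞 K) K) with hψ
  have hψinj : Function.Injective ψ := by
    rw [hψ]
    exact em.injective.comp (FaithfulSMul.algebraMap_injective (𝓞 K) K)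
  set n := Module.finrank ℚ K with hn
  have hh0pos : 0 < ‖h 0‖ := norm_pos_iff.mpr h0
  -- constants for the lattice
  obtain ⟨ν, hν1, hν⟩ : ∃ ν : ℝ, 1 ≤ ν ∧ ∀ i, ‖lam i‖ ≤ ν := by
    refine ⟨1 + ∑ i, ‖lam i‖, ?_, ?_⟩
    · have : 0 ≤ ∑ i, ‖lam i‖ := Finset.sum_nonneg fun _ _ => norm_nonneg _
      linarith
    · intro i
      have : ‖lam i‖ ≤ ∑ i, ‖lam i‖ :=
        Finset.single_le_sum (f := fun i => ‖lam i‖) (fun _ _ => norm_nonneg _) (Finset.mem_univ i)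
      linarith
  choose ca hca using fun b => hspan_l (a b)
  obtain ⟨μ, hμ1, hμ⟩ : ∃ μ : ℝ, 1 ≤ μ ∧ ∀ b, ∑ i, ‖ca b i‖ ≤ μ := by
    refine ⟨1 + ∑ b, ∑ i, ‖ca b i‖, ?_, ?_⟩
    · have : 0 ≤ ∑ b, ∑ i, ‖ca b i‖ :=
        Finset.sum_nonneg fun _ _ => Finset.sum_nonneg fun _ _ => norm_nonneg _
      linarith
    · intro b
      have : ∑ i, ‖ca b i‖ ≤ ∑ b, ∑ i, ‖ca b i‖ :=
        Finset.single_le_sum (f := fun b => ∑ i, ‖ca b i‖)
          (fun _ _ => Finset.sum_nonneg fun _ _ => norm_nonneg _) (Finset.mem_univ b)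
      linarith
  -- the big constant
  obtain ⟨C₂, hC₂1, hC₂a, hC₂b, hC₂c, hC₂d, hC₂e, hC₂f, hC₂g⟩ : ∃ C₂ : ℝ, 1 ≤ C₂ ∧ 2 * c ≤ C₂ ∧
      2 * C ^ 2 ≤ C₂ ∧ C ^ (d + 1) ≤ C₂ ∧ 1 / ‖h 0‖ ≤ C₂ ∧ ((d + 1 : ℕ) : ℝ) ≤ C₂ ∧ ν ≤ C₂ ∧
      μ ≤ C₂ := by
    refine ⟨1 + 2 * c + 2 * C ^ 2 + C ^ (d + 1) + 1 / ‖h 0‖ + ((d + 1 : ℕ) : ℝ) + ν + μ,
      ?_, ?_, ?_, ?_, ?_, ?_, ?_, ?_⟩
    all_goals
      have h1 : 0 < C ^ (d + 1) := by positivity
      have h2 : 0 < 1 / ‖h 0‖ := by positivity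
      have h3 : 0 < C ^ 2 := by positivity
      have h4 : (0 : ℝ) ≤ ((d + 1 : ℕ) : ℝ) := Nat.cast_nonneg _
      linarith
  obtain ⟨t₀, ht₀⟩ := numeric_contradiction_sv (a := (8 + 4 * n) * (d + 1)) (d := d) (ν := ν)
    hC₂1 hC₀ hν1
  -- choose m
  set m := t₀ + d + 1 with hm
  have hmpos : 0 < m := by omega
  set T := 2 * m ^ (d + 1) with hT
  set L := 2 * m ^ d with hL
  obtain ⟨ξ, hξ0, hξv, hξb⟩ : ∃ ξ : (ι → Fin L) → 𝓞 K, ξ ≠ 0 ∧
        (∀ μ : Fin d → ℕ, (∀ i, μ i < T) →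
          eval x (derw P (wordOf μ) (auxPolyS y ξ)) = 0) ∧
        ∀ p, house (algebraMap (𝓞 K) K (ξ p)) ≤
          c * (2 * (T : ℕ) ^ d) * (C ^ ((d + 1) * T) *
            (((d + 1) * T : ℕ) : ℝ) ^ (d * T)) := haux m (by omega)
  set Q := auxPolyS y ξ with hQ
  set D := (d + 1) * L with hD
  have hmT : D ≤ T := by
    rw [hD, hT, hL]
    calc (d + 1) * (2 * m ^ d) ≤ m * (2 * m ^ d) := by gcongr; omega
      _ = 2 * m ^ (d + 1) := by ring
  have hsumD : ∀ p : ι → Fin L, ∑ i, (p i : ℕ) ≤ D := by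
    intro p
    calc ∑ i, (p i : ℕ) ≤ ∑ _i : ι, L := Finset.sum_le_sum fun i _ => (p i).2.le
      _ = D := by rw [Finset.sum_const, Finset.card_univ, hι, smul_eq_mul]
  -- functions
  set F : κ → E → ℂ := fun i z => u i z / h z with hF
  set G : E → ℂ := fun z => eval₂ ψ (fun j => F j z) Q with hG
  set Φ : E → ℂ := fun z => ∑ p : ι → Fin L, ψ (ξ p) *
    ((∏ i, u (y i) z ^ (p i : ℕ)) * h z ^ (D - ∑ i, (p i : ℕ))) with hΦ
  have hΦan : ∀ z, AnalyticAt ℂ Φ z := by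
    intro z
    rw [hΦ]
    apply Finset.analyticAt_fun_sum
    intro p _
    refine analyticAt_const.mul (AnalyticAt.mul ?_ ((hh z).pow _))
    exact Finset.analyticAt_fun_prod _ fun i _ => (hu (y i) z).pow _
  have hhc : Continuous h := continuous_iff_continuousAt.mpr fun z => (hh z).continuousAt
  have hUopen : IsOpen {z | h z ≠ 0} := isOpen_ne_fun hhc continuous_const
  have hGsum : ∀ z, G z = ∑ p : ι → Fin L, ψ (ξ p) * ∏ i, F (y i) z ^ (p i : ℕ) := by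
    intro z
    simp only [hG, hQ, auxPolyS, ← coe_eval₂Hom, map_prod, map_sum, map_mul, map_pow,
      eval₂Hom_C, eval₂Hom_X']
  have hΦG : ∀ z, h z ≠ 0 → Φ z = h z ^ D * G z := by
    intro z hz
    rw [hGsum z, Finset.mul_sum]
    simp only [hΦ]
    apply Finset.sum_congr rfl
    intro p _
    have h3 : h z ^ D = h z ^ (D - ∑ i, (p i : ℕ)) * ∏ i, h z ^ (p i : ℕ) := by
      rw [Finset.prod_pow_eq_pow_sum, ← pow_add]; congr 1
      have := hsumD p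
      omega
    rw [h3]
    simp only [hF, div_pow]
    rw [Finset.prod_div_distrib]
    have h4 : (∏ i, h z ^ (p i : ℕ)) ≠ 0 := Finset.prod_ne_zero_iff.mpr fun i _ => pow_ne_zero _ hz
    field_simp
  have hΦne : ∃ z, Φ z ≠ 0 := by
    obtain ⟨z, hz, hzne⟩ := hind L (fun p => ψ (ξ p)) (by
      intro h1
      apply hξ0
      funext p
      have := congrFun h1 p
      simpa using (map_eq_zero_iff ψ hψinj).mp this)
    refine ⟨z, ?_⟩
    rw [hΦG z hz, hGsum z]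
    exact mul_ne_zero (pow_ne_zero _ hz) hzne
  obtain ⟨t, hvan, w₀, hw₀, hw₀ne⟩ := exists_min_word a hΦan hΦne hspan_a
  -- G at 0
  have hFan : ∀ z, h z ≠ 0 → ∀ i, AnalyticAt ℂ (F i) z := fun z hz i => (hu i z).div (hh z) hz
  have hGan : AnalyticAt ℂ G 0 := analyticAt_eval₂ ψ F (hFan 0 h0) Q
  have hhD : AnalyticAt ℂ (fun z => h z ^ D) 0 := (hh 0).pow _
  have hΦGev : Φ =ᶠ[𝓝 0] (fun z => h z ^ D) * G := by
    filter_upwards [hUopen.mem_nhds h0] with z hz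
    exact hΦG z hz
  have hvanG : Van t G 0 := by
    have h1 : (fun z => (h z ^ D)⁻¹) * Φ =ᶠ[𝓝 0] G := by
      filter_upwards [hUopen.mem_nhds h0] with z hz
      simp only [Pi.mul_apply]
      rw [hΦG z hz]
      have : h z ^ D ≠ 0 := pow_ne_zero _ hz
      field_simp
    exact Van.congr h1 (Van.mul (hhD.inv (pow_ne_zero _ h0)) (hΦan 0) hvan)
  have hGder : ∀ w : List (Fin d), dds (w.map a) G 0 = ψ (eval x (derw P w Q)) := by
    intro w
    have h1 := dds_eval₂ ψ P F a hUopen (fun z hz i => hFan z hz i) hder Q w 0 h0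
    rw [hG, h1, eval₂_comp]
    congr 1
    funext j
    exact hval j
  have hΦGt : dds (w₀.map a) Φ 0 = h 0 ^ D * dds (w₀.map a) G 0 := by
    rw [(dds_congr hΦGev (w₀.map a)).self_of_nhds,
      dds_mul_of_van (w₀.map a) hhD hGan (by rw [List.length_map, hw₀]; exact hvanG)]
  set γ : 𝓞 K := eval x (derw P w₀ Q) with hγ
  have hψγ : dds (w₀.map a) G 0 = ψ γ := hGder w₀
  have hγ0 : ψ γ ≠ 0 := by
    intro h1
    apply hw₀ne
    rw [hΦGt, hψγ, h1, mul_zero]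
  have hγne : γ ≠ 0 := by
    intro h1
    rw [h1, map_zero] at hγ0
    exact hγ0 rfl
  have hTt : T ≤ t := by
    by_contra hlt
    push Not at hlt
    apply hγ0
    rw [← hψγ]
    have h1 : dds (w₀.map a) G 0 =
        dds ((wordOf fun i => w₀.count i).map a) G 0 :=
      dds_perm ((perm_wordOf w₀).map a) hGan
    rw [h1, hGder, hξv _ (fun i => ?_), map_zero]
    exact lt_of_le_of_lt (List.count_le_length) (by rw [hw₀]; exact hlt)
  have hTpos : 1 ≤ T := by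
    rw [hT]
    have : 0 < 2 * m ^ (d + 1) := by positivity
    omega
  -- numerical constants
  have ht1 : (1 : ℝ) ≤ t := by exact_mod_cast hTpos.trans hTt
  have hTtR : (T : ℝ) ≤ t := by exact_mod_cast hTt
  set W : ℝ := C₂ * t with hW
  have hW1 : 1 ≤ W := one_le_mul_of_one_le_of_one_le hC₂1 ht1
  have hC₂W : C₂ ≤ W := by rw [hW]; nlinarith
  have htW : (t : ℝ) ≤ W := by rw [hW]; nlinarith
  have hpowW : ∀ {i j : ℕ}, i ≤ j → W ^ i ≤ W ^ j := fun h => pow_le_pow_right₀ hW1 h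
  have htpos : 0 < t := by omega
  set Hξ : ℝ := c * (2 * (T : ℕ) ^ d) * (C ^ ((d + 1) * T) *
    (((d + 1) * T : ℕ) : ℝ) ^ (d * T)) with hHξ
  have hHξ0 : 0 ≤ Hξ := by positivity
  have h2T : c * (2 * (T : ℝ) ^ d) ≤ W ^ (d + 1) := by
    calc c * (2 * (T : ℝ) ^ d) = (2 * c) * (T : ℝ) ^ d := by ring
      _ ≤ W * W ^ d := by
          have h1 : (T : ℝ) ^ d ≤ W ^ d := by gcongr; exact hTtR.trans htW
          have h2 : 2 * c ≤ W := hC₂a.trans hC₂W
          gcongr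
      _ = W ^ (d + 1) := by ring
  have hpowd : C ^ ((d + 1) * T) * (((d + 1) * T : ℕ) : ℝ) ^ (d * T) ≤ W ^ ((d + 1) * t) := by
    calc C ^ ((d + 1) * T) * (((d + 1) * T : ℕ) : ℝ) ^ (d * T)
        ≤ W ^ t * W ^ (d * t) := by
          have h1 : C ^ ((d + 1) * T) ≤ W ^ t := by
            calc C ^ ((d + 1) * T) ≤ C ^ ((d + 1) * t) := pow_le_pow_right₀ hC1 (by gcongr)
              _ = (C ^ (d + 1)) ^ t := by rw [pow_mul]
              _ ≤ W ^ t := by gcongr; exact hC₂c.trans hC₂W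
          have h2 : (((d + 1) * T : ℕ) : ℝ) ≤ W := by
            rw [hW]; push_cast at hC₂e ⊢
            gcongr
          have h3 : (((d + 1) * T : ℕ) : ℝ) ^ (d * T) ≤ W ^ (d * t) := by
            calc (((d + 1) * T : ℕ) : ℝ) ^ (d * T) ≤ W ^ (d * T) := by gcongr
              _ ≤ W ^ (d * t) := hpowW (by gcongr)
          gcongr
      _ = W ^ ((d + 1) * t) := by rw [← pow_add]; congr 1; ring
  have hHξW : Hξ ≤ W ^ (2 * (d + 1) * t) := by
    calc Hξ ≤ W ^ (d + 1) * W ^ ((d + 1) * t) := by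
          rw [hHξ]
          push_cast at h2T hpowd ⊢
          gcongr
      _ ≤ W ^ ((d + 1) * t) * W ^ ((d + 1) * t) := by
          have : W ^ (d + 1) ≤ W ^ ((d + 1) * t) := hpowW (Nat.le_mul_of_pos_right _ htpos)
          gcongr
      _ = W ^ (2 * (d + 1) * t) := by rw [← pow_add]; congr 1; ring
  have hLd : (L : ℝ) ^ Fintype.card ι ≤ W ^ ((d + 1) * t) := by
    rw [hι]
    have h1 : (L : ℝ) ≤ W := by
      have : L ≤ T := by
        calc L ≤ (d + 1) * L := Nat.le_mul_of_pos_left _ (by omega)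
          _ ≤ T := hmT
      have : (L : ℝ) ≤ T := by exact_mod_cast this
      linarith
    calc (L : ℝ) ^ (d + 1) ≤ W ^ (d + 1) := by gcongr
      _ ≤ W ^ ((d + 1) * t) := hpowW (Nat.le_mul_of_pos_right _ htpos)
  have hLH : (L : ℝ) ^ Fintype.card ι * Hξ ≤ W ^ (3 * (d + 1) * t) := by
    calc (L : ℝ) ^ Fintype.card ι * Hξ ≤ W ^ ((d + 1) * t) * W ^ (2 * (d + 1) * t) := by gcongr
      _ = W ^ (3 * (d + 1) * t) := by rw [← pow_add]; congr 1; ring
  have hξσ : ∀ (σ : K →+* ℂ) p, ‖σ (algebraMap (𝓞 K) K (ξ p))‖ ≤ Hξ := fun σ p =>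
    (norm_embedding_le_house _ σ).trans (hξb p)
  have hhouse : house (algebraMap (𝓞 K) K γ) ≤ W ^ (4 * (d + 1) * t) := by
    have h1 := hC Q D w₀ ((L : ℝ) ^ Fintype.card ι * Hξ)
      (by rw [hD, ← hι]; exact totalDegree_auxPolyS_le y ξ)
      (fun σ => l1_auxPolyS_le _ y ξ (hξσ σ))
    refine h1.trans ?_
    rw [hw₀]
    calc C ^ (t + D) * ((D + t : ℕ) : ℝ) ^ t * ((L : ℝ) ^ Fintype.card ι * Hξ)
        ≤ C ^ (2 * t) * (2 * (t : ℝ)) ^ t * W ^ (3 * (d + 1) * t) := by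
          have h2 : C ^ (t + D) ≤ C ^ (2 * t) := pow_le_pow_right₀ hC1 (by omega)
          have h3 : ((D + t : ℕ) : ℝ) ≤ 2 * (t : ℝ) := by
            have : D + t ≤ 2 * t := by omega
            exact_mod_cast this
          gcongr
      _ = (C ^ 2 * (2 * (t : ℝ))) ^ t * W ^ (3 * (d + 1) * t) := by rw [pow_mul, ← mul_pow]
      _ ≤ W ^ t * W ^ (3 * (d + 1) * t) := by
          have : C ^ 2 * (2 * (t : ℝ)) ≤ W := by rw [hW]; nlinarith
          gcongr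
      _ = W ^ (t + 3 * (d + 1) * t) := by rw [← pow_add]
      _ ≤ W ^ (4 * (d + 1) * t) := hpowW (by nlinarith)
  obtain ⟨k, hk⟩ := ht₀ t m (by
    have h1 : m ≤ m ^ (d + 1) := Nat.le_self_pow (by omega) m
    omega) hTt
  -- analytic estimate
  set R : ℝ := 3 * ((d * k + 1 : ℕ) : ℝ) * ν + 1 with hR
  have hR0 : 0 ≤ R := by positivity
  set Ex : ℝ := Real.exp (C₀ * (1 + R ^ 2)) with hEx
  have hE1 : 1 ≤ Ex := Real.one_le_exp (by positivity)
  have hΦbd : ∀ z, ‖z‖ ≤ R → ‖Φ z‖ ≤ (L : ℝ) ^ Fintype.card ι * Hξ * Ex ^ D := by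
    intro z hz
    have hmono : Real.exp (C₀ * (1 + ‖z‖ ^ 2)) ≤ Ex := by
      apply Real.exp_le_exp.mpr
      gcongr
    have hhz : ‖h z‖ ≤ Ex := (hgh z).trans hmono
    have huz : ∀ i, ‖u i z‖ ≤ Ex := fun i => (hgu i z).trans hmono
    calc ‖Φ z‖ ≤ ∑ p : ι → Fin L, ‖ψ (ξ p) *
        ((∏ i, u (y i) z ^ (p i : ℕ)) * h z ^ (D - ∑ i, (p i : ℕ)))‖ := norm_sum_le _ _
      _ ≤ ∑ _p : ι → Fin L, Hξ * Ex ^ D := by
          apply Finset.sum_le_sum
          intro p _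
          rw [norm_mul, norm_mul, norm_prod, norm_pow]
          have h3 : Ex ^ D = (∏ i, Ex ^ (p i : ℕ)) * Ex ^ (D - ∑ i, (p i : ℕ)) := by
            rw [Finset.prod_pow_eq_pow_sum, ← pow_add]; congr 1
            have := hsumD p
            omega
          rw [h3]
          have h7 : ‖ψ (ξ p)‖ ≤ Hξ := hξσ em p
          have h8 : ∏ i, ‖u (y i) z ^ (p i : ℕ)‖ ≤ ∏ i, Ex ^ (p i : ℕ) := by
            apply Finset.prod_le_prod
            · intro i _; exact norm_nonneg _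
            · intro i _
              rw [norm_pow]
              exact pow_le_pow_left₀ (norm_nonneg _) (huz _) _
          have h9 : 0 ≤ ∏ i, ‖u (y i) z ^ (p i : ℕ)‖ := Finset.prod_nonneg fun _ _ => norm_nonneg _
          gcongr
      _ = (L : ℝ) ^ Fintype.card ι * Hξ * Ex ^ D := by
          rw [Finset.sum_const, Finset.card_univ, Fintype.card_fun, Fintype.card_fin, nsmul_eq_mul]
          push_cast; ring
  have hΦper : ∀ b z, Φ (z + lam b) = e b z ^ D * Φ z := by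
    intro b z
    simp only [hΦ, Finset.mul_sum]
    apply Finset.sum_congr rfl
    intro p _
    rw [hph]
    have h3 : e b z ^ D = (∏ i, e b z ^ (p i : ℕ)) * e b z ^ (D - ∑ i, (p i : ℕ)) := by
      rw [Finset.prod_pow_eq_pow_sum, ← pow_add]; congr 1
      have := hsumD p
      omega
    have h4 : ∏ i, u (y i) (z + lam b) ^ (p i : ℕ) =
        (∏ i, e b z ^ (p i : ℕ)) * ∏ i, u (y i) z ^ (p i : ℕ) := by
      rw [← Finset.prod_mul_distrib]
      apply Finset.prod_congr rfl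
      intro i _
      rw [hpu, mul_pow]
    rw [h3, h4]
    ring
  set X : ℝ := (t : ℝ) ^ t * (ν * t) ^ t * ((L : ℝ) ^ Fintype.card ι * Hξ * Ex ^ D) *
    (1 / 2) ^ (k * t) with hX
  have hX0 : 0 ≤ X := by positivity
  have hsch : ∀ w : List (Fin d), w.length = t → ‖dds (w.map lam) Φ 0‖ ≤ X := fun w hw =>
    sv_schwarz hd hΦan lam (fun b z => e b z ^ D) (fun b z => (he b z).pow _) hΦper hvan hν1 hν k
      hΦbd w hw
  have hΦw₀ : ‖dds (w₀.map a) Φ 0‖ ≤ μ ^ t * X := by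
    have h1 := norm_dds_le (hΦan 0) lam hX0 hsch (μ := μ) (by linarith) (w₀.map a) []
      (by simpa using hw₀) (by
        intro v hv
        obtain ⟨b, _, rfl⟩ := List.mem_map.mp hv
        exact ⟨ca b, hca b, hμ b⟩)
    rw [List.length_map, hw₀] at h1
    simpa using h1
  have hψγb : ‖ψ γ‖ ≤ W ^ (8 * (d + 1) * t) * Ex ^ D * (1 / 2) ^ (k * t) := by
    have e1 : ‖ψ γ‖ = (1 / ‖h 0‖) ^ D * ‖dds (w₀.map a) Φ 0‖ := by
      rw [hΦGt, hψγ, norm_mul, norm_pow, one_div, inv_pow]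
      field_simp
    have e2 : (1 / ‖h 0‖) ^ D ≤ W ^ t := by
      calc (1 / ‖h 0‖) ^ D ≤ W ^ D := by
            have := hC₂d.trans hC₂W
            gcongr
        _ ≤ W ^ t := hpowW (by omega)
    have e3 : (t : ℝ) ^ t ≤ W ^ t := by gcongr
    have e4 : (ν * t) ^ t ≤ W ^ t := by
      have : ν * t ≤ W := by rw [hW]; gcongr
      gcongr
    have e5 : μ ^ t ≤ W ^ t := by
      have := hC₂g.trans hC₂W
      gcongr
    rw [e1]
    calc (1 / ‖h 0‖) ^ D * ‖dds (w₀.map a) Φ 0‖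
        ≤ W ^ t * (W ^ t * (W ^ t * W ^ t * (W ^ (3 * (d + 1) * t) * Ex ^ D) *
            (1 / 2) ^ (k * t))) := by
          have h1 : μ ^ t * X ≤ W ^ t * (W ^ t * W ^ t * (W ^ (3 * (d + 1) * t) * Ex ^ D) *
            (1 / 2) ^ (k * t)) := by
            rw [hX]
            gcongr
          have h2 := hΦw₀.trans h1
          gcongr
      _ = W ^ (t + t + t + t + 3 * (d + 1) * t) * Ex ^ D * (1 / 2) ^ (k * t) := by
          rw [pow_add, pow_add, pow_add, pow_add]; ring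
      _ ≤ W ^ (8 * (d + 1) * t) * Ex ^ D * (1 / 2) ^ (k * t) := by
          have : W ^ (t + t + t + t + 3 * (d + 1) * t) ≤ W ^ (8 * (d + 1) * t) :=
            hpowW (by nlinarith)
          gcongr
  have hliou := one_le_norm_mul_house_pow hγne em
  have : ‖ψ γ‖ * house (algebraMap (𝓞 K) K γ) ^ (n - 1) < 1 := by
    calc ‖ψ γ‖ * house (algebraMap (𝓞 K) K γ) ^ (n - 1)
        ≤ (W ^ (8 * (d + 1) * t) * Ex ^ D * (1 / 2) ^ (k * t)) *
            (W ^ (4 * (d + 1) * t)) ^ (n - 1) := by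
          have := house_nonneg (algebraMap (𝓞 K) K γ)
          gcongr
      _ ≤ (W ^ (8 * (d + 1) * t) * Ex ^ D * (1 / 2) ^ (k * t)) *
            (W ^ (4 * (d + 1) * t)) ^ n := by
          have h1 : 1 ≤ W ^ (4 * (d + 1) * t) := one_le_pow₀ hW1
          gcongr
          omega
      _ = W ^ ((8 + 4 * n) * (d + 1) * t) * Ex ^ D * (1 / 2) ^ (k * t) := by
          rw [← pow_mul]
          have : W ^ ((8 + 4 * n) * (d + 1) * t) =
              W ^ (8 * (d + 1) * t) * W ^ (4 * (d + 1) * t * n) := by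
            rw [← pow_add]; congr 1; ring
          rw [this]; ring
      _ < 1 := hk
  exact absurd hliou (not_le.mpr this)

end Pool.Agent.Helper8
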