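import Mathlib
import Pool.Agent.Helper8.SVCore
import Pool.Agent.Helper8.SLGeneral

/-!
Periodic Schneider-Lang theorem in several variables.
-/

open MvPolynomial NumberField Filter Topology

namespace Pool.Agent.Helper8

/-- **Periodic Schneider-Lang theorem in several variables.** -/
theorem schneider_lang_several {κ : Type*} [Finite κ]
    {E : Type*} [NormedAddCommGroup E] [NormedSpace ℂ E] {d : ℕ} (hd : 0 < d)
    (P : Fin d → κ → MvPolynomial κ ℂ) (hP : ∀ b i m, IsAlgebraic ℚ ((P b i).coeff m))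
    (a : Fin d → E)
    (h : E → ℂ) (u : κ → E → ℂ) (hh : ∀ z, AnalyticAt ℂ h z) (hu : ∀ i z, AnalyticAt ℂ (u i) z)
    (h0 : h 0 ≠ 0)
    (hval : ∀ i, IsAlgebraic ℚ (u i 0 / h 0))
    (hder : ∀ z, h z ≠ 0 → ∀ b i, dd (a b) (fun z => u i z / h z) z =
      eval (fun j => u j z / h z) (P b i))
    {C₀ : ℝ} (hC₀ : 0 ≤ C₀) (hgh : ∀ z, ‖h z‖ ≤ Real.exp (C₀ * (1 + ‖z‖ ^ 2)))
    (hgu : ∀ i z, ‖u i z‖ ≤ Real.exp (C₀ * (1 + ‖z‖ ^ 2)))
    (lam : Fin d → E) (e : Fin d → E → ℂ) (he : ∀ b z, AnalyticAt ℂ (e b) z)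
    (hph : ∀ b z, h (z + lam b) = e b z * h z)
    (hpu : ∀ i b z, u i (z + lam b) = e b z * u i z)
    (hspan_a : ∀ v : E, ∃ c : Fin d → ℂ, v = ∑ i, c i • a i)
    (hspan_l : ∀ v : E, ∃ c : Fin d → ℂ, v = ∑ i, c i • lam i)
    {ι : Type} [Fintype ι] (hι : Fintype.card ι = d + 1) (y : ι → κ) :
    ∃ R : MvPolynomial ι ℂ, R ≠ 0 ∧ ∀ z, h z ≠ 0 →
      eval (fun i => u (y i) z / h z) R = 0 := by
  classical
  by_contra hcon
  push Not at hcon
  have := Fintype.ofFinite κ
  -- the finite set of algebraic numbers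
  set S : Set ℂ := (⋃ s : Fin d × κ, (fun m => (P s.1 s.2).coeff m) ''
    ((P s.1 s.2).support : Set (κ →₀ ℕ))) ∪ Set.range (fun i => u i 0 / h 0) with hS
  have hSfin : Finite S := by
    apply Set.Finite.to_subtype
    apply Set.Finite.union
    · exact Set.finite_iUnion fun i => (Finset.finite_toSet _).image _
    · exact Set.finite_range _
  obtain ⟨K, hK, D, hD0, hlift⟩ := exists_numberField S (by
    rintro c (hc | hc)
    · obtain ⟨i, hi⟩ := Set.mem_iUnion.mp hc
      obtain ⟨m, _, rfl⟩ := hi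
      exact hP i.1 i.2 m
    · obtain ⟨i, rfl⟩ := hc
      exact hval i)
  set em : K →+* ℂ := algebraMap K ℂ with hem
  set ψ : 𝓞 K →+* ℂ := em.comp (algebraMap (𝓞 K) K) with hψ
  have hcoef : ∀ b i m, ∃ c : 𝓞 K, ψ c = D * (P b i).coeff m := by
    intro b i m
    by_cases hm : m ∈ (P b i).support
    · exact hlift _ (Or.inl (Set.mem_iUnion.mpr ⟨(b, i), ⟨m, hm, rfl⟩⟩))
    · exact ⟨0, by rw [notMem_support_iff.mp hm]; simp⟩
  choose cf hcf using hcoef
  have hx : ∀ i, ∃ x : 𝓞 K, ψ x = D * (u i 0 / h 0) := fun i => hlift _ (Or.inr ⟨i, rfl⟩)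
  choose x hx using hx
  obtain ⟨r, hr⟩ : ∃ r : ℕ, ∀ b i, (P b i).totalDegree ≤ r := by
    refine ⟨∑ s : Fin d × κ, (P s.1 s.2).totalDegree, fun b i => ?_⟩
    exact Finset.single_le_sum (f := fun s : Fin d × κ => (P s.1 s.2).totalDegree)
      (fun _ _ => Nat.zero_le _) (Finset.mem_univ (b, i))
  set P' : Fin d → κ → MvPolynomial κ (𝓞 K) := fun b i =>
    ∑ m ∈ (P b i).support, monomial m (cf b i m * (D : 𝓞 K) ^ (r - m.degree)) with hP'
  have hDC : (D : ℂ) ≠ 0 := by exact_mod_cast hD0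
  have hDR : (1 : ℝ) ≤ D := by exact_mod_cast Nat.one_le_iff_ne_zero.mpr hD0
  have hPP' : ∀ b i (y : κ → ℂ), eval₂ ψ (fun k => D * y k) (P' b i) =
      D * (D : ℂ) ^ r * eval y (P b i) := by
    intro b i y
    rw [hP', eval₂_sum, eval_eq', Finset.mul_sum]
    apply Finset.sum_congr rfl
    intro m hm
    rw [eval₂_monomial, map_mul, map_pow, map_natCast, hcf, Finsupp.prod_fintype _ _ (by simp)]
    have h1 : m.degree ≤ r := (le_totalDegree hm).trans (hr b i)
    have h2 : (D : ℂ) ^ r = (D : ℂ) ^ (r - m.degree) * (D : ℂ) ^ m.degree := by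
      rw [← pow_add]; congr 1; omega
    have h3 : (D : ℂ) ^ m.degree = ∏ k, (D : ℂ) ^ (m k) := by
      rw [Finset.prod_pow_eq_pow_sum, Finsupp.degree_eq_sum]
    rw [h2, h3]
    simp only [mul_pow, Finset.prod_mul_distrib]
    ring
  set δ : ℂ := (D : ℂ) ^ r with hδ
  have hδ0 : δ ≠ 0 := pow_ne_zero _ hDC
  refine coreS em hd P' x (fun b => δ • a b) h (fun i z => D * u i z)
    hh (fun i z => analyticAt_const.mul (hu i z)) h0 ?_ ?_
    (C₀ := C₀ + Real.log D) ?_ ?_ ?_ lam e he hph ?_ ?_ hspan_l hι y ?_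
  · intro i
    have := hx i
    rw [hψ] at this
    simp only [RingHom.comp_apply] at this
    rw [this]; ring
  · intro z hz b i
    have h4 : (fun z => (D : ℂ) * u i z / h z) = fun z => (D : ℂ) * (u i z / h z) := by
      ext z; rw [mul_div_assoc]
    have h5 : eval₂ (em.comp (algebraMap (𝓞 K) K)) (fun j => (D : ℂ) * u j z / h z)
        (P' b i) = δ * (D * eval (fun j => u j z / h z) (P b i)) := by
      have h6 := hPP' b i (fun j => u j z / h z)
      have h7 : (fun j => (D : ℂ) * u j z / h z) =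
          fun k => (D : ℂ) * (u k z / h z) := by
        ext k; rw [mul_div_assoc]
      rw [h7, ← hψ, h6]; ring
    rw [h4, h5, ← hder z hz b i]
    have h8 : AnalyticAt ℂ (fun z => u i z / h z) z := (hu i z).div (hh z) hz
    rw [← dd_const_mul h8]
    unfold dd
    rw [map_smul, smul_eq_mul]
  · have := Real.log_nonneg hDR
    positivity
  · intro z
    refine (hgh _).trans ?_
    apply Real.exp_le_exp.mpr
    have := Real.log_nonneg hDR
    gcongr
    linarith
  · intro i z
    rw [norm_mul, Complex.norm_natCast]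
    calc (D : ℝ) * ‖u i z‖ ≤ Real.exp (Real.log D) * Real.exp (C₀ * (1 + ‖z‖ ^ 2)) := by
          rw [Real.exp_log (by linarith)]
          gcongr
          exact hgu i _
      _ = Real.exp (Real.log D + C₀ * (1 + ‖z‖ ^ 2)) := by rw [Real.exp_add]
      _ ≤ _ := by
          apply Real.exp_le_exp.mpr
          have h3 : Real.log D ≤ Real.log D * (1 + ‖z‖ ^ 2) := by
            have := Real.log_nonneg hDR
            nlinarith [sq_nonneg ‖z‖]
          nlinarith
  · intro i b z
    rw [hpu]; ring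
  · intro v
    obtain ⟨c, hc⟩ := hspan_a v
    refine ⟨fun i => c i / δ, ?_⟩
    rw [hc]
    apply Finset.sum_congr rfl
    intro i _
    rw [smul_smul]
    congr 1
    field_simp
  · intro N c hc
    set R : MvPolynomial ι ℂ := ∑ p : ι → Fin N,
      monomial (Finsupp.equivFunOnFinite.symm fun i => (p i : ℕ))
        (c p * (D : ℂ) ^ (∑ i, (p i : ℕ))) with hR
    have hinj : Function.Injective fun p : ι → Fin N =>
        Finsupp.equivFunOnFinite.symm fun i => (p i : ℕ) := by
      intro p q hpq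
      have h1 := Finsupp.equivFunOnFinite.symm.injective hpq
      funext i
      exact Fin.ext (congrFun h1 i)
    have hRne : R ≠ 0 := by
      intro h0
      apply hc
      funext p
      have h1 : R.coeff (Finsupp.equivFunOnFinite.symm fun i => (p i : ℕ)) =
          c p * (D : ℂ) ^ (∑ i, (p i : ℕ)) := by
        rw [hR, coeff_sum, Finset.sum_eq_single p]
        · rw [coeff_monomial, if_pos rfl]
        · intro q _ hq
          rw [coeff_monomial, if_neg]
          intro h
          exact hq (hinj h)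
        · intro h; exact absurd (Finset.mem_univ p) h
      rw [h0, coeff_zero] at h1
      simpa [hDC] using h1.symm
    obtain ⟨z, hz, hzne⟩ := hcon R hRne
    refine ⟨z, hz, ?_⟩
    convert hzne using 1
    rw [hR, map_sum]
    apply Finset.sum_congr rfl
    intro p _
    rw [eval_monomial, Finsupp.prod_fintype _ _ (by simp)]
    simp only [Finsupp.equivFunOnFinite_symm_apply_apply]
    rw [mul_assoc, ← Finset.prod_pow_eq_pow_sum, ← Finset.prod_mul_distrib]
    congr 1
    apply Finset.prod_congr rfl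
    intro i _
    rw [mul_div_assoc, mul_pow]

end Pool.Agent.Helper8
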