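import Mathlib
import Pool.Agent.Helper8.SVGeneral
import Pool.Agent.Helper8.SysPer

/-!
The Schneider-Lang theorem on a subspace of `H_1` of a product of abelian varieties.
-/

open scoped ComplexConjugate
open Filter Topology MvPolynomial
open Pool.Agent.Helper8 (dd dds dd_congr)

set_option linter.unusedSectionVars false

namespace Pool.Agent.GPC

variable {J : Type} [Fintype J] [DecidableEq J] (B : J → AbVar)

theorem sub_dep (P : Submodule ℂ (HP B)) {d : ℕ} (hd : 0 < d) (a : Fin d → P)
    (ha : ∀ i j, (B j).IsDeRham ((a i : HP B) j))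
    (hspan_a : ∀ v : P, ∃ c : Fin d → ℂ, v = ∑ i, c i • a i)
    (l : Fin d → (j : J) → Fin (B j).g → ℂ) (hl : ∀ i j, l i j ∈ (B j).Λ)
    (lam : Fin d → P) (hlam : ∀ i, (lam i : HP B) = perP B (l i))
    (hspan_l : ∀ v : P, ∃ c : Fin d → ℂ, v = ∑ i, c i • lam i)
    {ι : Type} [Fintype ι] (hι : Fintype.card ι = d + 1) (y : ι → IdxP B) :
    ∃ R : MvPolynomial ι ℂ, R ≠ 0 ∧ ∀ p : P, hP B p ≠ 0 →
      eval (fun i => fP B (y i) p) R = 0 := by
  obtain ⟨C, hC0, hCh, hCu⟩ := exists_growth_P B
  obtain ⟨R, hR0, hR⟩ := Helper8.schneider_lang_several hd (fun b i => PPP B (a b) i)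
    (fun b i m => PPP_alg B (a b) (ha b) i m) a (fun p : P => hP B p)
    (fun s (p : P) => uP B s p)
    (fun p => AnalyticAt.comp (g := hP B) (f := P.subtypeL) (analyticAt_hP B _)
      (P.subtypeL.analyticAt p))
    (fun s p => AnalyticAt.comp (g := uP B s) (f := P.subtypeL) (analyticAt_uP B s _)
      (P.subtypeL.analyticAt p))
    (hP_zero B)
    (fun s => by
      have h1 := uP_div B (hP_zero B) s
      have h2 : uP B s ((0 : P) : HP B) / hP B ((0 : P) : HP B) = fP B s 0 := h1
      rw [h2]
      exact (B s.1).ff_zero_isAlgebraic s.2)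
    (fun p hp b s => by
      have h1 : AnalyticAt ℂ (fun w => uP B s w / hP B w) (P.subtypeL p) :=
        (analyticAt_uP B s _).div (analyticAt_hP B _) hp
      have h2 := dd_comp P.subtypeL (f := fun w => uP B s w / hP B w) (z := p)
        h1.differentiableAt (a b)
      exact h2.trans (dd_uP_div B (a b) hp s))
    hC0 (fun p => hCh p) (fun s p => hCu s p) lam (fun b p => eP B (l b) p)
    (fun b p => AnalyticAt.comp (g := eP B (l b)) (f := P.subtypeL) (analyticAt_eP B (l b) _)
      (P.subtypeL.analyticAt p))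
    (fun b p => by
      have := hP_add B (hl b) (p : HP B)
      rw [← hlam b] at this
      exact this)
    (fun s b p => by
      have := uP_add B (hl b) s (p : HP B)
      rw [← hlam b] at this
      exact this)
    hspan_a hspan_l hι y
  refine ⟨R, hR0, fun p hp => ?_⟩
  have h1 := hR p hp
  have h2 : (fun i => uP B (y i) (p : HP B) / hP B (p : HP B)) = fun i => fP B (y i) p := by
    funext i
    exact uP_div B hp (y i)
  rw [h2] at h1
  exact h1

end Pool.Agent.GPC
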