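import Mathlib
import Pool.Agent.Helper8.Geom1
import Pool.Agent.Helper8.SubSL

/-!
Geometry of the subspace theorem: the dimension argument.
-/

open scoped ComplexConjugate
open Filter Topology MvPolynomial Module
open Pool.Agent.Helper8 (dd dds dd_congr)

set_option linter.unusedSectionVars false

namespace Pool.Agent.GPC

variable {J : Type} [Fintype J] [DecidableEq J] (B : J → AbVar)

/-- the theta quotients on the Lie algebra -/
noncomputable def xL (s : IdxT B) (z : LieP B) : ℂ := fP B (inlP B s) (embP B z)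

lemma hP_embP_zero : hP B (embP B 0) ≠ 0 := by
  rw [map_zero]; exact hP_zero B

lemma analyticAt_xL (s : IdxT B) : AnalyticAt ℂ (xL B s) 0 := by
  have h1 : AnalyticAt ℂ (fP B (inlP B s)) (embP B 0) := analyticAt_fP B (hP_embP_zero B) _
  exact h1.comp ((embP B).analyticAt 0)

lemma xL_sep (v : LieP B) (hv : ∀ s, fderiv ℂ (xL B s) 0 v = 0) : v = 0 := by
  funext j
  -- the theta quotients of the factor `j`
  have hT0 : (B j).θ (B j).i0 0 ≠ 0 := (B j).i0_ne
  have h1 : ∀ k : Fin ((B j).N + 1), (B j).θ (B j).i0 0 * fderiv ℂ ((B j).θ k) 0 (v j) =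
      (B j).θ k 0 * fderiv ℂ ((B j).θ (B j).i0) 0 (v j) := by
    intro k
    have h2 := hv ⟨j, k⟩
    have h3 : HasFDerivAt ((B j).θ k) (fderiv ℂ ((B j).θ k) 0) 0 := (B j).hasFDerivAt_theta k 0
    have h4 : HasFDerivAt ((B j).θ (B j).i0) (fderiv ℂ ((B j).θ (B j).i0) 0) 0 :=
      (B j).hasFDerivAt_theta (B j).i0 0
    have h5 : AnalyticAt ℂ (fun z => (B j).θ k z / (B j).θ (B j).i0 z) 0 :=
      ((B j).analyticAt_theta k _).div ((B j).analyticAt_theta (B j).i0 _) hT0
    have h6 : xL B ⟨j, k⟩ = fun z : LieP B =>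
        (fun z => (B j).θ k z / (B j).θ (B j).i0 z)
          ((ContinuousLinearMap.proj (R := ℂ) (φ := fun j => (Fin (B j).g → ℂ)) j) z) := rfl
    have h7 : dd v (xL B ⟨j, k⟩) 0 = dd (v j) (fun z => (B j).θ k z / (B j).θ (B j).i0 z) 0 := by
      rw [h6]
      exact dd_comp (ContinuousLinearMap.proj (R := ℂ) (φ := fun j => (Fin (B j).g → ℂ)) j)
        (f := fun z => (B j).θ k z / (B j).θ (B j).i0 z) (z := (0 : LieP B))
        h5.differentiableAt v
    have h8 : dd (v j) (fun z => (B j).θ k z / (B j).θ (B j).i0 z) 0 = 0 := by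
      rw [← h7]; exact h2
    have h9 : HasFDerivAt (fun z => (B j).θ (B j).i0 z *
        ((B j).θ k z / (B j).θ (B j).i0 z)) _ 0 := h4.mul h5.differentiableAt.hasFDerivAt
    have h10 : (fun z => (B j).θ (B j).i0 z * ((B j).θ k z / (B j).θ (B j).i0 z)) =ᶠ[𝓝 0]
        (B j).θ k := by
      have hne : ∀ᶠ y in 𝓝 0, (B j).θ (B j).i0 y ≠ 0 :=
        ((B j).analyticAt_theta (B j).i0 0).continuousAt.eventually_ne hT0
      filter_upwards [hne] with y hy
      field_simp
    have h11 := congrArg (fun f => f (v j)) ((h9.congr_of_eventuallyEq h10.symm).unique h3)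
    simp only [add_apply, smul_apply, smul_eq_mul] at h11
    have h12 : fderiv ℂ (fun z => (B j).θ k z / (B j).θ (B j).i0 z) 0 (v j) = 0 := h8
    rw [h12, mul_zero, zero_add] at h11
    rw [← h11]
    field_simp
  apply (B j).immersive 0 (v j)
  intro i k
  have h2 := h1 i
  have h3 := h1 k
  have h4 : (B j).θ (B j).i0 0 * ((B j).θ i 0 * fderiv ℂ ((B j).θ k) 0 (v j)) =
      (B j).θ (B j).i0 0 * ((B j).θ k 0 * fderiv ℂ ((B j).θ i) 0 (v j)) := by
    calc _ = (B j).θ i 0 * ((B j).θ (B j).i0 0 * fderiv ℂ ((B j).θ k) 0 (v j)) := by ring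
      _ = (B j).θ k 0 * ((B j).θ i 0 * fderiv ℂ ((B j).θ (B j).i0) 0 (v j)) := by rw [h3]; ring
      _ = _ := by rw [← h2]; ring
  exact mul_left_cancel₀ hT0 h4

/-- coordinate of the fibre -/
noncomputable def coordZ (V₂ : Submodule ℂ (HP B)) (s : IdxZ B) : V₂ →ₗ[ℂ] ℂ where
  toFun v := (v : HP B) s.1 (.inr s.2)
  map_add' _ _ := rfl
  map_smul' _ _ := rfl

theorem core_dim (P : Submodule ℂ (HP B)) {d : ℕ} (hd : 0 < d) (a : Fin d → P)
    (ha : ∀ i j, (B j).IsDeRham ((a i : HP B) j))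
    (hspan_a : ∀ v : P, ∃ c : Fin d → ℂ, v = ∑ i, c i • a i)
    (l : Fin d → (j : J) → Fin (B j).g → ℂ) (hl : ∀ i j, l i j ∈ (B j).Λ)
    (lam : Fin d → P) (hlam : ∀ i, (lam i : HP B) = perP B (l i))
    (hspan_l : ∀ v : P, ∃ c : Fin d → ℂ, v = ∑ i, c i • lam i)
    (V₁ : Submodule ℂ (LieP B)) (V₂ : Submodule ℂ (HP B)) (hV₂ : ∀ v ∈ V₂, prP B v = 0)
    (hZ1 : ∀ {ι : Type} [Fintype ι] (y : ι → IdxT B) (S : MvPolynomial ι ℂ),
      (∀ p ∈ P, hP B p ≠ 0 → eval (fun i => fP B (inlP B (y i)) p) S = 0) →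
      ∀ z ∈ V₁, hP B (embP B z) ≠ 0 → eval (fun i => fP B (inlP B (y i)) (embP B z)) S = 0)
    (hZ2 : ∀ {ι : Type} [Fintype ι] (y : ι → IdxP B) (R : MvPolynomial ι ℂ),
      (∀ p ∈ P, hP B p ≠ 0 → eval (fun i => fP B (y i) p) R = 0) →
      ∀ p ∈ P, hP B p ≠ 0 → ∀ v ∈ V₂, eval (fun i => fP B (y i) (p + v)) R = 0)
    (hdim : finrank ℂ V₁ + finrank ℂ V₂ = d + 1) : False := by
  obtain ⟨y₁, hy₁⟩ := exists_coords (V := V₁) (κ := IdxT B)
    (fun s => ((fderiv ℂ (xL B s) 0).comp V₁.subtypeL : V₁ →L[ℂ] ℂ).toLinearMap) (by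
      intro v hv
      apply Subtype.ext
      exact xL_sep B v hv)
  obtain ⟨y₂, hy₂⟩ := exists_coords (V := V₂) (κ := IdxZ B) (coordZ B V₂) (by
      intro v hv
      apply Subtype.ext
      funext j s
      rcases s with b | b
      · exact congrFun (congrFun (hV₂ v v.2) j) b
      · exact hv ⟨j, b⟩)
  obtain ⟨R, hR0, hR⟩ := sub_dep B P hd a ha hspan_a l hl lam hlam hspan_l
    (ι := Fin (finrank ℂ V₁) ⊕ Fin (finrank ℂ V₂)) (by simp [hdim])
    (Sum.elim (fun i => inlP B (y₁ i)) (fun i => inrP B (y₂ i)))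
  apply hR0
  apply eq_zero_of_substRight
  intro t
  have h1 : ∀ p ∈ P, hP B p ≠ 0 →
      eval (fun i => fP B (inlP B (y₁ i)) p) (substRight R t) = 0 := by
    intro p hp hh
    rw [eval_substRight]
    obtain ⟨v, hv⟩ := hy₂.2 (fun i => fP B (inrP B (y₂ i)) p - t i)
    have h2 := hZ2 _ R (fun p hp hh => hR ⟨p, hp⟩ hh) p hp hh v v.2
    rw [← h2]
    congr 1
    apply congrArg
    funext i
    rcases i with i | i
    · simp only [Sum.elim_inl]
      rw [fP_add_ker B _ (hV₂ v v.2) hh]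
      simp
    · simp only [Sum.elim_inr]
      rw [fP_add_ker B _ (hV₂ v v.2) hh]
      have h3 : (v : HP B) (y₂ i).1 (.inr (y₂ i).2) = fP B (inrP B (y₂ i)) p - t i :=
        congrFun hv i
      rw [linP_inr, h3]
      ring
  have h2 := hZ1 y₁ (substRight R t) h1
  have hcomp : CompleteSpace V₁ := FiniteDimensional.complete ℂ V₁
  apply mvPoly_eq_zero_of_local (V := V₁) (substRight R t) (fun i z => xL B (y₁ i) z)
    (fun i => (fderiv ℂ (xL B (y₁ i)) 0).comp V₁.subtypeL)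
  · intro i
    have h3 : HasStrictFDerivAt (xL B (y₁ i)) (fderiv ℂ (xL B (y₁ i)) 0) (V₁.subtypeL 0) := by
      rw [map_zero]
      exact (analyticAt_xL B (y₁ i)).hasStrictFDerivAt
    exact h3.comp (0 : V₁) V₁.subtypeL.hasStrictFDerivAt
  · exact hy₁.2
  · have hc : ContinuousAt (fun z : V₁ => hP B ((embP B).comp V₁.subtypeL z)) 0 := by
      have h3 : ContinuousAt (hP B) ((embP B).comp V₁.subtypeL 0) :=
        (analyticAt_hP B _).continuousAt
      exact ContinuousAt.comp (g := hP B) (f := (embP B).comp V₁.subtypeL) h3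
        ((embP B).comp V₁.subtypeL).continuous.continuousAt
    have hne := hc.eventually_ne (y := 0) (by
      rw [map_zero]; exact hP_zero B)
    filter_upwards [hne] with z hz
    exact h2 z z.2 hz

end Pool.Agent.GPC
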