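import Mathlib
import Pool.Agent.Helper8.Density2
import Pool.Agent.Helper8.Geom2

/-!
The subspace theorem: a subspace of `H_1` of a product of abelian varieties (over the algebraic
numbers) which is rational both for the Betti and for the de Rham structure comes from an abelian
subvariety.
-/

open scoped ComplexConjugate
open Filter Topology MvPolynomial Module
open Pool.Agent.Helper8 (dd dds dd_congr)

set_option linter.unusedSectionVars false

namespace Pool.Agent.GPC

variable {J : Type} [Fintype J] [DecidableEq J] (B : J → AbVar)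

lemma finrank_sup_singleton {V : Type*} [AddCommGroup V] [Module ℂ V] [FiniteDimensional ℂ V]
    (S : Submodule ℂ V) {x : V} (hx : x ∉ S) :
    finrank ℂ (S ⊔ Submodule.span ℂ {x} : Submodule ℂ V) = finrank ℂ S + 1 := by
  have hx0 : x ≠ 0 := by
    rintro rfl
    exact hx S.zero_mem
  have h1 := Submodule.finrank_sup_add_finrank_inf_eq S (Submodule.span ℂ {x})
  have h2 : S ⊓ Submodule.span ℂ {x} = ⊥ :=
    disjoint_iff.mp ((Submodule.disjoint_span_singleton' hx0).mpr hx)
  rw [h2, finrank_bot, add_zero, finrank_span_singleton hx0] at h1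
  exact h1

lemma finrank_map_add_inf_ker {V W : Type*} [AddCommGroup V] [Module ℂ V] [FiniteDimensional ℂ V]
    [AddCommGroup W] [Module ℂ W] (f : V →ₗ[ℂ] W) (S : Submodule ℂ V) :
    finrank ℂ (S.map f) + finrank ℂ (S ⊓ LinearMap.ker f : Submodule ℂ V) = finrank ℂ S := by
  have h1 := LinearMap.finrank_range_add_finrank_ker (f.domRestrict S)
  rw [LinearMap.range_domRestrict, LinearMap.ker_domRestrict] at h1
  rw [← Submodule.map_comap_subtype, Submodule.finrank_map_subtype_eq]
  exact h1

lemma betti_scale (u : HP B) (h : ∀ j, (B j).IsBetti (u j)) :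
    ∃ N : ℕ, N ≠ 0 ∧ ∃ l ∈ LatP B, (N : ℂ) • u = perP B l := by
  choose N hN l hl hNl using h
  refine ⟨∏ j, N j, Finset.prod_ne_zero_iff.mpr fun j _ => hN j,
    fun j => (∏ i ∈ Finset.univ.erase j, N i) • l j, ?_, ?_⟩
  · rw [mem_LatP]
    intro j
    exact (B j).Λ.smul_of_tower_mem _ (hl j)
  · funext j
    have h1 : ((∏ j, N j : ℕ) : ℂ) = (∏ i ∈ Finset.univ.erase j, N i : ℕ) * (N j : ℂ) := by
      rw [← Finset.prod_erase_mul Finset.univ N (Finset.mem_univ j)]
      push_cast
      rfl
    have h2 : perP B (fun j => (∏ i ∈ Finset.univ.erase j, N i) • l j) j =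
        (B j).period ((∏ i ∈ Finset.univ.erase j, N i) • l j) := rfl
    have h3 : ∀ n : ℕ, (B j).period (n • l j) = (n : ℂ) • (B j).period (l j) := by
      intro n
      funext s
      rcases s with a | a
      · change (n • l j) a = (n : ℂ) * l j a
        simp
      · change (B j).eta (n • l j) a = (n : ℂ) * (B j).eta (l j) a
        have h4 : n • l j = (n : ℂ) • l j := by rw [Nat.cast_smul_eq_nsmul]
        rw [h4]
        unfold AbVar.eta
        rw [hermForm_smul_right, bilForm_smul_right]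
        simp only [map_natCast]
        ring
    rw [h2, h3, Pi.smul_apply, h1, mul_smul, hNl]

lemma exists_basis_of_span (P : Submodule ℂ (HP B)) (c : HP B → Prop)
    (h : ∀ v ∈ P, v ∈ Submodule.span ℂ {u | u ∈ P ∧ c u}) :
    ∃ a : Fin (finrank ℂ P) → P, (∀ i, c (a i)) ∧
      ∀ v : P, ∃ t : Fin (finrank ℂ P) → ℂ, v = ∑ i, t i • a i := by
  have hsp : Submodule.span ℂ {u | u ∈ P ∧ c u} = P := by
    apply le_antisymm
    · exact Submodule.span_le.mpr fun u hu => hu.1
    · exact h
  obtain ⟨f, hf1, hf2, _⟩ := Submodule.exists_fun_fin_finrank_span_eq ℂ {u | u ∈ P ∧ c u}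
  have hd : finrank ℂ P = finrank ℂ (Submodule.span ℂ {u | u ∈ P ∧ c u}) := by rw [hsp]
  refine ⟨fun i => ⟨f (Fin.cast hd i), (hf1 _).1⟩, fun i => (hf1 _).2, fun v => ?_⟩
  have h1 : (v : HP B) ∈ Submodule.span ℂ (Set.range f) := by
    rw [hf2, hsp]; exact v.2
  obtain ⟨t, ht⟩ := (Submodule.mem_span_range_iff_exists_fun ℂ).mp h1
  refine ⟨fun i => t (Fin.cast hd i), ?_⟩
  apply Subtype.ext
  rw [← ht]
  simp only [Submodule.coe_sum, Submodule.coe_smul]
  exact (Fintype.sum_equiv (finCongr hd) _ _ fun i => rfl).symm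

theorem subspace_theorem (P : Submodule ℂ (HP B))
    (hb : ∀ v ∈ P, v ∈ Submodule.span ℂ {u | u ∈ P ∧ ∀ j, (B j).IsBetti (u j)})
    (hd : ∀ v ∈ P, v ∈ Submodule.span ℂ {u | u ∈ P ∧ ∀ j, (B j).IsDeRham (u j)}) :
    (∀ p ∈ P, prP B p ∈ LatP B → perP B (prP B p) ∈ P) ∧
    ∀ p ∈ P, prP B p ∈ Submodule.span ℝ {l | l ∈ LatP B ∧ ∃ p' ∈ P, prP B p' = l} := by
  by_cases hPd : finrank ℂ P = 0
  · have hP0 : P = ⊥ := Submodule.finrank_eq_zero.mp hPd
    subst hP0
    constructor
    · intro p hp _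
      rw [Submodule.mem_bot] at hp
      subst hp
      have h1 : perP B (prP B 0) = perP B ((0 : ℕ) • (0 : LieP B)) := by simp
      rw [h1, perP_nsmul]
      simp
    · intro p hp
      rw [Submodule.mem_bot] at hp
      subst hp
      rw [map_zero]
      exact Submodule.zero_mem _
  have hdpos : 0 < finrank ℂ P := Nat.pos_of_ne_zero hPd
  obtain ⟨a, ha, hspan_a⟩ := exists_basis_of_span B P (fun u => ∀ j, (B j).IsDeRham (u j)) hd
  obtain ⟨b, hb', hspan_b⟩ := exists_basis_of_span B P (fun u => ∀ j, (B j).IsBetti (u j)) hb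
  choose N hN l hl hNl using fun i => betti_scale B (b i) (hb' i)
  set lam : Fin (finrank ℂ P) → P := fun i => (N i : ℂ) • b i with hlamdef
  have hlam : ∀ i, (lam i : HP B) = perP B (l i) := fun i => hNl i
  have hspan_l : ∀ v : P, ∃ c : Fin (finrank ℂ P) → ℂ, v = ∑ i, c i • lam i := by
    intro v
    obtain ⟨t, ht⟩ := hspan_b v
    refine ⟨fun i => t i / N i, ?_⟩
    rw [ht]
    apply Finset.sum_congr rfl
    intro i _
    rw [hlamdef, smul_smul, div_mul_cancel₀]
    exact_mod_cast hN i
  set pr : HP B →ₗ[ℂ] LieP B := (prP B).toLinearMap with hpr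
  set P₁ : Submodule ℂ (LieP B) := P.map pr with hP₁
  set K : Submodule ℂ (HP B) := P ⊓ LinearMap.ker pr with hK
  have hdim : finrank ℂ P₁ + finrank ℂ K = finrank ℂ P := finrank_map_add_inf_ker pr P
  have hKker : ∀ v ∈ K, prP B v = 0 := fun v hv => hv.2
  -- zero propagation, trivial cases
  have hZ1 : ∀ {ι : Type} [Fintype ι] (y : ι → IdxT B) (S : MvPolynomial ι ℂ),
      (∀ p ∈ P, hP B p ≠ 0 → eval (fun i => fP B (inlP B (y i)) p) S = 0) →
      ∀ z ∈ P₁, hP B (embP B z) ≠ 0 →
        eval (fun i => fP B (inlP B (y i)) (embP B z)) S = 0 := by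
    intro ι _ y S hS z hz hh
    obtain ⟨p, hp, rfl⟩ := hz
    have h1 : prP B (embP B (pr p)) = prP B p := prP_embP B _
    rw [hP_congr B h1] at hh
    simp only [fP_inl_congr B h1]
    exact hS p hp hh
  have hZ2 : ∀ {ι : Type} [Fintype ι] (y : ι → IdxP B) (R : MvPolynomial ι ℂ),
      (∀ p ∈ P, hP B p ≠ 0 → eval (fun i => fP B (y i) p) R = 0) →
      ∀ p ∈ P, hP B p ≠ 0 → ∀ v ∈ K, eval (fun i => fP B (y i) (p + v)) R = 0 := by
    intro ι _ y R hR p hp hh v hv
    apply hR _ (P.add_mem hp hv.1)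
    have h1 : prP B (p + v) = prP B p := by rw [map_add, hKker v hv, add_zero]
    rw [hP_congr B h1]
    exact hh
  have core := core_dim B P hdpos a ha hspan_a l (fun i => (mem_LatP B).mp (hl i)) lam hlam
    hspan_l
  obtain ⟨R, hR⟩ := exists_LatP_near B
  rcases density_dichotomy (LatP B) hR P₁ with hcase | ⟨w, hw, hcl⟩
  · constructor
    · intro p' hp' hpl
      by_contra hne
      set δ := perP B (prP B p') - p' with hδ
      have hδP : δ ∉ K := by
        intro h
        apply hne
        have h1 : perP B (prP B p') = δ + p' := by rw [hδ]; abel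
        rw [h1]
        exact P.add_mem h.1 hp'
      have hδker : prP B δ = 0 := by rw [hδ, map_sub, prP_perP, sub_self]
      apply core P₁ (K ⊔ Submodule.span ℂ {δ}) _ hZ1 _ _
      · intro v hv
        obtain ⟨k, hk, s', hs', rfl⟩ := Submodule.mem_sup.mp hv
        obtain ⟨s, rfl⟩ := Submodule.mem_span_singleton.mp hs'
        rw [map_add, map_smul, hKker k hk, hδker, smul_zero, add_zero]
      · intro ι _ y R hR p hp hh v hv
        obtain ⟨k, hk, s', hs', rfl⟩ := Submodule.mem_sup.mp hv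
        obtain ⟨s, rfl⟩ := Submodule.mem_span_singleton.mp hs'
        rw [← add_assoc]
        have h1 : prP B (p + k) = prP B p := by rw [map_add, hKker k hk, add_zero]
        exact propagate_fibre B P hpl hp' rfl y R hR (P.add_mem hp hk.1)
          (by rw [hP_congr B h1]; exact hh) s
      · rw [finrank_sup_singleton K hδP]
        omega
    · intro p hp
      have h1 := hcase (pr p) ⟨p, hp, rfl⟩
      refine Submodule.span_mono ?_ h1
      rintro l ⟨hl, p', hp', hp'l⟩
      exact ⟨hl, p', hp', hp'l⟩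
  · exfalso
    apply core (P₁ ⊔ Submodule.span ℂ {w}) K hKker _ hZ2 _
    · intro ι _ y S hS z hz hh
      obtain ⟨v, hv, s', hs', rfl⟩ := Submodule.mem_sup.mp hz
      obtain ⟨s, rfl⟩ := Submodule.mem_span_singleton.mp hs'
      exact propagate_lie B hcl y S (hZ1 y S hS) hv s hh
    · rw [finrank_sup_singleton P₁ hw]
      omega

end Pool.Agent.GPC
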