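import Mathlib
import Pool.Agent.Helper8.SubspaceThm
import Pool.Agent.Helper7.Periods

/-!
Consequences of the subspace theorem: linear maps respecting the Betti and the de Rham structures
respect the Hodge filtration; subspaces rational for both structures are sub-Hodge structures.
-/

open scoped ComplexConjugate
open Module

namespace Pool.Agent.GPC

open Pool.Agent.Helper7 (exists_bettiBasis isBetti_iff period_add)

lemma period_rsmul (A : AbVar) (r : ℝ) (l : Fin A.g → ℂ) :
    A.period (r • l) = r • A.period l := by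
  funext s
  rcases s with a | a
  · rfl
  · change A.eta (r • l) a = r • A.eta l a
    have h1 : r • l = (r : ℂ) • l := by funext j; simp
    rw [h1]
    unfold AbVar.eta
    rw [hermForm_smul_right, bilForm_smul_right, Complex.conj_ofReal, Complex.real_smul]
    ring

lemma span_betti (A : AbVar) (x : A.H1) : x ∈ Submodule.span ℂ {u | A.IsBetti u} := by
  obtain ⟨ι, _, b, hb⟩ := exists_bettiBasis A
  rw [← b.sum_repr x]
  refine Submodule.sum_mem _ fun i _ => Submodule.smul_mem _ _ (Submodule.subset_span ?_)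
  change A.IsBetti (b i)
  rw [isBetti_iff, ← hb]
  exact Submodule.subset_span ⟨i, rfl⟩

lemma span_deRham (A : AbVar) (x : A.H1) : x ∈ Submodule.span ℂ {u | A.IsDeRham u} := by
  have h1 : x = ∑ s, x s • (Pi.single s (1 : ℂ) : A.H1) := by
    funext j
    simp [Finset.sum_apply, Pi.single_apply]
  rw [h1]
  refine Submodule.sum_mem _ fun i _ => Submodule.smul_mem _ _ (Submodule.subset_span ?_)
  intro j
  by_cases hj : j = i
  · subst hj
    rw [Pi.single_eq_same]
    exact isAlgebraic_one
  · rw [Pi.single_eq_of_ne hj]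
    exact isAlgebraic_zero

lemma span_betti_of (A : AbVar) {W : Type*} [AddCommGroup W] [Module ℂ W] (g : A.H1 →ₗ[ℂ] W)
    (c : W → Prop) (hc : ∀ x, A.IsBetti x → c (g x)) (x : A.H1) :
    g x ∈ Submodule.span ℂ {u | u ∈ LinearMap.range g ∧ c u} := by
  have h1 := Submodule.mem_map_of_mem (f := g) (span_betti A x)
  rw [Submodule.map_span] at h1
  refine Submodule.span_mono ?_ h1
  rintro _ ⟨u, hu, rfl⟩
  exact ⟨⟨u, rfl⟩, hc u hu⟩

lemma span_deRham_of (A : AbVar) {W : Type*} [AddCommGroup W] [Module ℂ W] (g : A.H1 →ₗ[ℂ] W)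
    (c : W → Prop) (hc : ∀ x, A.IsDeRham x → c (g x)) (x : A.H1) :
    g x ∈ Submodule.span ℂ {u | u ∈ LinearMap.range g ∧ c u} := by
  have h1 := Submodule.mem_map_of_mem (f := g) (span_deRham A x)
  rw [Submodule.map_span] at h1
  refine Submodule.span_mono ?_ h1
  rintro _ ⟨u, hu, rfl⟩
  exact ⟨⟨u, rfl⟩, hc u hu⟩

/-- A linear map `H_1(A, ℂ) → H_1(B, ℂ)` which respects the Betti and the de Rham structures
respects the Hodge filtration. -/
theorem hom_fil (A B : AbVar) (f : A.H1 → B.H1) (hlin : IsLinearMap ℂ f)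
    (hb : ∀ v, A.IsBetti v → B.IsBetti (f v)) (hd : ∀ v, A.IsDeRham v → B.IsDeRham (f v)) :
    ∀ v, A.IsFil v → B.IsFil (f v) := by
  let C : Bool → AbVar := fun b => match b with
    | false => A
    | true => B
  let F : A.H1 →ₗ[ℂ] B.H1 := hlin.mk' f
  let g : A.H1 →ₗ[ℂ] HP C := LinearMap.pi fun b => match b with
    | false => LinearMap.id
    | true => F
  have hg0 : ∀ x, g x false = x := fun _ => rfl
  have hg1 : ∀ x, g x true = f x := fun _ => rfl
  set P : Submodule ℂ (HP C) := LinearMap.range g with hP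
  have hPb : ∀ v ∈ P, v ∈ Submodule.span ℂ {u | u ∈ P ∧ ∀ j, (C j).IsBetti (u j)} := by
    rintro _ ⟨x, rfl⟩
    apply span_betti_of A g (fun u => ∀ j, (C j).IsBetti (u j))
    intro x hx j
    rcases j with _ | _
    · exact hx
    · exact hb x hx
  have hPd : ∀ v ∈ P, v ∈ Submodule.span ℂ {u | u ∈ P ∧ ∀ j, (C j).IsDeRham (u j)} := by
    rintro _ ⟨x, rfl⟩
    apply span_deRham_of A g (fun u => ∀ j, (C j).IsDeRham (u j))
    intro x hx j
    rcases j with _ | _
    · exact hx
    · exact hd x hx
  obtain ⟨h1, h2⟩ := subspace_theorem C P hPb hPd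
  intro v hv
  have h3 := h2 (g v) ⟨v, rfl⟩
  have key : ∀ l ∈ Submodule.span ℝ {l | l ∈ LatP C ∧ ∃ p' ∈ P, prP C p' = l},
      B.zz (f (A.period (l false))) = l true := by
    intro l hl
    induction hl using Submodule.span_induction with
    | mem l hl =>
      obtain ⟨hlL, p', hp', hpl⟩ := hl
      have h4 := h1 p' hp' (by rw [hpl]; exact hlL)
      rw [hpl] at h4
      obtain ⟨x, hx⟩ := h4
      have h5 : x = A.period (l false) := by
        rw [← hg0 x, hx]; rfl
      have h6 : f x = B.period (l true) := by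
        rw [← hg1 x, hx]; rfl
      rw [← h5, h6]
      rfl
    | zero =>
      have h4 : A.period ((0 : LieP C) false) = 0 := by
        have := period_rsmul A 0 0
        rw [zero_smul, zero_smul] at this
        exact this
      rw [h4, hlin.map_zero, map_zero]
      rfl
    | add l m _ _ hl hm =>
      have h4 : A.period ((l + m) false) = A.period (l false) + A.period (m false) :=
        period_add A _ _
      rw [h4, hlin.map_add, map_add, hl, hm]
      rfl
    | smul r l _ hl =>
      have h4 : A.period ((r • l) false) = r • A.period (l false) := period_rsmul A r _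
      have h5 : r • A.period (l false) = (r : ℂ) • A.period (l false) := by
        funext j; simp
      rw [h4, h5, hlin.map_smul, map_smul, hl]
      funext a
      change (r : ℂ) * l true a = (r • l) true a
      simp
  have h4 := key _ h3
  have h5 : prP C (g v) false = 0 := by
    funext a
    exact hv a
  have h6 : prP C (g v) true = B.zz (f v) := rfl
  have h7 : A.period (0 : Fin A.g → ℂ) = 0 := by
    have := period_rsmul A 0 0
    rw [zero_smul, zero_smul] at this
    exact this
  intro a
  have h8 : A.period (prP C (g v) false) = 0 := by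
    rw [h5]; exact h7
  rw [h8, h6, hlin.map_zero, map_zero] at h4
  exact (congrFun h4 a).symm

/-- The Betti structure is a rational form. -/
lemma mem_of_mem_span_complex (A : AbVar) (U : Submodule ℚ A.H1) (hU : ∀ u ∈ U, A.IsBetti u)
    {x : A.H1} (hx : A.IsBetti x) (hxU : x ∈ Submodule.span ℂ (U : Set A.H1)) : x ∈ U := by
  obtain ⟨ι, _, b, hb⟩ := exists_bettiBasis A
  by_contra hne
  obtain ⟨φ, hφx, hφU⟩ := Submodule.exists_le_ker_of_notMem hne
  set Φ : A.H1 →ₗ[ℂ] ℂ := b.constr ℂ (fun i => ((φ (b i) : ℚ) : ℂ)) with hΦ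
  have h1 : ∀ y ∈ A.betti, Φ y = ((φ y : ℚ) : ℂ) := by
    intro y hy
    rw [← hb] at hy
    induction hy using Submodule.span_induction with
    | mem y hy =>
      obtain ⟨i, rfl⟩ := hy
      rw [hΦ, Basis.constr_basis]
    | zero => simp
    | add y z _ _ hy hz => rw [map_add, map_add, hy, hz]; push_cast; rfl
    | smul q y _ hy =>
      have h2 : q • y = (q : ℂ) • y := by
        funext j; simp [Algebra.smul_def]
      rw [map_smul φ, h2, map_smul, hy, smul_eq_mul, smul_eq_mul]
      push_cast; rfl
  have h2 : ∀ y ∈ Submodule.span ℂ (U : Set A.H1), Φ y = 0 := by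
    intro y hy
    induction hy using Submodule.span_induction with
    | mem y hy =>
      rw [h1 y ((isBetti_iff A y).mp (hU y hy)), LinearMap.mem_ker.mp (hφU hy), Rat.cast_zero]
    | zero => simp
    | add y z _ _ hy hz => rw [map_add, hy, hz, add_zero]
    | smul c y _ hy => rw [map_smul, hy, smul_zero]
  have h3 := h2 x hxU
  rw [h1 x ((isBetti_iff A x).mp hx)] at h3
  exact hφx (by exact_mod_cast h3)

/-- A rational subspace of the Betti structure whose complex span is rational for the de Rham
structure is a sub-Hodge structure. -/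
theorem sub_complex (A : AbVar) (U : Submodule ℚ A.H1) (hU : ∀ u ∈ U, A.IsBetti u)
    (hd : ∀ u ∈ U, u ∈ Submodule.span ℂ
      {v | A.IsDeRham v ∧ v ∈ Submodule.span ℂ (U : Set A.H1)}) :
    ∀ u ∈ Submodule.span ℝ (U : Set A.H1), ∃ u' ∈ Submodule.span ℝ (U : Set A.H1),
      ∀ a, u' (.inl a) = Complex.I * u (.inl a) := by
  let C : Unit → AbVar := fun _ => A
  let ev : HP C →ₗ[ℂ] A.H1 := LinearMap.proj ()
  let g : A.H1 →ₗ[ℂ] HP C := LinearMap.pi fun _ => LinearMap.id
  set P : Submodule ℂ (HP C) := (Submodule.span ℂ (U : Set A.H1)).map g with hP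
  have hmem : ∀ x, x ∈ Submodule.span ℂ (U : Set A.H1) → g x ∈ P := fun x hx => ⟨x, hx, rfl⟩
  have hmem' : ∀ w ∈ P, w () ∈ Submodule.span ℂ (U : Set A.H1) := by
    rintro _ ⟨x, hx, rfl⟩
    exact hx
  have hPb : ∀ v ∈ P, v ∈ Submodule.span ℂ {u | u ∈ P ∧ ∀ j, (C j).IsBetti (u j)} := by
    rintro _ ⟨x, hx, rfl⟩
    have h1 := Submodule.mem_map_of_mem (f := g) hx
    rw [Submodule.map_span] at h1
    refine Submodule.span_mono ?_ h1
    rintro _ ⟨u, hu, rfl⟩
    exact ⟨hmem u (Submodule.subset_span hu), fun _ => hU u hu⟩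
  have hspan : ∀ x ∈ Submodule.span ℂ (U : Set A.H1), x ∈ Submodule.span ℂ
      {v | A.IsDeRham v ∧ v ∈ Submodule.span ℂ (U : Set A.H1)} := by
    intro x hx
    exact (Submodule.span_le.mpr fun u hu => hd u hu) hx
  have hPd : ∀ v ∈ P, v ∈ Submodule.span ℂ {u | u ∈ P ∧ ∀ j, (C j).IsDeRham (u j)} := by
    rintro _ ⟨x, hx, rfl⟩
    have h1 := Submodule.mem_map_of_mem (f := g) (hspan x hx)
    rw [Submodule.map_span] at h1
    refine Submodule.span_mono ?_ h1
    rintro _ ⟨u, hu, rfl⟩
    exact ⟨hmem u hu.2, fun _ => hu.1⟩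
  obtain ⟨h1, h2⟩ := subspace_theorem C P hPb hPd
  have key : ∀ l ∈ Submodule.span ℝ {l | l ∈ LatP C ∧ ∃ p' ∈ P, prP C p' = l},
      A.period (l ()) ∈ Submodule.span ℝ (U : Set A.H1) := by
    intro l hl
    induction hl using Submodule.span_induction with
    | mem l hl =>
      obtain ⟨hlL, p', hp', hpl⟩ := hl
      have h4 := h1 p' hp' (by rw [hpl]; exact hlL)
      rw [hpl] at h4
      have h5 := hmem' _ h4
      apply Submodule.subset_span
      apply mem_of_mem_span_complex A U hU _ h5
      exact ⟨1, one_ne_zero, l (), (mem_LatP C).mp hlL (), by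
        rw [Nat.cast_one, one_smul]; rfl⟩
    | zero =>
      have h4 : A.period ((0 : LieP C) ()) = 0 := by
        have := period_rsmul A 0 0
        rw [zero_smul, zero_smul] at this
        exact this
      rw [h4]
      exact Submodule.zero_mem _
    | add l m _ _ hl hm =>
      have h4 : A.period ((l + m) ()) = A.period (l ()) + A.period (m ()) :=
        period_add A _ _
      rw [h4]
      exact Submodule.add_mem _ hl hm
    | smul r l _ hl =>
      have h4 : A.period ((r • l) ()) = r • A.period (l ()) := period_rsmul A r _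
      rw [h4]
      exact Submodule.smul_mem _ _ hl
  intro u hu
  have h3 : u ∈ Submodule.span ℂ (U : Set A.H1) := Submodule.span_subset_span ℝ ℂ _ hu
  have h4 := h2 (g (Complex.I • u)) (hmem _ (Submodule.smul_mem _ _ h3))
  refine ⟨_, key _ h4, fun a => rfl⟩

end Pool.Agent.GPC
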