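import Mathlib
import Pool.Agent.Helper8.HomFil
import Pool.Agent.Helper7.Eigen

/-!
Real multiplication: no line over the field of real multiplication is rational for the de Rham
structure.
-/

open scoped ComplexConjugate
open Module

namespace Pool.Agent.GPC

open Pool.Agent.Helper7 (bas dbas proj sum_proj rho_mul_proj rho_ratsmul proj_mul_proj)

lemma period_zero (A : AbVar) : A.period (0 : Fin A.g → ℂ) = 0 := by
  have := period_rsmul A 0 0
  rw [zero_smul, zero_smul] at this
  exact this

/-- the projection to the Lie algebra is injective on the real span of the Betti structure -/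
lemma real_span_betti (A : AbVar) {z : A.H1} (hz : z ∈ Submodule.span ℝ {u | A.IsBetti u}) :
    z = A.period (A.zz z) := by
  induction hz using Submodule.span_induction with
  | mem z hz =>
    obtain ⟨N, hN, l, hl, h⟩ := hz
    have hNC : (N : ℂ) ≠ 0 := Nat.cast_ne_zero.mpr hN
    have h1 : z = ((N : ℝ)⁻¹) • A.period l := by
      rw [← h]
      funext j
      rw [Pi.smul_apply, Pi.smul_apply, Complex.real_smul, smul_eq_mul]
      push_cast
      rw [inv_mul_cancel_left₀ hNC]
    rw [h1, ← period_rsmul]
    rfl
  | zero => rw [map_zero, period_zero]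
  | add x y _ _ hx hy =>
    rw [map_add, Pool.Agent.Helper7.period_add, ← hx, ← hy]
  | smul r x _ hx =>
    have h1 : A.zz (r • x) = r • A.zz x := rfl
    rw [h1, period_rsmul, ← hx]

theorem no_stable_line (A : AbVar) (F : Type) [Field F] [NumberField F]
    [NumberField.IsTotallyReal F] (rho : F →+* Module.End ℂ A.H1) (hrho : ∀ x, A.IsEnd (rho x))
    (w : A.H1) (hw : A.IsBetti w) (hw0 : w ≠ 0) :
    ¬ (Submodule.span ℂ (Set.range fun x => rho x w) ≤
      Submodule.span ℂ {v | A.IsDeRham v ∧ v ∈ Submodule.span ℂ (Set.range fun x => rho x w)}) := by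
  intro hd
  set φ : F →ₗ[ℚ] A.H1 := AddMonoidHom.toRatLinearMap
    { toFun := fun x => rho x w
      map_zero' := by rw [map_zero]; rfl
      map_add' := fun x y => by rw [map_add]; rfl } with hφ
  set U : Submodule ℚ A.H1 := LinearMap.range φ with hU
  have hUset : (U : Set A.H1) = Set.range fun x => rho x w := by
    ext v
    rfl
  have hUb : ∀ u ∈ U, A.IsBetti u := by
    rintro _ ⟨x, rfl⟩
    exact (hrho x).betti w hw
  have h1 := sub_complex A U hUb (by
    intro u hu
    rw [hUset]
    exact hd (Submodule.subset_span (by rw [← hUset]; exact hu)))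
  -- a non-zero component of `w`
  have hne : ∃ σ : F →+* ℂ, proj rho σ w ≠ 0 := by
    by_contra hall
    push Not at hall
    apply hw0
    have h2 : w = (∑ σ : F →+* ℂ, proj rho σ) w := by rw [sum_proj]; rfl
    rw [h2, LinearMap.sum_apply]
    exact Finset.sum_eq_zero fun σ _ => hall σ
  obtain ⟨σ, hσ⟩ := hne
  have hreal : ∀ x : F, conj (σ x) = σ x := by
    intro x
    have h2 : NumberField.ComplexEmbedding.IsReal σ :=
      NumberField.IsTotallyReal.complexEmbedding_isReal σ
    exact RingHom.congr_fun h2 x
  have hre : ∀ x : F, σ x = ((σ x).re : ℂ) := fun x => (Complex.conj_eq_iff_re.mp (hreal x)).symm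
  -- the projector in real coordinates
  have hprojw : ∀ v, proj rho σ v = ∑ b, (σ (dbas F b)).re • rho (bas F b) v := by
    intro v
    rw [proj, LinearMap.sum_apply]
    apply Finset.sum_congr rfl
    intro b _
    rw [LinearMap.smul_apply]
    conv_lhs => rw [hre (dbas F b)]
    funext j
    rw [Pi.smul_apply, Pi.smul_apply, Complex.real_smul, smul_eq_mul]
  set z := proj rho σ w with hz
  have hzU : z ∈ Submodule.span ℝ (U : Set A.H1) := by
    rw [hz, hprojw]
    refine Submodule.sum_mem _ fun b _ => Submodule.smul_mem _ _ (Submodule.subset_span ?_)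
    exact ⟨bas F b, rfl⟩
  obtain ⟨u', hu', hu'z⟩ := h1 z hzU
  -- the projector acts on the real span of `U` by real multiples of `z`
  have hc : ∀ u ∈ Submodule.span ℝ (U : Set A.H1), ∃ c : ℝ, proj rho σ u = (c : ℂ) • z := by
    intro u hu
    induction hu using Submodule.span_induction with
    | mem u hu =>
      obtain ⟨x, rfl⟩ := hu
      refine ⟨(σ x).re, ?_⟩
      have h2 : proj rho σ (rho x w) = (proj rho σ * rho x) w := rfl
      have h3 : proj rho σ * rho x = rho x * proj rho σ := by
        unfold proj
        rw [Finset.sum_mul, Finset.mul_sum]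
        apply Finset.sum_congr rfl
        intro b _
        rw [smul_mul_assoc, mul_smul_comm, ← map_mul, ← map_mul, mul_comm]
      have h4 : proj rho σ (φ x) = proj rho σ (rho x w) := rfl
      rw [h4, h2, h3, rho_mul_proj, ← hre x]
      rfl
    | zero => exact ⟨0, by rw [map_zero, Complex.ofReal_zero, zero_smul]⟩
    | add x y _ _ hx hy =>
      obtain ⟨c, hc⟩ := hx
      obtain ⟨c', hc'⟩ := hy
      refine ⟨c + c', ?_⟩
      rw [map_add, hc, hc', ← add_smul, Complex.ofReal_add]
    | smul r x _ hx =>
      obtain ⟨c, hc⟩ := hx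
      refine ⟨r * c, ?_⟩
      have h2 : r • x = (r : ℂ) • x := by funext j; simp
      rw [h2, map_smul, hc, smul_smul, Complex.ofReal_mul]
  obtain ⟨c, hcu⟩ := hc u' hu'
  -- the projector respects the Hodge filtration
  have hfil : ∀ v : A.H1, A.IsFil v → A.IsFil (proj rho σ v) := by
    intro v hv a
    rw [proj, LinearMap.sum_apply, Finset.sum_apply]
    apply Finset.sum_eq_zero
    intro b _
    rw [LinearMap.smul_apply, Pi.smul_apply, (hrho (bas F b)).hodge v hv a, smul_zero]
  have hzz : proj rho σ z = z := by
    classical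
    have h2 : proj rho σ z = (proj rho σ * proj rho σ) w := rfl
    rw [h2, proj_mul_proj, if_pos rfl]
  have h5 : A.IsFil (u' - Complex.I • z) := by
    intro a
    change u' (.inl a) - Complex.I * z (.inl a) = 0
    rw [hu'z a, sub_self]
  have h6 := hfil _ h5
  rw [map_sub, map_smul, hzz, hcu, ← sub_smul] at h6
  have h7 : ((c : ℂ) - Complex.I) ≠ 0 := by
    intro h
    have := congrArg Complex.im h
    simp at this
  have h8 : A.zz z = 0 := by
    funext a
    have h9 : ((c : ℂ) - Complex.I) * z (.inl a) = 0 := h6 a
    exact (mul_eq_zero.mp h9).resolve_left h7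
  have h9 : z ∈ Submodule.span ℝ {u | A.IsBetti u} :=
    (Submodule.span_mono fun u hu => hUb u hu) hzU
  have h10 := real_span_betti A h9
  rw [h8, period_zero] at h10
  exact hσ h10

end Pool.Agent.GPC
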