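import Mathlib

open Filter Topology

namespace Pool.Agent.GPC

/-- A line `ℂ v` which does not meet the lattice in a lattice is not closed modulo the lattice:
the closure of `ℂ v + Λ` contains a larger real space. -/
lemma exists_dense_direction {g : ℕ} (L : Submodule ℤ (Fin g → ℂ)) {R : ℝ}
    (hR : ∀ z : Fin g → ℂ, ∃ l ∈ L, ‖z - l‖ ≤ R) {v : Fin g → ℂ} (hv : v ≠ 0)
    {p : ℂ} (hp : p ≠ 0) (hB : ∀ s : ℂ, s • v ∈ L → ∃ r : ℝ, s = r * p) :
    ∃ w : Fin g → ℂ, (∀ s : ℂ, w ≠ s • v) ∧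
      ∀ (s : ℂ) (t : ℝ), s • v + (t : ℂ) • w ∈ closure {z | ∃ s' : ℂ, ∃ l ∈ L, z = s' • v + l} := by
  obtain ⟨a, ha⟩ : ∃ a, v a ≠ 0 := by
    by_contra h
    push Not at h
    exact hv (funext h)
  set pr : (Fin g → ℂ) → (Fin g → ℂ) := fun z => z - (z a / v a) • v with hpr
  have hpr_sub : ∀ z z', pr (z - z') = pr z - pr z' := by
    intro z z'
    simp only [hpr, Pi.sub_apply, sub_div, sub_smul]
    abel
  have hpr_smul : ∀ (c : ℂ) z, pr (c • z) = c • pr z := by
    intro c z
    simp only [hpr, Pi.smul_apply, smul_eq_mul, mul_div_assoc, smul_sub, smul_smul]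
  have hpr_v : ∀ s : ℂ, pr (s • v) = 0 := by
    intro s
    simp only [hpr, Pi.smul_apply, smul_eq_mul]
    rw [mul_div_assoc, div_self ha, mul_one, sub_self]
  have hpr_a : ∀ z, pr z a = 0 := by
    intro z
    simp only [hpr, Pi.sub_apply, Pi.smul_apply, smul_eq_mul]
    field_simp
    simp
  have hpr_eq : ∀ z, pr z = 0 → z = (z a / v a) • v := fun z hz => sub_eq_zero.mp hz
  set C : ℝ := 1 + ‖v‖ / ‖v a‖ with hC
  have hva : 0 < ‖v a‖ := norm_pos_iff.mpr ha
  have hvn : 0 < ‖v‖ := norm_pos_iff.mpr hv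
  have hCpos : 0 < C := by positivity
  have hpr_norm : ∀ z, ‖pr z‖ ≤ C * ‖z‖ := by
    intro z
    calc ‖pr z‖ ≤ ‖z‖ + ‖(z a / v a) • v‖ := norm_sub_le _ _
      _ = ‖z‖ + ‖z a‖ / ‖v a‖ * ‖v‖ := by rw [norm_smul, norm_div]
      _ ≤ ‖z‖ + ‖z‖ / ‖v a‖ * ‖v‖ := by gcongr; exact norm_le_pi_norm z a
      _ = C * ‖z‖ := by rw [hC]; ring
  have hpn : 0 < ‖p‖ := norm_pos_iff.mpr hp
  -- Step 1: short projections
  have step1 : ∀ ε > 0, ∃ m ∈ L, pr m ≠ 0 ∧ ‖pr m‖ < ε := by
    intro ε hε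
    choose l hlL hlR using hR
    set z : ℕ → (Fin g → ℂ) := fun n => ((n : ℂ) * Complex.I * p) • v with hz
    set y : ℕ → (Fin g → ℂ) := fun n => z n - l (z n) with hy
    have hyc : ∀ n, y n ∈ Metric.closedBall (0 : Fin g → ℂ) R := fun n => by
      simpa using hlR (z n)
    obtain ⟨y0, _, f, hf, hfy⟩ := (isCompact_closedBall (0 : Fin g → ℂ) R).tendsto_subseq hyc
    set ε' : ℝ := min (ε / C) (‖p‖ * ‖v‖) with hε'
    have hε'pos : 0 < ε' := lt_min (by positivity) (by positivity)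
    obtain ⟨N, hN⟩ := Metric.cauchySeq_iff.mp hfy.cauchySeq ε' hε'pos
    have hd := hN (N + 1) (by omega) N le_rfl
    rw [dist_eq_norm] at hd
    simp only [Function.comp_apply] at hd
    have hlt : f N < f (N + 1) := hf (by omega)
    set m := l (z (f (N + 1))) - l (z (f N)) with hm
    have hmz : m = (z (f (N + 1)) - z (f N)) - (y (f (N + 1)) - y (f N)) := by
      simp only [hm, hy]; abel
    have hzz : z (f (N + 1)) - z (f N) = (((f (N + 1) : ℂ) - f N) * Complex.I * p) • v := by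
      simp only [hz]
      rw [← sub_smul]; congr 1; ring
    have hprm : pr m = - pr (y (f (N + 1)) - y (f N)) := by
      rw [hmz, hpr_sub, hzz, hpr_v, zero_sub]
    refine ⟨m, L.sub_mem (hlL _) (hlL _), ?_, ?_⟩
    · intro h0
      have h1 := hpr_eq m h0
      obtain ⟨r, hr⟩ := hB (m a / v a) (by
        rw [← h1]; exact L.sub_mem (hlL _) (hlL _))
      have h2 : y (f (N + 1)) - y (f N) =
          ((((f (N + 1) : ℂ) - f N) * Complex.I - r) * p) • v := by
        have h3 : y (f (N + 1)) - y (f N) = (z (f (N + 1)) - z (f N)) - m := by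
          rw [hmz]; abel
        rw [h3, hzz]
        conv_lhs => rw [h1, hr]
        rw [← sub_smul]; congr 1; ring
      rw [h2, norm_smul, norm_mul] at hd
      have h4 : (1 : ℝ) ≤ ‖((f (N + 1) : ℂ) - f N) * Complex.I - r‖ := by
        have h5 : (((f (N + 1) : ℂ) - f N) * Complex.I - r).im = (f (N + 1) : ℝ) - f N := by
          simp
        have h6 : (1 : ℝ) ≤ (f (N + 1) : ℝ) - f N := by
          have : (f N : ℝ) + 1 ≤ f (N + 1) := by exact_mod_cast hlt
          linarith
        calc (1 : ℝ) ≤ |(((f (N + 1) : ℂ) - f N) * Complex.I - r).im| := by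
              rw [h5]; exact h6.trans (le_abs_self _)
          _ ≤ _ := Complex.abs_im_le_norm _
      have h7 : ‖p‖ * ‖v‖ ≤ ‖((f (N + 1) : ℂ) - f N) * Complex.I - r‖ * ‖p‖ * ‖v‖ := by
        have := mul_le_mul_of_nonneg_right h4 (mul_pos hpn hvn).le
        nlinarith
      have h8 : ε' ≤ ‖p‖ * ‖v‖ := min_le_right _ _
      linarith
    · rw [hprm, norm_neg]
      calc ‖pr (y (f (N + 1)) - y (f N))‖ ≤ C * ‖y (f (N + 1)) - y (f N)‖ := hpr_norm _
        _ < C * ε' := by gcongr
        _ ≤ C * (ε / C) := by gcongr; exact min_le_left _ _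
        _ = ε := by field_simp
  -- Step 2
  have hseq : ∀ k : ℕ, ∃ m ∈ L, pr m ≠ 0 ∧ ‖pr m‖ < 1 / ((k : ℝ) + 1) := fun k =>
    step1 _ (by positivity)
  choose m hmL hm0 hmlt using hseq
  set d : ℕ → ℝ := fun k => ‖pr (m k)‖ with hd
  have hdpos : ∀ k, 0 < d k := fun k => norm_pos_iff.mpr (hm0 k)
  set e : ℕ → (Fin g → ℂ) := fun k => ((d k : ℂ)⁻¹) • pr (m k) with he
  have hes : ∀ k, e k ∈ Metric.sphere (0 : Fin g → ℂ) 1 := by
    intro k
    rw [mem_sphere_zero_iff_norm, he]
    simp only [norm_smul, norm_inv, Complex.norm_real]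
    rw [Real.norm_of_nonneg (hdpos k).le]
    exact inv_mul_cancel₀ (hdpos k).ne'
  obtain ⟨w, hw, f, hf, hfw⟩ := (isCompact_sphere (0 : Fin g → ℂ) 1).tendsto_subseq hes
  have hwa : w a = 0 := by
    have h1 : Tendsto (fun k => (e ∘ f) k a) atTop (𝓝 (w a)) :=
      ((continuous_apply a).tendsto w).comp hfw
    have h2 : (fun k => (e ∘ f) k a) = fun _ => 0 := by
      funext k
      simp [he, hpr_a]
    rw [h2] at h1
    exact (tendsto_nhds_unique h1 tendsto_const_nhds)
  refine ⟨w, ?_, ?_⟩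
  · intro s hs
    have h1 : s * v a = 0 := by
      have := congrFun hs a
      rw [hwa] at this
      simpa using this.symm
    have h2 : s = 0 := (mul_eq_zero.mp h1).resolve_right ha
    rw [h2, zero_smul] at hs
    rw [mem_sphere_zero_iff_norm, hs, norm_zero] at hw
    exact zero_ne_one hw
  · intro s t
    have hd0 : Tendsto (fun k => d (f k)) atTop (𝓝 0) := by
      have h1 : Tendsto (fun k : ℕ => 1 / ((k : ℝ) + 1)) atTop (𝓝 0) :=
        tendsto_one_div_add_atTop_nhds_zero_nat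
      have h2 := h1.comp hf.tendsto_atTop
      exact squeeze_zero (fun k => (hdpos _).le) (fun k => (hmlt (f k)).le) h2
    set n : ℕ → ℤ := fun k => round (t / d (f k)) with hn
    have hnt : Tendsto (fun k => (n k : ℝ) * d (f k)) atTop (𝓝 t) := by
      have h1 : ∀ k, |(n k : ℝ) * d (f k) - t| ≤ d (f k) := by
        intro k
        have h2 := abs_sub_round (t / d (f k))
        have h3 : (n k : ℝ) * d (f k) - t = -((t / d (f k)) - n k) * d (f k) := by
          have := (hdpos (f k)).ne'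
          field_simp
          ring
        rw [h3, abs_mul, abs_neg, abs_of_pos (hdpos (f k))]
        have h4 := hdpos (f k)
        nlinarith
      rw [tendsto_iff_dist_tendsto_zero]
      exact squeeze_zero (fun _ => dist_nonneg) h1 hd0
    have hlim : Tendsto (fun k => s • v + ((n k : ℂ)) • pr (m (f k))) atTop
        (𝓝 (s • v + (t : ℂ) • w)) := by
      have h1 : ∀ k, ((n k : ℂ)) • pr (m (f k)) = (((n k : ℝ) * d (f k) : ℝ) : ℂ) • e (f k) := by
        intro k
        have h2 : ((d (f k) : ℝ) : ℂ) ≠ 0 := by exact_mod_cast (hdpos (f k)).ne'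
        simp only [he, smul_smul]
        congr 1
        push_cast
        field_simp
      have h3 : Tendsto (fun k => (((n k : ℝ) * d (f k) : ℝ) : ℂ)) atTop (𝓝 (t : ℂ)) :=
        (Complex.continuous_ofReal.tendsto t).comp hnt
      have h4 := h3.smul hfw
      have h5 := h4.const_add (s • v)
      refine h5.congr fun k => ?_
      rw [h1 k]; rfl
    refine mem_closure_of_tendsto hlim (Eventually.of_forall fun k => ?_)
    refine ⟨s - (n k : ℂ) * (m (f k) a / v a), n k • m (f k), L.smul_mem _ (hmL _), ?_⟩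
    simp only [hpr, smul_sub, sub_smul, smul_smul]
    have : (n k : ℂ) • m (f k) = n k • m (f k) := by
      rw [Int.cast_smul_eq_zsmul]
    rw [this]
    abel

end Pool.Agent.GPC
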