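import Mathlib
import Pool.Agent.Helper8.Line
import Pool.Agent.Helper8.Density

open scoped ComplexConjugate
open Filter Topology

namespace Pool.Agent.GPC

/-- a polynomial in one variable with infinitely many zeros vanishes. -/
lemma coeff_zero_of_infinite {N : ℕ} (c : Fin N → ℂ)
    (h : {x : ℂ | ∑ p, c p * x ^ (p : ℕ) = 0}.Infinite) : c = 0 := by
  classical
  set R : Polynomial ℂ := ∑ p : Fin N, Polynomial.C (c p) * Polynomial.X ^ (p : ℕ) with hR
  have hR0 : R = 0 := by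
    apply Polynomial.eq_zero_of_infinite_isRoot
    refine h.mono ?_
    intro x hx
    simp only [Set.mem_setOf_eq, Polynomial.IsRoot, hR, Polynomial.eval_finset_sum,
      Polynomial.eval_mul, Polynomial.eval_C, Polynomial.eval_pow, Polynomial.eval_X] at *
    exact hx
  funext p
  have h1 : R.coeff p = c p := by
    rw [hR, Polynomial.finset_sum_coeff, Finset.sum_eq_single p]
    · simp
    · intro q _ hq
      simp only [Polynomial.coeff_C_mul, Polynomial.coeff_X_pow]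
      rw [if_neg (fun h => hq (Fin.ext h.symm)), mul_zero]
    · simp
  rw [← h1, hR0]
  simp

lemma sum_prod_eq {N : ℕ} (c : Fin N × Fin N → ℂ) (x y : ℂ) :
    ∑ pq, c pq * (x ^ (pq.1 : ℕ) * y ^ (pq.2 : ℕ)) =
      ∑ q, (∑ p, c (p, q) * x ^ (p : ℕ)) * y ^ (q : ℕ) := by
  rw [Fintype.sum_prod_type_right]
  apply Finset.sum_congr rfl
  intro q _
  rw [Finset.sum_mul]
  exact Finset.sum_congr rfl fun p _ => by ring

/-- a polynomial in two variables vanishing near a point vanishes. -/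
lemma coeff_zero_of_eventually {N : ℕ} (c : Fin N × Fin N → ℂ) (y0 : ℂ × ℂ)
    (h : ∀ᶠ y : ℂ × ℂ in 𝓝 y0, ∑ pq, c pq * (y.1 ^ (pq.1 : ℕ) * y.2 ^ (pq.2 : ℕ)) = 0) :
    c = 0 := by
  have hinf : ∀ {P : ℂ → Prop} {x : ℂ}, (∀ᶠ y in 𝓝 x, P y) → {y | P y}.Infinite := by
    intro P x hP
    exact infinite_of_mem_nhds x hP
  have h1 : ∀ᶠ y1 : ℂ in 𝓝 y0.1, ∀ᶠ y2 : ℂ in 𝓝 y0.2,
      ∑ pq, c pq * (y1 ^ (pq.1 : ℕ) * y2 ^ (pq.2 : ℕ)) = 0 := by
    have h2 := h
    rw [← Prod.mk.eta (p := y0), nhds_prod_eq] at h2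
    exact h2.curry
  have h3 : ∀ᶠ y1 : ℂ in 𝓝 y0.1, ∀ q, ∑ p, c (p, q) * y1 ^ (p : ℕ) = 0 := by
    filter_upwards [h1] with y1 hy1
    have h4 := coeff_zero_of_infinite (fun q => ∑ p, c (p, q) * y1 ^ (p : ℕ)) (by
      refine (hinf hy1).mono ?_
      intro y2 hy2
      simp only [Set.mem_setOf_eq] at *
      rw [← sum_prod_eq]
      exact hy2)
    intro q
    exact congrFun h4 q
  funext pq
  have h5 := coeff_zero_of_infinite (fun p => c (p, pq.2)) (by
    refine (hinf h3).mono ?_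
    intro y1 hy1
    exact hy1 pq.2)
  exact congrFun h5 pq.1

namespace AbVar

variable (A : AbVar)

/-- some coordinate function has a nonzero derivative along `v`. -/
lemma exists_deriv_ne {v : Fin A.g → ℂ} (hv : v ≠ 0) (i0 : Fin (A.N + 1))
    (hi0 : A.θ i0 0 ≠ 0) :
    ∃ j, A.θ i0 0 * fderiv ℂ (A.θ j) 0 v - A.θ j 0 * fderiv ℂ (A.θ i0) 0 v ≠ 0 := by
  by_contra h
  push Not at h
  apply hv
  apply A.immersive 0 v
  intro i j
  have h1 := h i
  have h2 := h j
  have h3 : A.θ i0 0 * (A.θ i 0 * fderiv ℂ (A.θ j) 0 v - A.θ j 0 * fderiv ℂ (A.θ i) 0 v) = 0 := by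
    linear_combination (A.θ i 0) * h2 - (A.θ j 0) * h1
  have h4 := (mul_eq_zero.mp h3).resolve_left hi0
  linear_combination h4

lemma mult_ne_zero {l : Fin A.g → ℂ} (hl : l ∈ A.Λ) (v : Fin A.g → ℂ) (s : ℂ) :
    A.mult v l s ≠ 0 := by
  unfold mult
  apply mul_ne_zero
  · intro h
    have := A.χ_norm l hl
    rw [h, norm_zero] at this
    exact zero_ne_one this
  · exact Complex.exp_ne_zero _

lemma hermForm_ne_zero {v : Fin A.g → ℂ} (hv : v ≠ 0) : hermForm A.H v v ≠ 0 := by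
  intro h
  have := A.H_pos v hv
  rw [h] at this
  simp at this

/-- the derivative of a coordinate function along a line -/
lemma hasStrictDerivAt_coord (v : Fin A.g → ℂ) (i0 j : Fin (A.N + 1)) (hi0 : A.θ i0 0 ≠ 0) :
    HasStrictDerivAt (fun s => A.T v j s / A.T v i0 s)
      ((A.θ i0 0 * fderiv ℂ (A.θ j) 0 v - A.θ j 0 * fderiv ℂ (A.θ i0) 0 v) / A.θ i0 0 ^ 2) 0 := by
  have hT : ∀ k, HasStrictDerivAt (A.T v k) (fderiv ℂ (A.θ k) 0 v) 0 := by
    intro k
    have h1 : HasStrictFDerivAt (A.θ k) (fderiv ℂ (A.θ k) ((0 : ℂ) • v)) ((0 : ℂ) • v) :=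
      ((A.entire k) _ (Set.mem_univ _)).hasStrictFDerivAt
    have h2 : HasStrictDerivAt (fun s : ℂ => s • v) v 0 := by
      simpa using (hasStrictDerivAt_id (0 : ℂ)).smul_const v
    have h3 := h1.comp_hasStrictDerivAt (0 : ℂ) h2
    rw [zero_smul] at h3
    exact h3
  have hT0 : ∀ k, A.T v k 0 = A.θ k 0 := fun k => by unfold T; rw [zero_smul]
  have h := (hT j).div (hT i0) (by rw [hT0]; exact hi0)
  refine h.congr_deriv ?_
  rw [hT0, hT0]
  ring

/-- Case A: the line meets the lattice in a lattice (an elliptic curve). -/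
lemma caseA {v v' l : Fin A.g → ℂ} (hv0 : v ≠ 0) (hl : l ∈ A.Λ) {w : ℂ} (hw : w ≠ 0)
    (hlv : l = w • v)
    (hv : ∀ a, IsAlgebraic ℚ (v a)) (hv' : ∀ a, IsAlgebraic ℚ (v' a))
    (hη : ∀ a, A.eta l a = w * v' a) {s0 : ℂ} (hs0 : s0 • v ∈ A.Λ)
    (hs0w : ¬ ∃ r : ℝ, s0 = r * w) : False := by
  classical
  obtain ⟨i0, hi0⟩ := A.base_free 0
  obtain ⟨j, hj⟩ := A.exists_deriv_ne hv0 i0 hi0
  set c : ℂ := ∑ a, v a * v' a with hc
  obtain ⟨N, cf, hcf, hdep⟩ := A.line_dep hl hw hlv hv hv' hη i0 hi0 (some j) none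
  rw [← hc] at hdep
  set l' := s0 • v with hl'
  set c' : ℂ := (∑ a, v a * A.eta l' a) - c * s0 with hc'
  have hHv := A.hermForm_ne_zero hv0
  have hc'0 : c' ≠ 0 := by
    have h1 : (∑ a, v a * A.eta l' a) =
        Real.pi * (conj s0 * hermForm A.H v v) + s0 * bilForm A.q v v := by
      rw [← A.eta_sum, hl', hermForm_smul_right, bilForm_smul_right]
    have h2 : c * w = Real.pi * (conj w * hermForm A.H v v) + w * bilForm A.q v v := by
      have h3 : c * w = ∑ a, v a * A.eta l a := by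
        rw [hc, Finset.sum_mul]
        exact Finset.sum_congr rfl fun a _ => by rw [hη a]; ring
      rw [h3, ← A.eta_sum, hlv, hermForm_smul_right, bilForm_smul_right]
    intro h0
    have h4 : c' * w = Real.pi * hermForm A.H v v * (conj s0 * w - s0 * conj w) := by
      rw [hc', h1]
      linear_combination (- s0) * h2
    rw [h0, zero_mul] at h4
    have h5 : conj s0 * w - s0 * conj w = 0 := by
      rcases mul_eq_zero.mp h4.symm with h | h
      · exfalso
        rcases mul_eq_zero.mp h with h | h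
        · exact Real.pi_ne_zero (by exact_mod_cast h)
        · exact hHv h
      · exact h
    apply hs0w
    have hcw : conj w ≠ 0 := by simpa using hw
    have h6 : conj (s0 / w) = s0 / w := by
      rw [map_div₀, div_eq_div_iff hcw hw]
      linear_combination h5
    obtain ⟨r, hr⟩ := Complex.conj_eq_iff_real.mp h6
    exact ⟨r, by rw [← hr]; field_simp⟩
  -- translates
  have hT : ∀ (k : ℕ) (z : ℂ), A.T v i0 z ≠ 0 → A.T v i0 (z + k * s0) ≠ 0 ∧
      A.U v i0 c (some j) (z + k * s0) / A.T v i0 (z + k * s0) =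
        A.U v i0 c (some j) z / A.T v i0 z ∧
      A.U v i0 c none (z + k * s0) / A.T v i0 (z + k * s0) =
        A.U v i0 c none z / A.T v i0 z + k * c' := by
    intro k z hz
    induction k with
    | zero => simp [hz]
    | succ k ih =>
      obtain ⟨ih1, ih2, ih3⟩ := ih
      have h0 : z + ((k + 1 : ℕ) : ℂ) * s0 = (z + k * s0) + s0 := by push_cast; ring
      rw [h0]
      set y := z + k * s0 with hy
      have hm := A.mult_ne_zero hs0 v y
      have h1 := A.T_add hs0 hl'.symm i0 y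
      have h2 := A.T_add hs0 hl'.symm j y
      have h3 := A.T_deriv_add hs0 hl'.symm i0 y
      refine ⟨?_, ?_, ?_⟩
      · rw [h1]; exact mul_ne_zero hm ih1
      · rw [← ih2]
        simp only [U]
        rw [h1, h2, mul_div_mul_left _ _ hm]
      · have h4 : A.U v i0 c none (y + s0) / A.T v i0 (y + s0) =
            A.U v i0 c none y / A.T v i0 y + c' := by
          simp only [U]
          rw [h1, h3, hc']
          field_simp
          ring
        rw [h4, ih3]
        push_cast; ring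
  -- the polynomial relation in one variable
  have hq : ∀ z, A.T v i0 z ≠ 0 → ∀ q, ∑ p, cf (p, q) * (A.T v j z / A.T v i0 z) ^ (p : ℕ) = 0 := by
    intro z hz
    have h1 := coeff_zero_of_infinite
      (fun q => ∑ p, cf (p, q) * (A.T v j z / A.T v i0 z) ^ (p : ℕ)) (by
        have h2 : Function.Injective (fun k : ℕ => A.U v i0 c none z / A.T v i0 z + k * c') := by
          intro k k' hkk
          simp only [add_right_inj] at hkk
          exact_mod_cast mul_right_cancel₀ hc'0 hkk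
        refine (Set.infinite_range_of_injective h2).mono ?_
        rintro _ ⟨k, rfl⟩
        simp only [Set.mem_setOf_eq]
        obtain ⟨h3, h4, h5⟩ := hT k z hz
        have h6 := hdep (z + k * s0) h3
        rw [h4, h5, sum_prod_eq] at h6
        exact h6)
    intro q
    exact congrFun h1 q
  apply hcf
  have hT0 : ∀ᶠ z in 𝓝 (0 : ℂ), A.T v i0 z ≠ 0 := by
    have h1 : A.T v i0 0 ≠ 0 := by unfold T; rw [zero_smul]; exact hi0
    exact ((A.T_differentiable v i0).continuous.continuousAt).eventually_ne h1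
  funext pq
  have hstr := A.hasStrictDerivAt_coord v i0 j hi0
  have hmap := hstr.map_nhds_eq (div_ne_zero hj (pow_ne_zero 2 hi0))
  have h1 := coeff_zero_of_infinite (fun p => cf (p, pq.2)) (by
    refine (infinite_of_mem_nhds (A.T v j 0 / A.T v i0 0) ?_)
    rw [← hmap, Filter.mem_map]
    filter_upwards [hT0] with z hz
    exact hq z hz pq.2)
  exact congrFun h1 pq.1

/-- two coordinate functions which are independent on the plane spanned by `v`, `d`. -/
lemma exists_jacobian_ne {v d : Fin A.g → ℂ} (hv : v ≠ 0) (hd : ∀ s : ℂ, d ≠ s • v)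
    (i0 : Fin (A.N + 1)) (hi0 : A.θ i0 0 ≠ 0) :
    ∃ i j, (A.θ i0 0 * fderiv ℂ (A.θ i) 0 v - A.θ i 0 * fderiv ℂ (A.θ i0) 0 v) *
        (A.θ i0 0 * fderiv ℂ (A.θ j) 0 d - A.θ j 0 * fderiv ℂ (A.θ i0) 0 d) -
      (A.θ i0 0 * fderiv ℂ (A.θ i) 0 d - A.θ i 0 * fderiv ℂ (A.θ i0) 0 d) *
        (A.θ i0 0 * fderiv ℂ (A.θ j) 0 v - A.θ j 0 * fderiv ℂ (A.θ i0) 0 v) ≠ 0 := by
  obtain ⟨i, hi⟩ := A.exists_deriv_ne hv i0 hi0
  set μ : ℂ := (A.θ i0 0 * fderiv ℂ (A.θ i) 0 d - A.θ i 0 * fderiv ℂ (A.θ i0) 0 d) /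
    (A.θ i0 0 * fderiv ℂ (A.θ i) 0 v - A.θ i 0 * fderiv ℂ (A.θ i0) 0 v) with hμ
  have hu : d - μ • v ≠ 0 := by
    intro h
    exact hd μ (sub_eq_zero.mp h)
  obtain ⟨j, hj⟩ := A.exists_deriv_ne hu i0 hi0
  refine ⟨i, j, ?_⟩
  intro h
  apply hj
  simp only [map_sub, map_smul, smul_eq_mul]
  have h1 : μ * (A.θ i0 0 * fderiv ℂ (A.θ i) 0 v - A.θ i 0 * fderiv ℂ (A.θ i0) 0 v) =
      (A.θ i0 0 * fderiv ℂ (A.θ i) 0 d - A.θ i 0 * fderiv ℂ (A.θ i0) 0 d) := by
    rw [hμ]; field_simp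
  have h2 := mul_left_cancel₀ hi (a := (A.θ i0 0 * fderiv ℂ (A.θ i) 0 v -
      A.θ i 0 * fderiv ℂ (A.θ i0) 0 v))
    (b := A.θ i0 0 * (fderiv ℂ (A.θ j) 0 d - μ * fderiv ℂ (A.θ j) 0 v) -
      A.θ j 0 * (fderiv ℂ (A.θ i0) 0 d - μ * fderiv ℂ (A.θ i0) 0 v)) (c := 0)
  apply h2
  rw [mul_zero]
  linear_combination h - (A.θ i0 0 * fderiv ℂ (A.θ j) 0 v - A.θ j 0 * fderiv ℂ (A.θ i0) 0 v) * h1

/-- Case B: the line does not meet the lattice in a lattice. -/
lemma caseB {v v' l : Fin A.g → ℂ} (hv0 : v ≠ 0) (hl : l ∈ A.Λ) {w : ℂ} (hw : w ≠ 0)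
    (hlv : l = w • v)
    (hv : ∀ a, IsAlgebraic ℚ (v a)) (hv' : ∀ a, IsAlgebraic ℚ (v' a))
    (hη : ∀ a, A.eta l a = w * v' a)
    (hB : ∀ s : ℂ, s • v ∈ A.Λ → ∃ r : ℝ, s = r * w) : False := by
  classical
  obtain ⟨i0, hi0⟩ := A.base_free 0
  obtain ⟨R, _, hR⟩ := A.exists_lattice_near
  obtain ⟨d, hd, hdense⟩ := exists_dense_direction A.Λ hR hv0 hw hB
  obtain ⟨i, j, hij⟩ := A.exists_jacobian_ne hv0 hd i0 hi0
  obtain ⟨N, cf, hcf, hdep⟩ := A.line_dep hl hw hlv hv hv' hη i0 hi0 (some i) (some j)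
  apply hcf
  -- the entire function which vanishes on the line
  set G : (Fin A.g → ℂ) → ℂ := fun z => ∑ pq : Fin N × Fin N, cf pq *
    (A.θ i z ^ (pq.1 : ℕ) * A.θ j z ^ (pq.2 : ℕ) *
      A.θ i0 z ^ (2 * N - (pq.1 : ℕ) - (pq.2 : ℕ))) with hG
  have hGan : AnalyticOnNhd ℂ G Set.univ := by
    intro z hz
    have h1 := A.entire i z hz
    have h2 := A.entire j z hz
    have h3 := A.entire i0 z hz
    rw [hG]
    apply Finset.analyticAt_fun_sum
    intro pq _
    exact analyticAt_const.mul (((h1.pow _).mul (h2.pow _)).mul (h3.pow _))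
  have hGeq : ∀ z, A.θ i0 z ≠ 0 → G z = A.θ i0 z ^ (2 * N) *
      ∑ pq, cf pq * ((A.θ i z / A.θ i0 z) ^ (pq.1 : ℕ) * (A.θ j z / A.θ i0 z) ^ (pq.2 : ℕ)) := by
    intro z hz
    simp only [hG]
    rw [Finset.mul_sum]
    apply Finset.sum_congr rfl
    intro pq _
    have h1 : 2 * N = (2 * N - (pq.1 : ℕ) - (pq.2 : ℕ)) + (pq.1 : ℕ) + (pq.2 : ℕ) := by
      have := pq.1.2
      have := pq.2.2
      omega
    conv_rhs => rw [h1, pow_add, pow_add, div_pow, div_pow]
    field_simp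
  have hGline : ∀ s : ℂ, G (s • v) = 0 := by
    intro s
    by_cases hs : A.θ i0 (s • v) = 0
    · simp only [hG]
      apply Finset.sum_eq_zero
      intro pq _
      rw [hs, zero_pow, mul_zero, mul_zero]
      have := pq.1.2
      have := pq.2.2
      omega
    · rw [hGeq _ hs]
      have h1 := hdep s hs
      simp only [U, T] at h1
      rw [h1, mul_zero]
  have hGper : ∀ m ∈ A.Λ, ∀ z, ∃ e : ℂ, G (z + m) = e * G z := by
    intro m hm z
    refine ⟨(A.χ m * Complex.exp (Real.pi * hermForm A.H z m + Real.pi / 2 * hermForm A.H m m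
      + bilForm A.q z m + 1 / 2 * bilForm A.q m m)) ^ (2 * N), ?_⟩
    simp only [hG]
    rw [A.quasi i m hm z, A.quasi j m hm z, A.quasi i0 m hm z, Finset.mul_sum]
    apply Finset.sum_congr rfl
    intro pq _
    have h1 : 2 * N = (2 * N - (pq.1 : ℕ) - (pq.2 : ℕ)) + (pq.1 : ℕ) + (pq.2 : ℕ) := by
      have := pq.1.2
      have := pq.2.2
      omega
    conv_rhs => rw [h1, pow_add, pow_add]
    have h2 : 2 * N - (pq.1 : ℕ) - (pq.2 : ℕ) + (pq.1 : ℕ) + (pq.2 : ℕ) - (pq.1 : ℕ) - (pq.2 : ℕ)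
      = 2 * N - (pq.1 : ℕ) - (pq.2 : ℕ) := by rw [← h1]
    simp only [mul_pow, h2]
    ring
  have hGcl : ∀ z ∈ closure {z | ∃ s' : ℂ, ∃ l ∈ A.Λ, z = s' • v + l}, G z = 0 := by
    have hcont : Continuous G := by
      rw [← continuousOn_univ]
      exact hGan.continuousOn
    have hclosed : IsClosed {z | G z = 0} := isClosed_eq hcont continuous_const
    have h1 : {z | ∃ s' : ℂ, ∃ l ∈ A.Λ, z = s' • v + l} ⊆ {z | G z = 0} := by
      rintro z ⟨s', m, hm, rfl⟩
      obtain ⟨e, he⟩ := hGper m hm (s' • v)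
      simp only [Set.mem_setOf_eq]
      rw [he, hGline, mul_zero]
    exact fun z hz => (closure_minimal h1 hclosed) hz
  have hGplane : ∀ s τ : ℂ, G (s • v + τ • d) = 0 := by
    intro s
    have h1 : AnalyticOnNhd ℂ (fun τ : ℂ => G (s • v + τ • d)) Set.univ := by
      intro τ _
      have h2 : AnalyticAt ℂ (fun τ : ℂ => s • v + τ • d) τ := by
        have : Differentiable ℂ (fun τ : ℂ => s • v + τ • d) := by fun_prop
        exact this.analyticAt τ
      exact (hGan _ (Set.mem_univ _)).comp h2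
    have h2 : ∃ᶠ τ in 𝓝[≠] (0 : ℂ), G (s • v + τ • d) = 0 := by
      have h3 : Tendsto (fun n : ℕ => (((1 : ℝ) / ((n : ℝ) + 1) : ℝ) : ℂ)) atTop (𝓝[≠] 0) := by
        rw [tendsto_nhdsWithin_iff]
        constructor
        · have h4 : Tendsto (fun n : ℕ => 1 / ((n : ℝ) + 1)) atTop (𝓝 0) :=
            tendsto_one_div_add_atTop_nhds_zero_nat
          have h5 := (Complex.continuous_ofReal.tendsto 0).comp h4
          rw [Complex.ofReal_zero] at h5
          exact h5
        · refine Eventually.of_forall fun n => ?_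
          simp only [Set.mem_compl_iff, Set.mem_singleton_iff, Complex.ofReal_eq_zero]
          positivity
      refine h3.frequently (Eventually.frequently (Eventually.of_forall fun n => ?_))
      exact hGcl _ (hdense s _)
    have h3 := h1.eqOn_zero_of_preconnected_of_frequently_eq_zero isPreconnected_univ
      (Set.mem_univ 0) h2
    intro τ
    exact h3 (Set.mem_univ τ)
  -- local independence
  set ψ : ℂ × ℂ →L[ℂ] (Fin A.g → ℂ) := (ContinuousLinearMap.fst ℂ ℂ ℂ).smulRight v +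
    (ContinuousLinearMap.snd ℂ ℂ ℂ).smulRight d with hψ
  have hψ_apply : ∀ y : ℂ × ℂ, ψ y = y.1 • v + y.2 • d := fun y => by simp [hψ]
  have hX : ∀ k, HasStrictFDerivAt (fun z => A.θ k z / A.θ i0 z)
      (fderiv ℂ (fun z => A.θ k z / A.θ i0 z) 0) 0 := by
    intro k
    exact ((A.entire k 0 (Set.mem_univ _)).div (A.entire i0 0 (Set.mem_univ _)) hi0).hasStrictFDerivAt
  have hXd : ∀ k u, fderiv ℂ (fun z => A.θ k z / A.θ i0 z) 0 u =
      (A.θ i0 0 * fderiv ℂ (A.θ k) 0 u - A.θ k 0 * fderiv ℂ (A.θ i0) 0 u) / A.θ i0 0 ^ 2 := by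
    intro k u
    have h1 := A.hasStrictDerivAt_coord u i0 k hi0
    have h2 : HasStrictFDerivAt (fun z => A.θ k z / A.θ i0 z)
        (fderiv ℂ (fun z => A.θ k z / A.θ i0 z) 0) ((0 : ℂ) • u) := by
      rw [zero_smul]; exact hX k
    have h3 : HasStrictDerivAt (fun s : ℂ => s • u) u 0 := by
      simpa using (hasStrictDerivAt_id (0 : ℂ)).smul_const u
    have h4 := h2.comp_hasStrictDerivAt (0 : ℂ) h3
    exact h4.hasDerivAt.unique h1.hasDerivAt
  set Di := fderiv ℂ (fun z => A.θ i z / A.θ i0 z) 0 with hDi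
  set Dj := fderiv ℂ (fun z => A.θ j z / A.θ i0 z) 0 with hDj
  have hdet : Di v * Dj d - Di d * Dj v ≠ 0 := by
    rw [hDi, hDj, hXd, hXd, hXd, hXd]
    rw [div_mul_div_comm, div_mul_div_comm, ← sub_div]
    exact div_ne_zero hij (mul_ne_zero (pow_ne_zero 2 hi0) (pow_ne_zero 2 hi0))
  have hψ0 : ψ 0 = 0 := map_zero ψ
  have hΦ : HasStrictFDerivAt (fun y : ℂ × ℂ => (A.θ i (ψ y) / A.θ i0 (ψ y),
      A.θ j (ψ y) / A.θ i0 (ψ y))) ((Di.comp ψ).prod (Dj.comp ψ)) 0 := by
    have h1 : HasStrictFDerivAt (fun z => A.θ i z / A.θ i0 z) Di (ψ 0) := by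
      rw [hψ0]; exact hX i
    have h2 : HasStrictFDerivAt (fun z => A.θ j z / A.θ i0 z) Dj (ψ 0) := by
      rw [hψ0]; exact hX j
    exact (h1.comp 0 ψ.hasStrictFDerivAt).prodMk (h2.comp 0 ψ.hasStrictFDerivAt)
  have hsurj : ((Di.comp ψ).prod (Dj.comp ψ)).range = ⊤ := by
    rw [LinearMap.range_eq_top]
    rintro ⟨a, b⟩
    refine ⟨((a * Dj d - b * Di d) / (Di v * Dj d - Di d * Dj v),
      (b * Di v - a * Dj v) / (Di v * Dj d - Di d * Dj v)), ?_⟩
    simp only [ContinuousLinearMap.coe_coe, ContinuousLinearMap.prod_apply,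
      ContinuousLinearMap.comp_apply, hψ_apply, map_add, map_smul, smul_eq_mul, Prod.mk.injEq]
    constructor
    · rw [div_mul_eq_mul_div, div_mul_eq_mul_div, ← add_div, div_eq_iff hdet]
      ring
    · rw [div_mul_eq_mul_div, div_mul_eq_mul_div, ← add_div, div_eq_iff hdet]
      ring
  have hmap := hΦ.map_nhds_eq_of_surj hsurj
  refine coeff_zero_of_eventually cf (A.θ i (ψ 0) / A.θ i0 (ψ 0), A.θ j (ψ 0) / A.θ i0 (ψ 0)) ?_
  rw [← hmap, Filter.eventually_map]
  have hne : ∀ᶠ y : ℂ × ℂ in 𝓝 0, A.θ i0 (ψ y) ≠ 0 := by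
    have h1 : ContinuousAt (fun y => A.θ i0 (ψ y)) (0 : ℂ × ℂ) := by
      have h2 : ContinuousAt (A.θ i0) (ψ 0) := ((A.entire i0) _ (Set.mem_univ _)).continuousAt
      exact h2.comp ψ.continuous.continuousAt
    exact h1.eventually_ne (by rw [hψ0]; exact hi0)
  filter_upwards [hne] with y hy
  have h1 := hGplane y.1 y.2
  rw [← hψ_apply, hGeq _ hy] at h1
  exact (mul_eq_zero.mp h1).resolve_left (pow_ne_zero _ hy)

/-- The periods of a nonzero integral cycle, along differentials of the first and second kind over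
the algebraic numbers, are never proportional to algebraic numbers. -/
theorem periods_not_proportional (l : Fin A.g → ℂ) (hl : l ∈ A.Λ) (hl0 : l ≠ 0) :
    ¬ ∃ (w : ℂ) (v : Fin A.g ⊕ Fin A.g → ℂ), (∀ i, IsAlgebraic ℚ (v i)) ∧
      A.period l = w • v := by
  rintro ⟨w, u, hu, hper⟩
  have hlv : l = w • (fun a => u (Sum.inl a)) := by
    funext a
    have := congrFun hper (Sum.inl a)
    simpa [period] using this
  have hη : ∀ a, A.eta l a = w * (fun a => u (Sum.inr a)) a := by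
    intro a
    have := congrFun hper (Sum.inr a)
    simpa [period] using this
  have hw : w ≠ 0 := by
    intro h
    apply hl0
    rw [hlv, h, zero_smul]
  have hv0 : (fun a => u (Sum.inl a)) ≠ 0 := by
    intro h
    apply hl0
    rw [hlv, h, smul_zero]
  by_cases h : ∃ s0 : ℂ, s0 • (fun a => u (Sum.inl a)) ∈ A.Λ ∧ ¬ ∃ r : ℝ, s0 = r * w
  · obtain ⟨s0, hs0, hs0w⟩ := h
    exact A.caseA hv0 hl hw hlv (fun a => hu _) (fun a => hu _) hη hs0 hs0w
  · push Not at h
    exact A.caseB hv0 hl hw hlv (fun a => hu _) (fun a => hu _) hη (fun s hs => h s hs)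

end AbVar

end Pool.Agent.GPC
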