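import Mathlib

/-!
Analytic model of (projectively embedded, polarised) abelian varieties over the field of algebraic
numbers, with their de Rham and Betti `H_1`.

Definitions only.
-/

open scoped ComplexConjugate

namespace Pool.Agent.GPC

/-- The Hermitian form `H(z,w) = ∑ z_a H_ab conj(w_b)` attached to a matrix. -/
noncomputable def hermForm {g : ℕ} (H : Matrix (Fin g) (Fin g) ℂ) (z w : Fin g → ℂ) : ℂ :=
  ∑ a, ∑ b, z a * H a b * conj (w b)

/-- The bilinear form `q(z,w) = ∑ z_a q_ab w_b` attached to a matrix. -/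
noncomputable def bilForm {g : ℕ} (q : Matrix (Fin g) (Fin g) ℂ) (z w : Fin g → ℂ) : ℂ :=
  ∑ a, ∑ b, z a * q a b * w b

/-- Partial derivative `∂f/∂z_a`. -/
noncomputable def pd {g : ℕ} (a : Fin g) (f : (Fin g → ℂ) → ℂ) (z : Fin g → ℂ) : ℂ :=
  fderiv ℂ f z (Pi.single a 1)

/-- `Q` is a quadratic form whose coefficients are algebraic numbers. -/
def IsAlgQuadratic {N : ℕ} (Q : MvPolynomial (Fin (N + 1)) ℂ) : Prop :=
  Q.IsHomogeneous 2 ∧ ∀ m, IsAlgebraic ℚ (Q.coeff m)

/-- `Λ` is a lattice in `ℂ^g`. -/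
structure IsLattice {g : ℕ} (Λ : Submodule ℤ (Fin g → ℂ)) : Prop where
  discrete : DiscreteTopology Λ
  spans : Submodule.span ℝ (Λ : Set (Fin g → ℂ)) = ⊤

/-- `(H, χ)` are the Appell-Humbert data of an ample line bundle on `ℂ^g / Λ`: a positive definite
Hermitian form with imaginary part integral on `Λ`, and a semicharacter. -/
structure IsAppellHumbert {g : ℕ} (Λ : Submodule ℤ (Fin g → ℂ)) (H : Matrix (Fin g) (Fin g) ℂ)
    (χ : (Fin g → ℂ) → ℂ) : Prop where
  herm : H.IsHermitian
  pos : ∀ z, z ≠ 0 → 0 < (hermForm H z z).re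
  integral : ∀ l ∈ Λ, ∀ m ∈ Λ, ∃ n : ℤ, (hermForm H l m).im = n
  norm : ∀ l ∈ Λ, ‖χ l‖ = 1
  add : ∀ l ∈ Λ, ∀ m ∈ Λ,
    χ (l + m) = χ l * χ m * Complex.exp (Real.pi * Complex.I * (hermForm H l m).im)

/-- `θ` is a theta function for the line bundle given by `(H, χ)`, normalised by the symmetric
bilinear form `q` (that is, `exp(-q(z,z)/2) θ(z)` is a canonical theta function). -/
structure IsTheta {g : ℕ} (Λ : Submodule ℤ (Fin g → ℂ)) (H : Matrix (Fin g) (Fin g) ℂ)
    (χ : (Fin g → ℂ) → ℂ) (q : Matrix (Fin g) (Fin g) ℂ) (θ : (Fin g → ℂ) → ℂ) : Prop where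
  entire : AnalyticOnNhd ℂ θ Set.univ
  quasi : ∀ l ∈ Λ, ∀ z, θ (z + l) = χ l *
    Complex.exp (Real.pi * hermForm H z l + Real.pi / 2 * hermForm H l l
      + bilForm q z l + 1 / 2 * bilForm q l l) * θ z

/-- `z ↦ [θ_0(z) : ... : θ_N(z)]` is an embedding of `ℂ^g / Λ`: it is well defined, injective and
an immersion. -/
structure IsProjEmbedding {g N : ℕ} (Λ : Submodule ℤ (Fin g → ℂ))
    (θ : Fin (N + 1) → (Fin g → ℂ) → ℂ) : Prop where
  base_free : ∀ z, ∃ i, θ i z ≠ 0
  separates : ∀ z w, (∀ i j, θ i z * θ j w = θ j z * θ i w) → z - w ∈ Λ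
  immersive : ∀ z v : Fin g → ℂ,
    (∀ i j, θ i z * ∑ a, v a * pd a (θ j) z = θ j z * ∑ a, v a * pd a (θ i) z) →
    v = 0

/-- The embedded variety, with its vector fields `∂/∂z_a`, is defined over the algebraic numbers
(`wronskian`, `origin`), and the second logarithmic derivatives of the `θ_i` are rational functions
over the algebraic numbers (`second`). -/
structure IsAlgebraicModel {g N : ℕ} (θ : Fin (N + 1) → (Fin g → ℂ) → ℂ) : Prop where
  wronskian : ∀ a i j, ∃ Q : MvPolynomial (Fin (N + 1)) ℂ, IsAlgQuadratic Q ∧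
    ∀ z, θ i z * pd a (θ j) z - θ j z * pd a (θ i) z = MvPolynomial.eval (fun k => θ k z) Q
  second : ∀ a b i, ∃ Q : MvPolynomial (Fin (N + 1)) ℂ, IsAlgQuadratic Q ∧
    ∀ z, θ i z * pd a (pd b (θ i)) z - pd a (θ i) z * pd b (θ i) z =
      MvPolynomial.eval (fun k => θ k z) Q
  origin : ∀ i j, θ i 0 ≠ 0 → IsAlgebraic ℚ (θ j 0 / θ i 0)

/-- An abelian variety over the field of algebraic numbers, together with a basis (over the
algebraic numbers) of its Lie algebra and a projective embedding by theta functions, all defined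
over the algebraic numbers.

The complex points are `ℂ^g / Λ`, the standard coordinates `z_a` of `ℂ^g` being dual to the chosen
basis of the Lie algebra; `(H, χ)` are the Appell-Humbert data of the ample line bundle which gives
the embedding `z ↦ [θ_0(z) : ... : θ_N(z)]`, and `q` is a symmetric bilinear form which normalises
the theta functions.  That the embedded variety with its invariant vector fields `∂/∂z_a` is
defined over the algebraic numbers is expressed by `algebraic`; the normalisation by `q` is such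
that also the second logarithmic derivatives of the `θ_i` are rational functions over the
algebraic numbers. -/
structure AbVar where
  /-- dimension -/
  g : ℕ
  /-- dimension of the projective space -/
  N : ℕ
  /-- period lattice `H_1(A(ℂ), ℤ)` -/
  Λ : Submodule ℤ (Fin g → ℂ)
  lattice : IsLattice Λ
  /-- the Hermitian form of the polarisation -/
  H : Matrix (Fin g) (Fin g) ℂ
  /-- the semicharacter -/
  χ : (Fin g → ℂ) → ℂ
  appellHumbert : IsAppellHumbert Λ H χ
  /-- the normalising symmetric bilinear form -/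
  q : Matrix (Fin g) (Fin g) ℂ
  q_symm : q.IsSymm
  /-- the theta functions -/
  θ : Fin (N + 1) → (Fin g → ℂ) → ℂ
  theta : ∀ i, IsTheta Λ H χ q (θ i)
  embedding : IsProjEmbedding Λ θ
  algebraic : IsAlgebraicModel θ

namespace AbVar

variable (A : AbVar)

/-- The quasi-period `η_a(l)` of `∂ log θ_i / ∂z_a` along `l ∈ Λ`:
`η_a(l) = π H(e_a, l) + q(e_a, l)`. -/
noncomputable def eta (l : Fin A.g → ℂ) (a : Fin A.g) : ℂ :=
  Real.pi * hermForm A.H (Pi.single a 1) l + bilForm A.q (Pi.single a 1) l

/-- The period vector of `l ∈ Λ = H_1(A(ℂ), ℤ)`: the integrals over `l` of the basis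
`dz_a, d(∂ log θ_0/∂z_a)` of `H^1_dR(A)` over the algebraic numbers (differentials of the first and
second kind). -/
noncomputable def period (l : Fin A.g → ℂ) : Fin A.g ⊕ Fin A.g → ℂ :=
  Sum.elim l (A.eta l)

end AbVar

end Pool.Agent.GPC
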